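import Pool.Agent.Lib.HLT.SingTwo
import Pool.Agent.Lib.HLT.Brun

/-!
# The partial singular series is close to the singular series, quantitative form

Quantified version of `HLT.sing_two` (read its proof).
PROOF SKETCH. `z = zA A x`. Upper bound of `SI`: `HLB.SI_le_SZ` gives
`SI t <= SZ z t * exp (2 r^3 log (x+1) / (z log z))` and `2 r^3 log(x+1) / (z log z) <= 8 r^3 L / L^A <= 1` for large `x`, so
`SI t <= SZ z t * (1 + 16 r^3 / L^(A-1))` (`exp u <= 1 + 2 u` for `0 <= u <= 1`). Lower bound: `HLT.SZ_le_SI`: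
`SZ z t (1 - r^2 / z) <= SI t`. Finally `SZ z t <= (DZ z)⁻¹^r <= L^r` (each factor `1 - nuI/p` lies in `[0, 1]`;
`HLT.DZ_inv_le`). So `|SZ - SI| <= (16 r^3 / L^(A-1) + 2 r^2 / L^A) L^r <= 1 / L^B` when `A >= B + r + 2`.
Take `A0 = B + r + 2`. The statement for general `Fintype` index is not needed.
-/

set_option autoImplicit false

open Finset Filter

namespace Pool.Agent.HLR

open Pool.Agent.HLB Pool.Agent.HLT

lemma SZ_le_DZ {r : ℕ} (z : ℕ) (t : Fin r → ℕ) : SZ z t ≤ (DZ z)⁻¹ ^ r := by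
  unfold SZ DZ
  rw [← Finset.prod_inv_distrib, ← Finset.prod_pow]
  apply Finset.prod_le_prod
  · intro p hp
    exact locI_nonneg t (Nat.mem_primesLE.1 hp).2
  · intro p hp
    have hpp := (Nat.mem_primesLE.1 hp).2
    have hp1 : (1:ℝ) < p := by exact_mod_cast hpp.one_lt
    unfold locI
    rw [Fintype.card_fin]
    have h1 : 0 ≤ (nuI t p : ℝ) / p := by positivity
    have h2 : 0 ≤ ((1 - 1 / (p : ℝ))⁻¹) ^ r := by
      apply pow_nonneg
      rw [inv_nonneg, sub_nonneg, div_le_one (by linarith)]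
      exact hp1.le
    nlinarith

theorem sing_quant (r B : ℕ) (hr : 1 ≤ r) : ∃ A0 : ℕ, ∀ A : ℕ, A0 ≤ A → ∀ᶠ x : ℕ in atTop,
    ∀ t : Fin r → ℕ, Function.Injective t → (∀ i, t i ≤ x) →
      |SZ (zA A x) t - SI t| ≤ 1 / Real.log x ^ B := by
  refine ⟨B + r + 2, fun A hA => ?_⟩
  have hlog : Tendsto (fun x : ℕ => Real.log x) atTop atTop :=
    Real.tendsto_log_atTop.comp tendsto_natCast_atTop_atTop
  filter_upwards [hlog.eventually_ge_atTop (16 * (r : ℝ) ^ 3 + 2 * (r : ℝ) ^ 2 + 2 * r + 8),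
    DZ_inv_le A, eventually_ge_atTop 2] with x hx3 hDZ hx4 t ht htx
  set L := Real.log (x : ℝ) with hL
  have hr1 : (1 : ℝ) ≤ r := by exact_mod_cast hr
  have hr0 : (0 : ℝ) ≤ r := by linarith
  have hr3 : (0 : ℝ) ≤ (r : ℝ) ^ 3 := by positivity
  have hr2 : (0 : ℝ) ≤ (r : ℝ) ^ 2 := by positivity
  have hL8 : 8 ≤ L := by linarith only [hx3, hr1, hr3, hr2]
  have hLpos : 0 < L := by linarith only [hx3, hr1, hr3, hr2]
  have hx0 : (0:ℝ) < x := by
    have : 0 < x := by omega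
    exact_mod_cast this
  -- size of `z`
  have hzl : L ^ A - 1 < (zA A x : ℝ) := by
    unfold zA
    exact Nat.sub_one_lt_floor _
  have hLA : L ≤ L ^ A := by
    calc L = L ^ 1 := (pow_one _).symm
      _ ≤ L ^ A := pow_le_pow_right₀ (by linarith only [hx3, hr1, hr3, hr2]) (by omega)
  have hz2 : L ^ A / 2 ≤ (zA A x : ℝ) := by linarith only [hx3, hr1, hr3, hr2, hzl, hLA]
  have hz3 : (3 : ℝ) ≤ (zA A x : ℝ) := by linarith only [hx3, hr1, hr3, hr2, hzl, hLA]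
  have hz3n : 3 ≤ zA A x := by exact_mod_cast hz3
  have hzr : (r : ℝ) ≤ (zA A x : ℝ) := by linarith only [hx3, hr1, hr3, hr2, hzl, hLA]
  have hzrn : r ≤ zA A x := by exact_mod_cast hzr
  have hzpos : (0:ℝ) < zA A x := by linarith only [hx3, hr1, hr3, hr2, hzl, hLA]
  have hlogz : 1 ≤ Real.log (zA A x : ℝ) := by
    rw [Real.le_log_iff_exp_le hzpos]
    have := Real.exp_one_lt_d9
    linarith only [hx3, hr1, hr3, hr2, hzl, hLA, this]
  have hLAe : L ^ (B + r + 2) ≤ L ^ A := pow_le_pow_right₀ (by linarith only [hx3, hr1, hr3, hr2]) hA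
  have hSZ := SZ_nonneg (zA A x) t
  have hSZL : SZ (zA A x) t ≤ L ^ r := by
    refine (SZ_le_DZ _ t).trans ?_
    apply pow_le_pow_left₀ _ hDZ
    exact inv_nonneg.mpr (DZ_pos _).le
  have hlog1 : Real.log ((x + 1 : ℕ) : ℝ) ≤ 2 * L := by
    have h2 : ((x + 1 : ℕ) : ℝ) ≤ (x:ℝ) ^ 2 := by
      have h3 : x + 1 ≤ x ^ 2 := by nlinarith only [hx4]
      exact_mod_cast h3
    calc Real.log ((x + 1 : ℕ) : ℝ) ≤ Real.log ((x:ℝ) ^ 2) :=
          Real.log_le_log (by (clear * - hx4; positivity)) h2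
      _ = 2 * L := by rw [Real.log_pow, hL]; norm_num
  have hP : 0 < L ^ (B + r + 2) := by (clear * - hL8; positivity)
  -- the exponent
  set u : ℝ := 8 * (r : ℝ) ^ 3 * L / L ^ (B + r + 2) with hu
  have hu0 : 0 ≤ u := by (clear * - hr hL8; positivity)
  have hexp : 2 * (r : ℝ) ^ 3 * Real.log ((x + 1 : ℕ) : ℝ) / ((zA A x : ℝ) * Real.log (zA A x : ℝ))
      ≤ u := by
    rw [hu, div_le_div_iff₀ (by (clear * - hz3n hlogz; positivity)) hP]
    have h1 : L ^ (B + r + 2) ≤ 2 * ((zA A x : ℝ) * Real.log (zA A x : ℝ)) := by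
      have : (zA A x : ℝ) * 1 ≤ (zA A x : ℝ) * Real.log (zA A x : ℝ) := by gcongr
      linarith only [hx3, hr1, hr3, hr2, hzl, hLA, hLAe, this]
    calc 2 * (r : ℝ) ^ 3 * Real.log ((x + 1 : ℕ) : ℝ) * L ^ (B + r + 2)
        ≤ 2 * (r : ℝ) ^ 3 * (2 * L) * (2 * ((zA A x : ℝ) * Real.log (zA A x : ℝ))) := by gcongr
      _ = 8 * (r : ℝ) ^ 3 * L * ((zA A x : ℝ) * Real.log (zA A x : ℝ)) := by ring
  have huB : u * L ^ r ≤ 8 * (r : ℝ) ^ 3 / L * (1 / L ^ B) := by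
    rw [hu]
    apply le_of_eq
    rw [show B + r + 2 = B + (r + (1 + 1)) by ring, pow_add, pow_add, pow_add, pow_one]
    field_simp
  have h8 : 8 * (r : ℝ) ^ 3 / L ≤ 1 / 2 := by
    rw [div_le_div_iff₀ hLpos (by norm_num)]
    linarith only [hx3, hr1, hr2]
  have hB0 : 0 ≤ 1 / L ^ B := by (clear * - hL8; positivity)
  have hu1 : u ≤ 1 := by
    rw [hu, div_le_one hP]
    have h1 : L * L ≤ L ^ (B + r + 2) := by
      calc L * L = L ^ 2 := (sq L).symm
        _ ≤ _ := pow_le_pow_right₀ (by linarith only [hx3, hr1, hr3, hr2]) (by omega)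
    nlinarith only [hx3, hr1, hr3, hP, h1]
  have hupper : SI t - SZ (zA A x) t ≤ 1 / L ^ B := by
    have h1 := SI_le_SZ t (by rw [Fintype.card_fin]; exact hr) ht x (zA A x) (by omega) htx
    rw [Fintype.card_fin] at h1
    have h2 : Real.exp (2 * (r : ℝ) ^ 3 * Real.log ((x + 1 : ℕ) : ℝ) /
        ((zA A x : ℝ) * Real.log (zA A x : ℝ))) ≤ 1 + 2 * u := by
      refine (Real.exp_le_exp.mpr hexp).trans ?_
      have := Real.abs_exp_sub_one_le (x := u) (by rw [abs_of_nonneg hu0]; exact hu1)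
      rw [abs_of_nonneg hu0] at this
      have := (abs_le.mp this).2
      linarith only [this]
    have h3 : SI t ≤ SZ (zA A x) t * (1 + 2 * u) := h1.trans (by gcongr)
    have h4 : SZ (zA A x) t * u ≤ L ^ r * u := by gcongr
    have h5 : 8 * (r : ℝ) ^ 3 / L * (1 / L ^ B) ≤ 1 / 2 * (1 / L ^ B) := by gcongr
    nlinarith only [huB, h3, h4, h5]
  have hlower : SZ (zA A x) t - SI t ≤ 1 / L ^ B := by
    have h1 := SZ_le_SI t ht (zA A x) (by omega) (by rw [Fintype.card_fin]; exact hzrn)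
    rw [Fintype.card_fin] at h1
    have h2 : (r : ℝ) ^ 2 / (zA A x : ℝ) ≤ 2 * (r : ℝ) ^ 2 / L ^ (B + r + 2) := by
      rw [div_le_div_iff₀ hzpos hP]
      nlinarith only [hx3, hr1, hr3, hzl, hLA, hLAe]
    have h3 : SZ (zA A x) t * ((r : ℝ) ^ 2 / (zA A x : ℝ)) ≤
        L ^ r * (2 * (r : ℝ) ^ 2 / L ^ (B + r + 2)) := by gcongr
    have h4 : L ^ r * (2 * (r : ℝ) ^ 2 / L ^ (B + r + 2)) = 2 * (r : ℝ) ^ 2 / L ^ 2 * (1 / L ^ B) := by
      rw [show B + r + 2 = B + (r + 2) by ring, pow_add, pow_add]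
      field_simp
    have h5 : 2 * (r : ℝ) ^ 2 / L ^ 2 ≤ 1 := by
      rw [div_le_one (by (clear * - hL8; positivity))]
      nlinarith only [hx3, hr1, hr3]
    have h6 : 2 * (r : ℝ) ^ 2 / L ^ 2 * (1 / L ^ B) ≤ 1 * (1 / L ^ B) := by gcongr
    nlinarith only [h1, h3, h4, h6]
  rw [abs_le]
  constructor <;> linarith only [hupper, hlower]

end Pool.Agent.HLR
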