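import Pool.Agent.Lib.HLT.Weights

/-!
# Rigidity of the Hardy-Littlewood formula: definitions

`Av x F b = (1/x) ∑_{1 ≤ n ≤ x} ∏_i F i (n + b i)`. For a set `B` of shifts and `w = (n, n')`,
`SS f g B w = ∑_{b ∈ B} f (n + b) g (n' + b)`; `Om x` is the set of the pairs `(n, n')` in `[1, x]^2`.
`PP`, `QQ`, `RR` are the means of the products of `lp`, of `nuz z`, and with first factor `lp` and the others `nuz z`.
-/

set_option autoImplicit false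

open Finset Filter

namespace Pool.Agent.HLR

open Pool.Agent.HLB Pool.Agent.HLT

/-- `(1/x) ∑_{1 ≤ n ≤ x} ∏_i F i (n + b i)`. -/
noncomputable def Av (x : ℕ) {r : ℕ} (F : Fin r → ℕ → ℝ) (b : Fin r → ℕ) : ℝ :=
  (∑ n ∈ Icc 1 x, ∏ i, F i (n + b i)) / x

/-- Mean of `∏ lp (n + b i)`. -/
noncomputable def PP (x : ℕ) {r : ℕ} (b : Fin r → ℕ) : ℝ := Av x (fun _ => lp) b

/-- Mean of `∏ nuz z (n + b i)`. -/
noncomputable def QQ (z x : ℕ) {r : ℕ} (b : Fin r → ℕ) : ℝ := Av x (fun _ => nuz z) b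

/-- Mean of `lp (n + b 0) ∏_{i ≥ 1} nuz z (n + b i)`. -/
noncomputable def RR (z x : ℕ) {r : ℕ} (b : Fin (r + 1) → ℕ) : ℝ :=
  Av x (Fin.cons lp (fun _ => nuz z)) b

/-- Pairs `(n, n')` with `1 ≤ n, n' ≤ x`. -/
def Om (x : ℕ) : Finset (ℕ × ℕ) := Icc 1 x ×ˢ Icc 1 x

/-- `∑_{b ∈ B} f (n + b) g (n' + b)` for `w = (n, n')`. -/
noncomputable def SS (f g : ℕ → ℝ) (B : Finset ℕ) (w : ℕ × ℕ) : ℝ :=
  ∑ b ∈ B, f (w.1 + b) * g (w.2 + b)

/-- Tuples of elements of `B`. -/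
def Tup (r : ℕ) (B : Finset ℕ) : Finset (Fin r → ℕ) := Fintype.piFinset (fun _ => B)

open scoped Classical in
/-- Injective tuples of elements of `B`. -/
noncomputable def Inj (r : ℕ) (B : Finset ℕ) : Finset (Fin r → ℕ) :=
  (Tup r B).filter Function.Injective

/-- Normalised number of prime tuples: `π(x; b) / (x / (log x)^r)`. -/
noncomputable def pin (x : ℕ) {r : ℕ} (b : Fin r → ℕ) : ℝ := (piT x b : ℝ) / (x / Real.log x ^ r)

lemma card_Om (x : ℕ) : (Om x).card = x ^ 2 := by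
  unfold Om
  rw [Finset.card_product, Nat.card_Icc, Nat.add_sub_cancel, sq]

lemma card_Tup (r : ℕ) (B : Finset ℕ) : (Tup r B).card = B.card ^ r := by
  unfold Tup
  rw [Fintype.card_piFinset, Finset.prod_const, Finset.card_univ, Fintype.card_fin]

lemma mem_Tup {r : ℕ} {B : Finset ℕ} {b : Fin r → ℕ} : b ∈ Tup r B ↔ ∀ i, b i ∈ B :=
  Fintype.mem_piFinset

lemma Av_nonneg (x : ℕ) {r : ℕ} (F : Fin r → ℕ → ℝ) (b : Fin r → ℕ) (hF : ∀ i n, 0 ≤ F i n) :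
    0 ≤ Av x F b :=
  div_nonneg (Finset.sum_nonneg fun _ _ => Finset.prod_nonneg fun i _ => hF i _) (Nat.cast_nonneg x)

lemma PP_nonneg (x : ℕ) {r : ℕ} (b : Fin r → ℕ) : 0 ≤ PP x b :=
  Av_nonneg x _ b fun _ n => lp_nonneg n

lemma QQ_nonneg (z x : ℕ) {r : ℕ} (b : Fin r → ℕ) : 0 ≤ QQ z x b :=
  Av_nonneg x _ b fun _ n => nuz_nonneg z n

lemma RR_nonneg (z x : ℕ) {r : ℕ} (b : Fin (r + 1) → ℕ) : 0 ≤ RR z x b := by
  refine Av_nonneg x _ b fun i n => ?_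
  refine Fin.cases ?_ ?_ i
  · exact lp_nonneg n
  · intro j
    exact nuz_nonneg z n

lemma SS_nonneg (f g : ℕ → ℝ) (hf : ∀ n, 0 ≤ f n) (hg : ∀ n, 0 ≤ g n) (B : Finset ℕ)
    (w : ℕ × ℕ) : 0 ≤ SS f g B w :=
  Finset.sum_nonneg fun _ _ => mul_nonneg (hf _) (hg _)

/-- The moment identity. -/
theorem moment (r x : ℕ) (hx : 1 ≤ x) (B : Fin r → Finset ℕ) (F G : Fin r → ℕ → ℝ) :
    ∑ w ∈ Om x, ∏ i, SS (F i) (G i) (B i) w =
      (x : ℝ) ^ 2 * ∑ b ∈ Fintype.piFinset B, Av x F b * Av x G b := by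
  have hx0 : (x : ℝ) ≠ 0 := by
    have : 0 < x := by omega
    exact_mod_cast this.ne'
  have h1 : ∀ w : ℕ × ℕ, ∏ i, SS (F i) (G i) (B i) w =
      ∑ b ∈ Fintype.piFinset B, (∏ i, F i (w.1 + b i)) * ∏ i, G i (w.2 + b i) := by
    intro w
    unfold SS
    rw [Finset.prod_univ_sum]
    refine Finset.sum_congr rfl fun b _ => ?_
    rw [Finset.prod_mul_distrib]
  rw [Finset.sum_congr rfl (fun w _ => h1 w), Finset.sum_comm, Finset.mul_sum]
  refine Finset.sum_congr rfl fun b _ => ?_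
  have h2 : (x : ℝ) ^ 2 * (Av x F b * Av x G b) =
      (∑ n ∈ Icc 1 x, ∏ i, F i (n + b i)) * ∑ n ∈ Icc 1 x, ∏ i, G i (n + b i) := by
    unfold Av
    field_simp
  rw [h2, Finset.sum_mul_sum]
  unfold Om
  rw [Finset.sum_product]

/-- Powers. -/
theorem moment_pow (r x : ℕ) (hx : 1 ≤ x) (B : Finset ℕ) (f g : ℕ → ℝ) :
    ∑ w ∈ Om x, SS f g B w ^ r =
      (x : ℝ) ^ 2 * ∑ b ∈ Tup r B, Av x (fun _ : Fin r => f) b * Av x (fun _ : Fin r => g) b := by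
  have h := moment r x hx (fun _ => B) (fun _ => f) (fun _ => g)
  simp only [Finset.prod_const, Finset.card_univ, Fintype.card_fin] at h
  exact h

/-- One factor with other functions. -/
theorem moment_mixed (r x : ℕ) (hx : 1 ≤ x) (B : Finset ℕ) (f₀ g₀ f g : ℕ → ℝ) :
    ∑ w ∈ Om x, SS f₀ g₀ B w * SS f g B w ^ r =
      (x : ℝ) ^ 2 * ∑ b ∈ Tup (r + 1) B, Av x (Fin.cons f₀ (fun _ : Fin r => f)) b *
        Av x (Fin.cons g₀ (fun _ : Fin r => g)) b := by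
  have h := moment (r + 1) x hx (fun _ => B) (Fin.cons f₀ (fun _ => f)) (Fin.cons g₀ (fun _ => g))
  simp only [Fin.prod_univ_succ, Fin.cons_zero, Fin.cons_succ, Finset.prod_const,
    Finset.card_univ, Fintype.card_fin] at h
  exact h

end Pool.Agent.HLR
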