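import Pool.Agent.Lib.HLT.Brun

/-!
# Choice of the parameter in Brun's sieve, with a bound for the exponential in `k`

Variant of `HLT.brun_param` (read its proof, copy and adapt it): there the second condition is
`(k + 2) ((1 + z)(1 + r))^(k+1) <= sqrt x`; here `(1 + z)^(k+1) <= x^(1/40)` and moreover `(1 + r)^(k+1) <= (log x)^C`,
which needs an upper bound for `k` of the form `C' loglog x` (the `k` chosen there, about
`e^2 r (sum 1/p) + B loglog x + ...` with `sum 1/p <= 9 (1 + log (1 + A loglog x))` (`sum_inv_le_zA`), has it: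
`k + 1 <= c loglog x` with an explicit `c`). PROOF SKETCH: `M := r * sum_{p <= z} 1/p`,
`M <= 9 r (1 + log (1 + A t))`, `t = loglog x`, so `M <= t` for large `x`. Take `k` even with
`k + 1 >= max (e^2 M) (B t)` minimal, e.g. `k = 2 ⌈(8 + B) t⌉`; by `pow_div_fact_le` (`M^n/n! <= (e M/n)^n <= e^(-n)` when
`n >= e^2 M`) the first quantity is `<= e^(-(k+1)) <= e^(-B t) = 1/(log x)^B`. Then
`(1 + r)^(k+1) = exp((k+1) log (1+r)) <= exp (C t) = (log x)^C`, and
`(1 + z)^(k+1) <= exp((k+1)(log 2 + A t)) <= exp(c' t^2) <= exp((log x)/40)` for large `x` (`ev_poly_exp`).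
-/

set_option autoImplicit false

open Finset Filter

namespace Pool.Agent.HLR

open Pool.Agent.HLB Pool.Agent.HLT

theorem brun_param2 (r A B : ℕ) : ∃ C : ℕ, ∀ᶠ x : ℕ in atTop, ∃ k : ℕ, Even k ∧
    (r * ∑ p ∈ Nat.primesLE (zA A x), 1 / (p : ℝ)) ^ (k + 1) / ((k + 1).factorial : ℝ) ≤
      1 / Real.log x ^ B ∧
    (1 + (zA A x : ℝ)) ^ (k + 1) ≤ (x : ℝ) ^ (1 / 40 : ℝ) ∧
    (1 + (r : ℝ)) ^ (k + 1) ≤ Real.log x ^ C := by
  refine ⟨(2 * B + 5) * r, ?_⟩
  have hr : (0 : ℝ) ≤ r := Nat.cast_nonneg r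
  have hA : (0 : ℝ) ≤ A := Nat.cast_nonneg A
  have hB : (0 : ℝ) ≤ B := Nat.cast_nonneg B
  have hc : 0 < 2 / (9 * (r + 1) * Real.exp 2) := by positivity
  have e1 := tendsto_loglog_nat.eventually (ev_log_small A _ hc)
  have e2 := tendsto_loglog_nat.eventually
    (ev_poly_exp (40 * ((2 * B + 5) * (1 + A))) 2)
  have e3 := tendsto_loglog_nat.eventually (eventually_ge_atTop (1 : ℝ))
  have e4 := tendsto_log_nat.eventually (eventually_ge_atTop (1 : ℝ))
  filter_upwards [e1, e2, e3, e4, eventually_ge_atTop 1] with x h1 h2 h3 h4 hx1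
  have hx0 : (0 : ℝ) < x := by exact_mod_cast hx1
  set l := Real.log (x : ℝ) with hl
  set t := Real.log l with ht
  have hlpos : 0 < l := by linarith
  have hel : Real.exp t = l := Real.exp_log hlpos
  set m := ⌈((B : ℝ) + 1) * t⌉₊ with hm
  have hm1 : ((B : ℝ) + 1) * t ≤ m := Nat.le_ceil _
  have hm2 : (m : ℝ) < ((B : ℝ) + 1) * t + 1 := Nat.ceil_lt_add_one (by positivity)
  have h5 : 2 * (m : ℝ) + 1 ≤ (2 * B + 5) * t := by nlinarith
  refine ⟨2 * m, even_two_mul m, ?_, ?_, ?_⟩
  · have hsum := sum_inv_le_zA A x h4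
    have hsum0 : 0 ≤ ∑ p ∈ Nat.primesLE (zA A x), 1 / (p : ℝ) :=
      Finset.sum_nonneg fun p _ => by positivity
    have hM2 : (r * ∑ p ∈ Nat.primesLE (zA A x), 1 / (p : ℝ)) * Real.exp 2 ≤
        ((2 * m + 1 : ℕ) : ℝ) := by
      calc (r * ∑ p ∈ Nat.primesLE (zA A x), 1 / (p : ℝ)) * Real.exp 2
          ≤ r * (9 * (2 / (9 * (r + 1) * Real.exp 2) * t)) * Real.exp 2 := by
            gcongr
            calc _ ≤ 9 * (1 + Real.log (1 + A * t)) := hsum
              _ ≤ _ := by gcongr
        _ = r / (r + 1) * (2 * t) := by field_simp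
        _ ≤ 1 * (2 * t) := by
            gcongr
            rw [div_le_one (by positivity)]
            linarith
        _ ≤ _ := by
            push_cast
            nlinarith
    have := pow_div_fact_le _ (2 * m + 1) (by positivity) (by omega) hM2
    refine this.trans ?_
    rw [one_div, ← hel, ← Real.exp_nat_mul, ← Real.exp_neg]
    apply Real.exp_le_exp.mpr
    push_cast
    nlinarith
  · have hz : (zA A x : ℝ) ≤ l ^ A := Nat.floor_le (by positivity)
    have hlA : 1 ≤ l ^ A := one_le_pow₀ h4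
    have hz1 : (1 + (zA A x : ℝ)) ≤ Real.exp (1 + A * t) := by
      rw [Real.exp_add, mul_comm (A : ℝ) t, mul_comm t (A : ℝ), Real.exp_nat_mul, hel]
      have h6 : (2 : ℝ) ≤ Real.exp 1 := by
        have := Real.add_one_le_exp (1 : ℝ)
        linarith
      nlinarith
    have hxe : (x : ℝ) ^ (1 / 40 : ℝ) = Real.exp (l / 40) := by
      rw [Real.rpow_def_of_pos hx0, ← hl]
      congr 1
      ring
    rw [hxe]
    calc (1 + (zA A x : ℝ)) ^ (2 * m + 1) ≤ Real.exp (1 + A * t) ^ (2 * m + 1) := by gcongr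
      _ = Real.exp ((2 * m + 1) * (1 + A * t)) := by
          rw [← Real.exp_nat_mul]
          congr 1
          push_cast
          ring
      _ ≤ Real.exp (l / 40) := by
          apply Real.exp_le_exp.mpr
          have h6 : 1 + A * t ≤ (1 + A) * t := by nlinarith
          have h7 : (2 * (m : ℝ) + 1) * (1 + A * t) ≤ ((2 * B + 5) * t) * ((1 + A) * t) := by
            gcongr
          rw [hel] at h2
          nlinarith
  · have h6 : 1 + (r : ℝ) ≤ Real.exp r := by
      have := Real.add_one_le_exp (r : ℝ)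
      linarith
    calc (1 + (r : ℝ)) ^ (2 * m + 1) ≤ Real.exp r ^ (2 * m + 1) := by gcongr
      _ = Real.exp ((2 * m + 1) * r) := by
          rw [← Real.exp_nat_mul]
          congr 1
          push_cast
          ring
      _ ≤ Real.exp ((((2 * B + 5) * r : ℕ) : ℝ) * t) := by
          apply Real.exp_le_exp.mpr
          push_cast
          nlinarith
      _ = l ^ ((2 * B + 5) * r) := by
          rw [Real.exp_nat_mul, hel]

end Pool.Agent.HLR
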