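import Pool.Agent.Lib.HLB.PrimeSieve
import Pool.Agent.Lib.HLT.Defs

/-!
# Brun's sieve for the primes of an interval, deterministic form

`E d` bounds the error of the prime number theorem in progressions modulo `d` for all classes and
all `y ≤ c + x`.
-/

set_option autoImplicit false

open Finset Filter

namespace Pool.Agent.HLR

open Pool.Agent.HLB Pool.Agent.HLT

/-- The distribution in residue classes, with the number of classes. -/
lemma Th_card (F : ℕ → Finset ℕ) (x : ℕ) {y : ℝ} (hy0 : 0 ≤ y) (hyx : y ≤ x) (s : Finset ℕ)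
    (hs : ∀ p ∈ s, p.Prime) (hF : ∀ p ∈ s, F p ⊆ Ico 1 p) (Err : ℝ)
    (hErr : ∀ b : ℕ, Nat.Coprime b (∏ p ∈ s, p) →
      |(thetaAP x (∏ p ∈ s, p) b - thetaAP y (∏ p ∈ s, p) b) -
        (x - y) / (Nat.totient (∏ p ∈ s, p) : ℝ)| ≤ Err) :
    |Th ((Icc 1 x).filter (fun n : ℕ => y < n ∧ n.Prime)) F s -
      (x - y) * ∏ q ∈ s, (((F q).card : ℝ) / ((q : ℝ) - 1))| ≤
        (∏ p ∈ s, ((F p).card : ℝ)) * Err := by
  classical
  set d := ∏ p ∈ s, p with hd
  have hFr : ∀ p ∈ s, F p ⊆ range p := fun p hp => (hF p hp).trans (by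
    intro a ha
    rw [Finset.mem_Ico] at ha
    exact Finset.mem_range.mpr ha.2)
  have hF0 : ∀ p ∈ s, 0 ∉ F p := fun p hp h0 => by
    have := Finset.mem_Ico.mp (hF p hp h0)
    omega
  set Bs := (range d).filter (fun b => ∀ q ∈ s, b % q ∈ F q) with hBs
  have h1 : Th ((Icc 1 x).filter (fun n : ℕ => y < n ∧ n.Prime)) F s =
      ∑ b ∈ Bs, (thetaAP x d b - thetaAP y d b) := by
    unfold Th
    rw [hits_eq_sum_classes s hs F]
    apply Finset.sum_congr rfl
    intro b _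
    exact sum_class_theta x hy0 hyx d b
  have hcard : (Bs.card : ℝ) = ∏ q ∈ s, ((F q).card : ℝ) := card_hits s hs F hFr
  have htot : (Nat.totient d : ℝ) = ∏ q ∈ s, ((q : ℝ) - 1) := by
    have h4 : Nat.totient d = ∏ q ∈ s, (q - 1) := by
      rw [hd]
      clear_value d
      clear hcard h1 hBs Bs hErr hd
      induction s using Finset.induction_on with
      | empty => simp
      | insert a s ha ih =>
        have hap := hs a (Finset.mem_insert_self _ _)
        rw [Finset.prod_insert ha, Finset.prod_insert ha, Nat.totient_mul, Nat.totient_prime hap,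
          ih (fun p hp => hs p (Finset.mem_insert_of_mem hp))
            (fun p hp => hF p (Finset.mem_insert_of_mem hp))
            (fun p hp => hFr p (Finset.mem_insert_of_mem hp))
            (fun p hp => hF0 p (Finset.mem_insert_of_mem hp))]
        apply Nat.Coprime.prod_right
        intro p hp
        rw [Nat.coprime_primes hap (hs p (Finset.mem_insert_of_mem hp))]
        rintro rfl
        exact ha hp
    rw [h4]
    push_cast
    apply Finset.prod_congr rfl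
    intro q hq
    rw [Nat.cast_sub (hs q hq).one_lt.le]
    simp
  have h5 : (x - y) * ∏ q ∈ s, (((F q).card : ℝ) / ((q : ℝ) - 1)) =
      ∑ _b ∈ Bs, (x - y) / (Nat.totient d : ℝ) := by
    rw [Finset.sum_const, nsmul_eq_mul, hcard, htot, Finset.prod_div_distrib]
    ring
  rw [h1, h5, ← Finset.sum_sub_distrib]
  refine (Finset.abs_sum_le_sum_abs _ _).trans ?_
  calc ∑ b ∈ Bs, |thetaAP x d b - thetaAP y d b - (x - y) / (Nat.totient d : ℝ)| ≤
      ∑ _b ∈ Bs, Err := by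
        apply Finset.sum_le_sum
        intro b hb
        apply hErr
        exact coprime_of_hits s hs F hF0 b (Finset.mem_filter.mp hb).2
    _ = Bs.card * Err := by rw [Finset.sum_const, nsmul_eq_mul]
    _ = _ := by rw [hcard]

lemma thetaAP_zero (d b : ℕ) : thetaAP 0 d b = 0 := by
  unfold thetaAP
  simp

/-- sums over sets of primes as sums over integers -/
lemma sum_sets_le (P : Finset ℕ) (hP : ∀ p ∈ P, p.Prime) (z k : ℕ) (hz : ∀ p ∈ P, p ≤ z)
    (E : ℕ → ℝ) (hE0 : ∀ q, 0 ≤ E q) :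
    ∑ s ∈ P.powerset.filter (fun s => s.card ≤ k), E (∏ p ∈ s, p) ≤
      ∑ d ∈ Icc 1 ((1 + z) ^ k), E d := by
  classical
  have hinj : Set.InjOn (fun s : Finset ℕ => ∏ p ∈ s, p)
      (P.powerset.filter (fun s => s.card ≤ k) : Finset (Finset ℕ)) := by
    intro s hs t ht h
    rw [Finset.mem_coe, Finset.mem_filter, Finset.mem_powerset] at hs ht
    have h1 := Nat.primeFactors_prod (fun p hp => hP p (hs.1 hp))
    have h2 := Nat.primeFactors_prod (fun p hp => hP p (ht.1 hp))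
    have h' : ∏ p ∈ s, p = ∏ p ∈ t, p := h
    rw [← h1, ← h2, h']
  rw [← Finset.sum_image (f := fun d => E d) hinj]
  apply Finset.sum_le_sum_of_subset_of_nonneg
  · intro d hd
    rw [Finset.mem_image] at hd
    obtain ⟨s, hs, rfl⟩ := hd
    rw [Finset.mem_filter, Finset.mem_powerset] at hs
    rw [Finset.mem_Icc]
    constructor
    · exact Finset.prod_pos fun p hp => (hP p (hs.1 hp)).pos
    · calc ∏ p ∈ s, p ≤ ∏ _p ∈ s, (1 + z) := Finset.prod_le_prod (fun _ _ => Nat.zero_le _)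
            fun p hp => (hz p (hs.1 hp)).trans (by omega)
        _ = (1 + z) ^ s.card := by rw [Finset.prod_const]
        _ ≤ (1 + z) ^ k := Nat.pow_le_pow_right (by omega) hs.2
  · intro d _ _
    exact hE0 d

theorem theta_det (r z k x c : ℕ) (hk : Even k) (F : ℕ → Finset ℕ)
    (hF : ∀ p ∈ Nat.primesLE z, F p ⊆ Ico 1 p ∧ (F p).card ≤ r) (E : ℕ → ℝ) (hE0 : ∀ q, 0 ≤ E q)
    (hE : ∀ d ∈ Icc 1 ((1 + z) ^ (k + 1)), ∀ a : ℕ, a.Coprime d → ∀ y : ℝ, 1 ≤ y → y ≤ c + x →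
      |thetaAP y d a - y / (d.totient : ℝ)| ≤ E d) :
    |∑ m ∈ (Ioc c (c + x)).filter (fun m => m.Prime ∧ ∀ p ∈ Nat.primesLE z, m % p ∉ F p),
        Real.log m - x * ∏ p ∈ Nat.primesLE z, (1 - ((F p).card : ℝ) / ((p : ℝ) - 1))| ≤
      2 * x * ((2 * r * ∑ p ∈ Nat.primesLE z, 1 / (p : ℝ)) ^ (k + 1) / ((k + 1).factorial : ℝ)) +
        2 * (1 + (r : ℝ)) ^ (k + 1) * ∑ d ∈ Icc 1 ((1 + z) ^ (k + 1)), E d := by
  classical
  set P := Nat.primesLE z with hPdef
  have hP : ∀ p ∈ P, p.Prime := fun p hp => (Nat.mem_primesLE.1 hp).2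
  have hPz : ∀ p ∈ P, p ≤ z := fun p hp => (Nat.mem_primesLE.1 hp).1
  have hFs : ∀ p ∈ P, F p ⊆ Ico 1 p := fun p hp => (hF p hp).1
  set g : ℕ → ℝ := fun p => ((F p).card : ℝ) / ((p : ℝ) - 1) with hg
  have hp2 : ∀ p ∈ P, (2 : ℝ) ≤ p := fun p hp => by exact_mod_cast (hP p hp).two_le
  have hg01 : ∀ p ∈ P, 0 ≤ g p ∧ g p ≤ 1 := by
    intro p hp
    have h2 := hp2 p hp
    have hp1 : (0 : ℝ) < (p : ℝ) - 1 := by linarith
    refine ⟨div_nonneg (Nat.cast_nonneg _) hp1.le, ?_⟩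
    simp only [hg]
    rw [div_le_one hp1]
    have h1 := Finset.card_le_card (hFs p hp)
    rw [Nat.card_Ico] at h1
    have h2 : ((F p).card : ℝ) ≤ ((p - 1 : ℕ) : ℝ) := by exact_mod_cast h1
    rw [Nat.cast_sub (hP p hp).one_lt.le] at h2
    simpa using h2
  set T : Finset ℕ := (Icc 1 (c + x)).filter (fun n : ℕ => ((c : ℕ) : ℝ) < n ∧ n.Prime) with hT
  set lg : ℕ → ℝ := fun m => Real.log m with hlg
  have hlg0 : ∀ m, 0 ≤ lg m := fun m => Real.log_natCast_nonneg m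
  have hTset : (Ioc c (c + x)).filter (fun m => m.Prime ∧ ∀ p ∈ P, m % p ∉ F p) =
      T.filter (fun m => ∀ p ∈ P, m % p ∉ F p) := by
    ext m
    simp only [hT, Finset.mem_filter, Finset.mem_Ioc, Finset.mem_Icc, Nat.cast_lt]
    constructor
    · rintro ⟨⟨h1, h2⟩, h3, h4⟩
      exact ⟨⟨⟨by omega, h2⟩, h1, h3⟩, h4⟩
    · rintro ⟨⟨⟨h1, h2⟩, h3, h4⟩, h5⟩
      exact ⟨⟨h3, h2⟩, h4, h5⟩
  rw [hTset]
  have hN : ∑ m ∈ T.filter (fun m => ∀ p ∈ P, m % p ∉ F p), Real.log m =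
      ∑ m ∈ T, (∏ p ∈ P, (1 - hit F m p)) * lg m := by
    rw [Finset.sum_filter]
    apply Finset.sum_congr rfl
    intro m _
    rw [prod_one_sub_hit]
    split_ifs
    · rw [one_mul]
    · rw [zero_mul]
  have hThs : ∀ s, Th T F s = ∑ m ∈ T, (∏ q ∈ s, hit F m q) * lg m := by
    intro s
    unfold Th
    rw [Finset.sum_filter]
    apply Finset.sum_congr rfl
    intro n _
    rw [prod_hit]
    split_ifs
    · rw [one_mul]
    · rw [zero_mul]
  have hh01 : ∀ n : ℕ, ∀ p ∈ P, 0 ≤ hit F n p ∧ hit F n p ≤ 1 := fun n p _ => hit_mem F n p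
  -- the error of one set
  have hone : ∀ s ∈ P.powerset.filter (fun s => s.card ≤ k + 1),
      |Th T F s - x * ∏ q ∈ s, g q| ≤ (1 + (r : ℝ)) ^ (k + 1) * (2 * E (∏ p ∈ s, p)) := by
    intro s hs
    rw [Finset.mem_filter, Finset.mem_powerset] at hs
    have hd1 : 1 ≤ ∏ p ∈ s, p := Finset.prod_pos fun p hp => (hP p (hs.1 hp)).pos
    have hd2 : ∏ p ∈ s, p ≤ (1 + z) ^ (k + 1) := by
      calc ∏ p ∈ s, p ≤ ∏ _p ∈ s, (1 + z) := Finset.prod_le_prod (fun _ _ => Nat.zero_le _)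
            fun p hp => (hPz p (hs.1 hp)).trans (by omega)
        _ = (1 + z) ^ s.card := by rw [Finset.prod_const]
        _ ≤ (1 + z) ^ (k + 1) := Nat.pow_le_pow_right (by omega) hs.2
    have hEd := hE (∏ p ∈ s, p) (Finset.mem_Icc.2 ⟨hd1, hd2⟩)
    have hval : ∀ b : ℕ, Nat.Coprime b (∏ p ∈ s, p) → ∀ w : ℕ, w ≤ c + x →
        |thetaAP (w : ℝ) (∏ p ∈ s, p) b - (w : ℝ) / (Nat.totient (∏ p ∈ s, p) : ℝ)| ≤
          E (∏ p ∈ s, p) := by
      intro b hb w hw
      rcases Nat.eq_zero_or_pos w with h0 | h0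
      · subst h0
        rw [Nat.cast_zero, thetaAP_zero, zero_div, sub_zero, abs_zero]
        exact hE0 _
      · apply hEd b hb
        · exact_mod_cast h0
        · exact_mod_cast hw
    have key := Th_card F (c + x) (y := ((c : ℕ) : ℝ)) (Nat.cast_nonneg _)
      (by exact_mod_cast Nat.le_add_right c x) s (fun p hp => hP p (hs.1 hp))
      (fun p hp => hFs p (hs.1 hp)) (2 * E (∏ p ∈ s, p)) (by
      intro b hb
      have h1 := hval b hb (c + x) le_rfl
      have h2 := hval b hb c (Nat.le_add_right c x)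
      have h6 : thetaAP ((c + x : ℕ) : ℝ) (∏ p ∈ s, p) b - thetaAP (c : ℝ) (∏ p ∈ s, p) b -
          (((c + x : ℕ) : ℝ) - c) / (Nat.totient (∏ p ∈ s, p) : ℝ) =
          (thetaAP ((c + x : ℕ) : ℝ) (∏ p ∈ s, p) b -
            ((c + x : ℕ) : ℝ) / (Nat.totient (∏ p ∈ s, p) : ℝ)) -
            (thetaAP (c : ℝ) (∏ p ∈ s, p) b - c / (Nat.totient (∏ p ∈ s, p) : ℝ)) := by ring
      rw [h6]
      refine (abs_sub _ _).trans ?_
      linarith)
    have hcx : ((c + x : ℕ) : ℝ) - ((c : ℕ) : ℝ) = x := by push_cast; ring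
    rw [hcx] at key
    refine key.trans (mul_le_mul_of_nonneg_right ?_ (mul_nonneg (by norm_num) (hE0 _)))
    calc ∏ p ∈ s, ((F p).card : ℝ) ≤ ∏ _p ∈ s, (1 + (r : ℝ)) := by
          apply Finset.prod_le_prod (fun _ _ => Nat.cast_nonneg _)
          intro p hp
          have : ((F p).card : ℝ) ≤ r := by exact_mod_cast (hF p (hs.1 hp)).2
          linarith
      _ = (1 + (r : ℝ)) ^ s.card := by rw [Finset.prod_const]
      _ ≤ (1 + (r : ℝ)) ^ (k + 1) := by
          apply pow_le_pow_right₀ _ hs.2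
          have : (0 : ℝ) ≤ r := Nat.cast_nonneg _
          linarith
  -- the truncated sums
  have hTT : ∑ m ∈ T, TT P (hit F m) k * lg m =
      ∑ s ∈ P.powerset.filter (fun s => s.card ≤ k), (-1 : ℝ) ^ s.card * Th T F s := by
    simp only [TT, hThs, Finset.sum_mul, Finset.mul_sum]
    rw [Finset.sum_comm]
    apply Finset.sum_congr rfl
    intro s _
    apply Finset.sum_congr rfl
    intro m _
    ring
  have hEE : ∑ m ∈ T, EE P (hit F m) (k + 1) * lg m =
      ∑ s ∈ P.powerset.filter (fun s => s.card = k + 1), Th T F s := by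
    simp only [EE, hThs, Finset.sum_mul]
    rw [Finset.sum_comm]
  have hle : ∀ s ∈ P.powerset.filter (fun s => s.card ≤ k),
      s ∈ P.powerset.filter (fun s => s.card ≤ k + 1) := by
    intro s hs
    rw [Finset.mem_filter] at hs ⊢
    exact ⟨hs.1, by omega⟩
  have hle' : ∀ s ∈ P.powerset.filter (fun s => s.card = k + 1),
      s ∈ P.powerset.filter (fun s => s.card ≤ k + 1) := by
    intro s hs
    rw [Finset.mem_filter] at hs ⊢
    exact ⟨hs.1, by omega⟩
  have hT1 : |∑ m ∈ T, TT P (hit F m) k * lg m - x * TT P g k| ≤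
      ∑ s ∈ P.powerset.filter (fun s => s.card ≤ k),
        (1 + (r : ℝ)) ^ (k + 1) * (2 * E (∏ p ∈ s, p)) := by
    rw [hTT]
    unfold TT
    rw [Finset.mul_sum, ← Finset.sum_sub_distrib]
    refine (Finset.abs_sum_le_sum_abs _ _).trans (Finset.sum_le_sum fun s hs => ?_)
    have e : (-1 : ℝ) ^ s.card * Th T F s - x * ((-1 : ℝ) ^ s.card * ∏ p ∈ s, g p) =
        (-1 : ℝ) ^ s.card * (Th T F s - x * ∏ p ∈ s, g p) := by ring
    rw [e, abs_mul, abs_pow, abs_neg, abs_one, one_pow, one_mul]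
    exact hone s (hle s hs)
  have hE1 : |∑ m ∈ T, EE P (hit F m) (k + 1) * lg m - x * EE P g (k + 1)| ≤
      ∑ s ∈ P.powerset.filter (fun s => s.card = k + 1),
        (1 + (r : ℝ)) ^ (k + 1) * (2 * E (∏ p ∈ s, p)) := by
    rw [hEE]
    unfold EE
    rw [Finset.mul_sum, ← Finset.sum_sub_distrib]
    refine (Finset.abs_sum_le_sum_abs _ _).trans (Finset.sum_le_sum fun s hs => ?_)
    exact hone s (hle' s hs)
  have hsplit : ∑ s ∈ P.powerset.filter (fun s => s.card ≤ k),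
        (1 + (r : ℝ)) ^ (k + 1) * (2 * E (∏ p ∈ s, p)) +
      ∑ s ∈ P.powerset.filter (fun s => s.card = k + 1),
        (1 + (r : ℝ)) ^ (k + 1) * (2 * E (∏ p ∈ s, p)) =
      ∑ s ∈ P.powerset.filter (fun s => s.card ≤ k + 1),
        (1 + (r : ℝ)) ^ (k + 1) * (2 * E (∏ p ∈ s, p)) := by
    rw [← Finset.sum_union]
    · refine Finset.sum_congr ?_ fun _ _ => rfl
      ext s
      simp only [Finset.mem_union, Finset.mem_filter, Finset.mem_powerset]
      constructor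
      · rintro (⟨h1, h2⟩ | ⟨h1, h2⟩)
        · exact ⟨h1, by omega⟩
        · exact ⟨h1, by omega⟩
      · rintro ⟨h1, h2⟩
        by_cases h : s.card ≤ k
        · exact Or.inl ⟨h1, h⟩
        · exact Or.inr ⟨h1, by omega⟩
    · rw [Finset.disjoint_left]
      intro s hs hs'
      rw [Finset.mem_filter] at hs hs'
      omega
  have herr : ∑ s ∈ P.powerset.filter (fun s => s.card ≤ k + 1),
        (1 + (r : ℝ)) ^ (k + 1) * (2 * E (∏ p ∈ s, p)) ≤
      2 * (1 + (r : ℝ)) ^ (k + 1) * ∑ d ∈ Icc 1 ((1 + z) ^ (k + 1)), E d := by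
    have h1 := sum_sets_le P hP z (k + 1) hPz E hE0
    have h2 : ∑ s ∈ P.powerset.filter (fun s => s.card ≤ k + 1),
        (1 + (r : ℝ)) ^ (k + 1) * (2 * E (∏ p ∈ s, p)) =
        2 * (1 + (r : ℝ)) ^ (k + 1) *
          ∑ s ∈ P.powerset.filter (fun s => s.card ≤ k + 1), E (∏ p ∈ s, p) := by
      rw [Finset.mul_sum]
      apply Finset.sum_congr rfl
      intro s _
      ring
    rw [h2]
    exact mul_le_mul_of_nonneg_left h1 (by positivity)
  have hup : ∑ m ∈ T, (∏ p ∈ P, (1 - hit F m p)) * lg m ≤ ∑ m ∈ T, TT P (hit F m) k * lg m :=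
    Finset.sum_le_sum fun n _ =>
      mul_le_mul_of_nonneg_right (prod_le_TT P (hit F n) (hh01 n) k hk) (hlg0 n)
  have hlo : ∑ m ∈ T, TT P (hit F m) k * lg m - ∑ m ∈ T, EE P (hit F m) (k + 1) * lg m ≤
      ∑ m ∈ T, (∏ p ∈ P, (1 - hit F m p)) * lg m := by
    rw [← Finset.sum_sub_distrib]
    refine Finset.sum_le_sum fun n _ => ?_
    rw [← sub_mul]
    exact mul_le_mul_of_nonneg_right (TT_sub_le_prod P (hit F n) (hh01 n) k hk) (hlg0 n)
  have hgu := prod_le_TT P g hg01 k hk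
  have hgl := TT_sub_le_prod P g hg01 k hk
  have hEg : EE P g (k + 1) ≤
      (2 * r * ∑ p ∈ P, 1 / (p : ℝ)) ^ (k + 1) / ((k + 1).factorial : ℝ) := by
    refine (EE_le P g (fun p hp => (hg01 p hp).1) (k + 1)).trans ?_
    have h0 : 0 ≤ ∑ p ∈ P, g p := Finset.sum_nonneg fun p hp => (hg01 p hp).1
    have h1 : ∑ p ∈ P, g p ≤ 2 * r * ∑ p ∈ P, 1 / (p : ℝ) := by
      rw [Finset.mul_sum]
      refine Finset.sum_le_sum fun p hp => ?_
      have h2 := hp2 p hp
      have hp1 : (0 : ℝ) < (p : ℝ) - 1 := by linarith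
      have hp0 : (0 : ℝ) < p := by linarith
      simp only [hg]
      rw [mul_one_div, div_le_div_iff₀ hp1 hp0]
      have h3 : ((F p).card : ℝ) ≤ r := by exact_mod_cast (hF p hp).2
      have h4 : (0 : ℝ) ≤ r := Nat.cast_nonneg _
      calc ((F p).card : ℝ) * p ≤ r * p := mul_le_mul_of_nonneg_right h3 hp0.le
        _ ≤ 2 * r * ((p : ℝ) - 1) := by nlinarith
    exact div_le_div_of_nonneg_right (pow_le_pow_left₀ h0 h1 _) (by positivity)
  have hx0 : (0 : ℝ) ≤ x := Nat.cast_nonneg _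
  have hEg0 : 0 ≤ EE P g (k + 1) := EE_nonneg P g (fun p hp => (hg01 p hp).1) _
  have hyE : (x : ℝ) * EE P g (k + 1) ≤
      x * ((2 * r * ∑ p ∈ P, 1 / (p : ℝ)) ^ (k + 1) / ((k + 1).factorial : ℝ)) :=
    mul_le_mul_of_nonneg_left hEg hx0
  have hyE0 : 0 ≤ (x : ℝ) * EE P g (k + 1) := mul_nonneg hx0 hEg0
  have hgu' := mul_le_mul_of_nonneg_left hgu hx0
  have hgl' := mul_le_mul_of_nonneg_left hgl hx0
  rw [mul_sub] at hgl'
  have hM0 : 0 ≤ ∑ s ∈ P.powerset.filter (fun s => s.card = k + 1),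
      (1 + (r : ℝ)) ^ (k + 1) * (2 * E (∏ p ∈ s, p)) :=
    Finset.sum_nonneg fun s _ => mul_nonneg (by positivity) (mul_nonneg (by norm_num) (hE0 _))
  rw [abs_le] at hT1 hE1
  rw [hN]
  set A := (2 * r * ∑ p ∈ P, 1 / (p : ℝ)) ^ (k + 1) / ((k + 1).factorial : ℝ) with hA
  set B := 2 * (1 + (r : ℝ)) ^ (k + 1) * ∑ d ∈ Icc 1 ((1 + z) ^ (k + 1)), E d with hB
  rw [abs_le]
  constructor
  · linarith [hT1.1, hT1.2, hE1.1, hE1.2]
  · linarith [hT1.1, hT1.2, hE1.1, hE1.2]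

end Pool.Agent.HLR
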