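import Pool.Agent.Lib.BV.Main
import Pool.Agent.Lib.HLR.Param
import Pool.Agent.Lib.HLR.ThetaSieve
import Pool.Agent.Lib.HLT.Correl

/-!
# Correlation of the primes with the sieve model, all shifts, logarithmic saving
-/

set_option autoImplicit false

open Finset Filter

namespace Pool.Agent.HLR

open Pool.Agent.HLB Pool.Agent.HLT

lemma mem_FF_iff {ι : Type} [Fintype ι] (t : ι → ℕ) (i0 : ι) (q m : ℕ) (hq : q.Prime) :
    m % q ∈ FF t i0 q ↔ (m : ZMod q) ≠ 0 ∧ ∃ i, (m : ZMod q) = (t i0 : ZMod q) - (t i : ZMod q) := by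
  have : NeZero q := ⟨hq.ne_zero⟩
  constructor
  · intro h
    simp only [FF, mem_image, mem_erase, mem_univ, true_and] at h
    obtain ⟨u, ⟨hu0, i, hi⟩, hu⟩ := h
    have hum : u = (m : ZMod q) := by
      apply ZMod.val_injective q
      rw [hu, ZMod.val_natCast]
    rw [← hum]
    exact ⟨hu0, i, hi.symm⟩
  · rintro ⟨h0, i, hi⟩
    exact mod_mem_FF t i0 i q m hi h0

lemma mixed_term {r : ℕ} (z c m : ℕ) (t : Fin r → ℕ) (hm : m.Prime) (hz : z < m) (hc : c < m) :
    ∏ i, nuz z (m - c + t i) = (DZ z)⁻¹ ^ r *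
      (if ∀ p ∈ Nat.primesLE z, m % p ∉ FF (Fin.cons c t : Fin (r + 1) → ℕ) 0 p then 1 else 0) := by
  rw [prod_nuz]
  congr 1
  have key : ∀ p ∈ Nat.primesLE z, ((m - c) % p ∈ exres t p ↔
      m % p ∈ FF (Fin.cons c t : Fin (r + 1) → ℕ) 0 p) := by
    intro p hp
    have hpp := (Nat.mem_primesLE.1 hp).2
    have hpz := (Nat.mem_primesLE.1 hp).1
    have hp0 : 0 < p := hpp.pos
    rw [mem_FF_iff _ _ _ _ hpp]
    have hm0 : (m : ZMod p) ≠ 0 := by
      intro h
      rw [ZMod.natCast_eq_zero_iff] at h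
      have := (Nat.prime_dvd_prime_iff_eq hpp hm).1 h
      omega
    have hdv : ∀ i, ((m : ZMod p) = (c : ZMod p) - (t i : ZMod p) ↔ p ∣ m - c + t i) := by
      intro i
      rw [← ZMod.natCast_eq_zero_iff, Nat.cast_add, Nat.cast_sub hc.le]
      constructor
      · intro h
        rw [h]
        ring
      · intro h
        linear_combination h
    constructor
    · intro h
      obtain ⟨i, -, hi⟩ := Finset.mem_image.mp h
      refine ⟨hm0, i.succ, ?_⟩
      rw [Fin.cons_zero, Fin.cons_succ]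
      exact (hdv i).2 ((dvd_add_iff_negres hp0 (m - c) (t i)).2 hi.symm)
    · rintro ⟨_, j, hj⟩
      rcases Fin.eq_zero_or_eq_succ j with rfl | ⟨i, rfl⟩
      · rw [sub_self] at hj
        exact absurd hj hm0
      · rw [Fin.cons_zero, Fin.cons_succ] at hj
        refine Finset.mem_image.2 ⟨i, mem_univ _, ?_⟩
        exact ((dvd_add_iff_negres hp0 (m - c) (t i)).1 ((hdv i).1 hj)).symm
  by_cases h : ∀ p ∈ Nat.primesLE z, (m - c) % p ∉ exres t p
  · rw [if_pos h, if_pos]
    intro p hp hm'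
    exact h p hp ((key p hp).2 hm')
  · rw [if_neg h, if_neg]
    intro h'
    apply h
    intro p hp hm'
    exact h' p hp ((key p hp).1 hm')

/-- reduction to primes `m` in `(c, c + x]` -/
lemma mixed_reduce {r : ℕ} (z c x : ℕ) (t : Fin r → ℕ) :
    |∑ n ∈ Icc 1 x, lp (n + c) * ∏ i, nuz z (n + t i) -
      (DZ z)⁻¹ ^ r * ∑ m ∈ (Ioc c (c + x)).filter (fun m => m.Prime ∧ ∀ p ∈ Nat.primesLE z,
        m % p ∉ FF (Fin.cons c t : Fin (r + 1) → ℕ) 0 p), Real.log m| ≤
      z * (z * (DZ z)⁻¹ ^ r) := by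
  classical
  set F := FF (Fin.cons c t : Fin (r + 1) → ℕ) 0 with hF
  set D : ℝ := (DZ z)⁻¹ ^ r with hD
  have hDZ : 0 ≤ (DZ z)⁻¹ := inv_nonneg.mpr (DZ_pos z).le
  have hD0 : 0 ≤ D := pow_nonneg hDZ r
  have h1 : ∑ n ∈ Icc 1 x, lp (n + c) * ∏ i, nuz z (n + t i) =
      ∑ m ∈ Ioc c (c + x), lp m * ∏ i, nuz z (m - c + t i) := by
    refine Finset.sum_bij (fun n _ => n + c) ?_ ?_ ?_ ?_
    · intro n hn
      rw [mem_Icc] at hn
      rw [mem_Ioc]
      omega
    · intro a _ b _ h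
      have h' : a + c = b + c := h
      omega
    · intro m hm
      rw [mem_Ioc] at hm
      refine ⟨m - c, ?_, ?_⟩
      · rw [mem_Icc]
        omega
      · omega
    · intro n _
      simp only [Nat.add_sub_cancel]
  have h2 : D * ∑ m ∈ (Ioc c (c + x)).filter (fun m => m.Prime ∧ ∀ p ∈ Nat.primesLE z,
        m % p ∉ F p), Real.log m =
      ∑ m ∈ Ioc c (c + x), D * (if m.Prime ∧ ∀ p ∈ Nat.primesLE z, m % p ∉ F p
        then Real.log m else 0) := by
    rw [Finset.mul_sum, Finset.sum_filter]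
    refine Finset.sum_congr rfl fun m _ => ?_
    split_ifs
    · rfl
    · rw [mul_zero]
  rw [h1, h2, ← Finset.sum_sub_distrib]
  refine (Finset.abs_sum_le_sum_abs _ _).trans ?_
  have h3 : ∀ m ∈ Ioc c (c + x), |lp m * ∏ i, nuz z (m - c + t i) -
      D * (if m.Prime ∧ ∀ p ∈ Nat.primesLE z, m % p ∉ F p then Real.log m else 0)| ≤
        if m ≤ z then z * D else 0 := by
    intro m hm
    rw [mem_Ioc] at hm
    by_cases hpr : m.Prime
    · rcases Nat.lt_or_ge z m with hzm | hzm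
      · rw [if_neg (show ¬ (m ≤ z) by omega), mixed_term z c m t hpr hzm hm.1]
        unfold HLT.lp
        rw [if_pos hpr]
        have : Real.log m * (D * (if ∀ p ∈ Nat.primesLE z, m % p ∉ F p then 1 else 0)) -
            D * (if m.Prime ∧ ∀ p ∈ Nat.primesLE z, m % p ∉ F p then Real.log m else 0) = 0 := by
          by_cases h : ∀ p ∈ Nat.primesLE z, m % p ∉ F p
          · rw [if_pos h, if_pos ⟨hpr, h⟩]
            ring
          · rw [if_neg h, if_neg (fun h' => h h'.2)]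
            ring
        rw [this, abs_zero]
      · rw [if_pos hzm]
        have hlog0 : 0 ≤ Real.log m := Real.log_natCast_nonneg m
        have hlog : Real.log m ≤ z := by
          have hm0 : (0 : ℝ) < m := by exact_mod_cast hpr.pos
          calc Real.log m ≤ (m : ℝ) - 1 := Real.log_le_sub_one_of_pos hm0
            _ ≤ z := by
              have : (m : ℝ) ≤ z := by exact_mod_cast hzm
              linarith
        have hp0 : 0 ≤ ∏ i, nuz z (m - c + t i) := Finset.prod_nonneg fun i _ => nuz_nonneg z _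
        have hp1 : ∏ i, nuz z (m - c + t i) ≤ D := by
          calc ∏ i, nuz z (m - c + t i) ≤ ∏ _i : Fin r, (DZ z)⁻¹ :=
                Finset.prod_le_prod (fun i _ => nuz_nonneg z _) fun i _ => nuz_le z _
            _ = D := by rw [Finset.prod_const, Finset.card_univ, Fintype.card_fin]
        have ha0 : 0 ≤ lp m * ∏ i, nuz z (m - c + t i) := mul_nonneg (lp_nonneg m) hp0
        have ha1 : lp m * ∏ i, nuz z (m - c + t i) ≤ z * D :=
          mul_le_mul ((lp_le m).trans hlog) hp1 hp0 (Nat.cast_nonneg z)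
        have hb0 : 0 ≤ D * (if m.Prime ∧ ∀ p ∈ Nat.primesLE z, m % p ∉ F p
            then Real.log m else 0) := by
          split_ifs
          · exact mul_nonneg hD0 hlog0
          · rw [mul_zero]
        have hb1 : D * (if m.Prime ∧ ∀ p ∈ Nat.primesLE z, m % p ∉ F p
            then Real.log m else 0) ≤ z * D := by
          split_ifs
          · rw [mul_comm]
            exact mul_le_mul_of_nonneg_right hlog hD0
          · rw [mul_zero]
            exact mul_nonneg (Nat.cast_nonneg z) hD0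
        rw [abs_le]
        constructor
        · linarith
        · linarith
    · have hl : lp m = 0 := by unfold HLT.lp; rw [if_neg hpr]
      rw [hl, zero_mul, if_neg (fun h => hpr h.1), mul_zero, sub_self, abs_zero]
      split_ifs
      · exact mul_nonneg (Nat.cast_nonneg z) hD0
      · exact le_rfl
  refine (Finset.sum_le_sum h3).trans ?_
  rw [← Finset.sum_filter, Finset.sum_const, nsmul_eq_mul]
  apply mul_le_mul_of_nonneg_right _ (mul_nonneg (Nat.cast_nonneg z) hD0)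
  have hsub : (Ioc c (c + x)).filter (fun m => m ≤ z) ⊆ Icc 1 z := by
    intro m hm
    rw [mem_filter, mem_Ioc] at hm
    rw [mem_Icc]
    omega
  have := Finset.card_le_card hsub
  rw [Nat.card_Icc, Nat.add_sub_cancel] at this
  exact_mod_cast this

theorem mixed_corr (r A B : ℕ) : ∀ᶠ x : ℕ in atTop, ∀ (c : ℕ) (t : Fin r → ℕ), c ≤ x →
    (∀ i, t i ≤ x) →
    |∑ n ∈ Icc 1 x, lp (n + c) * ∏ i, nuz (zA A x) (n + t i) -
        x * SZ (zA A x) (Fin.cons c t : Fin (r + 1) → ℕ)| ≤ x / Real.log x ^ B := by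
  classical
  obtain ⟨C, hC⟩ := brun_param2 (2 * r) A (B + r + 1)
  obtain ⟨C', x₀, hC', hbv⟩ := Pool.Agent.Lib.BV.bv_weak (C + B + r + 1)
  have hlim : Tendsto (fun n : ℕ => Real.log (n : ℝ)) atTop atTop :=
    Real.tendsto_log_atTop.comp tendsto_natCast_atTop_atTop
  have hsmall : ∀ᶠ x : ℕ in atTop, 2 * Real.log x ^ (2 * A + r + B) ≤ (x : ℝ) := by
    have h := (hlim.eventually (ev_poly_exp 2 (2 * A + r + B)))
    filter_upwards [h, eventually_gt_atTop 0] with x hx hx0
    rwa [Real.exp_log (by exact_mod_cast hx0)] at hx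
  filter_upwards [hC, DZ_inv_le A, hsmall, hlim.eventually_ge_atTop (4 + 8 * C'),
    hlim.eventually_ge_atTop 1, eventually_gt_atTop 0,
    tendsto_natCast_atTop_atTop.eventually_ge_atTop x₀]
    with x hCx hDx hsx hLC hL1 hx0 hxx₀
  intro c t hc ht
  set z := zA A x with hz
  set L := Real.log (x : ℝ) with hL
  have hL0 : 0 < L := by linarith
  have hxR : (0 : ℝ) < x := by exact_mod_cast hx0
  have hx1 : (1 : ℝ) ≤ x := by exact_mod_cast hx0
  obtain ⟨k, hk, hk1, hk2, hk3⟩ := hCx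
  obtain ⟨E, hE0, hEs, hE⟩ := hbv (2 * x) (by linarith)
  set F := FF (Fin.cons c t : Fin (r + 1) → ℕ) 0 with hF
  set D : ℝ := (DZ z)⁻¹ ^ r with hD
  have hDZ : 0 ≤ (DZ z)⁻¹ := inv_nonneg.mpr (DZ_pos z).le
  have hD0 : 0 ≤ D := pow_nonneg hDZ r
  have hDL : D ≤ L ^ r := pow_le_pow_left₀ hDZ hDx r
  -- the range of the moduli
  have hrange : (1 + z) ^ (k + 1) ≤ ⌊(2 * (x : ℝ)) ^ (1 / 20 : ℝ)⌋₊ := by
    apply Nat.le_floor
    push_cast
    calc (1 + (z : ℝ)) ^ (k + 1) ≤ (x : ℝ) ^ (1 / 40 : ℝ) := hk2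
      _ ≤ (x : ℝ) ^ (1 / 20 : ℝ) := Real.rpow_le_rpow_of_exponent_le hx1 (by norm_num)
      _ ≤ (2 * (x : ℝ)) ^ (1 / 20 : ℝ) :=
          Real.rpow_le_rpow hxR.le (by linarith) (by norm_num)
  have hsub : Icc 1 ((1 + z) ^ (k + 1)) ⊆ Icc 1 ⌊(2 * (x : ℝ)) ^ (1 / 20 : ℝ)⌋₊ :=
    Finset.Icc_subset_Icc_right hrange
  have hmain := theta_det r z k x c hk F (by
    intro p hp
    have hpp := (Nat.mem_primesLE.1 hp).2
    refine ⟨FF_subset _ 0 p hpp, ?_⟩
    rw [hF, card_FF _ 0 p hpp]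
    have := nuI_le (Fin.cons c t : Fin (r + 1) → ℕ) p
    rw [Fintype.card_fin] at this
    omega) E hE0 (by
    intro d hd a ha y hy1 hy2
    have hcx : (c : ℝ) ≤ x := by exact_mod_cast hc
    exact hE d (hsub hd) a ha y hy1 (by linarith))
  have hsumE : ∑ d ∈ Icc 1 ((1 + z) ^ (k + 1)), E d ≤ C' * (2 * x) / L ^ (C + B + r + 1) := by
    refine (Finset.sum_le_sum_of_subset_of_nonneg hsub fun d _ _ => hE0 d).trans (hEs.trans ?_)
    have hlog : L ≤ Real.log (2 * x) := Real.log_le_log hxR (by linarith)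
    apply div_le_div_of_nonneg_left (by positivity) (by positivity)
    exact pow_le_pow_left₀ hL0.le hlog _
  have hk1' : (2 * (r : ℝ) * ∑ p ∈ Nat.primesLE z, 1 / (p : ℝ)) ^ (k + 1) /
      ((k + 1).factorial : ℝ) ≤ 1 / L ^ (B + r + 1) := by
    have := hk1
    push_cast at this ⊢
    exact this
  have hk3' : (1 + (r : ℝ)) ^ (k + 1) ≤ L ^ C := by
    refine (pow_le_pow_left₀ (by positivity) ?_ _).trans hk3
    push_cast
    have : (0 : ℝ) ≤ r := Nat.cast_nonneg r
    linarith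
  have hSZ : D * ∏ p ∈ Nat.primesLE z, (1 - ((F p).card : ℝ) / ((p : ℝ) - 1)) =
      SZ z (Fin.cons c t : Fin (r + 1) → ℕ) := by
    rw [← prod_FF (Fin.cons c t : Fin (r + 1) → ℕ) 0 z r (Fintype.card_fin _), hD, inv_pow]
  have hred := mixed_reduce z c x t
  rw [← hF, ← hD] at hred
  set S := ∑ m ∈ (Ioc c (c + x)).filter (fun m => m.Prime ∧ ∀ p ∈ Nat.primesLE z,
        m % p ∉ F p), Real.log m with hS
  -- the main error
  have herr1 : |S - x * ∏ p ∈ Nat.primesLE z, (1 - ((F p).card : ℝ) / ((p : ℝ) - 1))| ≤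
      (2 + 4 * C') * x / L ^ (B + r + 1) := by
    refine hmain.trans ?_
    have e1 : 2 * (x : ℝ) * ((2 * (r : ℝ) * ∑ p ∈ Nat.primesLE z, 1 / (p : ℝ)) ^ (k + 1) /
        ((k + 1).factorial : ℝ)) ≤ 2 * x * (1 / L ^ (B + r + 1)) :=
      mul_le_mul_of_nonneg_left hk1' (by positivity)
    have e2 : 2 * (1 + (r : ℝ)) ^ (k + 1) * ∑ d ∈ Icc 1 ((1 + z) ^ (k + 1)), E d ≤
        2 * L ^ C * (C' * (2 * x) / L ^ (C + B + r + 1)) := by
      apply mul_le_mul _ hsumE (Finset.sum_nonneg fun d _ => hE0 d) (by positivity)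
      exact mul_le_mul_of_nonneg_left hk3' (by norm_num)
    have e3 : 2 * L ^ C * (C' * (2 * x) / L ^ (C + B + r + 1)) =
        4 * C' * x / L ^ (B + r + 1) := by
      have : L ^ (C + B + r + 1) = L ^ C * L ^ (B + r + 1) := by
        rw [← pow_add]
        congr 1
        omega
      rw [this]
      field_simp
      ring
    have e4 : (2 + 4 * C') * x / L ^ (B + r + 1) =
        2 * x * (1 / L ^ (B + r + 1)) + 4 * C' * x / L ^ (B + r + 1) := by ring
    rw [e4]
    linarith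
  have herr2 : |D * S - x * SZ z (Fin.cons c t : Fin (r + 1) → ℕ)| ≤
      (2 + 4 * C') * x / L ^ (B + 1) := by
    rw [← hSZ]
    have e1 : D * S - x * (D * ∏ p ∈ Nat.primesLE z, (1 - ((F p).card : ℝ) / ((p : ℝ) - 1))) =
        D * (S - x * ∏ p ∈ Nat.primesLE z, (1 - ((F p).card : ℝ) / ((p : ℝ) - 1))) := by ring
    rw [e1, abs_mul, abs_of_nonneg hD0]
    calc D * |S - x * ∏ p ∈ Nat.primesLE z, (1 - ((F p).card : ℝ) / ((p : ℝ) - 1))| ≤
        L ^ r * ((2 + 4 * C') * x / L ^ (B + r + 1)) :=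
          mul_le_mul hDL herr1 (abs_nonneg _) (by positivity)
      _ = (2 + 4 * C') * x / L ^ (B + 1) := by
          have : L ^ (B + r + 1) = L ^ r * L ^ (B + 1) := by
            rw [← pow_add]
            congr 1
            omega
          rw [this]
          field_simp
  have hzL : (z : ℝ) ≤ L ^ A := Nat.floor_le (by positivity)
  have herr3 : (z : ℝ) * (z * D) ≤ L ^ (2 * A + r) := by
    calc (z : ℝ) * (z * D) ≤ L ^ A * (L ^ A * L ^ r) := by gcongr
      _ = L ^ (2 * A + r) := by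
          rw [← pow_add, ← pow_add]
          congr 1
          omega
  have herr4 : L ^ (2 * A + r) ≤ x / L ^ B / 2 := by
    rw [div_div, le_div_iff₀ (by positivity)]
    calc L ^ (2 * A + r) * (L ^ B * 2) = 2 * L ^ (2 * A + r + B) := by
          rw [pow_add L (2 * A + r) B]
          ring
      _ ≤ x := hsx
  have herr5 : (2 + 4 * C') * x / L ^ (B + 1) ≤ x / L ^ B / 2 := by
    rw [pow_succ, div_div, div_le_div_iff₀ (by positivity) (by positivity)]
    have e1 : (2 + 4 * C') * x * (L ^ B * 2) = (4 + 8 * C') * (x * L ^ B) := by ring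
    have e2 : (x : ℝ) * (L ^ B * L) = L * (x * L ^ B) := by ring
    rw [e1, e2]
    exact mul_le_mul_of_nonneg_right hLC (by positivity)
  calc |∑ n ∈ Icc 1 x, lp (n + c) * ∏ i, nuz z (n + t i) -
        x * SZ z (Fin.cons c t : Fin (r + 1) → ℕ)| ≤
      |∑ n ∈ Icc 1 x, lp (n + c) * ∏ i, nuz z (n + t i) - D * S| +
        |D * S - x * SZ z (Fin.cons c t : Fin (r + 1) → ℕ)| := abs_sub_le _ _ _
    _ ≤ x / L ^ B / 2 + x / L ^ B / 2 :=
        add_le_add (hred.trans (herr3.trans herr4)) (herr2.trans herr5)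
    _ = x / L ^ B := by ring

end Pool.Agent.HLR
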