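import Pool.Agent.Lib.HLR.Defs
import Pool.Agent.Lib.HLR.Mixed
import Pool.Agent.Lib.HLR.SingQ

/-!
# The three means: comparison

`RR_close`: `mixed_corr` and `sieve_corr`, divided by `x`. `QQ_close`: `sieve_corr` and `sing_quant`.
-/

set_option autoImplicit false

open Finset Filter

namespace Pool.Agent.HLR

open Pool.Agent.HLB Pool.Agent.HLT

namespace CloseAux

lemma two_div_le (B : ℕ) : ∀ᶠ x : ℕ in atTop, 1 ≤ x ∧ 0 < Real.log x ∧
    1 / Real.log x ^ (B + 1) + 1 / Real.log x ^ (B + 1) ≤ 1 / Real.log x ^ B := by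
  have h : Tendsto (fun x : ℕ => Real.log (x : ℝ)) atTop atTop :=
    Real.tendsto_log_atTop.comp tendsto_natCast_atTop_atTop
  filter_upwards [h.eventually_ge_atTop 2, eventually_ge_atTop 1] with x hx h1
  have hp : 0 < Real.log (x : ℝ) := by linarith
  refine ⟨h1, hp, ?_⟩
  have hpB : 0 < Real.log (x : ℝ) ^ B := by positivity
  rw [← add_div, pow_succ, div_le_div_iff₀ (by positivity) hpB]
  nlinarith

lemma div_close {x : ℕ} (hx : 1 ≤ x) {S T E : ℝ} (h : |S - x * T| ≤ x / E) :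
    |S / x - T| ≤ 1 / E := by
  have hx0 : (0 : ℝ) < x := by exact_mod_cast (by omega : 0 < x)
  have h1 : S / x - T = (S - x * T) / x := by field_simp
  rw [h1, abs_div, abs_of_pos hx0, div_le_iff₀ hx0]
  refine h.trans (le_of_eq ?_)
  ring

end CloseAux

theorem RR_close (r A B : ℕ) : ∀ᶠ x : ℕ in atTop, ∀ b : Fin (r + 1) → ℕ, (∀ i, b i ≤ x) →
    |RR (zA A x) x b - QQ (zA A x) x b| ≤ 1 / Real.log x ^ B := by
  filter_upwards [mixed_corr r A (B + 1), sieve_corr (r + 1) A (B + 1), CloseAux.two_div_le B]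
    with x hm hs h2 b hb
  obtain ⟨hx, hl, h2⟩ := h2
  have h3 := hm (b 0) (Fin.tail b) (hb 0) (fun i => hb _)
  have h4 := hs b
  rw [Fin.cons_self_tail] at h3
  have h5 := CloseAux.div_close hx h3
  have h6 := CloseAux.div_close hx h4
  have h7 : RR (zA A x) x b = (∑ n ∈ Icc 1 x, lp (n + b 0) *
      ∏ i, nuz (zA A x) (n + Fin.tail b i)) / x := by
    unfold RR Av
    congr 1
    refine Finset.sum_congr rfl fun n _ => ?_
    rw [Fin.prod_univ_succ]
    simp only [Fin.cons_zero, Fin.cons_succ, Fin.tail]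
  have h8 : QQ (zA A x) x b = (∑ n ∈ Icc 1 x, ∏ i, nuz (zA A x) (n + b i)) / x := rfl
  rw [h7, h8]
  rw [abs_sub_comm] at h6
  refine (abs_sub_le _ (SZ (zA A x) b) _).trans ?_
  linarith

theorem QQ_close (r B : ℕ) (hr : 1 ≤ r) : ∃ A0 : ℕ, ∀ A : ℕ, A0 ≤ A → ∀ᶠ x : ℕ in atTop,
    ∀ b : Fin r → ℕ, Function.Injective b → (∀ i, b i ≤ x) →
      |QQ (zA A x) x b - SI b| ≤ 1 / Real.log x ^ B := by
  obtain ⟨A0, hA0⟩ := sing_quant r (B + 1) hr
  refine ⟨A0, fun A hA => ?_⟩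
  filter_upwards [hA0 A hA, sieve_corr r A (B + 1), CloseAux.two_div_le B] with x h1 hs h2 b hi hb
  obtain ⟨hx, hl, h2⟩ := h2
  have h3 := h1 b hi hb
  have h6 := CloseAux.div_close hx (hs b)
  have h8 : QQ (zA A x) x b = (∑ n ∈ Icc 1 x, ∏ i, nuz (zA A x) (n + b i)) / x := rfl
  rw [h8]
  refine (abs_sub_le _ (SZ (zA A x) b) _).trans ?_
  linarith

end Pool.Agent.HLR
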