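import Pool.Agent.Lib.HLR.Convex

/-!
# Concentration from an almost optimal moment

PROOF SKETCH. Put `D w = N^(k+2) - (k+2) N M^(k+1) + (k+1) M^(k+2) >= (N-M)^2 max(N,M)^k` (`convex_rem`) and
`τ = ε^(1/(k+2))`, so `0 < τ <= 1`. For every `w`: if `max(N w, M w) >= τ β` then `(N-M)^2 <= D w / (τ β)^k`, otherwise
`(N-M)^2 <= (τ β)^2` (both numbers lie in `[0, τ β]`). So `∑ (N-M)^2 <= (∑ D) / (τ β)^k + |Ω| (τ β)^2 <=
|Ω| β^2 (ε / τ^k + τ^2) = 2 |Ω| β^2 τ^2` and `τ^2 = ε^(2/(k+2))`. (`D w >= 0` by `convex_rem`.)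
-/

set_option autoImplicit false

open Finset

namespace Pool.Agent.HLR

theorem conc {α : Type*} (Ω : Finset α) (N M : α → ℝ) (hN : ∀ w ∈ Ω, 0 ≤ N w)
    (hM : ∀ w ∈ Ω, 0 ≤ M w) (k : ℕ) (β ε : ℝ) (hβ : 0 < β) (hε : 0 < ε)
    (h : ∑ w ∈ Ω, (N w ^ (k + 2) - (k + 2) * (N w * M w ^ (k + 1)) + (k + 1) * M w ^ (k + 2)) ≤
      Ω.card * (β ^ (k + 2) * ε)) :
    ∑ w ∈ Ω, (N w - M w) ^ 2 ≤ 2 * Ω.card * β ^ 2 * ε ^ (2 / ((k : ℝ) + 2)) := by
  have hk : (0 : ℝ) < (k : ℝ) + 2 := by positivity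
  obtain ⟨τ, hτ0, hτk, hτ2⟩ : ∃ τ : ℝ, 0 < τ ∧ τ ^ (k + 2) = ε ∧
      τ ^ 2 = ε ^ (2 / ((k : ℝ) + 2)) := by
    refine ⟨ε ^ (1 / ((k : ℝ) + 2)), Real.rpow_pos_of_pos hε _, ?_, ?_⟩
    · rw [← Real.rpow_natCast, ← Real.rpow_mul hε.le]
      push_cast
      rw [one_div_mul_cancel (ne_of_gt hk)]
      exact Real.rpow_one ε
    · rw [← Real.rpow_natCast, ← Real.rpow_mul hε.le]
      congr 1
      push_cast
      ring
  rw [← hτ2]
  have hτβ : 0 < τ * β := mul_pos hτ0 hβ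
  have hpk : 0 < (τ * β) ^ k := pow_pos hτβ k
  have key : ∀ w ∈ Ω, (N w - M w) ^ 2 ≤
      (N w ^ (k + 2) - (k + 2) * (N w * M w ^ (k + 1)) + (k + 1) * M w ^ (k + 2)) / (τ * β) ^ k +
        (τ * β) ^ 2 := by
    intro w hw
    have h1 := convex_rem k (N w) (M w) (hN w hw) (hM w hw)
    have hN0 := hN w hw
    have hM0 := hM w hw
    by_cases hmax : τ * β ≤ max (N w) (M w)
    · have h2 : (τ * β) ^ k ≤ max (N w) (M w) ^ k := pow_le_pow_left₀ hτβ.le hmax k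
      have h3 : (N w - M w) ^ 2 * (τ * β) ^ k ≤ (N w - M w) ^ 2 * max (N w) (M w) ^ k :=
        mul_le_mul_of_nonneg_left h2 (sq_nonneg _)
      have h4 : (N w - M w) ^ 2 ≤
          (N w ^ (k + 2) - (k + 2) * (N w * M w ^ (k + 1)) + (k + 1) * M w ^ (k + 2)) /
            (τ * β) ^ k := by
        rw [le_div_iff₀ hpk]
        exact h3.trans h1
      linarith [sq_nonneg (τ * β)]
    · push Not at hmax
      have h2 : N w < τ * β := (le_max_left _ _).trans_lt hmax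
      have h3 : M w < τ * β := (le_max_right _ _).trans_lt hmax
      have h4 : (N w - M w) ^ 2 ≤ (τ * β) ^ 2 := by
        apply sq_le_sq'
        · linarith
        · linarith
      have h5 : 0 ≤ (N w ^ (k + 2) - (k + 2) * (N w * M w ^ (k + 1)) + (k + 1) * M w ^ (k + 2)) /
          (τ * β) ^ k := by
        apply div_nonneg _ hpk.le
        refine le_trans ?_ h1
        have : 0 ≤ max (N w) (M w) ^ k := pow_nonneg (hN0.trans (le_max_left _ _)) k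
        positivity
      linarith
  calc ∑ w ∈ Ω, (N w - M w) ^ 2
      ≤ ∑ w ∈ Ω, ((N w ^ (k + 2) - (k + 2) * (N w * M w ^ (k + 1)) +
          (k + 1) * M w ^ (k + 2)) / (τ * β) ^ k + (τ * β) ^ 2) := Finset.sum_le_sum key
    _ = (∑ w ∈ Ω, (N w ^ (k + 2) - (k + 2) * (N w * M w ^ (k + 1)) +
          (k + 1) * M w ^ (k + 2))) / (τ * β) ^ k + Ω.card * (τ * β) ^ 2 := by
        rw [Finset.sum_add_distrib, Finset.sum_div, Finset.sum_const, nsmul_eq_mul]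
    _ ≤ (Ω.card * (β ^ (k + 2) * ε)) / (τ * β) ^ k + Ω.card * (τ * β) ^ 2 := by
        gcongr
    _ = 2 * Ω.card * β ^ 2 * τ ^ 2 := by
        rw [← hτk]
        have hτne : τ ≠ 0 := hτ0.ne'
        have hβne : β ≠ 0 := hβ.ne'
        field_simp
        ring

end Pool.Agent.HLR
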