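import Mathlib

/-!
# A convexity inequality with a quantitative remainder

`N^(r+1) - (r+1) N M^r + r M^(r+1) - N (N^r - r N M^(r-1) + (r-1) M^r) = r M^(r-1) (N-M)^2`; induction on the exponent.
-/

set_option autoImplicit false

namespace Pool.Agent.HLR

theorem convex_rem (k : ℕ) (N M : ℝ) (hN : 0 ≤ N) (hM : 0 ≤ M) :
    (N - M) ^ 2 * max N M ^ k ≤
      N ^ (k + 2) - (k + 2) * (N * M ^ (k + 1)) + (k + 1) * M ^ (k + 2) := by
  induction k with
  | zero => simp only [pow_zero]; push_cast; nlinarith [sq_nonneg (N - M)]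
  | succ k ih =>
    have hmx : 0 ≤ max N M := le_max_of_le_left hN
    have key : N ^ (k + 1 + 2) - ((k + 1 : ℕ) + 2) * (N * M ^ (k + 1 + 1)) +
          ((k + 1 : ℕ) + 1) * M ^ (k + 1 + 2) =
        N * (N ^ (k + 2) - (k + 2) * (N * M ^ (k + 1)) + (k + 1) * M ^ (k + 2)) +
          (k + 2) * M ^ (k + 1) * (N - M) ^ 2 := by
      push_cast
      ring
    rw [key]
    rcases le_total M N with h | h
    · rw [max_eq_left h] at ih ⊢
      have h1 : (N - M) ^ 2 * N ^ (k + 1) = N * ((N - M) ^ 2 * N ^ k) := by ring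
      have h2 := mul_le_mul_of_nonneg_left ih hN
      have h3 : 0 ≤ ((k : ℝ) + 2) * M ^ (k + 1) * (N - M) ^ 2 := by positivity
      linarith
    · rw [max_eq_right h] at ih ⊢
      have h0 : 0 ≤ (N - M) ^ 2 * M ^ k := by positivity
      have h2 : 0 ≤ N * (N ^ (k + 2) - (k + 2) * (N * M ^ (k + 1)) + (k + 1) * M ^ (k + 2)) :=
        mul_nonneg hN (le_trans h0 ih)
      have h3 : (N - M) ^ 2 * M ^ (k + 1) ≤ ((k : ℝ) + 2) * M ^ (k + 1) * (N - M) ^ 2 := by
        have h4 : 0 ≤ M ^ (k + 1) * (N - M) ^ 2 := by positivity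
        have h5 : (0 : ℝ) ≤ k := Nat.cast_nonneg k
        nlinarith
      linarith

/-- The case of an arbitrary exponent `r + 1 ≥ 1`: only nonnegativity. -/
theorem convex_nonneg (r : ℕ) (N M : ℝ) (hN : 0 ≤ N) (hM : 0 ≤ M) :
    0 ≤ N ^ (r + 1) - (r + 1) * (N * M ^ r) + r * M ^ (r + 1) := by
  cases r with
  | zero => simp
  | succ k =>
    have h := convex_rem k N M hN hM
    have hmx : 0 ≤ max N M := le_max_of_le_left hN
    have h0 : 0 ≤ (N - M) ^ 2 * max N M ^ k := by positivity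
    have h1 : N ^ (k + 1 + 1) - ((k + 1 : ℕ) + 1) * (N * M ^ (k + 1)) +
        ((k + 1 : ℕ) : ℝ) * M ^ (k + 1 + 1) =
        N ^ (k + 2) - (k + 2) * (N * M ^ (k + 1)) + (k + 1) * M ^ (k + 2) := by
      push_cast
      ring
    rw [h1]
    exact le_trans h0 h

end Pool.Agent.HLR
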