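import Mathlib

/-!
# Tuples with few distinct values

A function `b : Fin r → ℕ` with values in `B` and exactly `j` distinct values is determined by its image
(a subset of `B` with `j` elements, at most `|B|^j` choices) and by a function `Fin r → image` (`j^r <= r^r` choices, as
`j <= r`). Formally: the filter is contained in the union over `I ∈ B.powersetCard j` of `piFinset (fun _ => I)`
(`card_biUnion_le`, `card_powersetCard`, `Nat.choose_le_pow`), each of cardinality `j^r`. If `r = 0` the only function has
`0` values.
-/

set_option autoImplicit false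

open Finset

namespace Pool.Agent.HLR

theorem card_few (r j : ℕ) (B : Finset ℕ) :
    ((Fintype.piFinset (fun _ : Fin r => B)).filter
      (fun b => (univ.image b).card = j)).card ≤ r ^ r * B.card ^ j := by
  classical
  rcases lt_or_ge r j with hj | hj
  · have : (Fintype.piFinset (fun _ : Fin r => B)).filter
      (fun b => (univ.image b).card = j) = ∅ := by
      rw [filter_eq_empty_iff]
      intro b _ hb
      have h1 : (univ.image b).card ≤ r := by
        refine card_image_le.trans ?_
        simp
      omega
    rw [this]
    simp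
  · have hsub : (Fintype.piFinset (fun _ : Fin r => B)).filter
      (fun b => (univ.image b).card = j) ⊆
        (B.powersetCard j).biUnion (fun I => Fintype.piFinset (fun _ : Fin r => I)) := by
      intro b hb
      rw [mem_filter, Fintype.mem_piFinset] at hb
      rw [mem_biUnion]
      refine ⟨univ.image b, ?_, ?_⟩
      · rw [mem_powersetCard]
        refine ⟨?_, hb.2⟩
        intro x hx
        obtain ⟨i, _, rfl⟩ := mem_image.1 hx
        exact hb.1 i
      · rw [Fintype.mem_piFinset]
        intro i
        exact mem_image_of_mem _ (mem_univ i)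
    calc ((Fintype.piFinset (fun _ : Fin r => B)).filter
          (fun b => (univ.image b).card = j)).card
        ≤ ((B.powersetCard j).biUnion (fun I => Fintype.piFinset (fun _ : Fin r => I))).card :=
          card_le_card hsub
      _ ≤ ∑ I ∈ B.powersetCard j, (Fintype.piFinset (fun _ : Fin r => I)).card :=
          card_biUnion_le
      _ = ∑ I ∈ B.powersetCard j, j ^ r := by
          refine sum_congr rfl fun I hI => ?_
          rw [Fintype.card_piFinset_const, (mem_powersetCard.1 hI).2]
      _ = (B.card.choose j) * j ^ r := by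
          rw [sum_const, card_powersetCard, smul_eq_mul]
      _ ≤ B.card ^ j * r ^ r :=
          Nat.mul_le_mul (Nat.choose_le_pow _ _) (Nat.pow_le_pow_left hj r)
      _ = r ^ r * B.card ^ j := mul_comm _ _

/-- Fibrewise bound. -/
theorem sum_level (r : ℕ) (B : Finset ℕ) (K : ℝ) (hK : 1 ≤ K)
    (J : Finset ℕ) (S : Finset (Fin r → ℕ)) (hS : S ⊆ Fintype.piFinset (fun _ : Fin r => B))
    (hJ : ∀ b ∈ S, (univ.image b).card ∈ J) (f : (Fin r → ℕ) → ℝ)
    (hf : ∀ b ∈ Fintype.piFinset (fun _ : Fin r => B), f b ≤ K ^ (r - (univ.image b).card)) :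
    ∑ b ∈ S, f b ≤ ∑ j ∈ J, (r : ℝ) ^ r * (B.card : ℝ) ^ j * K ^ (r - j) := by
  classical
  have h0 : (0 : ℝ) ≤ K := by linarith
  rw [← sum_fiberwise_of_maps_to hJ]
  refine sum_le_sum fun j _ => ?_
  calc ∑ b ∈ S.filter (fun b => (univ.image b).card = j), f b
      ≤ ∑ b ∈ S.filter (fun b => (univ.image b).card = j), K ^ (r - j) := by
        refine sum_le_sum fun b hb => ?_
        rw [mem_filter] at hb
        have := hf b (hS hb.1)
        rwa [hb.2] at this
    _ = ((S.filter (fun b => (univ.image b).card = j)).card : ℝ) * K ^ (r - j) := by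
        rw [sum_const, nsmul_eq_mul]
    _ ≤ ((r : ℝ) ^ r * (B.card : ℝ) ^ j) * K ^ (r - j) := by
        refine mul_le_mul_of_nonneg_right ?_ (by positivity)
        have h1 := (card_le_card (filter_subset_filter (fun b => (univ.image b).card = j) hS)).trans
          (card_few r j B)
        exact_mod_cast h1
    _ = _ := rfl

/-- Weighted form: if a nonnegative function is at most `K ^ (r - j)` on the tuples with `j` distinct values and
`1 ≤ K ≤ |B|` then its sum over all tuples is at most `(r + 1) r^r |B|^r`; over the tuples with at most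
`r - 1` distinct values it gains a factor `K / |B|`. -/
theorem sum_few (r : ℕ) (B : Finset ℕ) (K : ℝ) (hK : 1 ≤ K) (hKB : K ≤ B.card)
    (f : (Fin r → ℕ) → ℝ)
    (hf : ∀ b ∈ Fintype.piFinset (fun _ : Fin r => B), f b ≤ K ^ (r - (univ.image b).card)) :
    ∑ b ∈ Fintype.piFinset (fun _ : Fin r => B), f b ≤ (r + 1) * r ^ r * (B.card : ℝ) ^ r := by
  classical
  have h0 : (0 : ℝ) ≤ K := by linarith
  refine (sum_level r B K hK (range (r + 1)) _ subset_rfl (fun b _ => ?_) f hf).trans ?_
  · rw [mem_range]
    have h1 : (univ.image b).card ≤ r := by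
      refine card_image_le.trans ?_
      simp
    omega
  · calc ∑ j ∈ range (r + 1), (r : ℝ) ^ r * (B.card : ℝ) ^ j * K ^ (r - j)
        ≤ ∑ j ∈ range (r + 1), (r : ℝ) ^ r * (B.card : ℝ) ^ r := by
          refine sum_le_sum fun j hj => ?_
          have hj' : j ≤ r := by
            rw [mem_range] at hj
            omega
          rw [mul_assoc]
          refine mul_le_mul_of_nonneg_left ?_ (by positivity)
          calc (B.card : ℝ) ^ j * K ^ (r - j) ≤ (B.card : ℝ) ^ j * (B.card : ℝ) ^ (r - j) :=
                mul_le_mul_of_nonneg_left (pow_le_pow_left₀ h0 hKB _) (by positivity)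
            _ = (B.card : ℝ) ^ r := by
                rw [← pow_add]
                congr 1
                omega
      _ = (r + 1) * r ^ r * (B.card : ℝ) ^ r := by
          rw [sum_const, card_range, nsmul_eq_mul]
          push_cast
          ring

theorem sum_noninj (r : ℕ) (B : Finset ℕ) (K : ℝ) (hK : 1 ≤ K) (hKB : K ≤ B.card)
    (f : (Fin r → ℕ) → ℝ)
    (hf : ∀ b ∈ Fintype.piFinset (fun _ : Fin r => B), f b ≤ K ^ (r - (univ.image b).card)) :
    ∑ b ∈ (Fintype.piFinset (fun _ : Fin r => B)).filter (fun b => ¬ Function.Injective b), f b ≤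
      (r + 1) * r ^ r * (B.card : ℝ) ^ r * (K / B.card) := by
  classical
  have h0 : (0 : ℝ) ≤ K := by linarith
  have hB : (0 : ℝ) < B.card := by linarith
  refine (sum_level r B K hK (range r) _ (filter_subset _ _) (fun b hb => ?_) f hf).trans ?_
  · rw [mem_filter] at hb
    rw [mem_range]
    by_contra hcon
    apply hb.2
    have h1 : (univ.image b).card ≤ (univ : Finset (Fin r)).card := card_image_le
    have h2 : (univ : Finset (Fin r)).card = r := by simp
    have h3 : (univ.image b).card = (univ : Finset (Fin r)).card := by omega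
    have h4 := card_image_iff.1 h3
    intro x y hxy
    exact h4 (by simp) (by simp) hxy
  · calc ∑ j ∈ range r, (r : ℝ) ^ r * (B.card : ℝ) ^ j * K ^ (r - j)
        ≤ ∑ j ∈ range r, (r : ℝ) ^ r * (B.card : ℝ) ^ r * (K / B.card) := by
          refine sum_le_sum fun j hj => ?_
          rw [mem_range] at hj
          rw [mul_assoc, mul_assoc]
          refine mul_le_mul_of_nonneg_left ?_ (by positivity)
          have e1 : K ^ (r - j) = K ^ (r - j - 1) * K := by
            rw [← pow_succ]
            congr 1
            omega
          have e2 : (B.card : ℝ) ^ r = (B.card : ℝ) ^ j * (B.card : ℝ) ^ (r - j - 1) * B.card := by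
            rw [← pow_add, ← pow_succ]
            congr 1
            omega
          rw [e1, e2]
          have e3 : (B.card : ℝ) ^ j * (B.card : ℝ) ^ (r - j - 1) * (B.card : ℝ) * (K / B.card) =
              (B.card : ℝ) ^ j * ((B.card : ℝ) ^ (r - j - 1) * K) := by
            field_simp
          rw [e3]
          refine mul_le_mul_of_nonneg_left ?_ (by positivity)
          exact mul_le_mul_of_nonneg_right (pow_le_pow_left₀ h0 hKB _) h0
      _ = r * r ^ r * (B.card : ℝ) ^ r * (K / B.card) := by
          rw [sum_const, card_range, nsmul_eq_mul]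
          ring
      _ ≤ (r + 1) * r ^ r * (B.card : ℝ) ^ r * (K / B.card) := by
          have : (0 : ℝ) ≤ r ^ r * (B.card : ℝ) ^ r * (K / B.card) := by positivity
          nlinarith

end Pool.Agent.HLR
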