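import Pool.Agent.Lib.HLR.Upper
import Pool.Agent.Lib.HLR.Count

/-!
# Moment bounds

PROOF SKETCHES (`L = log x`). `moment_PP`: by `PP_small k (η/4)`, for `b ∈ Tup k B` (all `b i ≤ x`),
`PP^2 <= L^(2 (k - j) + η/2) = (L^2)^(k-j) L^(η/2)`, `j` the number of distinct values; apply `sum_few` to
`f b = PP^2 / L^(η/2)` with `K = L^2 <= |B|`; the constant `(k+1) k^k <= L^(η/2)`.
`noninj_PP`: the same with `sum_noninj`, gain `K / |B| <= L^2 / L^(2+δ) = L^(-δ)`.
`moment_QQ`: `QQ_small k A (η/2)`: each term is `<= L^η` (`card_Tup`). `noninj_QQ`: `sum_noninj` with `K = 1`,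
`f b = QQ^2 / L^(η/2)`, `1 / |B| <= L^(-2-δ)`.
-/

set_option autoImplicit false

open Finset Filter

namespace Pool.Agent.HLR

open Pool.Agent.HLB Pool.Agent.HLT

namespace MomentBound

lemma ev_log (c : ℝ) : ∀ᶠ x : ℕ in atTop, c ≤ Real.log x :=
  (Real.tendsto_log_atTop.comp tendsto_natCast_atTop_atTop).eventually_ge_atTop _

lemma ev_rpow (c : ℝ) {η : ℝ} (hη : 0 < η) : ∀ᶠ x : ℕ in atTop, c ≤ Real.log x ^ η :=
  ((tendsto_rpow_atTop hη).comp
    (Real.tendsto_log_atTop.comp tendsto_natCast_atTop_atTop)).eventually_ge_atTop _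

lemma few_PP (k : ℕ) {η : ℝ} (hη : 0 < η) : ∀ᶠ x : ℕ in atTop, ∀ B : Finset ℕ,
    (∀ b ∈ B, b ≤ x) → ∀ b ∈ Tup k B,
      PP x b ^ 2 / Real.log x ^ (η / 2) ≤ (Real.log x ^ 2) ^ (k - (univ.image b).card) := by
  filter_upwards [PP_small k (η := η / 4) (by positivity), ev_log 1] with x hP hL1 B hB b hb
  have hLpos : 0 < Real.log x := by linarith
  rw [mem_Tup] at hb
  have h := hP b (fun i => hB _ (hb i))
  have h0 := PP_nonneg x b
  rw [div_le_iff₀ (Real.rpow_pos_of_pos hLpos _)]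
  calc PP x b ^ 2 ≤ (Real.log x ^ (((k - (univ.image b).card : ℕ) : ℝ) + η / 4)) ^ 2 :=
        pow_le_pow_left₀ h0 h 2
    _ = (Real.log x ^ 2) ^ (k - (univ.image b).card) * Real.log x ^ (η / 2) := by
        rw [← Real.rpow_natCast, ← Real.rpow_mul hLpos.le, ← pow_mul, ← Real.rpow_natCast,
          ← Real.rpow_add hLpos]
        congr 1
        push_cast
        ring

end MomentBound

open MomentBound

theorem moment_PP (k : ℕ) {η : ℝ} (hη : 0 < η) : ∀ᶠ x : ℕ in atTop, ∀ B : Finset ℕ,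
    (∀ b ∈ B, b ≤ x) → Real.log x ^ 2 ≤ B.card →
      ∑ b ∈ Tup k B, PP x b ^ 2 ≤ (B.card : ℝ) ^ k * Real.log x ^ η := by
  filter_upwards [few_PP k hη, ev_log 1,
    ev_rpow (((k : ℝ) + 1) * (k : ℝ) ^ k) (η := η / 2) (by positivity)] with x hf hL1 hc B hB hBc
  have hLpos : 0 < Real.log x := by linarith
  have hpos : 0 < Real.log x ^ (η / 2) := Real.rpow_pos_of_pos hLpos _
  have h := sum_few k B (Real.log x ^ 2) (one_le_pow₀ hL1) hBc
    (fun b => PP x b ^ 2 / Real.log x ^ (η / 2)) (fun b hb => hf B hB b hb)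
  rw [← Finset.sum_div, div_le_iff₀ hpos] at h
  have h' : ∑ b ∈ Tup k B, PP x b ^ 2 ≤
      ((k : ℝ) + 1) * (k : ℝ) ^ k * (B.card : ℝ) ^ k * Real.log x ^ (η / 2) := h
  refine h'.trans ?_
  have e1 : Real.log x ^ η = Real.log x ^ (η / 2) * Real.log x ^ (η / 2) := by
    rw [← Real.rpow_add hLpos]
    congr 1
    ring
  rw [e1]
  have h3 : (0 : ℝ) ≤ (B.card : ℝ) ^ k := by positivity
  calc ((k : ℝ) + 1) * (k : ℝ) ^ k * (B.card : ℝ) ^ k * Real.log x ^ (η / 2)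
      ≤ Real.log x ^ (η / 2) * (B.card : ℝ) ^ k * Real.log x ^ (η / 2) := by
        gcongr
    _ = _ := by ring

theorem moment_QQ (k A : ℕ) {η : ℝ} (hη : 0 < η) : ∀ᶠ x : ℕ in atTop, ∀ B : Finset ℕ,
    ∑ b ∈ Tup k B, QQ (zA A x) x b ^ 2 ≤ (B.card : ℝ) ^ k * Real.log x ^ η := by
  filter_upwards [QQ_small k A (η := η / 2) (by positivity), ev_log 1] with x hQ hL1 B
  have hLpos : 0 < Real.log x := by linarith
  have h1 : ∀ b ∈ Tup k B, QQ (zA A x) x b ^ 2 ≤ Real.log x ^ η := by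
    intro b _
    calc QQ (zA A x) x b ^ 2 ≤ (Real.log x ^ (η / 2)) ^ 2 :=
          pow_le_pow_left₀ (QQ_nonneg _ _ _) (hQ b) 2
      _ = Real.log x ^ η := by
          rw [← Real.rpow_natCast, ← Real.rpow_mul hLpos.le]
          congr 1
          push_cast
          ring
  refine (Finset.sum_le_sum h1).trans ?_
  rw [Finset.sum_const, nsmul_eq_mul, card_Tup]
  push_cast
  exact le_refl _

theorem noninj_PP (r : ℕ) {δ η : ℝ} (hδ : 0 < δ) (hη : 0 < η) : ∀ᶠ x : ℕ in atTop,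
    ∀ B : Finset ℕ, (∀ b ∈ B, b ≤ x) → Real.log x ^ (2 + δ) ≤ B.card →
      ∑ b ∈ (Tup r B).filter (fun b => ¬ Function.Injective b), PP x b ^ 2 ≤
        (B.card : ℝ) ^ r * Real.log x ^ (η - δ) := by
  filter_upwards [few_PP r hη, ev_log 1,
    ev_rpow (((r : ℝ) + 1) * (r : ℝ) ^ r) (η := η / 2) (by positivity)] with x hf hL1 hc B hB hBc
  have hLpos : 0 < Real.log x := by linarith
  have hpos : 0 < Real.log x ^ (η / 2) := Real.rpow_pos_of_pos hLpos _
  have e2 : Real.log x ^ (2 + δ) = Real.log x ^ 2 * Real.log x ^ δ := by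
    rw [Real.rpow_add hLpos, Real.rpow_two]
  have hd1 : 1 ≤ Real.log x ^ δ := Real.one_le_rpow hL1 hδ.le
  have hdpos : 0 < Real.log x ^ δ := by linarith
  have hKB : Real.log x ^ 2 ≤ B.card := by
    refine le_trans ?_ hBc
    rw [e2]
    exact le_mul_of_one_le_right (by positivity) hd1
  have hBpos : (0 : ℝ) < B.card := lt_of_lt_of_le (by positivity) hKB
  have h := sum_noninj r B (Real.log x ^ 2) (one_le_pow₀ hL1) hKB
    (fun b => PP x b ^ 2 / Real.log x ^ (η / 2)) (fun b hb => hf B hB b hb)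
  rw [← Finset.sum_div, div_le_iff₀ hpos] at h
  have h' : ∑ b ∈ (Tup r B).filter (fun b => ¬ Function.Injective b), PP x b ^ 2 ≤
      ((r : ℝ) + 1) * (r : ℝ) ^ r * (B.card : ℝ) ^ r * (Real.log x ^ 2 / B.card) *
        Real.log x ^ (η / 2) := h
  refine h'.trans ?_
  have h4 : Real.log x ^ 2 / B.card ≤ (Real.log x ^ δ)⁻¹ := by
    rw [div_le_iff₀ hBpos, inv_mul_eq_div, le_div_iff₀ hdpos, ← e2]
    exact hBc
  have e1 : Real.log x ^ (η - δ) = Real.log x ^ (η / 2) * Real.log x ^ (η / 2) *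
      (Real.log x ^ δ)⁻¹ := by
    rw [← Real.rpow_neg hLpos.le, ← Real.rpow_add hLpos, ← Real.rpow_add hLpos]
    congr 1
    ring
  rw [e1]
  calc ((r : ℝ) + 1) * (r : ℝ) ^ r * (B.card : ℝ) ^ r * (Real.log x ^ 2 / B.card) *
        Real.log x ^ (η / 2)
      ≤ Real.log x ^ (η / 2) * (B.card : ℝ) ^ r * (Real.log x ^ δ)⁻¹ * Real.log x ^ (η / 2) := by
        gcongr
    _ = _ := by ring

theorem noninj_QQ (r A : ℕ) {δ η : ℝ} (hδ : 0 < δ) (hη : 0 < η) : ∀ᶠ x : ℕ in atTop,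
    ∀ B : Finset ℕ, (∀ b ∈ B, b ≤ x) → Real.log x ^ (2 + δ) ≤ B.card →
      ∑ b ∈ (Tup r B).filter (fun b => ¬ Function.Injective b), QQ (zA A x) x b ^ 2 ≤
        (B.card : ℝ) ^ r * Real.log x ^ (η - δ) := by
  filter_upwards [QQ_small r A (η := η / 4) (by positivity), ev_log 1,
    ev_rpow (((r : ℝ) + 1) * (r : ℝ) ^ r) (η := η / 2) (by positivity)] with x hQ hL1 hc B hB hBc
  have hLpos : 0 < Real.log x := by linarith
  have hpos : 0 < Real.log x ^ (η / 2) := Real.rpow_pos_of_pos hLpos _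
  have e2 : Real.log x ^ (2 + δ) = Real.log x ^ 2 * Real.log x ^ δ := by
    rw [Real.rpow_add hLpos, Real.rpow_two]
  have hd1 : 1 ≤ Real.log x ^ δ := Real.one_le_rpow hL1 hδ.le
  have hdpos : 0 < Real.log x ^ δ := by linarith
  have hL2 : 1 ≤ Real.log x ^ 2 := one_le_pow₀ hL1
  have hKB : (1 : ℝ) ≤ B.card := by
    refine le_trans ?_ hBc
    rw [e2]
    exact one_le_mul_of_one_le_of_one_le hL2 hd1
  have hBpos : (0 : ℝ) < B.card := by linarith
  have h := sum_noninj r B 1 (le_refl _) hKB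
    (fun b => QQ (zA A x) x b ^ 2 / Real.log x ^ (η / 2)) (fun b _ => by
      rw [one_pow, div_le_one hpos]
      calc QQ (zA A x) x b ^ 2 ≤ (Real.log x ^ (η / 4)) ^ 2 :=
            pow_le_pow_left₀ (QQ_nonneg _ _ _) (hQ b) 2
        _ = Real.log x ^ (η / 2) := by
            rw [← Real.rpow_natCast, ← Real.rpow_mul hLpos.le]
            congr 1
            push_cast
            ring)
  rw [← Finset.sum_div, div_le_iff₀ hpos] at h
  have h' : ∑ b ∈ (Tup r B).filter (fun b => ¬ Function.Injective b), QQ (zA A x) x b ^ 2 ≤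
      ((r : ℝ) + 1) * (r : ℝ) ^ r * (B.card : ℝ) ^ r * (1 / B.card) *
        Real.log x ^ (η / 2) := h
  refine h'.trans ?_
  have h4 : 1 / (B.card : ℝ) ≤ (Real.log x ^ δ)⁻¹ := by
    rw [one_div]
    apply inv_anti₀ hdpos
    refine le_trans ?_ hBc
    rw [e2]
    exact le_mul_of_one_le_left hdpos.le hL2
  have e1 : Real.log x ^ (η - δ) = Real.log x ^ (η / 2) * Real.log x ^ (η / 2) *
      (Real.log x ^ δ)⁻¹ := by
    rw [← Real.rpow_neg hLpos.le, ← Real.rpow_add hLpos, ← Real.rpow_add hLpos]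
    congr 1
    ring
  rw [e1]
  calc ((r : ℝ) + 1) * (r : ℝ) ^ r * (B.card : ℝ) ^ r * (1 / B.card) *
        Real.log x ^ (η / 2)
      ≤ Real.log x ^ (η / 2) * (B.card : ℝ) ^ r * (Real.log x ^ δ)⁻¹ * Real.log x ^ (η / 2) := by
        gcongr
    _ = _ := by ring

end Pool.Agent.HLR
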