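import Pool.Agent.Lib.HLR.Upper

/-!
# From the weighted mean to the number of prime tuples

`L = log x`, `pin x t = piT x t L^r / x`. For `n` counted by `piT` with `n > x / L^(r+2)`:
`L - (r+2) log L <= log (n + t i) <= log (2 x)`, so `|∏ log (n + t i) - L^r| <= δ L^r`, `δ = r (r+2) log L / L`.
The `n <= x / L^(r+2)` contribute at most `(x / L^(r+2)) (2L)^r`. So `|PP x t - pin x t| <= 2^r / L^2 + 2 δ PP x t` and
`PP x t <= L^(1/8)` by `PP_inj_small`.
-/

set_option autoImplicit false

open Finset Filter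

namespace Pool.Agent.HLR

open Pool.Agent.HLB Pool.Agent.HLT

namespace ToPiAux

/-- the two powers -/
lemma pow_bounds (r : ℕ) {L l : ℝ} (hL : 2 ≤ L) (hl : 1 ≤ l)
    (h1 : ((r : ℝ) + 2) * l / L ≤ 1) (h2 : (r : ℝ) * Real.log 2 / L ≤ 1 / 2) :
    (L + Real.log 2) ^ r ≤ (1 + r * (r + 2) * l / L) * L ^ r ∧
      (1 - r * (r + 2) * l / L) * L ^ r ≤ (L - (r + 2) * l) ^ r := by
  have hL0 : 0 < L := by linarith
  have hlog2 : Real.log 2 ≤ 1 := by
    have := Real.log_two_lt_d9
    linarith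
  have hlog20 : 0 < Real.log 2 := Real.log_pos (by norm_num)
  constructor
  · set v : ℝ := Real.log 2 / L with hv
    have hv0 : 0 ≤ v := by positivity
    have hv1 : v ≤ 1 := by
      rw [hv, div_le_one hL0]
      linarith
    have hrv : r * v ≤ 1 / 2 := by
      rw [hv, ← mul_div_assoc]
      exact h2
    have hB : 1 + (r : ℝ) * (-v) ≤ (1 + (-v)) ^ r := one_add_mul_le_pow (by linarith) r
    have h3 : (1 + v) ^ r * (1 - r * v) ≤ 1 := by
      calc (1 + v) ^ r * (1 - r * v) ≤ (1 + v) ^ r * (1 + (-v)) ^ r := by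
            apply mul_le_mul_of_nonneg_left _ (by positivity)
            linarith only [hB]
        _ = (1 - v ^ 2) ^ r := by
            rw [← mul_pow]
            congr 1
            ring
        _ ≤ 1 := by
            apply pow_le_one₀
            · nlinarith only [hv0, hv1]
            · nlinarith
    have h4 : (1 + v) ^ r ≤ 1 + 2 * (r * v) := by
      have h5 : 0 < 1 - r * v := by linarith only [hrv]
      have h6 : 1 ≤ (1 + 2 * (r * v)) * (1 - r * v) := by
        have h7 : 0 ≤ r * v := by positivity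
        nlinarith only [hrv, h7]
      exact le_of_mul_le_mul_right (h3.trans h6) h5
    have h8 : (L + Real.log 2) ^ r = (1 + v) ^ r * L ^ r := by
      rw [← mul_pow]
      congr 1
      rw [hv]
      field_simp
    rw [h8]
    apply mul_le_mul_of_nonneg_right _ (by positivity)
    refine h4.trans ?_
    have h9 : 2 * (r * v) ≤ r * (r + 2) * l / L := by
      rw [hv, ← mul_div_assoc, ← mul_div_assoc]
      apply div_le_div_of_nonneg_right _ hL0.le
      have h10 : (0 : ℝ) ≤ r := Nat.cast_nonneg r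
      have h11 : Real.log 2 * 2 ≤ (r + 2) * l := by nlinarith only [hl, hlog2]
      nlinarith only [h11]
    linarith only [h9]
  · set w : ℝ := (r + 2) * l / L with hw
    have hw0 : 0 ≤ w := by positivity
    have hB : 1 + (r : ℝ) * (-w) ≤ (1 + (-w)) ^ r := one_add_mul_le_pow (by linarith) r
    have h8 : (L - (r + 2) * l) ^ r = (1 + (-w)) ^ r * L ^ r := by
      rw [← mul_pow]
      congr 1
      rw [hw]
      field_simp
      ring
    rw [h8]
    apply mul_le_mul_of_nonneg_right _ (by positivity)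
    have h9 : r * (r + 2) * l / L = r * w := by
      rw [hw]
      ring
    rw [h9]
    linarith only [hB]

end ToPiAux

open ToPiAux in
theorem pin_close (r : ℕ) : ∀ᶠ x : ℕ in atTop, ∀ t : Fin r → ℕ, Function.Injective t →
    (∀ i, t i ≤ x) → |PP x t - pin x t| ≤ 1 / Real.log x ^ (1 / 2 : ℝ) := by
  classical
  -- conditions on `L`
  have c1 : ∀ᶠ L : ℝ in atTop, (2 : ℝ) ^ (r + 1) ≤ L := eventually_ge_atTop _
  have c2 : ∀ᶠ L : ℝ in atTop, 4 * ((r : ℝ) * (r + 2)) * Real.log L ≤ L ^ (3 / 8 : ℝ) := by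
    have h := (isLittleO_log_rpow_atTop (by norm_num : (0 : ℝ) < 3 / 8)).bound
      (show (0 : ℝ) < 1 / (4 * ((r : ℝ) * (r + 2)) + 1) by positivity)
    filter_upwards [h, eventually_ge_atTop 1] with L hL hL1
    rw [Real.norm_of_nonneg (Real.log_nonneg hL1), Real.norm_of_nonneg (by positivity)] at hL
    have h1 : (4 * ((r : ℝ) * (r + 2)) + 1) * Real.log L ≤ L ^ (3 / 8 : ℝ) := by
      have hc0 : (0 : ℝ) < 4 * ((r : ℝ) * (r + 2)) + 1 := by positivity
      have h2 := mul_le_mul_of_nonneg_left hL hc0.le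
      have h4 : (4 * ((r : ℝ) * (r + 2)) + 1) * (1 / (4 * ((r : ℝ) * (r + 2)) + 1)
          * L ^ (3 / 8 : ℝ)) = L ^ (3 / 8 : ℝ) := by
        rw [← mul_assoc, mul_one_div_cancel hc0.ne', one_mul]
      linarith
    have h3 : 0 ≤ Real.log L := Real.log_nonneg hL1
    nlinarith only [h1, h3]
  have c3 : ∀ᶠ L : ℝ in atTop, ((r : ℝ) + 2) * Real.log L / L ≤ 1 := by
    have h0 : Tendsto (fun L : ℝ => ((r : ℝ) + 2) * (Real.log L / L)) atTop
        (nhds (((r : ℝ) + 2) * 0)) :=
      (Real.isLittleO_log_id_atTop.tendsto_div_nhds_zero).const_mul _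
    rw [mul_zero] at h0
    filter_upwards [h0.eventually_lt_const one_pos] with L hL
    rw [mul_div_assoc]
    exact hL.le
  have c4 : ∀ᶠ L : ℝ in atTop, (r : ℝ) * Real.log 2 / L ≤ 1 / 2 := by
    have h0 : Tendsto (fun L : ℝ => ((r : ℝ) * Real.log 2) / L) atTop (nhds 0) :=
      Tendsto.const_div_atTop tendsto_id _
    exact (h0.eventually_lt_const (by norm_num)).mono fun L hL => hL.le
  have c5 : ∀ᶠ L : ℝ in atTop, (r : ℝ) * (r + 2) * Real.log L / L ≤ 1 / 2 := by
    have h0 : Tendsto (fun L : ℝ => ((r : ℝ) * (r + 2)) * (Real.log L / L)) atTop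
        (nhds (((r : ℝ) * (r + 2)) * 0)) :=
      (Real.isLittleO_log_id_atTop.tendsto_div_nhds_zero).const_mul _
    rw [mul_zero] at h0
    filter_upwards [h0.eventually_lt_const (show (0 : ℝ) < 1 / 2 by norm_num)] with L hL
    rw [mul_div_assoc]
    exact hL.le
  filter_upwards [wt_log_atTop.eventually c1, wt_log_atTop.eventually c2,
    wt_log_atTop.eventually c3, wt_log_atTop.eventually c4, wt_log_atTop.eventually c5,
    wt_log_atTop.eventually_ge_atTop 3, eventually_ge_atTop 2,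
    PP_inj_small r (show (0 : ℝ) < 1 / 8 by norm_num)]
    with x d1 d2 d3 d4 d5 hL3 hx2 hPP t htinj ht
  set L := Real.log (x : ℝ) with hLdef
  have hxR : (0 : ℝ) < x := by exact_mod_cast (by omega : 0 < x)
  have hL0 : 0 < L := by linarith only [hL3]
  set l := Real.log L with hl
  have hl1 : 1 ≤ l := by
    rw [hl, Real.le_log_iff_exp_le hL0]
    have := Real.exp_one_lt_d9
    linarith only [hL3, this]
  obtain ⟨hU, hM⟩ := pow_bounds r (by linarith only [hL3]) hl1 d3 d4
  set δ : ℝ := r * (r + 2) * l / L with hδ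
  have hδ0 : 0 ≤ δ := by positivity
  set U := L + Real.log 2 with hUdef
  set M := L - (r + 2) * l with hMdef
  have hlog20 : 0 < Real.log 2 := Real.log_pos (by norm_num)
  have hlog2 : Real.log 2 ≤ 1 := by
    have := Real.log_two_lt_d9
    linarith only [hlog20, this]
  have hM0 : 0 ≤ M := by
    rw [hMdef]
    rw [div_le_one hL0] at d3
    linarith only [d3]
  set G := (Icc 1 x).filter (fun n : ℕ => ∀ i, (n + t i).Prime) with hG
  have hsum : ∑ n ∈ Icc 1 x, ∏ i, lp (n + t i) = ∑ n ∈ G, ∏ i, Real.log ((n + t i : ℕ) : ℝ) := by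
    rw [hG, Finset.sum_filter]
    apply Finset.sum_congr rfl
    intro n _
    split_ifs with h
    · apply Finset.prod_congr rfl
      intro i _
      rw [HLT.lp, if_pos (h i)]
    · push Not at h
      obtain ⟨i, hi⟩ := h
      apply Finset.prod_eq_zero (Finset.mem_univ i)
      rw [HLT.lp, if_neg hi]
  have hPPe : PP x t = (∑ n ∈ G, ∏ i, Real.log ((n + t i : ℕ) : ℝ)) / x := by
    unfold PP Av
    rw [hsum]
  have hpine : pin x t = (G.card : ℝ) * L ^ r / x := by
    unfold pin
    have hpi : (piT x t : ℝ) = (G.card : ℝ) := rfl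
    rw [hpi, ← hLdef, div_div_eq_mul_div]
  set y : ℝ := x / L ^ (r + 2) with hy
  have hy0 : 0 < y := by (clear * - hx2 hL3; positivity)
  have hly : Real.log y = M := by
    rw [hy, Real.log_div hxR.ne' (by (clear * - hL3; positivity)), Real.log_pow, hMdef]
    push_cast
    ring
  have hupn : ∀ n ∈ G, ∏ i, Real.log ((n + t i : ℕ) : ℝ) ≤ U ^ r := by
    intro n hn
    rw [hG, Finset.mem_filter, Finset.mem_Icc] at hn
    have hl2 : Real.log ((2 * x : ℕ) : ℝ) = U := by
      push_cast
      rw [Real.log_mul (by norm_num) hxR.ne', hUdef, add_comm]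
    calc ∏ i, Real.log ((n + t i : ℕ) : ℝ) ≤ ∏ _i : Fin r, U := by
          apply Finset.prod_le_prod
          · intro i _
            exact Real.log_natCast_nonneg _
          · intro i _
            rw [← hl2]
            apply Real.log_le_log
            · have := (hn.2 i).pos
              exact_mod_cast this
            · have := ht i
              exact_mod_cast (by omega : n + t i ≤ 2 * x)
      _ = U ^ r := by simp
  have hlown : ∀ n ∈ G, y < n → M ^ r ≤ ∏ i, Real.log ((n + t i : ℕ) : ℝ) := by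
    intro n _ hn
    calc M ^ r = ∏ _i : Fin r, M := by simp
      _ ≤ ∏ i, Real.log ((n + t i : ℕ) : ℝ) := by
          apply Finset.prod_le_prod
          · intro i _
            exact hM0
          · intro i _
            rw [← hly]
            apply Real.log_le_log hy0
            push_cast
            have : (0 : ℝ) ≤ (t i : ℝ) := Nat.cast_nonneg _
            linarith only [hn]
  have hnn : ∀ n, 0 ≤ ∏ i, Real.log ((n + t i : ℕ) : ℝ) := fun n =>
    Finset.prod_nonneg fun i _ => Real.log_natCast_nonneg _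
  -- the pointwise bound
  have hpt : ∀ n ∈ G, |∏ i, Real.log ((n + t i : ℕ) : ℝ) - L ^ r| ≤
      (if (n : ℝ) ≤ y then U ^ r else 0) + 2 * δ * ∏ i, Real.log ((n + t i : ℕ) : ℝ) := by
    intro n hn
    have hLU : L ^ r ≤ U ^ r := pow_le_pow_left₀ hL0.le (by linarith only [hlog20]) r
    have hLr : 0 < L ^ r := by (clear * - hL3; positivity)
    by_cases hny : (n : ℝ) ≤ y
    · rw [if_pos hny, abs_le]
      have h1 := hupn n hn
      have h2 := hnn n
      have h3 : 0 ≤ 2 * δ * ∏ i, Real.log ((n + t i : ℕ) : ℝ) := by (clear * - hL3 hl1; positivity)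
      constructor <;> linarith only [hLU, h2, h3, hLr, h1]
    · rw [if_neg hny, zero_add]
      push Not at hny
      have h1 := hupn n hn
      have h2 := hlown n hn hny
      have h4 : L ^ r ≤ 2 * ∏ i, Real.log ((n + t i : ℕ) : ℝ) := by
        have h5 : (1 / 2) * L ^ r ≤ (1 - δ) * L ^ r :=
          mul_le_mul_of_nonneg_right (by linarith only [d5]) hLr.le
        linarith only [hM, h2, h5]
      have h6 : δ * L ^ r ≤ 2 * δ * ∏ i, Real.log ((n + t i : ℕ) : ℝ) := by
        have := mul_le_mul_of_nonneg_left h4 hδ0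
        linarith only [this]
      rw [abs_le]
      constructor
      · linarith only [hM, h2, h6]
      · linarith only [hU, h1, h6]
  have hcount : ((G.filter (fun n : ℕ => (n : ℝ) ≤ y)).card : ℝ) ≤ y := by
    have hsub : G.filter (fun n : ℕ => (n : ℝ) ≤ y) ⊆ Icc 1 ⌊y⌋₊ := by
      intro n hn
      rw [Finset.mem_filter, hG, Finset.mem_filter, Finset.mem_Icc] at hn
      rw [Finset.mem_Icc]
      exact ⟨hn.1.1.1, Nat.le_floor hn.2⟩
    have := Finset.card_le_card hsub
    rw [Nat.card_Icc] at this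
    have h3 : ((G.filter (fun n : ℕ => (n : ℝ) ≤ y)).card : ℝ) ≤ (⌊y⌋₊ : ℝ) := by
      exact_mod_cast (by omega : (G.filter (fun n : ℕ => (n : ℝ) ≤ y)).card ≤ ⌊y⌋₊)
    exact h3.trans (Nat.floor_le hy0.le)
  have htot : |(∑ n ∈ G, ∏ i, Real.log ((n + t i : ℕ) : ℝ)) - (G.card : ℝ) * L ^ r| ≤
      y * U ^ r + 2 * δ * ∑ n ∈ G, ∏ i, Real.log ((n + t i : ℕ) : ℝ) := by
    have e1 : (∑ n ∈ G, ∏ i, Real.log ((n + t i : ℕ) : ℝ)) - (G.card : ℝ) * L ^ r =
        ∑ n ∈ G, (∏ i, Real.log ((n + t i : ℕ) : ℝ) - L ^ r) := by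
      rw [Finset.sum_sub_distrib, Finset.sum_const, nsmul_eq_mul]
    rw [e1]
    refine (Finset.abs_sum_le_sum_abs _ _).trans ((Finset.sum_le_sum hpt).trans ?_)
    rw [Finset.sum_add_distrib, ← Finset.mul_sum, ← Finset.sum_filter, Finset.sum_const,
      nsmul_eq_mul]
    have := mul_le_mul_of_nonneg_right hcount (show 0 ≤ U ^ r by (clear * - hL3; positivity))
    linarith only [this]
  have hmain : |PP x t - pin x t| ≤ y * U ^ r / x + 2 * δ * PP x t := by
    rw [hPPe, hpine, ← sub_div, abs_div, abs_of_pos hxR, div_le_iff₀ hxR, add_mul,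
      div_mul_cancel₀ _ hxR.ne', mul_assoc (2 * δ), div_mul_cancel₀ _ hxR.ne']
    exact htot
  have hP := hPP t htinj ht
  have hP0 := PP_nonneg x t
  refine hmain.trans ?_
  -- first term
  have hL12 : 0 < L ^ (1 / 2 : ℝ) := Real.rpow_pos_of_pos hL0 _
  have t1 : y * U ^ r / x ≤ 1 / 2 * (1 / L ^ (1 / 2 : ℝ)) := by
    have h1 : y * U ^ r / x = U ^ r / L ^ (r + 2) := by
      rw [hy]
      field_simp
    have h2 : U ^ r ≤ 2 ^ r * L ^ r := by
      rw [← mul_pow]
      exact pow_le_pow_left₀ (by linarith only [hL3, hlog20]) (by linarith only [hL3, hlog2]) r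
    have h3 : U ^ r / L ^ (r + 2) ≤ 2 ^ r / L ^ 2 := by
      rw [div_le_div_iff₀ (by (clear * - hL3; positivity)) (by (clear * - hL3; positivity))]
      calc U ^ r * L ^ 2 ≤ 2 ^ r * L ^ r * L ^ 2 := mul_le_mul_of_nonneg_right h2 (by (clear * - hL3; positivity))
        _ = 2 ^ r * L ^ (r + 2) := by ring
    have h4 : L ^ (1 / 2 : ℝ) ≤ L := by
      calc L ^ (1 / 2 : ℝ) ≤ L ^ (1 : ℝ) :=
            Real.rpow_le_rpow_of_exponent_le (by linarith only [hL3]) (by norm_num)
        _ = L := Real.rpow_one L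
    rw [h1]
    refine h3.trans ?_
    rw [one_div_mul_one_div, div_le_div_iff₀ (by (clear * - hL3; positivity)) (by (clear * - hL3; positivity)), one_mul]
    have h5 : (2 : ℝ) ^ r * 2 ≤ L := by
      rw [← pow_succ]
      exact d1
    calc (2 : ℝ) ^ r * (2 * L ^ (1 / 2 : ℝ)) = (2 ^ r * 2) * L ^ (1 / 2 : ℝ) := by ring
      _ ≤ L * L := mul_le_mul h5 h4 hL12.le hL0.le
      _ = L ^ 2 := by ring
  have t2 : 2 * δ * PP x t ≤ 1 / 2 * (1 / L ^ (1 / 2 : ℝ)) := by
    have h1 : 2 * δ * PP x t ≤ 2 * δ * L ^ (1 / 8 : ℝ) :=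
      mul_le_mul_of_nonneg_left hP (by (clear * - hL3 hl1; positivity))
    refine h1.trans ?_
    have h2 : 2 * δ ≤ 1 / 2 * (L ^ (3 / 8 : ℝ) / L) := by
      rw [hδ, mul_div_assoc', mul_div_assoc']
      apply div_le_div_of_nonneg_right _ hL0.le
      linarith only [d2]
    calc 2 * δ * L ^ (1 / 8 : ℝ) ≤ 1 / 2 * (L ^ (3 / 8 : ℝ) / L) * L ^ (1 / 8 : ℝ) :=
          mul_le_mul_of_nonneg_right h2 (by (clear * - hL3; positivity))
      _ = 1 / 2 * (1 / L ^ (1 / 2 : ℝ)) := by
          have h3 : L ^ (3 / 8 : ℝ) / L * L ^ (1 / 8 : ℝ) = 1 / L ^ (1 / 2 : ℝ) := by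
            rw [div_mul_eq_mul_div, ← Real.rpow_add hL0, div_eq_div_iff hL0.ne' hL12.ne', one_mul,
              ← Real.rpow_add hL0]
            norm_num
          rw [mul_assoc, h3]
  linarith only [t1, t2]

end Pool.Agent.HLR
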