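import Pool.Agent.Lib.HLR.Close
import Pool.Agent.Lib.HLR.MomentBound
import Pool.Agent.Lib.HLR.ToPi
import Pool.Agent.Lib.HLR.Convex

/-!
# The convexity defect of the moments
-/

set_option autoImplicit false

open Finset Filter

namespace Pool.Agent.HLR

open Pool.Agent.HLB Pool.Agent.HLT

lemma sq_close {a b e M : ℝ} (h : |a - b| ≤ e) (ha0 : 0 ≤ a) (haM : a ≤ M) :
    |a ^ 2 - b ^ 2| ≤ e * (2 * M + e) := by
  have h1 : a ^ 2 - b ^ 2 = (a - b) * (2 * a - (a - b)) := by ring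
  have h2 : |2 * a - (a - b)| ≤ 2 * M + e := by
    refine (abs_sub _ _).trans ?_
    rw [abs_of_nonneg (by linarith : (0 : ℝ) ≤ 2 * a)]
    linarith
  rw [h1, abs_mul]
  exact mul_le_mul h h2 (abs_nonneg _) ((abs_nonneg _).trans h)

lemma moment_comb (r z x : ℕ) (hx : 1 ≤ x) (B : Finset ℕ) :
    ∑ w ∈ Om x, (SS lp lp B w ^ (r + 1) - (r + 1) * (SS lp lp B w * SS (nuz z) (nuz z) B w ^ r) +
        r * SS (nuz z) (nuz z) B w ^ (r + 1)) =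
      (x : ℝ) ^ 2 * (∑ b ∈ Tup (r + 1) B, PP x b ^ 2 - (r + 1) * ∑ b ∈ Tup (r + 1) B, RR z x b ^ 2 +
        r * ∑ b ∈ Tup (r + 1) B, QQ z x b ^ 2) := by
  rw [Finset.sum_add_distrib, Finset.sum_sub_distrib, ← Finset.mul_sum, ← Finset.mul_sum,
    moment_pow (r + 1) x hx, moment_mixed r x hx, moment_pow (r + 1) x hx]
  have h1 : ∑ b ∈ Tup (r + 1) B, Av x (fun _ : Fin (r + 1) => HLT.lp) b *
      Av x (fun _ : Fin (r + 1) => HLT.lp) b = ∑ b ∈ Tup (r + 1) B, PP x b ^ 2 :=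
    Finset.sum_congr rfl fun b _ => (sq _).symm
  have h2 : ∑ b ∈ Tup (r + 1) B, Av x (Fin.cons HLT.lp (fun _ : Fin r => nuz z)) b *
      Av x (Fin.cons HLT.lp (fun _ : Fin r => nuz z)) b = ∑ b ∈ Tup (r + 1) B, RR z x b ^ 2 :=
    Finset.sum_congr rfl fun b _ => (sq _).symm
  have h3 : ∑ b ∈ Tup (r + 1) B, Av x (fun _ : Fin (r + 1) => nuz z) b *
      Av x (fun _ : Fin (r + 1) => nuz z) b = ∑ b ∈ Tup (r + 1) B, QQ z x b ^ 2 :=
    Finset.sum_congr rfl fun b _ => (sq _).symm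
  rw [h1, h2, h3]
  ring

lemma sum_Tup_split (r : ℕ) (B : Finset ℕ) (f : (Fin r → ℕ) → ℝ) :
    ∑ b ∈ Tup r B, f b = ∑ b ∈ Inj r B, f b +
      ∑ b ∈ (Tup r B).filter (fun b => ¬ Function.Injective b), f b := by
  classical
  rw [← Finset.sum_filter_add_sum_filter_not (Tup r B) Function.Injective]
  congr 1

lemma mem_Inj {r : ℕ} {B : Finset ℕ} {b : Fin r → ℕ} :
    b ∈ Inj r B ↔ b ∈ Tup r B ∧ Function.Injective b := by
  unfold Inj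
  rw [Finset.mem_filter]

lemma card_Inj_le (r : ℕ) (B : Finset ℕ) : ((Inj r B).card : ℝ) ≤ (B.card : ℝ) ^ r := by
  have h : (Inj r B).card ≤ (Tup r B).card :=
    Finset.card_le_card fun b hb => (mem_Inj.1 hb).1
  rw [card_Tup] at h
  exact_mod_cast h

/-- the main comparison -/
theorem defect_core (r : ℕ) {δ : ℝ} (hδ : 0 < δ) (hδ1 : δ ≤ 1 / 4) : ∃ A0 : ℕ, ∀ A : ℕ, A0 ≤ A →
    ∀ᶠ x : ℕ in atTop, ∀ B : Finset ℕ, (∀ b ∈ B, b ≤ x) → Real.log x ^ (2 + δ) ≤ B.card →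
      ∑ b ∈ Tup (r + 1) B, PP x b ^ 2 - (r + 1) * ∑ b ∈ Tup (r + 1) B, RR (zA A x) x b ^ 2 +
        r * ∑ b ∈ Tup (r + 1) B, QQ (zA A x) x b ^ 2 ≤
      ∑ b ∈ Inj (r + 1) B, pin x b ^ 2 - ∑ b ∈ Inj (r + 1) B, SI b ^ 2 +
        (B.card : ℝ) ^ (r + 1) * (1 / Real.log x ^ (δ / 2) - 1 / Real.log x ^ δ) := by
  obtain ⟨A0, hA0⟩ := QQ_close (r + 1) 2 (Nat.le_add_left 1 r)
  refine ⟨A0, fun A hA => ?_⟩
  have hlim : Tendsto (fun n : ℕ => Real.log (n : ℝ)) atTop atTop :=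
    Real.tendsto_log_atTop.comp tendsto_natCast_atTop_atTop
  have hη : 0 < δ / 8 := by positivity
  have hpow : ∀ᶠ x : ℕ in atTop, ((r : ℝ) + 7) ≤ Real.log x ^ (3 * δ / 8) :=
    (tendsto_rpow_atTop (by positivity : 0 < 3 * δ / 8)).comp hlim |>.eventually_ge_atTop _
  filter_upwards [hA0 A hA, RR_close r A 2, QQ_small (r + 1) A (by norm_num : (0 : ℝ) < 1 / 2),
    pin_close (r + 1), PP_inj_small (r + 1) hη, noninj_PP (r + 1) hδ hη, hpow,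
    hlim.eventually_ge_atTop 9, eventually_gt_atTop 0]
    with x hQS hRQ hQ hpin hPI hnon hpw hL9 hx0
  intro B hB hBc
  set L := Real.log (x : ℝ) with hL
  set z := zA A x with hz
  have hL0 : 0 < L := by linarith only [hδ, hδ1, hL9]
  have hL1 : 1 ≤ L := by linarith only [hδ, hδ1, hL9]
  have hβ0 : (0 : ℝ) ≤ (B.card : ℝ) ^ (r + 1) := by positivity
  have hbx : ∀ b ∈ Tup (r + 1) B, ∀ i, b i ≤ x := fun b hb i => hB _ (mem_Tup.1 hb i)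
  -- the small error
  have hsmall : 1 / L ^ 2 * (2 * L ^ (1 / 2 : ℝ) + 1 / L ^ 2) ≤ 1 / L := by
    have hs : L ^ (1 / 2 : ℝ) * L ^ (1 / 2 : ℝ) = L := by
      rw [← Real.rpow_add hL0]
      norm_num
    have hs3 : 3 ≤ L ^ (1 / 2 : ℝ) := by
      have h9 : (3 : ℝ) = 9 ^ (1 / 2 : ℝ) := by
        rw [← Real.sqrt_eq_rpow]
        rw [show (9 : ℝ) = 3 ^ 2 by norm_num, Real.sqrt_sq (by norm_num)]
      rw [h9]
      exact Real.rpow_le_rpow (by norm_num) hL9 (by norm_num)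
    have h1 : 1 / L ^ 2 ≤ 1 := by
      rw [div_le_one (by (clear * - hL9; positivity))]
      nlinarith only [hδ, hδ1, hL9]
    have h2 : 2 * L ^ (1 / 2 : ℝ) + 1 / L ^ 2 ≤ L := by nlinarith only [hδ, hδ1, hL9, hs, hs3, h1]
    calc 1 / L ^ 2 * (2 * L ^ (1 / 2 : ℝ) + 1 / L ^ 2) ≤ 1 / L ^ 2 * L :=
          mul_le_mul_of_nonneg_left h2 (by (clear * - hL9; positivity))
      _ = 1 / L := by field_simp
  -- first comparison
  have hE1 : ∀ b ∈ Tup (r + 1) B, QQ z x b ^ 2 - RR z x b ^ 2 ≤ 1 / L := by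
    intro b hb
    have h1 := hRQ b (hbx b hb)
    rw [abs_sub_comm] at h1
    exact (le_abs_self _).trans ((sq_close h1 (QQ_nonneg z x b) (hQ b)).trans hsmall)
  have hS1 : ∑ b ∈ Tup (r + 1) B, QQ z x b ^ 2 - ∑ b ∈ Tup (r + 1) B, RR z x b ^ 2 ≤
      (B.card : ℝ) ^ (r + 1) * (1 / L) := by
    rw [← Finset.sum_sub_distrib]
    refine (Finset.sum_le_sum hE1).trans ?_
    rw [Finset.sum_const, nsmul_eq_mul, card_Tup]
    push_cast
    exact le_rfl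
  -- the injective tuples
  have hE2 : ∀ b ∈ Inj (r + 1) B, PP x b ^ 2 ≤ pin x b ^ 2 + 3 * L ^ (δ / 8 - 1 / 2) := by
    intro b hb
    rw [mem_Inj] at hb
    have h1 := sq_close (hpin b hb.2 (hbx b hb.1)) (PP_nonneg x b) (hPI b hb.2 (hbx b hb.1))
    have hM1 : 1 ≤ L ^ (δ / 8) := Real.one_le_rpow hL1 hη.le
    have he1 : 1 / L ^ (1 / 2 : ℝ) ≤ 1 := by
      rw [div_le_one (by (clear * - hL9; positivity))]
      exact Real.one_le_rpow hL1 (by norm_num)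
    have h2 : 1 / L ^ (1 / 2 : ℝ) * (2 * L ^ (δ / 8) + 1 / L ^ (1 / 2 : ℝ)) ≤
        3 * L ^ (δ / 8 - 1 / 2) := by
      rw [Real.rpow_sub hL0]
      have : 3 * (L ^ (δ / 8) / L ^ (1 / 2 : ℝ)) = 1 / L ^ (1 / 2 : ℝ) * (3 * L ^ (δ / 8)) := by
        ring
      rw [this]
      apply mul_le_mul_of_nonneg_left _ (by (clear * - hL9; positivity))
      linarith only [hM1, he1]
    have h3 := le_abs_self (PP x b ^ 2 - pin x b ^ 2)
    linarith only [h1, h2, h3]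
  have hS2 : ∑ b ∈ Inj (r + 1) B, PP x b ^ 2 ≤ ∑ b ∈ Inj (r + 1) B, pin x b ^ 2 +
      (B.card : ℝ) ^ (r + 1) * (3 * L ^ (δ / 8 - 1 / 2)) := by
    refine (Finset.sum_le_sum hE2).trans ?_
    rw [Finset.sum_add_distrib, Finset.sum_const, nsmul_eq_mul]
    have := mul_le_mul_of_nonneg_right (card_Inj_le (r + 1) B)
      (by (clear * - hL9; positivity) : (0 : ℝ) ≤ 3 * L ^ (δ / 8 - 1 / 2))
    linarith only [this]
  have hE3 : ∀ b ∈ Inj (r + 1) B, SI b ^ 2 - 1 / L ≤ QQ z x b ^ 2 := by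
    intro b hb
    rw [mem_Inj] at hb
    have h1 := (sq_close (hQS b hb.2 (hbx b hb.1)) (QQ_nonneg z x b) (hQ b)).trans hsmall
    have h2 := neg_abs_le (QQ z x b ^ 2 - SI b ^ 2)
    linarith only [h1, h2]
  have hS3 : ∑ b ∈ Inj (r + 1) B, SI b ^ 2 - (B.card : ℝ) ^ (r + 1) * (1 / L) ≤
      ∑ b ∈ Tup (r + 1) B, QQ z x b ^ 2 := by
    have h1 := Finset.sum_le_sum hE3
    rw [Finset.sum_sub_distrib, Finset.sum_const, nsmul_eq_mul] at h1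
    have h2 : ∑ b ∈ Inj (r + 1) B, QQ z x b ^ 2 ≤ ∑ b ∈ Tup (r + 1) B, QQ z x b ^ 2 :=
      Finset.sum_le_sum_of_subset_of_nonneg (fun b hb => (mem_Inj.1 hb).1)
        fun b _ _ => sq_nonneg _
    have h3 := mul_le_mul_of_nonneg_right (card_Inj_le (r + 1) B)
      (by (clear * - hL9; positivity) : (0 : ℝ) ≤ 1 / L)
    linarith only [h1, h2, h3]
  have hS4 := hnon B hB hBc
  have hsplit := sum_Tup_split (r + 1) B (fun b => PP x b ^ 2)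
  -- the total error
  set t : ℝ := L ^ (-(7 * δ / 8)) with ht
  have ht0 : 0 < t := by (clear * - hL9; positivity)
  have e1 : L ^ (δ / 8 - 1 / 2) ≤ t := Real.rpow_le_rpow_of_exponent_le hL1 (by linarith only [hδ, hδ1])
  have e2 : L ^ (δ / 8 - δ) ≤ t := Real.rpow_le_rpow_of_exponent_le hL1 (by linarith)
  have e3 : 1 / L ≤ t := by
    rw [one_div, ← Real.rpow_neg_one]
    exact Real.rpow_le_rpow_of_exponent_le hL1 (by linarith only [hδ, hδ1])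
  have e4 : 1 / L ^ δ ≤ t := by
    rw [one_div, ← Real.rpow_neg hL0.le]
    exact Real.rpow_le_rpow_of_exponent_le hL1 (by linarith only [hδ])
  have e5 : ((r : ℝ) + 7) * t ≤ 1 / L ^ (δ / 2) := by
    calc ((r : ℝ) + 7) * t ≤ L ^ (3 * δ / 8) * t := mul_le_mul_of_nonneg_right hpw ht0.le
      _ = 1 / L ^ (δ / 2) := by
          rw [ht, ← Real.rpow_add hL0, one_div, ← Real.rpow_neg hL0.le]
          congr 1
          ring
  have hr0 : (0 : ℝ) ≤ r := Nat.cast_nonneg r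
  have e6 : ((r : ℝ) + 1) * (1 / L) + 1 / L ≤ (r + 2) * t := by
    calc ((r : ℝ) + 1) * (1 / L) + 1 / L = (r + 2) * (1 / L) := by ring
      _ ≤ (r + 2) * t := mul_le_mul_of_nonneg_left e3 (by (clear * -; positivity))
  have herr : 3 * L ^ (δ / 8 - 1 / 2) + L ^ (δ / 8 - δ) + (((r : ℝ) + 1) * (1 / L) + 1 / L) ≤
      1 / L ^ (δ / 2) - 1 / L ^ δ := by
    have : ((r : ℝ) + 7) * t = 3 * t + t + (r + 2) * t + t := by ring
    linarith only [e1, e2, e4, e5, e6]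
  have herr' := mul_le_mul_of_nonneg_left herr hβ0
  have hS1' := mul_le_mul_of_nonneg_left hS1 (by (clear * -; positivity) : (0 : ℝ) ≤ (r : ℝ) + 1)
  have hexp : ∑ b ∈ Tup (r + 1) B, PP x b ^ 2 - (r + 1) * ∑ b ∈ Tup (r + 1) B, RR z x b ^ 2 +
        r * ∑ b ∈ Tup (r + 1) B, QQ z x b ^ 2 =
      ∑ b ∈ Tup (r + 1) B, PP x b ^ 2 - ∑ b ∈ Tup (r + 1) B, QQ z x b ^ 2 +
        ((r : ℝ) + 1) * (∑ b ∈ Tup (r + 1) B, QQ z x b ^ 2 -
          ∑ b ∈ Tup (r + 1) B, RR z x b ^ 2) := by ring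
  have hexp2 : (B.card : ℝ) ^ (r + 1) * (3 * L ^ (δ / 8 - 1 / 2) + L ^ (δ / 8 - δ) +
      (((r : ℝ) + 1) * (1 / L) + 1 / L)) =
      (B.card : ℝ) ^ (r + 1) * (3 * L ^ (δ / 8 - 1 / 2)) +
        (B.card : ℝ) ^ (r + 1) * L ^ (δ / 8 - δ) +
        ((r : ℝ) + 1) * ((B.card : ℝ) ^ (r + 1) * (1 / L)) +
        (B.card : ℝ) ^ (r + 1) * (1 / L) := by ring
  rw [hexp2] at herr'
  rw [hexp, hsplit]
  linarith only [hS2, hS3, hS4, herr', hS1']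

theorem defect (k : ℕ) {δ : ℝ} (hδ : 0 < δ) (hδ1 : δ ≤ 1 / 4) : ∃ A0 : ℕ, ∀ A : ℕ, A0 ≤ A →
    ∀ᶠ x : ℕ in atTop, ∀ B : Finset ℕ, (∀ b ∈ B, b ≤ x) → Real.log x ^ (2 + δ) ≤ B.card →
      ∑ b ∈ Inj (k + 2) B, pin x b ^ 2 ≤
        ∑ b ∈ Inj (k + 2) B, SI b ^ 2 + (B.card : ℝ) ^ (k + 2) / Real.log x ^ δ →
      ∑ w ∈ Om x, (SS lp lp B w ^ (k + 2) - (k + 2) * (SS lp lp B w *
          SS (nuz (zA A x)) (nuz (zA A x)) B w ^ (k + 1)) +
          (k + 1) * SS (nuz (zA A x)) (nuz (zA A x)) B w ^ (k + 2)) ≤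
        (Om x).card * ((B.card : ℝ) ^ (k + 2) * (1 / Real.log x ^ (δ / 2))) := by
  obtain ⟨A0, hA0⟩ := defect_core (k + 1) hδ hδ1
  refine ⟨A0, fun A hA => ?_⟩
  filter_upwards [hA0 A hA, eventually_gt_atTop 0] with x hx hx0
  intro B hB hBc hyp
  have h1 := hx B hB hBc
  have h2 := moment_comb (k + 1) (zA A x) x hx0 B
  have h3 : ((k + 1 : ℕ) : ℝ) + 1 = (k : ℝ) + 2 := by push_cast; ring
  have h4 : ((k + 1 : ℕ) : ℝ) = (k : ℝ) + 1 := by push_cast; ring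
  rw [h3, h4] at h1 h2
  have hyp' : ∑ b ∈ Inj (k + 1 + 1) B, pin x b ^ 2 ≤
      ∑ b ∈ Inj (k + 1 + 1) B, SI b ^ 2 + (B.card : ℝ) ^ (k + 1 + 1) / Real.log x ^ δ := hyp
  refine (le_of_eq h2).trans ?_
  change _ ≤ ((Om x).card : ℝ) * ((B.card : ℝ) ^ (k + 1 + 1) * (1 / Real.log x ^ (δ / 2)))
  rw [card_Om]
  push_cast
  apply mul_le_mul_of_nonneg_left _ (by positivity)
  refine h1.trans ?_
  have h5 : (B.card : ℝ) ^ (k + 1 + 1) * (1 / Real.log x ^ (δ / 2) - 1 / Real.log x ^ δ) =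
      (B.card : ℝ) ^ (k + 1 + 1) * (1 / Real.log x ^ (δ / 2)) -
        (B.card : ℝ) ^ (k + 1 + 1) / Real.log x ^ δ := by ring
  rw [h5]
  linarith only [hyp]

theorem ms_lower (r : ℕ) {δ : ℝ} (hδ : 0 < δ) (hδ1 : δ ≤ 1 / 4) :
    ∀ᶠ x : ℕ in atTop, ∀ B : Finset ℕ, (∀ b ∈ B, b ≤ x) → Real.log x ^ (2 + δ) ≤ B.card →
      ∑ b ∈ Inj (r + 1) B, SI b ^ 2 - (B.card : ℝ) ^ (r + 1) / Real.log x ^ (δ / 2) ≤
        ∑ b ∈ Inj (r + 1) B, pin x b ^ 2 := by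
  obtain ⟨A0, hA0⟩ := defect_core r hδ hδ1
  have hlim : Tendsto (fun n : ℕ => Real.log (n : ℝ)) atTop atTop :=
    Real.tendsto_log_atTop.comp tendsto_natCast_atTop_atTop
  filter_upwards [hA0 A0 le_rfl, eventually_gt_atTop 0, hlim.eventually_ge_atTop 1]
    with x hx hx0 hL1
  intro B hB hBc
  have h1 := hx B hB hBc
  have h2 := moment_comb r (zA A0 x) x hx0 B
  have h0 : 0 ≤ ∑ w ∈ Om x, (SS lp lp B w ^ (r + 1) - (r + 1) * (SS lp lp B w *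
      SS (nuz (zA A0 x)) (nuz (zA A0 x)) B w ^ r) +
        r * SS (nuz (zA A0 x)) (nuz (zA A0 x)) B w ^ (r + 1)) :=
    Finset.sum_nonneg fun w _ => convex_nonneg r _ _
      (SS_nonneg _ _ (fun n => lp_nonneg n) (fun n => lp_nonneg n) B w)
      (SS_nonneg _ _ (fun n => nuz_nonneg _ n) (fun n => nuz_nonneg _ n) B w)
  rw [h2] at h0
  have hx2 : (0 : ℝ) < (x : ℝ) ^ 2 := by
    have : (0 : ℝ) < x := by exact_mod_cast hx0
    positivity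
  have h3 := nonneg_of_mul_nonneg_right h0 hx2
  have h4 : (B.card : ℝ) ^ (r + 1) * (1 / Real.log x ^ (δ / 2) - 1 / Real.log x ^ δ) ≤
      (B.card : ℝ) ^ (r + 1) / Real.log x ^ (δ / 2) := by
    have h5 : (B.card : ℝ) ^ (r + 1) * (1 / Real.log x ^ (δ / 2) - 1 / Real.log x ^ δ) =
        (B.card : ℝ) ^ (r + 1) / Real.log x ^ (δ / 2) -
          (B.card : ℝ) ^ (r + 1) / Real.log x ^ δ := by ring
    rw [h5]
    have h6 : 0 ≤ (B.card : ℝ) ^ (r + 1) / Real.log x ^ δ := by positivity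
    linarith only [h6]
  linarith only [h1, h3, h4]

end Pool.Agent.HLR
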