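import Mathlib

/-!
# Products of concentrated functions

PROOF SKETCH. Telescoping: `|∏ N_i - ∏ M_i| <= ∑_j |N_j - M_j| ∏_{i ≠ j} (N_i + M_i)` (for nonnegative numbers; Mathlib has
`Finset.prod_sub_ordered`, or induction on `s`). With `Y_i = ((N_i + M_i) / β_i)^2`:
`∏_{i ≠ j} ((N_i + M_i)/β_i)^2 = ∏_{i≠j} Y_i <= 1 + ∑_i Y_i^s` (the product of `s - 1` nonnegative numbers is at most
`max (1, max_i Y_i)^s`). Cauchy-Schwarz (`Finset.sum_mul_sq_le_sq_mul_sq`):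
`∑_Ω |N_j - M_j| ∏_{i≠j} (N_i+M_i) <= (∏_{i≠j} β_i) (∑ (N_j-M_j)^2)^(1/2) (∑_Ω (1 + ∑_i Y_i^s))^(1/2) <= (∏ β) |Ω| V^(1/2) (1 + s Q)^(1/2)`.
Sum over `j`. For `s = 0` both sides are `0`.
-/

set_option autoImplicit false

open Finset

namespace Pool.Agent.HLR

namespace TeleAux

theorem tel {ι : Type*} [DecidableEq ι] (S : Finset ι) (a b : ι → ℝ) (ha : ∀ i, 0 ≤ a i)
    (hb : ∀ i, 0 ≤ b i) :
    |∏ i ∈ S, a i - ∏ i ∈ S, b i| ≤ ∑ j ∈ S, |a j - b j| * ∏ i ∈ S.erase j, (a i + b i) := by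
  induction S using Finset.induction_on with
  | empty => simp
  | insert x S hx ih =>
    rw [Finset.prod_insert hx, Finset.prod_insert hx, Finset.sum_insert hx,
      Finset.erase_insert hx]
    have h1 : a x * ∏ i ∈ S, a i - b x * ∏ i ∈ S, b i =
        (a x - b x) * ∏ i ∈ S, b i + a x * (∏ i ∈ S, a i - ∏ i ∈ S, b i) := by ring
    rw [h1]
    refine (abs_add_le _ _).trans ?_
    rw [abs_mul, abs_mul, abs_of_nonneg (Finset.prod_nonneg fun i _ => hb i),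
      abs_of_nonneg (ha x)]
    have h2 : ∏ i ∈ S, b i ≤ ∏ i ∈ S, (a i + b i) :=
      Finset.prod_le_prod (fun i _ => hb i) (fun i _ => by linarith [ha i])
    have h3 : ∑ j ∈ S, |a j - b j| * ∏ i ∈ (insert x S).erase j, (a i + b i) =
        (a x + b x) * ∑ j ∈ S, |a j - b j| * ∏ i ∈ S.erase j, (a i + b i) := by
      rw [Finset.mul_sum]
      refine Finset.sum_congr rfl fun j hj => ?_
      have hjx : x ≠ j := fun h => hx (h ▸ hj)
      rw [Finset.erase_insert_of_ne hjx, Finset.prod_insert (fun h => hx (Finset.mem_of_mem_erase h))]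
      ring
    rw [h3]
    refine add_le_add (mul_le_mul_of_nonneg_left h2 (abs_nonneg _)) ?_
    have h4 : 0 ≤ ∑ j ∈ S, |a j - b j| * ∏ i ∈ S.erase j, (a i + b i) :=
      Finset.sum_nonneg fun j _ => mul_nonneg (abs_nonneg _)
        (Finset.prod_nonneg fun i _ => add_nonneg (ha i) (hb i))
    exact mul_le_mul (by linarith [hb x]) ih (abs_nonneg _) (add_nonneg (ha x) (hb x))

theorem prod_le {ι : Type*} [DecidableEq ι] [Fintype ι] (S : Finset ι) (s : ℕ) (hs : S.card ≤ s)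
    (Y : ι → ℝ) (hY : ∀ i, 0 ≤ Y i) : ∏ i ∈ S, Y i ≤ 1 + ∑ i, Y i ^ s := by
  have hsum : 0 ≤ ∑ i, Y i ^ s := Finset.sum_nonneg fun i _ => pow_nonneg (hY i) s
  by_cases h : ∀ i ∈ S, Y i ≤ 1
  · have : ∏ i ∈ S, Y i ≤ 1 := Finset.prod_le_one (fun i _ => hY i) h
    linarith
  · push Not at h
    obtain ⟨i1, hi1, hi1'⟩ := h
    obtain ⟨i0, hi0, hmax⟩ := Finset.exists_max_image S Y ⟨i1, hi1⟩
    have h1 : 1 ≤ Y i0 := hi1'.le.trans (hmax i1 hi1)
    have h2 : ∏ i ∈ S, Y i ≤ Y i0 ^ S.card := by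
      rw [← Finset.prod_const]
      exact Finset.prod_le_prod (fun i _ => hY i) hmax
    have h3 : Y i0 ^ S.card ≤ Y i0 ^ s := pow_le_pow_right₀ h1 hs
    have h4 : Y i0 ^ s ≤ ∑ i, Y i ^ s :=
      Finset.single_le_sum (f := fun i => Y i ^ s) (fun i _ => pow_nonneg (hY i) s)
        (Finset.mem_univ i0)
    linarith

end TeleAux

theorem tele {α : Type*} (Ω : Finset α) (s : ℕ) (N M : Fin s → α → ℝ) (β : Fin s → ℝ) (V Q : ℝ)
    (hN : ∀ i, ∀ w ∈ Ω, 0 ≤ N i w) (hM : ∀ i, ∀ w ∈ Ω, 0 ≤ M i w) (hβ : ∀ i, 0 < β i)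
    (hV0 : 0 ≤ V) (hQ0 : 0 ≤ Q)
    (hV : ∀ i, ∑ w ∈ Ω, (N i w - M i w) ^ 2 ≤ Ω.card * (β i ^ 2 * V))
    (hQ : ∀ i, ∑ w ∈ Ω, (N i w + M i w) ^ (2 * s) ≤ Ω.card * (β i ^ (2 * s) * Q)) :
    |∑ w ∈ Ω, (∏ i, N i w - ∏ i, M i w)| ≤
      Ω.card * (∏ i, β i) * (s * Real.sqrt (V * (1 + s * Q))) := by
  classical
  -- pointwise telescoping
  have hpt : ∀ w ∈ Ω, |∏ i, N i w - ∏ i, M i w| ≤
      ∑ j, |N j w - M j w| * ∏ i ∈ Finset.univ.erase j, (N i w + M i w) := by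
    intro w hw
    exact TeleAux.tel Finset.univ (fun i => N i w) (fun i => M i w) (fun i => hN i w hw)
      (fun i => hM i w hw)
  -- one term
  have hone : ∀ j, ∑ w ∈ Ω, |N j w - M j w| * ∏ i ∈ Finset.univ.erase j, (N i w + M i w) ≤
      Ω.card * (∏ i, β i) * Real.sqrt (V * (1 + s * Q)) := by
    intro j
    set B : ℝ := ∏ i ∈ Finset.univ.erase j, β i with hB
    have hB0 : 0 < B := Finset.prod_pos fun i _ => hβ i
    have hBj : β j * B = ∏ i, β i := Finset.mul_prod_erase _ _ (Finset.mem_univ j)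
    set P : α → ℝ := fun w => ∏ i ∈ Finset.univ.erase j, ((N i w + M i w) / β i) with hP
    have h1 : ∀ w, ∏ i ∈ Finset.univ.erase j, (N i w + M i w) = B * P w := by
      intro w
      rw [hP, hB, ← Finset.prod_mul_distrib]
      refine Finset.prod_congr rfl fun i _ => ?_
      rw [mul_div_cancel₀ _ (hβ i).ne']
    have h2 : ∑ w ∈ Ω, |N j w - M j w| * ∏ i ∈ Finset.univ.erase j, (N i w + M i w) =
        B * ∑ w ∈ Ω, |N j w - M j w| * P w := by
      rw [Finset.mul_sum]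
      refine Finset.sum_congr rfl fun w _ => ?_
      rw [h1 w]
      ring
    have h3 : (∑ w ∈ Ω, |N j w - M j w| * P w) ^ 2 ≤
        (∑ w ∈ Ω, |N j w - M j w| ^ 2) * ∑ w ∈ Ω, P w ^ 2 :=
      Finset.sum_mul_sq_le_sq_mul_sq Ω _ _
    have h4 : ∑ w ∈ Ω, |N j w - M j w| ^ 2 ≤ Ω.card * (β j ^ 2 * V) := by
      simpa only [sq_abs] using hV j
    have h5 : ∑ w ∈ Ω, P w ^ 2 ≤ Ω.card * (1 + s * Q) := by
      have h51 : ∀ w ∈ Ω, P w ^ 2 ≤ 1 + ∑ i, (((N i w + M i w) / β i) ^ 2) ^ s := by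
        intro w hw
        rw [hP]
        simp only
        rw [← Finset.prod_pow]
        refine TeleAux.prod_le (Finset.univ.erase j) s ?_ _ (fun i => sq_nonneg _)
        rw [Finset.card_erase_of_mem (Finset.mem_univ j), Finset.card_univ, Fintype.card_fin]
        omega
      have h52 : ∀ i, ∑ w ∈ Ω, (((N i w + M i w) / β i) ^ 2) ^ s ≤ Ω.card * Q := by
        intro i
        have : ∀ w, (((N i w + M i w) / β i) ^ 2) ^ s = (N i w + M i w) ^ (2 * s) / β i ^ (2 * s) := by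
          intro w
          rw [← pow_mul, div_pow]
        simp only [this]
        rw [← Finset.sum_div, div_le_iff₀ (pow_pos (hβ i) _)]
        refine (hQ i).trans (le_of_eq ?_)
        ring
      calc ∑ w ∈ Ω, P w ^ 2 ≤ ∑ w ∈ Ω, (1 + ∑ i, (((N i w + M i w) / β i) ^ 2) ^ s) :=
            Finset.sum_le_sum h51
        _ = Ω.card + ∑ i, ∑ w ∈ Ω, (((N i w + M i w) / β i) ^ 2) ^ s := by
            rw [Finset.sum_add_distrib, Finset.sum_comm]
            simp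
        _ ≤ Ω.card + ∑ _i : Fin s, (Ω.card * Q : ℝ) := by
            gcongr with i _
            exact h52 i
        _ = Ω.card * (1 + s * Q) := by
            simp
            ring
    have h6 : (∑ w ∈ Ω, |N j w - M j w| * P w) ^ 2 ≤
        ((Ω.card : ℝ) * β j * Real.sqrt (V * (1 + s * Q))) ^ 2 := by
      have hVQ : 0 ≤ V * (1 + s * Q) := by positivity
      rw [mul_pow, Real.sq_sqrt hVQ]
      refine h3.trans ?_
      have h61 : 0 ≤ ∑ w ∈ Ω, P w ^ 2 := Finset.sum_nonneg fun w _ => sq_nonneg _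
      have h62 : (0 : ℝ) ≤ Ω.card * (β j ^ 2 * V) := by positivity
      calc (∑ w ∈ Ω, |N j w - M j w| ^ 2) * ∑ w ∈ Ω, P w ^ 2
          ≤ (Ω.card * (β j ^ 2 * V)) * (Ω.card * (1 + s * Q)) :=
            mul_le_mul h4 h5 h61 h62
        _ = ((Ω.card : ℝ) * β j) ^ 2 * (V * (1 + s * Q)) := by ring
    have h7 : ∑ w ∈ Ω, |N j w - M j w| * P w ≤ (Ω.card : ℝ) * β j * Real.sqrt (V * (1 + s * Q)) := by
      refine abs_le_of_sq_le_sq' h6 ?_ |>.2
      have := (hβ j).le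
      positivity
    rw [h2]
    calc B * ∑ w ∈ Ω, |N j w - M j w| * P w
        ≤ B * ((Ω.card : ℝ) * β j * Real.sqrt (V * (1 + s * Q))) :=
          mul_le_mul_of_nonneg_left h7 hB0.le
      _ = Ω.card * (β j * B) * Real.sqrt (V * (1 + s * Q)) := by ring
      _ = Ω.card * (∏ i, β i) * Real.sqrt (V * (1 + s * Q)) := by rw [hBj]
  calc |∑ w ∈ Ω, (∏ i, N i w - ∏ i, M i w)|
      ≤ ∑ w ∈ Ω, |∏ i, N i w - ∏ i, M i w| := Finset.abs_sum_le_sum_abs _ _
    _ ≤ ∑ w ∈ Ω, ∑ j, |N j w - M j w| * ∏ i ∈ Finset.univ.erase j, (N i w + M i w) :=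
        Finset.sum_le_sum hpt
    _ = ∑ j, ∑ w ∈ Ω, |N j w - M j w| * ∏ i ∈ Finset.univ.erase j, (N i w + M i w) :=
        Finset.sum_comm
    _ ≤ ∑ _j : Fin s, (Ω.card * (∏ i, β i) * Real.sqrt (V * (1 + s * Q)) : ℝ) :=
        Finset.sum_le_sum fun j _ => hone j
    _ = Ω.card * (∏ i, β i) * (s * Real.sqrt (V * (1 + s * Q))) := by
        rw [Finset.sum_const, Finset.card_univ, Fintype.card_fin, nsmul_eq_mul]
        ring

end Pool.Agent.HLR
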