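import Pool.Agent.Lib.HLR.StepOne
import Pool.Agent.Lib.HLR.Tele

/-!
# From concentration to almost all tuples

PROOF SKETCH. `N i = SS lp lp (B i)`, `K i = SS lp (nuz z) (B i)`, `M i = SS (nuz z) (nuz z) (B i)`, `β i = |B i|`, `L = log x`.
By `moment`: `∑_w ∏ N i = x^2 ∑_{b ∈ ∏ B i} PP^2`, `∑_w ∏ K i = x^2 ∑ PP QQ`, `∑_w ∏ M i = x^2 ∑ QQ^2`, so
`x^2 ∑ (PP - QQ)^2 = ∑_w (∏ N - ∏ M) - 2 ∑_w (∏ K - ∏ M)`. Apply `tele` twice with `V = 1 / L^(δ/4)` (for `K`, by `conc_K`; for `N`,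
`V = 1/L^δ <= 1/L^(δ/4)`) and `Q = L^η`, `η = δ/16`: `(N+M)^(2s) <= 2^(2s) (N^(2s) + M^(2s))`, `moment_pow`, `moment_PP (2 s)`,
`moment_QQ (2 s)`; `K^(2s)`: `∑_w K^(2s) = x^2 ∑ PP QQ <= x^2 (∑ PP^2 + ∑ QQ^2)`. Result:
`∑ (PP - QQ)^2 <= 3 (∏ β) s (L^(-δ/4) (1 + s L^η))^(1/2) <= (∏ β) / L^(δ/16)` for large `x`.
-/

set_option autoImplicit false

open Finset Filter

namespace Pool.Agent.HLR

open Pool.Agent.HLB Pool.Agent.HLT

lemma two_pow_sum {α : Type*} (Ω : Finset α) (m : ℕ) (f g : α → ℝ) (hf : ∀ w ∈ Ω, 0 ≤ f w)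
    (hg : ∀ w ∈ Ω, 0 ≤ g w) {F G : ℝ} (hF : ∑ w ∈ Ω, f w ^ m ≤ F) (hG : ∑ w ∈ Ω, g w ^ m ≤ G) :
    ∑ w ∈ Ω, (f w + g w) ^ m ≤ 2 ^ m * (F + G) := by
  have h1 : ∀ w ∈ Ω, (f w + g w) ^ m ≤ 2 ^ m * (f w ^ m + g w ^ m) := by
    intro w hw
    have h2 := add_pow_le (hf w hw) (hg w hw) m
    have h3 : (0 : ℝ) ≤ f w ^ m + g w ^ m := by
      have := pow_nonneg (hf w hw) m
      have := pow_nonneg (hg w hw) m
      linarith
    have h4 : (2 : ℝ) ^ (m - 1) ≤ 2 ^ m := pow_le_pow_right₀ one_le_two (Nat.sub_le m 1)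
    calc (f w + g w) ^ m ≤ 2 ^ (m - 1) * (f w ^ m + g w ^ m) := h2
      _ ≤ _ := mul_le_mul_of_nonneg_right h4 h3
  calc ∑ w ∈ Ω, (f w + g w) ^ m ≤ ∑ w ∈ Ω, 2 ^ m * (f w ^ m + g w ^ m) := Finset.sum_le_sum h1
    _ = 2 ^ m * (∑ w ∈ Ω, f w ^ m + ∑ w ∈ Ω, g w ^ m) := by
      rw [← Finset.mul_sum, Finset.sum_add_distrib]
    _ ≤ _ := by
      have : (0 : ℝ) ≤ 2 ^ m := by positivity
      gcongr

theorem tuples_of_conc (s A : ℕ) {δ : ℝ} (hδ : 0 < δ) (hδ1 : δ ≤ 1) : ∀ᶠ x : ℕ in atTop,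
    ∀ B : Fin s → Finset ℕ, (∀ i, ∀ b ∈ B i, b ≤ x) → (∀ i, Real.log x ^ 2 ≤ (B i).card) →
      (∀ i, ∑ w ∈ Om x, (SS lp lp (B i) w - SS (nuz (zA A x)) (nuz (zA A x)) (B i) w) ^ 2 ≤
        (Om x).card * (((B i).card : ℝ) ^ 2 * (1 / Real.log x ^ δ))) →
      ∑ b ∈ Fintype.piFinset B, (PP x b - QQ (zA A x) x b) ^ 2 ≤
        (∏ i, ((B i).card : ℝ)) / Real.log x ^ (δ / 16) := by
  have hη : 0 < δ / 16 := by positivity
  have hδ32 : 0 < δ / 32 := by positivity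
  set c : ℝ := 1 + s * (3 * 2 ^ (2 * s)) with hc
  have hc1 : 0 ≤ c := by positivity
  have e1 := tendsto_log_nat.eventually (eventually_ge_atTop (1 : ℝ))
  have e2 := ((tendsto_rpow_atTop hδ32).comp tendsto_log_nat).eventually
    (eventually_ge_atTop (3 * s * Real.sqrt c))
  filter_upwards [conc_K A hδ hδ1, moment_PP (2 * s) hη, moment_QQ (2 * s) A hη, e1, e2,
    eventually_ge_atTop 1] with x hK hPP hQQ hL1 hL2 hx1
  intro B hB hcard hconc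
  simp only [Function.comp_apply] at hL2
  set L : ℝ := Real.log x with hL
  have hL0 : 0 < L := by linarith only [hL1]
  set z : ℕ := zA A x with hz
  have hx0 : (0 : ℝ) < x := by exact_mod_cast hx1
  have hOm : ((Om x).card : ℝ) = (x : ℝ) ^ 2 := by
    rw [card_Om]
    push_cast
    ring
  have hβ0 : ∀ i, (0 : ℝ) < (B i).card := fun i => lt_of_lt_of_le (by positivity) (hcard i)
  -- the three functions
  have hNn : ∀ (i : Fin s) (w : ℕ × ℕ), 0 ≤ SS lp lp (B i) w :=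
    fun i w => SS_nonneg lp lp lp_nonneg lp_nonneg _ _
  have hKn : ∀ (i : Fin s) (w : ℕ × ℕ), 0 ≤ SS lp (nuz z) (B i) w :=
    fun i w => SS_nonneg lp (nuz z) lp_nonneg (nuz_nonneg z) _ _
  have hMn : ∀ (i : Fin s) (w : ℕ × ℕ), 0 ≤ SS (nuz z) (nuz z) (B i) w :=
    fun i w => SS_nonneg (nuz z) (nuz z) (nuz_nonneg z) (nuz_nonneg z) _ _
  -- variances
  have hLd : 1 / L ^ δ ≤ 1 / L ^ (δ / 4) := by
    apply one_div_le_one_div_of_le (by (clear * - hL1; positivity))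
    exact Real.rpow_le_rpow_of_exponent_le hL1 (by linarith only [hδ])
  have hVN : ∀ i, ∑ w ∈ Om x, (SS lp lp (B i) w - SS (nuz z) (nuz z) (B i) w) ^ 2 ≤
      (Om x).card * (((B i).card : ℝ) ^ 2 * (1 / L ^ (δ / 4))) := by
    intro i
    refine (hconc i).trans ?_
    gcongr
  have hVK : ∀ i, ∑ w ∈ Om x, (SS lp (nuz z) (B i) w - SS (nuz z) (nuz z) (B i) w) ^ 2 ≤
      (Om x).card * (((B i).card : ℝ) ^ 2 * (1 / L ^ (δ / 4))) :=
    fun i => hK (B i) (hB i) (hcard i) (hconc i)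
  -- moments
  set P : ℝ := L ^ (δ / 16) with hP
  have hP0 : 0 < P := by (clear * - hL1; positivity)
  have hP1 : 1 ≤ P := Real.one_le_rpow hL1 hη.le
  have hmN : ∀ i, ∑ w ∈ Om x, SS lp lp (B i) w ^ (2 * s) ≤
      (x : ℝ) ^ 2 * (((B i).card : ℝ) ^ (2 * s) * P) := by
    intro i
    rw [moment_pow (2 * s) x hx1 (B i) lp lp]
    have h := hPP (B i) (hB i) (hcard i)
    have h1 : ∑ b ∈ Tup (2 * s) (B i), Av x (fun _ : Fin (2 * s) => lp) b *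
        Av x (fun _ : Fin (2 * s) => lp) b = ∑ b ∈ Tup (2 * s) (B i), PP x b ^ 2 :=
      Finset.sum_congr rfl fun b _ => by unfold PP; ring
    rw [h1]
    gcongr
  have hmM : ∀ i, ∑ w ∈ Om x, SS (nuz z) (nuz z) (B i) w ^ (2 * s) ≤
      (x : ℝ) ^ 2 * (((B i).card : ℝ) ^ (2 * s) * P) := by
    intro i
    rw [moment_pow (2 * s) x hx1 (B i) (nuz z) (nuz z)]
    have h := hQQ (B i)
    have h1 : ∑ b ∈ Tup (2 * s) (B i), Av x (fun _ : Fin (2 * s) => nuz z) b *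
        Av x (fun _ : Fin (2 * s) => nuz z) b = ∑ b ∈ Tup (2 * s) (B i), QQ z x b ^ 2 :=
      Finset.sum_congr rfl fun b _ => by unfold QQ; ring
    rw [h1]
    gcongr
  have hmK : ∀ i, ∑ w ∈ Om x, SS lp (nuz z) (B i) w ^ (2 * s) ≤
      (x : ℝ) ^ 2 * (2 * (((B i).card : ℝ) ^ (2 * s) * P)) := by
    intro i
    rw [moment_pow (2 * s) x hx1 (B i) lp (nuz z)]
    have h := hPP (B i) (hB i) (hcard i)
    have h' := hQQ (B i)
    have h1 : ∑ b ∈ Tup (2 * s) (B i), Av x (fun _ : Fin (2 * s) => lp) b *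
        Av x (fun _ : Fin (2 * s) => nuz z) b ≤
          ∑ b ∈ Tup (2 * s) (B i), (PP x b ^ 2 + QQ z x b ^ 2) := by
      refine Finset.sum_le_sum fun b _ => ?_
      change PP x b * QQ z x b ≤ _
      nlinarith only [sq_nonneg (PP x b - QQ z x b), sq_nonneg (PP x b), sq_nonneg (QQ z x b)]
    rw [Finset.sum_add_distrib] at h1
    have h2 : ∑ b ∈ Tup (2 * s) (B i), Av x (fun _ : Fin (2 * s) => lp) b *
        Av x (fun _ : Fin (2 * s) => nuz z) b ≤ 2 * (((B i).card : ℝ) ^ (2 * s) * P) := by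
      linarith only [h, h', h1]
    gcongr
  set Q : ℝ := 3 * 2 ^ (2 * s) * P with hQ
  have hQ0 : 0 ≤ Q := by (clear * - hL1; positivity)
  have hQN : ∀ i, ∑ w ∈ Om x, (SS lp lp (B i) w + SS (nuz z) (nuz z) (B i) w) ^ (2 * s) ≤
      (Om x).card * (((B i).card : ℝ) ^ (2 * s) * Q) := by
    intro i
    have h := two_pow_sum (Om x) (2 * s) _ _ (fun w _ => hNn i w) (fun w _ => hMn i w)
      (hmN i) (hmM i)
    refine h.trans ?_
    rw [hOm, hQ]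
    have h3 : (0 : ℝ) ≤ (x : ℝ) ^ 2 * (((B i).card : ℝ) ^ (2 * s) * (2 ^ (2 * s) * P)) := by
      (clear * - hx1 hL1; positivity)
    nlinarith only [h3, h3]
  have hQK : ∀ i, ∑ w ∈ Om x, (SS lp (nuz z) (B i) w + SS (nuz z) (nuz z) (B i) w) ^ (2 * s) ≤
      (Om x).card * (((B i).card : ℝ) ^ (2 * s) * Q) := by
    intro i
    have h := two_pow_sum (Om x) (2 * s) _ _ (fun w _ => hKn i w) (fun w _ => hMn i w)
      (hmK i) (hmM i)
    refine h.trans (le_of_eq ?_)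
    rw [hOm, hQ]
    ring
  have hV0 : 0 ≤ 1 / L ^ (δ / 4) := by (clear * - hL1; positivity)
  have t1 := tele (Om x) s (fun i w => SS lp lp (B i) w)
    (fun i w => SS (nuz z) (nuz z) (B i) w) (fun i => ((B i).card : ℝ)) (1 / L ^ (δ / 4)) Q
    (fun i w _ => hNn i w) (fun i w _ => hMn i w) hβ0 hV0 hQ0 hVN hQN
  have t2 := tele (Om x) s (fun i w => SS lp (nuz z) (B i) w)
    (fun i w => SS (nuz z) (nuz z) (B i) w) (fun i => ((B i).card : ℝ)) (1 / L ^ (δ / 4)) Q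
    (fun i w _ => hKn i w) (fun i w _ => hMn i w) hβ0 hV0 hQ0 hVK hQK
  -- moments of products
  have m1 := moment s x hx1 B (fun _ => lp) (fun _ => lp)
  have m2 := moment s x hx1 B (fun _ => lp) (fun _ => nuz z)
  have m3 := moment s x hx1 B (fun _ => nuz z) (fun _ => nuz z)
  have hid : (x : ℝ) ^ 2 * ∑ b ∈ Fintype.piFinset B, (PP x b - QQ z x b) ^ 2 =
      ∑ w ∈ Om x, (∏ i, SS lp lp (B i) w - ∏ i, SS (nuz z) (nuz z) (B i) w) -
        2 * ∑ w ∈ Om x, (∏ i, SS lp (nuz z) (B i) w - ∏ i, SS (nuz z) (nuz z) (B i) w) := by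
    rw [Finset.sum_sub_distrib, Finset.sum_sub_distrib, m1, m2, m3]
    have h1 : ∑ b ∈ Fintype.piFinset B, (PP x b - QQ z x b) ^ 2 =
        ∑ b ∈ Fintype.piFinset B, Av x (fun _ : Fin s => lp) b * Av x (fun _ : Fin s => lp) b -
        2 * ∑ b ∈ Fintype.piFinset B, Av x (fun _ : Fin s => lp) b *
          Av x (fun _ : Fin s => nuz z) b +
        ∑ b ∈ Fintype.piFinset B, Av x (fun _ : Fin s => nuz z) b *
          Av x (fun _ : Fin s => nuz z) b := by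
      rw [Finset.mul_sum, ← Finset.sum_sub_distrib, ← Finset.sum_add_distrib]
      refine Finset.sum_congr rfl fun b _ => ?_
      unfold PP QQ
      ring
    rw [h1]
    ring
  have hprod0 : (0 : ℝ) ≤ ∏ i, ((B i).card : ℝ) := Finset.prod_nonneg fun i _ => (hβ0 i).le
  have hle : (x : ℝ) ^ 2 * ∑ b ∈ Fintype.piFinset B, (PP x b - QQ z x b) ^ 2 ≤
      (x : ℝ) ^ 2 * ((∏ i, ((B i).card : ℝ)) *
        (3 * s * Real.sqrt (1 / L ^ (δ / 4) * (1 + s * Q)))) := by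
    rw [hid]
    have a1 := le_abs_self (∑ w ∈ Om x, (∏ i, SS lp lp (B i) w -
      ∏ i, SS (nuz z) (nuz z) (B i) w))
    have a2 := neg_abs_le (∑ w ∈ Om x, (∏ i, SS lp (nuz z) (B i) w -
      ∏ i, SS (nuz z) (nuz z) (B i) w))
    rw [hOm] at t1 t2
    have e : (x : ℝ) ^ 2 * ((∏ i, ((B i).card : ℝ)) *
        (3 * s * Real.sqrt (1 / L ^ (δ / 4) * (1 + s * Q)))) =
        3 * ((x : ℝ) ^ 2 * (∏ i, ((B i).card : ℝ)) *
          (s * Real.sqrt (1 / L ^ (δ / 4) * (1 + s * Q)))) := by ring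
    rw [e]
    linarith only [t1, t2, a1, a2]
  have hle2 := le_of_mul_le_mul_left hle (by (clear * - hx1; positivity))
  refine hle2.trans ?_
  rw [div_eq_mul_inv]
  refine mul_le_mul_of_nonneg_left ?_ hprod0
  -- the final estimate
  have hcP : 1 + s * Q ≤ c * P := by
    rw [hc, hQ]
    nlinarith only [hP1]
  have hv : 1 / L ^ (δ / 4) * (1 + s * Q) ≤ c * (L ^ (-(3 * δ / 32))) ^ 2 := by
    have h1 : (L ^ (-(3 * δ / 32))) ^ 2 = 1 / L ^ (δ / 4) * P := by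
      rw [hP, one_div, ← Real.rpow_neg hL0.le, ← Real.rpow_add hL0, ← Real.rpow_natCast,
        ← Real.rpow_mul hL0.le]
      congr 1
      push_cast
      ring
    rw [h1]
    calc 1 / L ^ (δ / 4) * (1 + s * Q) ≤ 1 / L ^ (δ / 4) * (c * P) := by gcongr
      _ = _ := by ring
  have hs1 : Real.sqrt (1 / L ^ (δ / 4) * (1 + s * Q)) ≤ Real.sqrt c * L ^ (-(3 * δ / 32)) := by
    refine (Real.sqrt_le_sqrt hv).trans (le_of_eq ?_)
    rw [Real.sqrt_mul hc1, Real.sqrt_sq (by (clear * - hL1; positivity))]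
  calc 3 * s * Real.sqrt (1 / L ^ (δ / 4) * (1 + s * Q))
      ≤ 3 * s * (Real.sqrt c * L ^ (-(3 * δ / 32))) := by gcongr
    _ = (3 * s * Real.sqrt c) * L ^ (-(3 * δ / 32)) := by ring
    _ ≤ L ^ (δ / 32) * L ^ (-(3 * δ / 32)) := by gcongr
    _ = (L ^ (δ / 16))⁻¹ := by
      rw [← Real.rpow_add hL0, ← Real.rpow_neg hL0.le]
      congr 1
      ring

end Pool.Agent.HLR
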