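import Pool.Agent.Lib.HLR.OneDefs
import Pool.Agent.Lib.HLR.StepTwo

/-!
# The one variable version: averages over the tuples of several sets

`avg_of_conc1`: if `S1 lp (B i)` is close to `S1 (nuz z) (B i)` in mean square for every `i`, the means of `PP` and `QQ`
over the tuples `b ∈ ∏ B i` are close. `noninj_prod1`: the non-injective tuples contribute little.
-/

set_option autoImplicit false

open Finset Filter

namespace Pool.Agent.HLR

open Pool.Agent.HLB Pool.Agent.HLT UpperAux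

theorem avg_of_conc1 (s A : ℕ) {δ : ℝ} (hδ : 0 < δ) : ∀ᶠ x : ℕ in atTop,
    ∀ B : Fin s → Finset ℕ, (∀ i, ∀ b ∈ B i, b ≤ x) → (∀ i, Real.log x ≤ (B i).card) →
      (∀ i, ∑ n ∈ Icc 1 x, (S1 lp (B i) n - S1 (nuz (zA A x)) (B i) n) ^ 2 ≤
        (Icc 1 x).card * (((B i).card : ℝ) ^ 2 * (1 / Real.log x ^ δ))) →
      |∑ b ∈ Fintype.piFinset B, (PP x b - QQ (zA A x) x b)| ≤
        (∏ i, ((B i).card : ℝ)) / Real.log x ^ (δ / 4) := by
  have hη : 0 < δ / 4 := by positivity
  have hδ32 : 0 < δ / 8 := by positivity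
  set c : ℝ := 1 + s * (2 * 2 ^ (2 * s)) with hc
  have hc1 : 0 ≤ c := by positivity
  filter_upwards [moment_PP1 (2 * s) hη, moment_QQ1 (2 * s) A hη, ev_log_ge 1,
    ev_rpow_ge (s * Real.sqrt c) hδ32, eventually_ge_atTop 1] with x hPP hQQ hL1 hL2 hx1
  intro B hB hcard hconc
  set L : ℝ := Real.log x with hL
  have hL0 : 0 < L := by linarith
  set z : ℕ := zA A x with hz
  have hx0 : (0 : ℝ) < x := by exact_mod_cast hx1
  have hOm : ((Icc 1 x).card : ℝ) = (x : ℝ) := by
    rw [Nat.card_Icc, Nat.add_sub_cancel]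
  have hβ0 : ∀ i, (0 : ℝ) < (B i).card := fun i => lt_of_lt_of_le hL0 (hcard i)
  have hNn : ∀ (i : Fin s) (n : ℕ), 0 ≤ S1 lp (B i) n := fun i n => S1_nonneg lp lp_nonneg _ _
  have hMn : ∀ (i : Fin s) (n : ℕ), 0 ≤ S1 (nuz z) (B i) n :=
    fun i n => S1_nonneg (nuz z) (nuz_nonneg z) _ _
  set P : ℝ := L ^ (δ / 4) with hP
  have hP0 : 0 < P := by positivity
  have hP1 : 1 ≤ P := Real.one_le_rpow hL1 hη.le
  have hmN : ∀ i, ∑ n ∈ Icc 1 x, S1 lp (B i) n ^ (2 * s) ≤
      (x : ℝ) * (((B i).card : ℝ) ^ (2 * s) * P) := by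
    intro i
    rw [moment1_pow (2 * s) x hx1 (B i) lp]
    have h := hPP (B i) (hB i) (hcard i)
    exact mul_le_mul_of_nonneg_left h hx0.le
  have hmM : ∀ i, ∑ n ∈ Icc 1 x, S1 (nuz z) (B i) n ^ (2 * s) ≤
      (x : ℝ) * (((B i).card : ℝ) ^ (2 * s) * P) := by
    intro i
    rw [moment1_pow (2 * s) x hx1 (B i) (nuz z)]
    have h := hQQ (B i)
    exact mul_le_mul_of_nonneg_left h hx0.le
  set Q : ℝ := 2 * 2 ^ (2 * s) * P with hQ
  have hQ0 : 0 ≤ Q := by positivity
  have hQN : ∀ i, ∑ n ∈ Icc 1 x, (S1 lp (B i) n + S1 (nuz z) (B i) n) ^ (2 * s) ≤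
      (Icc 1 x).card * (((B i).card : ℝ) ^ (2 * s) * Q) := by
    intro i
    have h := two_pow_sum (Icc 1 x) (2 * s) _ _ (fun w _ => hNn i w) (fun w _ => hMn i w)
      (hmN i) (hmM i)
    refine h.trans (le_of_eq ?_)
    rw [hOm, hQ]
    ring
  have hV0 : 0 ≤ 1 / L ^ δ := by positivity
  have t1 := tele (Icc 1 x) s (fun i n => S1 lp (B i) n)
    (fun i n => S1 (nuz z) (B i) n) (fun i => ((B i).card : ℝ)) (1 / L ^ δ) Q
    (fun i w _ => hNn i w) (fun i w _ => hMn i w) hβ0 hV0 hQ0 hconc hQN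
  have m1 := moment1 s x hx1 B (fun _ => lp)
  have m3 := moment1 s x hx1 B (fun _ => nuz z)
  have hid : ∑ n ∈ Icc 1 x, (∏ i, S1 lp (B i) n - ∏ i, S1 (nuz z) (B i) n) =
      (x : ℝ) * ∑ b ∈ Fintype.piFinset B, (PP x b - QQ z x b) := by
    rw [Finset.sum_sub_distrib, m1, m3, ← mul_sub, ← Finset.sum_sub_distrib]
    rfl
  rw [hid, abs_mul, abs_of_pos hx0, hOm, mul_assoc] at t1
  have t2 := le_of_mul_le_mul_left t1 hx0
  refine t2.trans ?_
  have hprod0 : (0 : ℝ) ≤ ∏ i, ((B i).card : ℝ) := Finset.prod_nonneg fun i _ => (hβ0 i).le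
  rw [div_eq_mul_inv]
  refine mul_le_mul_of_nonneg_left ?_ hprod0
  have hcP : 1 + s * Q ≤ c * P := by
    rw [hc, hQ]
    nlinarith
  have hv : 1 / L ^ δ * (1 + s * Q) ≤ c * (L ^ (-(3 * δ / 8))) ^ 2 := by
    have h1 : (L ^ (-(3 * δ / 8))) ^ 2 = 1 / L ^ δ * P := by
      rw [hP, one_div, ← Real.rpow_neg hL0.le, ← Real.rpow_add hL0, ← Real.rpow_natCast,
        ← Real.rpow_mul hL0.le]
      congr 1
      push_cast
      ring
    rw [h1]
    calc 1 / L ^ δ * (1 + s * Q) ≤ 1 / L ^ δ * (c * P) := by gcongr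
      _ = _ := by ring
  have hs1 : Real.sqrt (1 / L ^ δ * (1 + s * Q)) ≤ Real.sqrt c * L ^ (-(3 * δ / 8)) := by
    refine (Real.sqrt_le_sqrt hv).trans (le_of_eq ?_)
    rw [Real.sqrt_mul hc1, Real.sqrt_sq (by positivity)]
  calc s * Real.sqrt (1 / L ^ δ * (1 + s * Q))
      ≤ s * (Real.sqrt c * L ^ (-(3 * δ / 8))) := by gcongr
    _ = (s * Real.sqrt c) * L ^ (-(3 * δ / 8)) := by ring
    _ ≤ L ^ (δ / 8) * L ^ (-(3 * δ / 8)) := by gcongr
    _ = (L ^ (δ / 4))⁻¹ := by
      rw [← Real.rpow_add hL0, ← Real.rpow_neg hL0.le]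
      congr 1
      ring

/-- Tuples with two equal coordinates. -/
theorem equal_prod1 (s : ℕ) {η : ℝ} (hη : 0 < η) : ∀ᶠ x : ℕ in atTop,
    ∀ B : Fin s → Finset ℕ, (∀ i, ∀ b ∈ B i, b ≤ x) → (∀ i, Real.log x ≤ (B i).card) →
      ∀ i j : Fin s, i ≠ j → ∑ b ∈ (Fintype.piFinset B).filter (fun b => b i = b j), PP x b ≤
        (∏ l ∈ univ.erase j, ((B l).card : ℝ)) * (Real.log x * Real.log x ^ η) := by
  have h2 : 0 < η / 2 := by positivity
  filter_upwards [moment_PP1 s h2, ev_log_ge 1, ev_rpow_ge (2 * (1 + s)) h2,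
    eventually_ge_atTop 2] with x hPP hL1 hL2 hx2
  intro B hB hcard i j hij
  have hx1 : 1 ≤ x := by omega
  set L : ℝ := Real.log x with hL
  have hL0 : 0 < L := by linarith
  have hx0 : (0 : ℝ) < x := by exact_mod_cast hx1
  have hβ0 : ∀ i, (0 : ℝ) < (B i).card := fun i => lt_of_lt_of_le hL0 (hcard i)
  set B' : Fin s → Finset ℕ := Function.update B j {0} with hB'
  set F' : Fin s → ℕ → ℝ := Function.update (fun _ => lp) j (fun _ => 1) with hF'
  have hF'0 : ∀ l n, 0 ≤ F' l n := by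
    intro l n
    by_cases hl : l = j
    · subst hl
      rw [hF', Function.update_self]
      exact zero_le_one
    · rw [hF', Function.update_of_ne hl]
      exact lp_nonneg n
  -- pointwise
  have hpt : ∀ b ∈ (Fintype.piFinset B).filter (fun b => b i = b j),
      PP x b ≤ 2 * L * Av x F' (Function.update b j 0) := by
    intro b hb
    rw [Finset.mem_filter, Fintype.mem_piFinset] at hb
    unfold PP Av
    rw [← mul_div_assoc]
    refine div_le_div_of_nonneg_right ?_ hx0.le
    rw [Finset.mul_sum]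
    refine Finset.sum_le_sum fun n hn => ?_
    rw [← Finset.mul_prod_erase univ (fun l => lp (n + b l)) (Finset.mem_univ j),
      ← Finset.mul_prod_erase univ (fun l => F' l (n + Function.update b j 0 l)) (Finset.mem_univ j)]
    have h3 : ∏ l ∈ univ.erase j, F' l (n + Function.update b j 0 l) =
        ∏ l ∈ univ.erase j, lp (n + b l) := by
      refine Finset.prod_congr rfl fun l hl => ?_
      have hlj := Finset.ne_of_mem_erase hl
      rw [hF', Function.update_of_ne hlj, Function.update_of_ne hlj]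
    have h4 : F' j (n + Function.update b j 0 j) = 1 := by
      rw [hF', Function.update_self]
    rw [h3, h4, one_mul]
    refine mul_le_mul_of_nonneg_right ?_ (Finset.prod_nonneg fun l _ => lp_nonneg _)
    exact lp_le_log hx2 (Finset.mem_Icc.mp hn).2 (hB j _ (hb.1 j))
  -- injection
  have hsum : ∑ b ∈ (Fintype.piFinset B).filter (fun b => b i = b j),
      Av x F' (Function.update b j 0) ≤ ∑ b ∈ Fintype.piFinset B', Av x F' b := by
    have hinj : Set.InjOn (fun b : Fin s → ℕ => Function.update b j 0)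
        ((Fintype.piFinset B).filter (fun b => b i = b j) : Finset (Fin s → ℕ)) := by
      intro b hb b' hb' h
      rw [Finset.mem_coe, Finset.mem_filter, Fintype.mem_piFinset] at hb hb'
      have h2 : ∀ l, l ≠ j → b l = b' l := by
        intro l hl
        have h3 := congrFun h l
        simp only [Function.update_of_ne hl] at h3
        exact h3
      funext l
      by_cases hl : l = j
      · rw [hl, ← hb.2, ← hb'.2]
        exact h2 i hij
      · exact h2 l hl
    rw [← Finset.sum_image (g := fun b : Fin s → ℕ => Function.update b j 0)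
      (f := fun b => Av x F' b) hinj]
    refine Finset.sum_le_sum_of_subset_of_nonneg ?_ fun b _ _ => Av_nonneg x F' b hF'0
    intro b hb
    rw [Finset.mem_image] at hb
    obtain ⟨b0, hb0, rfl⟩ := hb
    rw [Finset.mem_filter, Fintype.mem_piFinset] at hb0
    rw [Fintype.mem_piFinset]
    intro l
    by_cases hl : l = j
    · subst hl
      rw [hB', Function.update_self, Function.update_self, Finset.mem_singleton]
    · rw [hB', Function.update_of_ne hl, Function.update_of_ne hl]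
      exact hb0.1 l
  -- the moment identity
  have hm := moment1 s x hx1 B' F'
  have hprod : ∀ n, ∏ l, S1 (F' l) (B' l) n = ∏ l ∈ univ.erase j, S1 lp (B l) n := by
    intro n
    rw [← Finset.mul_prod_erase univ (fun l => S1 (F' l) (B' l) n) (Finset.mem_univ j)]
    have h3 : ∏ l ∈ univ.erase j, S1 (F' l) (B' l) n = ∏ l ∈ univ.erase j, S1 lp (B l) n := by
      refine Finset.prod_congr rfl fun l hl => ?_
      have hlj := Finset.ne_of_mem_erase hl
      rw [hF', hB', Function.update_of_ne hlj, Function.update_of_ne hlj]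
    have h4 : S1 (F' j) (B' j) n = 1 := by
      rw [hF', hB', Function.update_self, Function.update_self]
      unfold S1
      rw [Finset.sum_singleton]
    rw [h3, h4, one_mul]
  rw [Finset.sum_congr rfl (fun n _ => hprod n)] at hm
  -- Hölder
  have hβe : (0 : ℝ) < ∏ l ∈ univ.erase j, ((B l).card : ℝ) := Finset.prod_pos fun l _ => hβ0 l
  have hpow : ∑ n ∈ Icc 1 x, ∏ l ∈ univ.erase j, S1 lp (B l) n ≤
      (x : ℝ) * ((∏ l ∈ univ.erase j, ((B l).card : ℝ)) * (1 + s * L ^ (η / 2))) := by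
    have h5 : ∀ n ∈ Icc 1 x, ∏ l ∈ univ.erase j, S1 lp (B l) n ≤
        (∏ l ∈ univ.erase j, ((B l).card : ℝ)) * (1 + ∑ l, (S1 lp (B l) n / (B l).card) ^ s) := by
      intro n _
      have h6 := TeleAux.prod_le (univ.erase j) s (by
        rw [Finset.card_erase_of_mem (Finset.mem_univ j), Finset.card_univ, Fintype.card_fin]
        exact Nat.sub_le _ _) (fun l => S1 lp (B l) n / (B l).card)
        (fun l => div_nonneg (S1_nonneg lp lp_nonneg _ _) (hβ0 l).le)
      rw [Finset.prod_div_distrib, div_le_iff₀ hβe] at h6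
      linarith
    refine (Finset.sum_le_sum h5).trans ?_
    rw [← Finset.mul_sum, Finset.sum_add_distrib, Finset.sum_comm, Finset.sum_const, nsmul_eq_mul,
      mul_one, Nat.card_Icc, Nat.add_sub_cancel]
    have h7 : ∀ l ∈ (univ : Finset (Fin s)), ∑ n ∈ Icc 1 x, (S1 lp (B l) n / (B l).card) ^ s ≤
        (x : ℝ) * L ^ (η / 2) := by
      intro l _
      simp only [div_pow]
      rw [← Finset.sum_div, div_le_iff₀ (pow_pos (hβ0 l) s), moment1_pow s x hx1 (B l) lp]
      have h8 := hPP (B l) (hB l) (hcard l)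
      calc (x : ℝ) * ∑ b ∈ Tup s (B l), Av x (fun _ : Fin s => lp) b ≤
          (x : ℝ) * (((B l).card : ℝ) ^ s * L ^ (η / 2)) := mul_le_mul_of_nonneg_left h8 hx0.le
        _ = _ := by ring
    have h9 := Finset.sum_le_sum h7
    rw [Finset.sum_const, nsmul_eq_mul, Finset.card_univ, Fintype.card_fin] at h9
    calc (∏ l ∈ univ.erase j, ((B l).card : ℝ)) * ((x : ℝ) +
          ∑ l, ∑ n ∈ Icc 1 x, (S1 lp (B l) n / (B l).card) ^ s) ≤
        (∏ l ∈ univ.erase j, ((B l).card : ℝ)) * ((x : ℝ) + s * (x * L ^ (η / 2))) :=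
          mul_le_mul_of_nonneg_left (by linarith) hβe.le
      _ = _ := by ring
  rw [hm] at hpow
  have hpow' := le_of_mul_le_mul_left hpow hx0
  calc ∑ b ∈ (Fintype.piFinset B).filter (fun b => b i = b j), PP x b ≤
        ∑ b ∈ (Fintype.piFinset B).filter (fun b => b i = b j),
          2 * L * Av x F' (Function.update b j 0) := Finset.sum_le_sum hpt
    _ = 2 * L * ∑ b ∈ (Fintype.piFinset B).filter (fun b => b i = b j),
          Av x F' (Function.update b j 0) := by rw [Finset.mul_sum]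
    _ ≤ 2 * L * ((∏ l ∈ univ.erase j, ((B l).card : ℝ)) * (1 + s * L ^ (η / 2))) :=
        mul_le_mul_of_nonneg_left (hsum.trans hpow') (by positivity)
    _ = (∏ l ∈ univ.erase j, ((B l).card : ℝ)) * (L * (2 * (1 + s * L ^ (η / 2)))) := by ring
    _ ≤ (∏ l ∈ univ.erase j, ((B l).card : ℝ)) * (L * L ^ η) := by
        refine mul_le_mul_of_nonneg_left (mul_le_mul_of_nonneg_left ?_ hL0.le) hβe.le
        have hP1 : 1 ≤ L ^ (η / 2) := Real.one_le_rpow hL1 h2.le
        have e1 : L ^ η = L ^ (η / 2) * L ^ (η / 2) := by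
          rw [← Real.rpow_add hL0]
          congr 1
          ring
        rw [e1]
        have hs0 : (0 : ℝ) ≤ s := Nat.cast_nonneg s
        calc 2 * (1 + s * L ^ (η / 2)) ≤ 2 * (1 * L ^ (η / 2) + s * L ^ (η / 2)) := by linarith
          _ = 2 * (1 + s) * L ^ (η / 2) := by ring
          _ ≤ L ^ (η / 2) * L ^ (η / 2) := mul_le_mul_of_nonneg_right hL2 (by positivity)

theorem noninj_prod1 (s : ℕ) {δ : ℝ} (hδ : 0 < δ) : ∀ᶠ x : ℕ in atTop,
    ∀ B : Fin s → Finset ℕ, (∀ i, ∀ b ∈ B i, b ≤ x) → (∀ i, Real.log x ^ (1 + δ) ≤ (B i).card) →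
      ∑ b ∈ (Fintype.piFinset B).filter (fun b => ¬ Function.Injective b), PP x b ≤
        (∏ i, ((B i).card : ℝ)) / Real.log x ^ (δ / 2) := by
  have h4 : 0 < δ / 4 := by positivity
  filter_upwards [equal_prod1 s h4, ev_log_ge 1, ev_rpow_ge ((s : ℝ) ^ 2) h4] with x hx hL1 hL2
  intro B hB hcard
  set L : ℝ := Real.log x with hL
  have hL0 : 0 < L := by linarith
  have hcard1 : ∀ i, L ≤ (B i).card := by
    intro i
    refine le_trans ?_ (hcard i)
    calc L = L ^ (1 : ℝ) := (Real.rpow_one _).symm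
      _ ≤ L ^ (1 + δ) := Real.rpow_le_rpow_of_exponent_le hL1 (by linarith)
  have hβ0 : ∀ i, (0 : ℝ) < (B i).card := fun i => lt_of_lt_of_le hL0 (hcard1 i)
  have hprod0 : (0 : ℝ) ≤ ∏ i, ((B i).card : ℝ) := Finset.prod_nonneg fun i _ => (hβ0 i).le
  -- each pair
  have hpair : ∀ ij ∈ (univ : Finset (Fin s)).offDiag,
      ∑ b ∈ (Fintype.piFinset B).filter (fun b => b ij.1 = b ij.2), PP x b ≤
        (∏ i, ((B i).card : ℝ)) * L ^ (-(3 * δ / 4)) := by
    intro ij hij
    have hne := (Finset.mem_offDiag.mp hij).2.2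
    refine (hx B hB hcard1 ij.1 ij.2 hne).trans ?_
    rw [← Finset.mul_prod_erase univ (fun i => ((B i).card : ℝ)) (Finset.mem_univ ij.2)]
    have hβe : (0 : ℝ) < ∏ l ∈ univ.erase ij.2, ((B l).card : ℝ) := Finset.prod_pos fun l _ => hβ0 l
    calc (∏ l ∈ univ.erase ij.2, ((B l).card : ℝ)) * (L * L ^ (δ / 4)) =
        (∏ l ∈ univ.erase ij.2, ((B l).card : ℝ)) * (L ^ (1 + δ) * L ^ (-(3 * δ / 4))) := by
          congr 1
          rw [← Real.rpow_add hL0]
          nth_rewrite 1 [← Real.rpow_one L]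
          rw [← Real.rpow_add hL0]
          congr 1
          ring
      _ ≤ (∏ l ∈ univ.erase ij.2, ((B l).card : ℝ)) * ((B ij.2).card * L ^ (-(3 * δ / 4))) := by
          refine mul_le_mul_of_nonneg_left ?_ hβe.le
          exact mul_le_mul_of_nonneg_right (hcard ij.2) (by positivity)
      _ = _ := by ring
  have hcover : ∑ b ∈ (Fintype.piFinset B).filter (fun b => ¬ Function.Injective b), PP x b ≤
      ∑ ij ∈ (univ : Finset (Fin s)).offDiag,
        ∑ b ∈ (Fintype.piFinset B).filter (fun b => b ij.1 = b ij.2), PP x b := by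
    have e1 : ∑ ij ∈ (univ : Finset (Fin s)).offDiag,
        ∑ b ∈ (Fintype.piFinset B).filter (fun b => b ij.1 = b ij.2), PP x b =
        ∑ b ∈ Fintype.piFinset B, ∑ ij ∈ (univ : Finset (Fin s)).offDiag,
          (if b ij.1 = b ij.2 then PP x b else 0) := by
      rw [Finset.sum_comm]
      refine Finset.sum_congr rfl fun ij _ => ?_
      rw [Finset.sum_filter]
    rw [e1, Finset.sum_filter]
    refine Finset.sum_le_sum fun b _ => ?_
    by_cases hb : ¬ Function.Injective b
    · rw [if_pos hb]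
      unfold Function.Injective at hb
      push Not at hb
      obtain ⟨i, j, h1, h2⟩ := hb
      have hmem : (i, j) ∈ (univ : Finset (Fin s)).offDiag := by
        rw [Finset.mem_offDiag]
        exact ⟨Finset.mem_univ _, Finset.mem_univ _, h2⟩
      have h3 := Finset.single_le_sum (f := fun ij : Fin s × Fin s =>
        if b ij.1 = b ij.2 then PP x b else 0) (fun ij _ => by
          split_ifs
          · exact PP_nonneg x b
          · exact le_rfl) hmem
      dsimp only at h3
      rw [if_pos h1] at h3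
      exact h3
    · rw [if_neg hb]
      refine Finset.sum_nonneg fun ij _ => ?_
      split_ifs
      · exact PP_nonneg x b
      · exact le_rfl
  refine hcover.trans ((Finset.sum_le_sum hpair).trans ?_)
  rw [Finset.sum_const, nsmul_eq_mul]
  have h5 : (((univ : Finset (Fin s)).offDiag.card : ℕ) : ℝ) ≤ s ^ 2 := by
    rw [Finset.offDiag_card, Finset.card_univ, Fintype.card_fin]
    have : s * s - s ≤ s ^ 2 := by
      rw [sq]
      exact Nat.sub_le _ _
    exact_mod_cast this
  calc (((univ : Finset (Fin s)).offDiag.card : ℕ) : ℝ) *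
        ((∏ i, ((B i).card : ℝ)) * L ^ (-(3 * δ / 4))) ≤
      L ^ (δ / 4) * ((∏ i, ((B i).card : ℝ)) * L ^ (-(3 * δ / 4))) :=
        mul_le_mul_of_nonneg_right (h5.trans hL2)
          (mul_nonneg hprod0 (Real.rpow_nonneg hL0.le _))
    _ = (∏ i, ((B i).card : ℝ)) * (L ^ (δ / 4) * L ^ (-(3 * δ / 4))) := by ring
    _ = (∏ i, ((B i).card : ℝ)) / L ^ (δ / 2) := by
        rw [← Real.rpow_add hL0]
        have e3 : δ / 4 + -(3 * δ / 4) = -(δ / 2) := by ring
        rw [e3, Real.rpow_neg hL0.le]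
        rfl

end Pool.Agent.HLR
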