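import Pool.Agent.Lib.HLR.StepTwo

/-!
# Rigidity

PROOF SKETCH. `δ0 = min δ (1/4)`; the hypotheses hold with `δ0` in place of `δ` (`L >= 1`). Choose `A` at least the `A0` of `conc_N k δ0` for all
`k <= R` (finite maximum) and of `QQ_close s 1`. For each `i` the hypothesis with its `r = k + 2 <= R` and `conc_N` give concentration
with exponent `δ0 / (2 (k+2)) >= δ1 := δ0 / (2 R)` (finitely many `k`: `Filter.eventually_all_finset` or
`eventually_all_finite`). `tuples_of_conc s A δ1`: `∑ (PP - QQ)^2 <= ∏ β / L^(δ1/16)`. Let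
`E = {b : |PP - QQ| > L^(-δ1/64)} ∪ {b not injective}`: the first part has at most `∏ β L^(-δ1/16 + δ1/32)` elements, the second at
most `s^2 ∏ β / min |B i| <= s^2 ∏ β / L^2`. Outside `E`: `|pin - SI| <= |PP - pin| + |PP - QQ| + |QQ - SI| <= L^(-1/2) + L^(-δ1/64) + 1/L`
(`pin_close`, `QQ_close`). Take `δ' = δ1 / 128`. (`R < 2`: the hypothesis is contradictory as `s ≥ 1`; take anything.)
`ms_of_upper`: `η = δ/8`; `pin <= PP + 1 <= 2 L^η` on `Inj` (`pin_close`, `PP_inj_small`), so the exceptional tuples contribute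
`<= β^r L^(-δ) 4 L^(2η)`; for the others `pin^2 <= (SI + L^(-δ))^2 <= SI^2 + 3 L^(η - δ)` (`SI_small`; `pin >= 0`).
-/

set_option autoImplicit false

open Finset Filter

namespace Pool.Agent.HLR

open Pool.Agent.HLB Pool.Agent.HLT

/-- Pairs of coordinates that may coincide. -/
lemma card_not_inj {s : ℕ} (B : Fin s → Finset ℕ) {m : ℝ} (hm : 0 < m) (hB : ∀ i, m ≤ (B i).card) :
    (((Fintype.piFinset B).filter (fun b => ¬ Function.Injective b)).card : ℝ) ≤
      s ^ 2 * (∏ i, ((B i).card : ℝ)) / m := by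
  classical
  have key : ∀ i j : Fin s, i ≠ j →
      (((Fintype.piFinset B).filter (fun b => b i = b j)).card : ℝ) ≤
        (∏ i, ((B i).card : ℝ)) / m := by
    intro i j hij
    have h1 : ((Fintype.piFinset B).filter (fun b => b i = b j)).card ≤
        (Fintype.piFinset (Function.update B j {0})).card := by
      apply Finset.card_le_card_of_injOn (fun b => Function.update b j 0)
      · intro b hb
        rw [Finset.mem_coe, Finset.mem_filter, Fintype.mem_piFinset] at hb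
        rw [Finset.mem_coe, Fintype.mem_piFinset]
        intro l
        by_cases hl : l = j
        · subst hl
          simp
        · change Function.update b j 0 l ∈ Function.update B j {0} l
          rw [Function.update_of_ne hl, Function.update_of_ne hl]
          exact hb.1 l
      · intro b hb b' hb' h
        rw [Finset.mem_coe, Finset.mem_filter, Fintype.mem_piFinset] at hb hb'
        have h2 : ∀ l, l ≠ j → b l = b' l := by
          intro l hl
          have h3 := congrFun h l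
          simp only [Function.update_of_ne hl] at h3
          exact h3
        funext l
        by_cases hl : l = j
        · rw [hl, ← hb.2, ← hb'.2]
          exact h2 i hij
        · exact h2 l hl
    have h2 : ((Fintype.piFinset (Function.update B j {0})).card : ℝ) * (B j).card =
        ∏ i, ((B i).card : ℝ) := by
      rw [Fintype.card_piFinset]
      push_cast
      rw [← Finset.mul_prod_erase univ (fun i => ((B i).card : ℝ)) (Finset.mem_univ j),
        ← Finset.mul_prod_erase univ (fun i => ((Function.update B j {0} i).card : ℝ))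
          (Finset.mem_univ j)]
      have h3 : ∏ l ∈ univ.erase j, ((Function.update B j {0} l).card : ℝ) =
          ∏ l ∈ univ.erase j, ((B l).card : ℝ) := by
        refine Finset.prod_congr rfl fun l hl => ?_
        rw [Function.update_of_ne (Finset.ne_of_mem_erase hl)]
      rw [h3, Function.update_self, Finset.card_singleton]
      push_cast
      ring
    rw [le_div_iff₀ hm, ← h2]
    have h3 : (((Fintype.piFinset B).filter (fun b => b i = b j)).card : ℝ) ≤
        ((Fintype.piFinset (Function.update B j {0})).card : ℝ) := by exact_mod_cast h1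
    exact mul_le_mul h3 (hB j) hm.le (Nat.cast_nonneg _)
  have hsub : (Fintype.piFinset B).filter (fun b => ¬ Function.Injective b) ⊆
      ((univ : Finset (Fin s)).offDiag).biUnion
        (fun ij => (Fintype.piFinset B).filter (fun b => b ij.1 = b ij.2)) := by
    intro b hb
    rw [Finset.mem_filter] at hb
    obtain ⟨hb1, hb2⟩ := hb
    unfold Function.Injective at hb2
    push Not at hb2
    obtain ⟨i, j, h1, h2⟩ := hb2
    rw [Finset.mem_biUnion]
    refine ⟨(i, j), ?_, ?_⟩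
    · rw [Finset.mem_offDiag]
      exact ⟨Finset.mem_univ _, Finset.mem_univ _, h2⟩
    · rw [Finset.mem_filter]
      exact ⟨hb1, h1⟩
  have h1 := (Finset.card_le_card hsub).trans Finset.card_biUnion_le
  have h2 : (((Fintype.piFinset B).filter (fun b => ¬ Function.Injective b)).card : ℝ) ≤
      ∑ ij ∈ (univ : Finset (Fin s)).offDiag,
        (((Fintype.piFinset B).filter (fun b => b ij.1 = b ij.2)).card : ℝ) := by
    exact_mod_cast h1
  have hprod0 : (0 : ℝ) ≤ ∏ i, ((B i).card : ℝ) :=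
    Finset.prod_nonneg fun i _ => Nat.cast_nonneg _
  have h3 : ∑ ij ∈ (univ : Finset (Fin s)).offDiag,
      (((Fintype.piFinset B).filter (fun b => b ij.1 = b ij.2)).card : ℝ) ≤
        ∑ _ij ∈ (univ : Finset (Fin s)).offDiag, (∏ i, ((B i).card : ℝ)) / m :=
    Finset.sum_le_sum fun ij hij => key ij.1 ij.2 (Finset.mem_offDiag.mp hij).2.2
  rw [Finset.sum_const, nsmul_eq_mul] at h3
  have h4 : (((univ : Finset (Fin s)).offDiag.card : ℕ) : ℝ) ≤ s ^ 2 := by
    rw [Finset.offDiag_card, Finset.card_univ, Fintype.card_fin]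
    have : s * s - s ≤ s ^ 2 := by
      rw [sq]
      exact Nat.sub_le _ _
    exact_mod_cast this
  calc _ ≤ _ := h2
    _ ≤ _ := h3
    _ ≤ (s : ℝ) ^ 2 * ((∏ i, ((B i).card : ℝ)) / m) := by
      apply mul_le_mul_of_nonneg_right h4
      positivity
    _ = _ := by ring

lemma rigid_num {L d P s2 : ℝ} (hL1 : 1 ≤ L) (hd : 0 < d) (hd' : d ≤ 1 / 16) (hP0 : 0 ≤ P)
    (hs2 : 0 ≤ s2) (hL3 : s2 + 1 ≤ L ^ (d / 128)) :
    s2 * P / L ^ 2 + P / L ^ (d / 32) ≤ P / L ^ (d / 128) := by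
  have hL0 : 0 < L := by linarith
  have hpow : ∀ {a b : ℝ}, a ≤ b → L ^ a ≤ L ^ b := fun h =>
    Real.rpow_le_rpow_of_exponent_le hL1 h
  have hsq : L ^ (2 : ℕ) = L ^ (2 : ℝ) := by
    rw [← Real.rpow_natCast]
    norm_num
  have h64 : L ^ (d / 64) = L ^ (d / 128) * L ^ (d / 128) := by
    rw [← Real.rpow_add hL0]
    congr 1
    ring
  have h6 : 0 < L ^ (d / 128) := Real.rpow_pos_of_pos hL0 _
  have h7 : 0 < L ^ (d / 64) := Real.rpow_pos_of_pos hL0 _
  have h3 : s2 * P / L ^ 2 ≤ s2 * P / L ^ (d / 64) := by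
    apply div_le_div_of_nonneg_left (mul_nonneg hs2 hP0) h7
    rw [hsq]
    exact hpow (by linarith only [hd, hd'])
  have h4 : P / L ^ (d / 32) ≤ P / L ^ (d / 64) :=
    div_le_div_of_nonneg_left hP0 h7 (hpow (by linarith only [hd]))
  have h5 : s2 * P / L ^ (d / 64) + P / L ^ (d / 64) ≤ P / L ^ (d / 128) := by
    rw [← add_div, div_le_div_iff₀ h7 h6, h64]
    have h8 : (s2 + 1) * P ≤ L ^ (d / 128) * P := mul_le_mul_of_nonneg_right hL3 hP0
    have h9 := mul_le_mul_of_nonneg_right h8 h6.le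
    linarith only [h9]
  linarith only [h3, h4, h5]

lemma rigid_num2 {L d : ℝ} (hL1 : 1 ≤ L) (hd : 0 < d) (hd' : d ≤ 1 / 16)
    (hL2 : 3 ≤ L ^ (d / 128)) :
    1 / L ^ (1 / 2 : ℝ) + 1 / L ^ (d / 64) + 1 / L ^ 1 ≤ 1 / L ^ (d / 128) := by
  have hL0 : 0 < L := by linarith
  have hpow : ∀ {a b : ℝ}, a ≤ b → L ^ a ≤ L ^ b := fun h =>
    Real.rpow_le_rpow_of_exponent_le hL1 h
  have h64 : L ^ (d / 64) = L ^ (d / 128) * L ^ (d / 128) := by
    rw [← Real.rpow_add hL0]
    congr 1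
    ring
  have h6 : 0 < L ^ (d / 128) := Real.rpow_pos_of_pos hL0 _
  have h7 : 0 < L ^ (d / 64) := Real.rpow_pos_of_pos hL0 _
  have g3 : 1 / L ^ (1 / 2 : ℝ) ≤ 1 / L ^ (d / 64) :=
    one_div_le_one_div_of_le h7 (hpow (by linarith))
  have g4 : 1 / L ^ 1 ≤ 1 / L ^ (d / 64) := by
    apply one_div_le_one_div_of_le h7
    have : L ^ 1 = L ^ (1 : ℝ) := by rw [pow_one, Real.rpow_one]
    rw [this]
    exact hpow (by linarith)
  have g6 : 3 * (1 / L ^ (d / 64)) ≤ 1 / L ^ (d / 128) := by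
    rw [mul_one_div, div_le_div_iff₀ h7 h6, h64]
    have := mul_le_mul_of_nonneg_right hL2 h6.le
    linarith only [this]
  linarith only [g3, g4, g6]

lemma rigid_cheb {α : Type*} (S : Finset α) (f : α → ℝ) {L d P : ℝ} (hL1 : 1 ≤ L)
    (h : ∑ b ∈ S, f b ^ 2 ≤ P / L ^ (d / 16)) :
    ((S.filter (fun b => 1 / L ^ (d / 64) < |f b|)).card : ℝ) ≤ P / L ^ (d / 32) := by
  have hL0 : 0 < L := by linarith
  have h64 : 0 < L ^ (d / 64) := Real.rpow_pos_of_pos hL0 _
  have h2 : ((S.filter (fun b => 1 / L ^ (d / 64) < |f b|)).card : ℝ) *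
      (1 / L ^ (d / 64)) ^ 2 ≤ P / L ^ (d / 16) := by
    refine le_trans ?_ h
    rw [← nsmul_eq_mul, ← Finset.sum_const]
    refine (Finset.sum_le_sum fun b hb => ?_).trans
      (Finset.sum_le_sum_of_subset_of_nonneg (Finset.filter_subset _ _)
        fun b _ _ => sq_nonneg (f b))
    have h3 := (Finset.mem_filter.mp hb).2
    rw [← sq_abs (f b)]
    exact pow_le_pow_left₀ (one_div_nonneg.mpr h64.le) h3.le 2
  have h3 : (1 / L ^ (d / 64)) ^ 2 = 1 / L ^ (d / 32) := by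
    rw [div_pow, one_pow, ← Real.rpow_natCast, ← Real.rpow_mul hL0.le]
    congr 2
    push_cast
    ring
  have h4 : L ^ (d / 16) = L ^ (d / 32) * L ^ (d / 32) := by
    rw [← Real.rpow_add hL0]
    congr 1
    ring
  have h5 : 0 < L ^ (d / 32) := Real.rpow_pos_of_pos hL0 _
  rw [h3, h4, mul_one_div, ← div_div, div_le_div_iff_of_pos_right h5] at h2
  exact h2

lemma rigid_det (s x z : ℕ) (B : Fin s → Finset ℕ) {L d : ℝ} (hL1 : 1 ≤ L) (hd : 0 < d)
    (hd' : d ≤ 1 / 16) (hL2 : 3 ≤ L ^ (d / 128)) (hL3 : (s : ℝ) ^ 2 + 1 ≤ L ^ (d / 128))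
    (hB : ∀ i, ∀ b ∈ B i, b ≤ x) (hcard2 : ∀ i, L ^ 2 ≤ ((B i).card : ℝ))
    (hp : ∀ t : Fin s → ℕ, Function.Injective t → (∀ i, t i ≤ x) →
      |PP x t - pin x t| ≤ 1 / L ^ (1 / 2 : ℝ))
    (hQ : ∀ b : Fin s → ℕ, Function.Injective b → (∀ i, b i ≤ x) →
      |QQ z x b - SI b| ≤ 1 / L ^ 1)
    (hmain : ∑ b ∈ Fintype.piFinset B, (PP x b - QQ z x b) ^ 2 ≤
      (∏ i, ((B i).card : ℝ)) / L ^ (d / 16)) :
    ∃ E ⊆ Fintype.piFinset B, (E.card : ℝ) ≤ (∏ i, ((B i).card : ℝ)) / L ^ (d / 128) ∧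
        ∀ b ∈ Fintype.piFinset B, b ∉ E → Function.Injective b ∧
          |pin x b - SI b| ≤ 1 / L ^ (d / 128) := by
  have hL0 : 0 < L := by linarith
  have hP0 : 0 ≤ ∏ i, ((B i).card : ℝ) := Finset.prod_nonneg fun i _ => Nat.cast_nonneg _
  have hc1 := card_not_inj B (pow_pos hL0 2) hcard2
  have hc2 := rigid_cheb (Fintype.piFinset B) (fun b => PP x b - QQ z x b) hL1 hmain
  have hn := rigid_num hL1 hd hd' hP0 (sq_nonneg (s : ℝ)) hL3
  refine ⟨(Fintype.piFinset B).filter (fun b => ¬ Function.Injective b) ∪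
    (Fintype.piFinset B).filter (fun b => 1 / L ^ (d / 64) < |PP x b - QQ z x b|),
    Finset.union_subset (Finset.filter_subset _ _) (Finset.filter_subset _ _), ?_, ?_⟩
  · refine le_trans (le_trans ?_ (add_le_add hc1 hc2)) hn
    exact_mod_cast Finset.card_union_le _ _
  · intro b hb hbE
    rw [Finset.mem_union, not_or] at hbE
    have hinj : Function.Injective b := by
      by_contra hcon2
      exact hbE.1 (Finset.mem_filter.mpr ⟨hb, hcon2⟩)
    have hbd : |PP x b - QQ z x b| ≤ 1 / L ^ (d / 64) := by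
      by_contra hcon2
      push Not at hcon2
      exact hbE.2 (Finset.mem_filter.mpr ⟨hb, hcon2⟩)
    have hbx : ∀ i, b i ≤ x := fun i => hB i (b i) ((Fintype.mem_piFinset.mp hb) i)
    refine ⟨hinj, ?_⟩
    have g1 := hp b hinj hbx
    have g2 := hQ b hinj hbx
    have g5 : |pin x b - SI b| ≤
        |PP x b - pin x b| + |PP x b - QQ z x b| + |QQ z x b - SI b| := by
      have e : pin x b - SI b =
          -(PP x b - pin x b) + (PP x b - QQ z x b) + (QQ z x b - SI b) := by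
        ring
      rw [e]
      refine (abs_add_le _ _).trans ?_
      refine add_le_add ((abs_add_le _ _).trans ?_) le_rfl
      rw [abs_neg]
    have g6 := rigid_num2 hL1 hd hd' hL2
    linarith only [hbd, g1, g2, g5, g6]

lemma rigid_conc {V W β2 L d d' : ℝ} (hL1 : 1 ≤ L) (hW : 0 ≤ W) (hβ : 0 ≤ β2) (hdd : d' ≤ d)
    (h : V ≤ W * (β2 * (1 / L ^ d))) : V ≤ W * (β2 * (1 / L ^ d')) := by
  have hL0 : 0 < L := by linarith
  refine h.trans ?_
  apply mul_le_mul_of_nonneg_left _ hW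
  apply mul_le_mul_of_nonneg_left _ hβ
  exact one_div_le_one_div_of_le (Real.rpow_pos_of_pos hL0 _)
    (Real.rpow_le_rpow_of_exponent_le hL1 hdd)

lemma rigid_hyp {V W β L d d' : ℝ} (hL1 : 1 ≤ L) (hβ : 0 ≤ β) (hdd : d' ≤ d)
    (h : V ≤ W + β / L ^ d) : V ≤ W + β / L ^ d' := by
  have hL0 : 0 < L := by linarith
  refine h.trans ?_
  have : β / L ^ d ≤ β / L ^ d' :=
    div_le_div_of_nonneg_left hβ (Real.rpow_pos_of_pos hL0 _)
      (Real.rpow_le_rpow_of_exponent_le hL1 hdd)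
  linarith

theorem rigid (R s : ℕ) (hs : 1 ≤ s) {δ : ℝ} (hδ : 0 < δ) : ∃ δ' : ℝ, 0 < δ' ∧
    ∀ᶠ x : ℕ in atTop, ∀ B : Fin s → Finset ℕ, (∀ i, ∀ b ∈ B i, b ≤ x) →
      (∀ i, Real.log x ^ (2 + δ) ≤ (B i).card) →
      (∀ i, ∃ r : ℕ, 2 ≤ r ∧ r ≤ R ∧ ∑ b ∈ Inj r (B i), pin x b ^ 2 ≤
        ∑ b ∈ Inj r (B i), SI b ^ 2 + ((B i).card : ℝ) ^ r / Real.log x ^ δ) →
      ∃ E ⊆ Fintype.piFinset B, (E.card : ℝ) ≤ (∏ i, ((B i).card : ℝ)) / Real.log x ^ δ' ∧
        ∀ b ∈ Fintype.piFinset B, b ∉ E → Function.Injective b ∧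
          |pin x b - SI b| ≤ 1 / Real.log x ^ δ' := by
  obtain ⟨δ0, hδ0⟩ : ∃ δ0 : ℝ, δ0 = min δ (1 / 4) := ⟨_, rfl⟩
  have h0 : 0 < δ0 := by
    rw [hδ0]
    exact lt_min hδ (by norm_num)
  have h0' : δ0 ≤ 1 / 4 := by
    rw [hδ0]
    exact min_le_right _ _
  have h0'' : δ0 ≤ δ := by
    rw [hδ0]
    exact min_le_left _ _
  have hR0 : (0 : ℝ) ≤ R := Nat.cast_nonneg R
  obtain ⟨δ1, hδ1⟩ : ∃ δ1 : ℝ, δ1 = δ0 / (2 * ((R : ℝ) + 2)) := ⟨_, rfl⟩
  have h1 : 0 < δ1 := by
    rw [hδ1]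
    positivity
  have h1' : δ1 ≤ 1 / 16 := by
    rw [hδ1, div_le_iff₀ (by positivity)]
    nlinarith only [h0']
  choose A0 hA0 using fun k : ℕ => conc_N k h0 h0'
  obtain ⟨AQ, hAQ⟩ := QQ_close s 1 hs
  obtain ⟨A, hA⟩ : ∃ A : ℕ, A = (Finset.range (R + 1)).sup A0 + AQ := ⟨_, rfl⟩
  have hAk : ∀ k ∈ Finset.range (R + 1), A0 k ≤ A := by
    intro k hk
    rw [hA]
    exact (Finset.le_sup hk).trans (Nat.le_add_right _ _)
  have hAQ' : AQ ≤ A := by
    rw [hA]
    exact Nat.le_add_left _ _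
  have hcon : ∀ᶠ x : ℕ in atTop, ∀ k ∈ Finset.range (R + 1), ∀ B : Finset ℕ,
      (∀ b ∈ B, b ≤ x) → Real.log x ^ (2 + δ0) ≤ B.card →
      ∑ b ∈ Inj (k + 2) B, pin x b ^ 2 ≤
        ∑ b ∈ Inj (k + 2) B, SI b ^ 2 + (B.card : ℝ) ^ (k + 2) / Real.log x ^ δ0 →
      ∑ w ∈ Om x, (SS lp lp B w - SS (nuz (zA A x)) (nuz (zA A x)) B w) ^ 2 ≤
        (Om x).card * ((B.card : ℝ) ^ 2 * (1 / Real.log x ^ (δ0 / (2 * ((k : ℝ) + 2))))) := by
    rw [Filter.eventually_all_finset]
    intro k hk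
    exact hA0 k A (hAk k hk)
  have h128 : 0 < δ1 / 128 := by linarith only [h1]
  have e1 := tendsto_log_nat.eventually (eventually_ge_atTop (1 : ℝ))
  have e2 := ((tendsto_rpow_atTop h128).comp tendsto_log_nat).eventually
    (eventually_ge_atTop (3 : ℝ))
  have e3 := ((tendsto_rpow_atTop h128).comp tendsto_log_nat).eventually
    (eventually_ge_atTop ((s : ℝ) ^ 2 + 1))
  refine ⟨δ1 / 128, h128, ?_⟩
  filter_upwards [hcon, hAQ A hAQ', tuples_of_conc s A h1 (by linarith only [h1, h1']),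
    pin_close s, e1, e2, e3] with x hc hQ ht hp hL1 hL2 hL3
  intro B hB hcard hms
  simp only [Function.comp_apply] at hL2 hL3
  have hpow : ∀ {a b : ℝ}, a ≤ b → Real.log x ^ a ≤ Real.log x ^ b := fun h =>
    Real.rpow_le_rpow_of_exponent_le hL1 h
  have hsq : Real.log x ^ (2 : ℕ) = Real.log x ^ (2 : ℝ) := by
    rw [← Real.rpow_natCast]
    norm_num
  have hcard2 : ∀ i, Real.log x ^ 2 ≤ ((B i).card : ℝ) := by
    intro i
    refine le_trans ?_ (hcard i)
    rw [hsq]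
    exact hpow (by linarith only [hδ])
  -- concentration
  have hconc : ∀ i, ∑ w ∈ Om x, (SS lp lp (B i) w - SS (nuz (zA A x)) (nuz (zA A x)) (B i) w) ^ 2 ≤
      (Om x).card * (((B i).card : ℝ) ^ 2 * (1 / Real.log x ^ δ1)) := by
    intro i
    obtain ⟨r, hr2, hrR, hr⟩ := hms i
    obtain ⟨k, rfl⟩ : ∃ k, r = k + 2 := ⟨r - 2, by omega⟩
    have hk : k ∈ Finset.range (R + 1) := by
      rw [Finset.mem_range]
      omega
    have hc1 := hc k hk (B i) (hB i) ((hpow (by linarith only [h0''])).trans (hcard i))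
      (rigid_hyp hL1 (pow_nonneg (Nat.cast_nonneg _) _) h0'' hr)
    refine rigid_conc hL1 (Nat.cast_nonneg _) (sq_nonneg _) ?_ hc1
    rw [hδ1]
    have h4 : (k : ℝ) ≤ R := by
      have : k ≤ R := by omega
      exact_mod_cast this
    apply div_le_div_of_nonneg_left h0.le
    · (clear * -; positivity)
    · linarith only [h4]
  have hmain := ht B hB hcard2 hconc
  exact rigid_det s x (zA A x) B hL1 h1 h1' hL2 hL3 hB hcard2 hp hQ hmain

open scoped Classical in
theorem ms_of_upper (r : ℕ) (hr : 1 ≤ r) {δ : ℝ} (hδ : 0 < δ) : ∀ᶠ x : ℕ in atTop,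
    ∀ B : Finset ℕ, (∀ b ∈ B, b ≤ x) →
      (((Inj r B).filter (fun b => SI b + 1 / Real.log x ^ δ < pin x b)).card : ℝ) ≤
        (B.card : ℝ) ^ r / Real.log x ^ δ →
      ∑ b ∈ Inj r B, pin x b ^ 2 ≤
        ∑ b ∈ Inj r B, SI b ^ 2 + (B.card : ℝ) ^ r / Real.log x ^ (δ / 2) := by
  have hη : 0 < δ / 8 := by positivity
  have h4 : 0 < δ / 4 := by positivity
  have e1 := tendsto_log_nat.eventually (eventually_ge_atTop (1 : ℝ))
  have e2 := ((tendsto_rpow_atTop h4).comp tendsto_log_nat).eventually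
    (eventually_ge_atTop (7 : ℝ))
  filter_upwards [SI_small r hr hη, PP_inj_small r hη, pin_close r, e1, e2] with x hS hP hpc hL1 hL2
  intro B hB hex
  simp only [Function.comp_apply] at hL2
  set L : ℝ := Real.log x with hL
  have hL0 : 0 < L := by linarith only [hL1]
  have hpow : ∀ {a b : ℝ}, a ≤ b → L ^ a ≤ L ^ b := fun h =>
    Real.rpow_le_rpow_of_exponent_le hL1 h
  have hone : ∀ {a : ℝ}, 0 ≤ a → 1 ≤ L ^ a := fun h => Real.one_le_rpow hL1 h
  set η : ℝ := δ / 8 with hηd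
  set bad := (Inj r B).filter (fun b => SI b + 1 / L ^ δ < pin x b) with hbad
  set good := (Inj r B).filter (fun b => ¬ (SI b + 1 / L ^ δ < pin x b)) with hgood
  have hmem : ∀ b ∈ Inj r B, Function.Injective b ∧ ∀ i, b i ≤ x := by
    intro b hb
    unfold Inj at hb
    rw [Finset.mem_filter, mem_Tup] at hb
    exact ⟨hb.2, fun i => hB _ (hb.1 i)⟩
  have hpin0 : ∀ b : Fin r → ℕ, 0 ≤ pin x b := by
    intro b
    unfold pin
    have : 0 ≤ Real.log x := hL0.le
    positivity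
  have hpin : ∀ b ∈ Inj r B, pin x b ≤ 2 * L ^ η := by
    intro b hb
    obtain ⟨hi, hx⟩ := hmem b hb
    have a1 := hP b hi hx
    have a2 := (abs_le.mp (hpc b hi hx)).1
    have a3 : 1 / L ^ (1 / 2 : ℝ) ≤ 1 := by
      rw [div_le_one (by (clear * - hL1; positivity))]
      exact hone (by norm_num)
    have a4 : 1 ≤ L ^ η := hone hη.le
    linarith only [a1, a2, a3, a4]
  have hgb : ∀ b ∈ good, pin x b ^ 2 ≤ SI b ^ 2 + 3 * L ^ (η - δ) := by
    intro b hb
    rw [hgood, Finset.mem_filter] at hb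
    obtain ⟨hb1, hb2⟩ := hb
    push Not at hb2
    obtain ⟨hi, hx⟩ := hmem b hb1
    have a1 := hS b hi hx
    have a0 : 0 ≤ SI b := SI_nonneg b hi
    have a2 : pin x b ^ 2 ≤ (SI b + 1 / L ^ δ) ^ 2 := pow_le_pow_left₀ (hpin0 b) hb2 2
    have a3 : L ^ (η - δ) = L ^ η * (1 / L ^ δ) := by
      rw [Real.rpow_sub hL0]
      ring
    have a4 : 0 ≤ 1 / L ^ δ := by (clear * - hL1; positivity)
    have a5 : 1 / L ^ δ ≤ 1 := by
      rw [div_le_one (by (clear * - hL1; positivity))]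
      exact hone hδ.le
    have a6 : 1 ≤ L ^ η := hone hη.le
    have a7 : (1 / L ^ δ) ^ 2 ≤ L ^ η * (1 / L ^ δ) := by nlinarith only [a4, a5, a6]
    have a8 : SI b * (1 / L ^ δ) ≤ L ^ η * (1 / L ^ δ) := mul_le_mul_of_nonneg_right a1 a4
    rw [a3]
    nlinarith only [a2, a7, a8]
  have hbb : ∀ b ∈ bad, pin x b ^ 2 ≤ 4 * (L ^ η * L ^ η) := by
    intro b hb
    rw [hbad, Finset.mem_filter] at hb
    have a1 := hpin b hb.1
    have a2 := pow_le_pow_left₀ (hpin0 b) a1 2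
    nlinarith only [a2]
  have hsplit : ∑ b ∈ Inj r B, pin x b ^ 2 =
      ∑ b ∈ bad, pin x b ^ 2 + ∑ b ∈ good, pin x b ^ 2 :=
    (Finset.sum_filter_add_sum_filter_not _ _ _).symm
  have hcardI : ((Inj r B).card : ℝ) ≤ (B.card : ℝ) ^ r := by
    have h2 : (Inj r B).card ≤ (Tup r B).card := Finset.card_filter_le _ _
    rw [card_Tup] at h2
    exact_mod_cast h2
  have hb1 : ∑ b ∈ bad, pin x b ^ 2 ≤ (B.card : ℝ) ^ r / L ^ δ * (4 * (L ^ η * L ^ η)) := by
    refine (Finset.sum_le_sum hbb).trans ?_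
    rw [Finset.sum_const, nsmul_eq_mul]
    exact mul_le_mul_of_nonneg_right hex (by (clear * - hL1; positivity))
  have hg1 : ∑ b ∈ good, pin x b ^ 2 ≤
      ∑ b ∈ Inj r B, SI b ^ 2 + (B.card : ℝ) ^ r * (3 * L ^ (η - δ)) := by
    refine (Finset.sum_le_sum hgb).trans ?_
    rw [Finset.sum_add_distrib, Finset.sum_const, nsmul_eq_mul]
    have h2 : ∑ b ∈ good, SI b ^ 2 ≤ ∑ b ∈ Inj r B, SI b ^ 2 :=
      Finset.sum_le_sum_of_subset_of_nonneg (Finset.filter_subset _ _)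
        fun b _ _ => sq_nonneg _
    have h3 : ((good.card : ℕ) : ℝ) ≤ (B.card : ℝ) ^ r := by
      refine le_trans ?_ hcardI
      exact_mod_cast Finset.card_filter_le _ _
    have h5 : (good.card : ℝ) * (3 * L ^ (η - δ)) ≤ (B.card : ℝ) ^ r * (3 * L ^ (η - δ)) :=
      mul_le_mul_of_nonneg_right h3 (by (clear * - hL1; positivity))
    linarith only [h2, h5]
  have hf : (B.card : ℝ) ^ r / L ^ δ * (4 * (L ^ η * L ^ η)) +
      (B.card : ℝ) ^ r * (3 * L ^ (η - δ)) ≤ (B.card : ℝ) ^ r / L ^ (δ / 2) := by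
    have a1 : L ^ δ = L ^ (δ / 2) * L ^ (δ / 4) * (L ^ η * L ^ η) := by
      rw [← Real.rpow_add hL0, ← Real.rpow_add hL0, ← Real.rpow_add hL0]
      congr 1
      rw [hηd]
      ring
    have a3 : L ^ (η - δ) = L ^ η / L ^ δ := Real.rpow_sub hL0 _ _
    have a6 : 1 ≤ L ^ η := hone hη.le
    have a7 : 0 < L ^ δ := by (clear * - hL1; positivity)
    have a8 : 0 < L ^ (δ / 2) := by (clear * - hL1; positivity)
    have a9 : (0 : ℝ) ≤ (B.card : ℝ) ^ r := by (clear * -; positivity)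
    have a10 : L ^ η / L ^ δ ≤ L ^ η * L ^ η / L ^ δ := by
      apply div_le_div_of_nonneg_right _ a7.le
      nlinarith only [a6]
    have a11 : 7 * (L ^ η * L ^ η) / L ^ δ ≤ 1 / L ^ (δ / 2) := by
      rw [div_le_div_iff₀ a7 a8, a1]
      have : 0 < L ^ (δ / 2) * (L ^ η * L ^ η) := by (clear * - hL1; positivity)
      nlinarith only [hL2, this]
    calc _ = (B.card : ℝ) ^ r * (4 * (L ^ η * L ^ η / L ^ δ) + 3 * (L ^ η / L ^ δ)) := by
          rw [a3]
          ring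
      _ ≤ (B.card : ℝ) ^ r * (7 * (L ^ η * L ^ η) / L ^ δ) := by
          apply mul_le_mul_of_nonneg_left _ a9
          have : 7 * (L ^ η * L ^ η) / L ^ δ = 7 * (L ^ η * L ^ η / L ^ δ) := by ring
          rw [this]
          linarith only [a10]
      _ ≤ (B.card : ℝ) ^ r * (1 / L ^ (δ / 2)) := mul_le_mul_of_nonneg_left a11 a9
      _ = _ := by ring
  rw [hsplit]
  linarith only [hb1, hg1, hf]

end Pool.Agent.HLR
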