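import Pool.Agent.Lib.HLR.OneDefect
import Pool.Agent.Lib.HLR.OneAvg
import Pool.Agent.Lib.HLR.Rigid

/-!
# The one variable version: rigidity of the averages
-/

set_option autoImplicit false

open Finset Filter

namespace Pool.Agent.HLR

open Pool.Agent.HLB Pool.Agent.HLT UpperAux

open scoped Classical in
theorem ms_of_upper1 (r : ℕ) {δ : ℝ} (hδ : 0 < δ) : ∀ᶠ x : ℕ in atTop,
    ∀ B : Finset ℕ, (∀ b ∈ B, b ≤ x) →
      (((Inj r B).filter (fun b => SI b + 1 / Real.log x ^ δ < pin x b)).card : ℝ) ≤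
        (B.card : ℝ) ^ r / Real.log x ^ δ →
      ∑ b ∈ Inj r B, pin x b ≤
        ∑ b ∈ Inj r B, SI b + (B.card : ℝ) ^ r / Real.log x ^ (δ / 2) := by
  have hη : 0 < δ / 4 := by positivity
  filter_upwards [PP_inj_small r hη, pin_close r, ev_log_ge 1, ev_rpow_ge 3 hη]
    with x hP hpc hL1 hL2
  intro B hB hex
  set L : ℝ := Real.log x with hL
  have hL0 : 0 < L := by linarith
  have hmem : ∀ b ∈ Inj r B, Function.Injective b ∧ ∀ i, b i ≤ x := by
    intro b hb
    unfold Inj at hb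
    rw [Finset.mem_filter, mem_Tup] at hb
    exact ⟨hb.2, fun i => hB _ (hb.1 i)⟩
  have hu1 : 1 ≤ L ^ (δ / 4) := Real.one_le_rpow hL1 hη.le
  have hpt : ∀ b ∈ Inj r B, pin x b ≤ SI b + 1 / L ^ δ +
      (if SI b + 1 / Real.log x ^ δ < pin x b then 2 * L ^ (δ / 4) else 0) := by
    intro b hb
    obtain ⟨hi, hx⟩ := hmem b hb
    have h0 : 0 ≤ SI b := SI_nonneg b hi
    have h00 : 0 ≤ 1 / L ^ δ := by positivity
    split_ifs with h
    · have a1 := hP b hi hx
      have a2 := (abs_le.mp (hpc b hi hx)).1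
      have a3 : 1 / L ^ (1 / 2 : ℝ) ≤ 1 := by
        rw [div_le_one (by positivity)]
        exact Real.one_le_rpow hL1 (by norm_num)
      linarith only [hL2, h0, h00, a1, a2, a3]
    · push Not at h
      linarith only [h]
  have hsum := Finset.sum_le_sum hpt
  rw [Finset.sum_add_distrib, Finset.sum_add_distrib, Finset.sum_const, nsmul_eq_mul,
    ← Finset.sum_filter, Finset.sum_const, nsmul_eq_mul] at hsum
  refine hsum.trans ?_
  have hcard : ((Inj r B).card : ℝ) ≤ (B.card : ℝ) ^ r := card_Inj_le r B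
  set P : ℝ := (B.card : ℝ) ^ r with hP'
  have hP0 : 0 ≤ P := by positivity
  have e2 : 1 / L ^ (δ / 2) = L ^ (δ / 4) * (1 / L ^ δ * L ^ (δ / 4)) := by
    rw [one_div, one_div, ← Real.rpow_neg hL0.le, ← Real.rpow_neg hL0.le, ← Real.rpow_add hL0,
      ← Real.rpow_add hL0]
    congr 1
    ring
  have e3 : P / L ^ (δ / 2) = P * (L ^ (δ / 4) * (1 / L ^ δ * L ^ (δ / 4))) := by
    rw [← e2]
    ring
  rw [e3]
  have h00 : 0 ≤ 1 / L ^ δ := by positivity
  set v : ℝ := 1 / L ^ δ with hv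
  set u : ℝ := L ^ (δ / 4) with hu
  have h1 : ((Inj r B).card : ℝ) * v ≤ P * v := mul_le_mul_of_nonneg_right hcard h00
  have h2 : (((Inj r B).filter (fun b => SI b + v < pin x b)).card : ℝ) * (2 * u) ≤
      P * v * (2 * u) := by
    refine mul_le_mul_of_nonneg_right ?_ (by linarith only [hL2])
    have : P / L ^ δ = P * v := by
      rw [hv]
      ring
    rw [← this]
    exact hex
  have h3 : P * v + P * v * (2 * u) ≤ P * (u * (v * u)) := by
    have h4 : 0 ≤ P * v := mul_nonneg hP0 h00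
    have h5 : 0 ≤ u * u - 2 * u - 1 := by nlinarith only [hL2]
    have h6 : P * (u * (v * u)) = P * v + P * v * (2 * u) + P * v * (u * u - 2 * u - 1) := by ring
    rw [h6]
    have h7 := mul_nonneg h4 h5
    linarith only [h7]
  linarith only [h1, h2, h3]

theorem rigid1 (R s : ℕ) (hs : 1 ≤ s) {δ : ℝ} (hδ : 0 < δ) : ∃ δ' : ℝ, 0 < δ' ∧
    ∀ᶠ x : ℕ in atTop, ∀ B : Fin s → Finset ℕ, (∀ i, ∀ b ∈ B i, b ≤ x) →
      (∀ i, Real.log x ^ (1 + δ) ≤ (B i).card) →
      (∀ i, ∃ r : ℕ, 2 ≤ r ∧ r ≤ R ∧ ∑ b ∈ Inj r (B i), pin x b ≤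
        ∑ b ∈ Inj r (B i), SI b + ((B i).card : ℝ) ^ r / Real.log x ^ δ) →
      |∑ b ∈ (Fintype.piFinset B).filter (fun b => Function.Injective b), (pin x b - SI b)| ≤
        (∏ i, ((B i).card : ℝ)) / Real.log x ^ δ' := by
  obtain ⟨δ0, hδ0⟩ : ∃ δ0 : ℝ, δ0 = min δ (1 / 4) := ⟨_, rfl⟩
  have h0 : 0 < δ0 := by
    rw [hδ0]
    exact lt_min hδ (by norm_num)
  have h0' : δ0 ≤ 1 / 4 := by
    rw [hδ0]
    exact min_le_right _ _
  have h0'' : δ0 ≤ δ := by
    rw [hδ0]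
    exact min_le_left _ _
  have hR0 : (0 : ℝ) ≤ R := Nat.cast_nonneg R
  obtain ⟨δ1, hδ1⟩ : ∃ δ1 : ℝ, δ1 = δ0 / (2 * ((R : ℝ) + 2)) := ⟨_, rfl⟩
  have h1 : 0 < δ1 := by
    rw [hδ1]
    positivity
  have h1' : δ1 ≤ 1 / 16 := by
    rw [hδ1, div_le_iff₀ (by positivity)]
    nlinarith only [h0']
  have h1'' : δ1 ≤ δ0 := by
    rw [hδ1, div_le_iff₀ (by positivity)]
    nlinarith only [h0]
  choose A0 hA0 using fun k : ℕ => conc_N1 k h0 h0'
  obtain ⟨AQ, hAQ⟩ := QQ_close s 1 hs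
  obtain ⟨A, hA⟩ : ∃ A : ℕ, A = (Finset.range (R + 1)).sup A0 + AQ := ⟨_, rfl⟩
  have hAk : ∀ k ∈ Finset.range (R + 1), A0 k ≤ A := by
    intro k hk
    rw [hA]
    exact (Finset.le_sup hk).trans (Nat.le_add_right _ _)
  have hAQ' : AQ ≤ A := by
    rw [hA]
    exact Nat.le_add_left _ _
  have hcon : ∀ᶠ x : ℕ in atTop, ∀ k ∈ Finset.range (R + 1), ∀ B : Finset ℕ,
      (∀ b ∈ B, b ≤ x) → Real.log x ^ (1 + δ0) ≤ B.card →
      ∑ b ∈ Inj (k + 2) B, pin x b ≤
        ∑ b ∈ Inj (k + 2) B, SI b + (B.card : ℝ) ^ (k + 2) / Real.log x ^ δ0 →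
      ∑ n ∈ Icc 1 x, (S1 lp B n - S1 (nuz (zA A x)) B n) ^ 2 ≤
        (Icc 1 x).card * ((B.card : ℝ) ^ 2 * (1 / Real.log x ^ (δ0 / (2 * ((k : ℝ) + 2))))) := by
    rw [Filter.eventually_all_finset]
    intro k hk
    exact hA0 k A (hAk k hk)
  have h8 : 0 < δ1 / 8 := by linarith only [h1]
  refine ⟨δ1 / 8, h8, ?_⟩
  filter_upwards [hcon, hAQ A hAQ', avg_of_conc1 s A h1, noninj_prod1 s h0,
    QQ_small s A (show (0 : ℝ) < 1 / 2 by norm_num), pin_close s, ev_log_ge 1,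
    ev_rpow_ge (4 + (s : ℝ) ^ 2) h8] with x hc hQ ht hnon hQs hp hL1 hL2
  intro B hB hcard hms
  have hpow : ∀ {a b : ℝ}, a ≤ b → Real.log x ^ a ≤ Real.log x ^ b := fun h =>
    Real.rpow_le_rpow_of_exponent_le hL1 h
  have hcard1 : ∀ i, Real.log x ≤ ((B i).card : ℝ) := by
    intro i
    refine le_trans ?_ (hcard i)
    calc Real.log x = Real.log x ^ (1 : ℝ) := (Real.rpow_one _).symm
      _ ≤ _ := hpow (by linarith only [hδ])
  -- concentration
  have hconc : ∀ i, ∑ n ∈ Icc 1 x, (S1 lp (B i) n - S1 (nuz (zA A x)) (B i) n) ^ 2 ≤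
      (Icc 1 x).card * (((B i).card : ℝ) ^ 2 * (1 / Real.log x ^ δ1)) := by
    intro i
    obtain ⟨r, hr2, hrR, hr⟩ := hms i
    obtain ⟨k, rfl⟩ : ∃ k, r = k + 2 := ⟨r - 2, by omega⟩
    have hk : k ∈ Finset.range (R + 1) := by
      rw [Finset.mem_range]
      omega
    have hc1 := hc k hk (B i) (hB i) ((hpow (by linarith only [h0''])).trans (hcard i))
      (rigid_hyp hL1 (pow_nonneg (Nat.cast_nonneg _) _) h0'' hr)
    refine rigid_conc hL1 (Nat.cast_nonneg _) (sq_nonneg _) ?_ hc1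
    rw [hδ1]
    have h4 : (k : ℝ) ≤ R := by
      have : k ≤ R := by omega
      exact_mod_cast this
    apply div_le_div_of_nonneg_left h0.le
    · (clear * -; positivity)
    · linarith only [h4]
  have hmain := ht B hB hcard1 hconc
  have hnon' := hnon B hB (fun i => (hpow (by linarith only [h0''])).trans (hcard i))
  set L : ℝ := Real.log x with hL
  have hL0 : 0 < L := by linarith only [h1, h1', hL1]
  have hβ0 : ∀ i, (0 : ℝ) < (B i).card := fun i => lt_of_lt_of_le hL0 (hcard1 i)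
  set P : ℝ := ∏ i, ((B i).card : ℝ) with hP
  have hP0 : 0 ≤ P := Finset.prod_nonneg fun i _ => (hβ0 i).le
  set z := zA A x with hz
  set t : ℝ := 1 / L ^ (δ1 / 4) with ht'
  have ht0 : 0 < t := by (clear * - hL1; positivity)
  have hle : ∀ a : ℝ, δ1 / 4 ≤ a → 1 / L ^ a ≤ t := by
    intro a ha
    exact one_div_le_one_div_of_le (by (clear * - hL1; positivity)) (hpow ha)
  -- the pieces
  set I := (Fintype.piFinset B).filter (fun b => Function.Injective b) with hI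
  set J := (Fintype.piFinset B).filter (fun b => ¬ Function.Injective b) with hJ
  have hIcard : (I.card : ℝ) ≤ P := by
    have h2 : I.card ≤ (Fintype.piFinset B).card := Finset.card_filter_le _ _
    rw [Fintype.card_piFinset] at h2
    rw [hP]
    exact_mod_cast h2
  have hIx : ∀ b ∈ I, Function.Injective b ∧ ∀ i, b i ≤ x := by
    intro b hb
    rw [hI, Finset.mem_filter, Fintype.mem_piFinset] at hb
    exact ⟨hb.2, fun i => hB i _ (hb.1 i)⟩
  have hsplit : ∑ b ∈ Fintype.piFinset B, (PP x b - QQ z x b) =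
      ∑ b ∈ I, (PP x b - QQ z x b) + ∑ b ∈ J, (PP x b - QQ z x b) := by
    rw [hI, hJ]
    exact (Finset.sum_filter_add_sum_filter_not _ _ _).symm
  have hJ1 : |∑ b ∈ J, (PP x b - QQ z x b)| ≤ P * t + (s : ℝ) ^ 2 * (P * t) := by
    have a1 : ∑ b ∈ J, PP x b ≤ P * t := by
      refine hnon'.trans ?_
      rw [div_eq_mul_one_div]
      exact mul_le_mul_of_nonneg_left (hle _ (by linarith only [h0, h1''])) hP0
    have a2 : ∑ b ∈ J, QQ z x b ≤ (s : ℝ) ^ 2 * (P * t) := by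
      have a3 := card_not_inj B hL0 hcard1
      have a4 : ∑ b ∈ J, QQ z x b ≤ J.card * L ^ (1 / 2 : ℝ) := by
        refine (Finset.sum_le_sum fun b _ => hQs b).trans ?_
        rw [Finset.sum_const, nsmul_eq_mul]
      refine a4.trans ((mul_le_mul_of_nonneg_right a3 (by (clear * - hL1; positivity))).trans ?_)
      have a5 : L ^ (1 / 2 : ℝ) / L ≤ t := by
        have a6 : L ^ (1 / 2 : ℝ) / L = 1 / L ^ (1 / 2 : ℝ) := by
          rw [div_eq_div_iff hL0.ne' (by (clear * - hL1; positivity)), ← Real.rpow_add hL0]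
          norm_num
        rw [a6]
        exact hle _ (by linarith only [h1, h1'])
      calc (s : ℝ) ^ 2 * (∏ i, ((B i).card : ℝ)) / L * L ^ (1 / 2 : ℝ) =
          (s : ℝ) ^ 2 * (P * (L ^ (1 / 2 : ℝ) / L)) := by
            rw [hP]
            ring
        _ ≤ (s : ℝ) ^ 2 * (P * t) := by
            refine mul_le_mul_of_nonneg_left (mul_le_mul_of_nonneg_left a5 hP0) (sq_nonneg _)
    have b1 : 0 ≤ ∑ b ∈ J, PP x b := Finset.sum_nonneg fun b _ => PP_nonneg x b
    have b2 : 0 ≤ ∑ b ∈ J, QQ z x b := Finset.sum_nonneg fun b _ => QQ_nonneg z x b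
    rw [Finset.sum_sub_distrib, abs_le]
    constructor <;> nlinarith only [a1, a2, b1, b2, mul_nonneg (sq_nonneg (s : ℝ)) (mul_nonneg hP0 ht0.le),
      mul_nonneg hP0 ht0.le]
  have hI1 : |∑ b ∈ I, (pin x b - SI b) - ∑ b ∈ I, (PP x b - QQ z x b)| ≤ P * (t + t) := by
    rw [← Finset.sum_sub_distrib]
    refine (Finset.abs_sum_le_sum_abs _ _).trans ?_
    have c1 : ∀ b ∈ I, |pin x b - SI b - (PP x b - QQ z x b)| ≤ t + t := by
      intro b hb
      obtain ⟨hi, hx⟩ := hIx b hb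
      have d1 := (hp b hi hx).trans (hle (1 / 2) (by linarith only [h1, h1']))
      have d2 := hQ b hi hx
      have d3 : 1 / L ^ 1 ≤ t := by
        have := hle 1 (by linarith only [h1, h1'])
        rwa [Real.rpow_one, ← pow_one L] at this
      have d4 := d2.trans d3
      have e : pin x b - SI b - (PP x b - QQ z x b) =
          -(PP x b - pin x b) + (QQ z x b - SI b) := by ring
      rw [e]
      refine (abs_add_le _ _).trans ?_
      rw [abs_neg]
      linarith only [d1, d2, d3]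
    refine (Finset.sum_le_sum c1).trans ?_
    rw [Finset.sum_const, nsmul_eq_mul]
    exact mul_le_mul_of_nonneg_right hIcard (by linarith only [ht0])
  have hmain' : |∑ b ∈ Fintype.piFinset B, (PP x b - QQ z x b)| ≤ P * t := by
    refine hmain.trans (le_of_eq ?_)
    rw [ht']
    ring
  have htot : |∑ b ∈ I, (pin x b - SI b)| ≤ (4 + (s : ℝ) ^ 2) * (P * t) := by
    have e : ∑ b ∈ I, (pin x b - SI b) =
        (∑ b ∈ I, (pin x b - SI b) - ∑ b ∈ I, (PP x b - QQ z x b)) +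
        (∑ b ∈ Fintype.piFinset B, (PP x b - QQ z x b) - ∑ b ∈ J, (PP x b - QQ z x b)) := by
      rw [hsplit]
      ring
    rw [e]
    refine (abs_add_le _ _).trans ?_
    have f1 := abs_sub (∑ b ∈ Fintype.piFinset B, (PP x b - QQ z x b))
      (∑ b ∈ J, (PP x b - QQ z x b))
    nlinarith only [hJ1, hI1, hmain', f1]
  refine htot.trans ?_
  have e4 : t = 1 / L ^ (δ1 / 8) * (1 / L ^ (δ1 / 8)) := by
    rw [ht', one_div, one_div, ← Real.rpow_neg hL0.le, ← Real.rpow_neg hL0.le,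
      ← Real.rpow_add hL0]
    congr 1
    ring
  have e5 : L ^ (δ1 / 8) * (1 / L ^ (δ1 / 8)) = 1 := by
    have : L ^ (δ1 / 8) ≠ 0 := by (clear * - hL1; positivity)
    field_simp
  calc (4 + (s : ℝ) ^ 2) * (P * t) ≤ L ^ (δ1 / 8) * (P * t) :=
        mul_le_mul_of_nonneg_right hL2 (mul_nonneg hP0 ht0.le)
    _ = P * (L ^ (δ1 / 8) * (1 / L ^ (δ1 / 8))) * (1 / L ^ (δ1 / 8)) := by
        rw [e4]
        ring
    _ = P / L ^ (δ1 / 8) := by
        rw [e5]
        ring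

end Pool.Agent.HLR
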