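import Pool.Agent.Lib.HLR.PairHL
import Pool.Agent.Lib.HLR.OneRigid

/-!
# Dilated sets of shifts, several dilations

`DP x K t`: every pair `c, c + t d` (both orders) with `4 c ≤ 3 x`, `1 ≤ d ≤ (log x)^K` satisfies the Hardy-Littlewood formula.
`dil_good`: almost all `t ∈ T` have this property. `dil_tuples`: averages and almost all tuples `(c_i + t_i a_i)`.
-/

set_option autoImplicit false

open Finset Filter

namespace Pool.Agent.HLR

open Pool.Agent.HLB Pool.Agent.HLT UpperAux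

/-- Every pair of the dilation `t` is good. -/
def DP (x K t : ℕ) : Prop :=
  1 ≤ t ∧ 4 * (t * Real.log x ^ K) ≤ x ∧ ∀ c d : ℕ, 4 * c ≤ 3 * x → 1 ≤ d →
    (d : ℝ) ≤ Real.log x ^ K → ∀ b : Fin 2 → ℕ,
      (b 0 = c ∧ b 1 = c + t * d) ∨ (b 1 = c ∧ b 0 = c + t * d) →
      |pin x b - SI b| ≤ 1 / Real.log x ^ (1 / 4 : ℝ)

lemma two_small' {L : ℝ} (hL : 16 ≤ L) :
    1 / L ^ (1 / 2 : ℝ) + 1 / L ^ 1 ≤ 1 / L ^ (1 / 4 : ℝ) := by
  have hL0 : 0 < L := by linarith
  have h1 : (2 : ℝ) ≤ L ^ (1 / 4 : ℝ) := by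
    have h2 : (16 : ℝ) ^ (1 / 4 : ℝ) = 2 := by
      rw [show (16 : ℝ) = 2 ^ (4 : ℝ) by norm_num, ← Real.rpow_mul (by norm_num)]
      norm_num
    rw [← h2]
    exact Real.rpow_le_rpow (by norm_num) hL (by norm_num)
  have h3 : L ^ (1 / 2 : ℝ) = L ^ (1 / 4 : ℝ) * L ^ (1 / 4 : ℝ) := by
    rw [← Real.rpow_add hL0]
    norm_num
  have h4 : L ^ (1 / 2 : ℝ) ≤ L ^ 1 := by
    rw [pow_one]
    calc L ^ (1 / 2 : ℝ) ≤ L ^ (1 : ℝ) :=
          Real.rpow_le_rpow_of_exponent_le (by linarith) (by norm_num)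
      _ = L := Real.rpow_one L
  have h5 : 0 < L ^ (1 / 4 : ℝ) := by positivity
  have h6 : 1 / L ^ 1 ≤ 1 / L ^ (1 / 2 : ℝ) :=
    one_div_le_one_div_of_le (by positivity) h4
  have h7 : 1 / L ^ (1 / 2 : ℝ) ≤ (1 / L ^ (1 / 4 : ℝ)) * (1 / 2) := by
    rw [h3]
    generalize L ^ (1 / 4 : ℝ) = M at h1 h5
    rw [div_mul_div_comm, one_mul]
    exact one_div_le_one_div_of_le (by positivity) (mul_le_mul_of_nonneg_left h1 h5.le)
  linarith

lemma dil_le {x K t a : ℕ} (h4 : 4 * (t * Real.log x ^ K) ≤ x) (ha : (a : ℝ) ≤ Real.log x ^ K) :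
    4 * (t * a) ≤ x := by
  have h5 : (4 * (t * a) : ℝ) ≤ x := by
    refine le_trans ?_ h4
    have h6 : (0 : ℝ) ≤ t := Nat.cast_nonneg t
    have h7 : (t : ℝ) * a ≤ t * Real.log x ^ K := mul_le_mul_of_nonneg_left ha h6
    linarith
  exact_mod_cast h5

theorem dil_good (K A1 : ℕ) (F : ℕ → ℕ) : ∃ b0 : ℕ, ∀ᶠ x : ℕ in atTop,
    ∀ T : Finset ℕ, SpC F b0 x T → (∀ t ∈ T, 1 ≤ t ∧ 4 * (t * Real.log x ^ K) ≤ x) →
      ∃ E ⊆ T, (E.card : ℝ) ≤ T.card / Real.log x ^ A1 ∧ ∀ t ∈ T, t ∉ E → DP x K t := by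
  obtain ⟨b0, hPH⟩ := pair_hl K A1 1 F
  refine ⟨b0, ?_⟩
  filter_upwards [hPH, pin_close 2, ev_log_ge 16] with x hPH hpc hL16 T hT hT2
  obtain ⟨E, hET, hEc, hE⟩ := hPH T hT hT2
  refine ⟨E, hET, hEc, fun t ht htE => ?_⟩
  obtain ⟨ht1, ht4⟩ := hT2 t ht
  refine ⟨ht1, ht4, fun c d hc hd hdK b hb => ?_⟩
  have h1 := hE t ht htE c d hc hd hdK b hb
  have htd : 1 ≤ t * d := Nat.one_le_iff_ne_zero.2 (by positivity)
  have h4 : 4 * (t * d) ≤ x := dil_le ht4 hdK
  have hinj : Function.Injective b := by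
    intro i j hij
    fin_cases i <;> fin_cases j
    · rfl
    · exfalso
      simp only [Fin.zero_eta, Fin.mk_one] at hij
      rcases hb with ⟨h5, h6⟩ | ⟨h5, h6⟩ <;> omega
    · exfalso
      simp only [Fin.zero_eta, Fin.mk_one] at hij
      rcases hb with ⟨h5, h6⟩ | ⟨h5, h6⟩ <;> omega
    · rfl
  have hle : ∀ i, b i ≤ x := by
    intro i
    fin_cases i
    · simp only [Fin.zero_eta]
      rcases hb with ⟨h5, h6⟩ | ⟨h5, h6⟩ <;> omega
    · simp only [Fin.mk_one]
      rcases hb with ⟨h5, h6⟩ | ⟨h5, h6⟩ <;> omega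
  have h2 := hpc b hinj hle
  have h3 := two_small' hL16
  calc |pin x b - SI b| = |-(PP x b - pin x b) + (PP x b - SI b)| := by congr 1; ring
    _ ≤ |-(PP x b - pin x b)| + |PP x b - SI b| := abs_add_le _ _
    _ = |PP x b - pin x b| + |PP x b - SI b| := by rw [abs_neg]
    _ ≤ 1 / Real.log x ^ (1 / 2 : ℝ) + 1 / Real.log x ^ 1 := add_le_add h2 h1
    _ ≤ _ := h3

/-- The dilated set. -/
lemma dil_set {x K t c : ℕ} (h : DP x K t) (hc : 2 * c ≤ x) (S : Finset ℕ)
    (hS : ∀ a ∈ S, (a : ℝ) ≤ Real.log x ^ K) :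
    Function.Injective (fun a => c + t * a) ∧ (S.image (fun a => c + t * a)).card = S.card ∧
      (∀ b ∈ S.image (fun a => c + t * a), b ≤ x) ∧
      ∀ b ∈ Inj 2 (S.image (fun a => c + t * a)),
        ¬ (SI b + 1 / Real.log x ^ (1 / 4 : ℝ) < pin x b) := by
  obtain ⟨ht1, ht4, hDP⟩ := h
  have hinj : Function.Injective (fun a => c + t * a) := by
    intro a a' h
    simp only [Nat.add_left_cancel_iff] at h
    exact Nat.eq_of_mul_eq_mul_left ht1 h
  have hta : ∀ a ∈ S, 4 * (t * a) ≤ x := fun a ha => dil_le ht4 (hS a ha)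
  refine ⟨hinj, Finset.card_image_of_injective _ hinj, ?_, ?_⟩
  · intro b hb
    rw [Finset.mem_image] at hb
    obtain ⟨a, ha, rfl⟩ := hb
    have h1 := hta a ha
    omega
  · intro b hb
    unfold Inj at hb
    rw [Finset.mem_filter, mem_Tup] at hb
    obtain ⟨hbB, hbi⟩ := hb
    have h0 := hbB 0
    have h1 := hbB 1
    rw [Finset.mem_image] at h0 h1
    obtain ⟨a, ha, ha'⟩ := h0
    obtain ⟨a2, ha2, ha2'⟩ := h1
    have hne : a ≠ a2 := by
      intro h
      have : b 0 = b 1 := by rw [← ha', ← ha2', h]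
      have := hbi this
      exact absurd this (by decide)
    have e1 := hta a ha
    have e2 := hta a2 ha2
    have hk1 := hS a ha
    have hk2 := hS a2 ha2
    have hfin : |pin x b - SI b| ≤ 1 / Real.log x ^ (1 / 4 : ℝ) := by
      rcases lt_or_gt_of_ne hne with h | h
      · refine hDP (c + t * a) (a2 - a) (by omega) (by omega) ?_ b (Or.inl ⟨ha'.symm, ?_⟩)
        · refine le_trans ?_ hk2
          exact_mod_cast Nat.sub_le a2 a
        · rw [← ha2', Nat.mul_sub]
          have : t * a ≤ t * a2 := Nat.mul_le_mul_left t h.le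
          omega
      · refine hDP (c + t * a2) (a - a2) (by omega) (by omega) ?_ b (Or.inr ⟨ha2'.symm, ?_⟩)
        · refine le_trans ?_ hk1
          exact_mod_cast Nat.sub_le a a2
        · rw [← ha', Nat.mul_sub]
          have : t * a2 ≤ t * a := Nat.mul_le_mul_left t h.le
          omega
    rw [not_lt]
    have := (abs_le.1 hfin).2
    linarith

theorem dil_tuples (s K : ℕ) (hs : 1 ≤ s) {δ : ℝ} (hδ : 0 < δ) :
    ∃ δ' : ℝ, 0 < δ' ∧ ∀ᶠ x : ℕ in atTop, ∀ t : Fin s → ℕ, (∀ i, DP x K (t i)) →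
      ∀ c : Fin s → ℕ, (∀ i, 2 * c i ≤ x) → ∀ S : Fin s → Finset ℕ,
        (∀ i, ∀ a ∈ S i, (a : ℝ) ≤ Real.log x ^ K) →
        ((∀ i, Real.log x ^ (1 + δ) ≤ (S i).card) →
          |∑ a ∈ (Fintype.piFinset S).filter (fun a => Function.Injective (fun i => c i + t i * a i)),
            (pin x (fun i => c i + t i * a i) - SI (fun i => c i + t i * a i))| ≤
          (∏ i, ((S i).card : ℝ)) / Real.log x ^ δ') ∧
        ((∀ i, Real.log x ^ (2 + δ) ≤ (S i).card) →
          ∃ E' ⊆ Fintype.piFinset S,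
            (E'.card : ℝ) ≤ (∏ i, ((S i).card : ℝ)) / Real.log x ^ δ' ∧
            ∀ a ∈ Fintype.piFinset S, a ∉ E' → Function.Injective (fun i => c i + t i * a i) ∧
              |pin x (fun i => c i + t i * a i) - SI (fun i => c i + t i * a i)| ≤
                1 / Real.log x ^ δ') := by
  classical
  set δ1 : ℝ := min δ (1 / 8) with hδ1
  have hδ10 : 0 < δ1 := lt_min hδ (by norm_num)
  obtain ⟨δ'1, hδ'1, hR1⟩ := rigid1 2 s hs hδ10
  obtain ⟨δ'2, hδ'2, hR2⟩ := rigid 2 s hs hδ10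
  refine ⟨min δ'1 δ'2, lt_min hδ'1 hδ'2, ?_⟩
  filter_upwards [hR1, hR2, ms_of_upper1 2 (show (0 : ℝ) < 1 / 4 by norm_num),
    ms_of_upper 2 (by norm_num) (show (0 : ℝ) < 1 / 4 by norm_num), ev_log_ge 1]
    with x hR1 hR2 hM1 hM2 hL1 t ht c hc S hS
  set L : ℝ := Real.log x with hL
  have hL0 : 0 < L := by linarith
  have hset := fun i => dil_set (ht i) (hc i) (S i) (hS i)
  set B : Fin s → Finset ℕ := fun i => (S i).image (fun a => c i + t i * a) with hB
  have hBx : ∀ i, ∀ b ∈ B i, b ≤ x := fun i => (hset i).2.2.1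
  have hcard : ∀ i, (B i).card = (S i).card := fun i => (hset i).2.1
  have hprod : (∏ i, ((B i).card : ℝ)) = ∏ i, ((S i).card : ℝ) :=
    Finset.prod_congr rfl fun i _ => by rw [hcard i]
  have hP0 : 0 ≤ ∏ i, ((S i).card : ℝ) := Finset.prod_nonneg fun i _ => Nat.cast_nonneg _
  have hpow : ∀ {a b : ℝ}, a ≤ b → L ^ a ≤ L ^ b := fun h =>
    Real.rpow_le_rpow_of_exponent_le hL1 h
  have hemp : ∀ i, (Inj 2 (B i)).filter (fun b => SI b + 1 / Real.log x ^ (1 / 4 : ℝ) < pin x b) = ∅ :=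
    fun i => Finset.filter_eq_empty_iff.mpr (fun b hb => (hset i).2.2.2 b hb)
  have hzero : ∀ i, (((Inj 2 (B i)).filter
      (fun b => SI b + 1 / Real.log x ^ (1 / 4 : ℝ) < pin x b)).card : ℝ) ≤
        ((B i).card : ℝ) ^ 2 / Real.log x ^ (1 / 4 : ℝ) := by
    intro i
    rw [hemp i, Finset.card_empty, Nat.cast_zero]
    positivity
  have hdiv : ∀ i, ((B i).card : ℝ) ^ 2 / L ^ ((1 / 4 : ℝ) / 2) ≤ ((B i).card : ℝ) ^ 2 / L ^ δ1 := by
    intro i
    refine div_le_div_of_nonneg_left (by positivity) (by positivity) (hpow ?_)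
    linarith [min_le_right δ (1 / 8)]
  -- the bijection
  have hmem : ∀ a, a ∈ Fintype.piFinset S → (fun i => c i + t i * a i) ∈ Fintype.piFinset B := by
    intro a ha
    rw [Fintype.mem_piFinset]
    intro i
    rw [hB, Finset.mem_image]
    exact ⟨a i, (Fintype.mem_piFinset.1 ha) i, rfl⟩
  have hbij : Function.Injective (fun a : Fin s → ℕ => (fun i => c i + t i * a i)) := by
    intro a a' h
    funext i
    exact (hset i).1 (congrFun h i)
  have himg : Fintype.piFinset B = (Fintype.piFinset S).image (fun a => (fun i => c i + t i * a i)) := by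
    ext b
    constructor
    · intro hb
      rw [Fintype.mem_piFinset] at hb
      have h1 : ∀ i, ∃ a ∈ S i, c i + t i * a = b i := by
        intro i
        have := hb i
        rw [hB, Finset.mem_image] at this
        exact this
      choose a ha1 ha2 using h1
      rw [Finset.mem_image]
      exact ⟨a, Fintype.mem_piFinset.mpr ha1, funext ha2⟩
    · intro hb
      rw [Finset.mem_image] at hb
      obtain ⟨a, ha, rfl⟩ := hb
      exact hmem a ha
  constructor
  · intro hSc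
    have hBc : ∀ i, L ^ (1 + δ1) ≤ ((B i).card : ℝ) := by
      intro i
      rw [hcard i]
      exact (hpow (by linarith [min_le_left δ (1 / 8)])).trans (hSc i)
    have h := hR1 B hBx hBc (fun i => ⟨2, le_rfl, le_rfl,
      (hM1 (B i) (hBx i) (hzero i)).trans (by linarith [hdiv i])⟩)
    have e1 : ∑ b ∈ (Fintype.piFinset B).filter (fun b => Function.Injective b),
        (pin x b - SI b) =
        ∑ a ∈ (Fintype.piFinset S).filter (fun a => Function.Injective (fun i => c i + t i * a i)),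
          (pin x (fun i => c i + t i * a i) - SI (fun i => c i + t i * a i)) := by
      rw [himg, Finset.filter_image, Finset.sum_image (fun a _ a' _ h => hbij h)]
    rw [← e1]
    refine h.trans ?_
    rw [hprod]
    exact div_le_div_of_nonneg_left hP0 (by positivity) (hpow (min_le_left _ _))
  · intro hSc
    have hBc : ∀ i, L ^ (2 + δ1) ≤ ((B i).card : ℝ) := by
      intro i
      rw [hcard i]
      exact (hpow (by linarith [min_le_left δ (1 / 8)])).trans (hSc i)
    obtain ⟨E2, hE2s, hE2c, hE2⟩ := hR2 B hBx hBc (fun i => ⟨2, le_rfl, le_rfl,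
      (hM2 (B i) (hBx i) (hzero i)).trans (by linarith [hdiv i])⟩)
    refine ⟨(Fintype.piFinset S).filter (fun a => (fun i => c i + t i * a i) ∈ E2),
      Finset.filter_subset _ _, ?_, ?_⟩
    · have h1 : ((Fintype.piFinset S).filter
          (fun a => (fun i => c i + t i * a i) ∈ E2)).card ≤ E2.card := by
        refine Finset.card_le_card_of_injOn (fun a => fun i => c i + t i * a i) ?_ ?_
        · intro a ha
          have ha' := Finset.mem_coe.1 ha
          rw [Finset.mem_filter] at ha'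
          exact Finset.mem_coe.2 ha'.2
        · intro a _ a' _ h
          exact hbij h
      rw [hprod] at hE2c
      have h3 : (E2.card : ℝ) ≤ (∏ i, ((S i).card : ℝ)) / L ^ (min δ'1 δ'2) :=
        hE2c.trans (div_le_div_of_nonneg_left hP0 (by positivity) (hpow (min_le_right _ _)))
      refine le_trans ?_ h3
      exact_mod_cast h1
    · intro a ha haE
      have h4 := hE2 _ (hmem a ha) (fun h => haE (Finset.mem_filter.2 ⟨ha, h⟩))
      refine ⟨h4.1, h4.2.trans ?_⟩
      exact one_div_le_one_div_of_le (by positivity) (hpow (min_le_right _ _))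

end Pool.Agent.HLR
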