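import Pool.Agent.Lib.HLR.PairMean

/-!
# Good dilations

PROOF SKETCH. `L = log x`. Grid: `g = ⌊x / L^(B+4)⌋ + 1`, `c' = g * m`, `m <= L^(B+4) + 1`. `pair_mean` with `B' = A1 + K + 3 B + 12`: for each of
the at most `2 L^(B+4)` grid points `c'` with `4 c' <= 3 x` and each `1 <= d <= L^K` the number of `t ∈ T` with
`|∑_n ff (n+c') ff (n+c'+td)| > x / (2 L^B)` is at most `|T| 4 L^(2B) / L^B'` (Chebyshev); `E` = union, `|E| <= |T| / L^A1`. For general `c` with
`4 c <= 3 x` take `c' = g * (c / g) <= c`, `c - c' <= g`: the sum over `n ∈ [1, x]` of `u (n + c)`, `u m = ff m * ff (m + t d)`, is the sum of `u` over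
`(c, c + x]`; it differs from the one for `c'` by at most `2 g` terms, each at most `(2 L)^2` in absolute value
(`|ff z n| <= 2 L` for `1 <= n <= 2 x`; note `c + x + t d <= 2 x`), so by `8 g L^2 <= x / (2 L^B)`.
-/

set_option autoImplicit false

open Finset Filter

namespace Pool.Agent.HLR

open Pool.Agent.HLB Pool.Agent.HLT

/-- Short intervals. -/
lemma window_diff (u : ℕ → ℝ) (x c c' g : ℕ) (M : ℝ) (hc : c' ≤ c) (hg : c ≤ c' + g)
    (hu : ∀ m ∈ Icc 1 (c + x), |u m| ≤ M) (hM : 0 ≤ M) :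
    |∑ n ∈ Icc 1 x, u (n + c) - ∑ n ∈ Icc 1 x, u (n + c')| ≤ 2 * g * M := by
  have hI : Icc 1 x = Ico 1 (x + 1) := by
    ext n
    simp only [Finset.mem_Icc, Finset.mem_Ico]
    omega
  have h1 : ∑ n ∈ Icc 1 x, u (n + c) = ∑ m ∈ Ico (1 + c) (x + 1 + c), u m := by
    rw [hI, Finset.sum_Ico_add']
  have h2 : ∑ n ∈ Icc 1 x, u (n + c') = ∑ m ∈ Ico (1 + c') (x + 1 + c'), u m := by
    rw [hI, Finset.sum_Ico_add']
  have h3 := Finset.sum_Ico_consecutive u (show 1 + c' ≤ 1 + c by omega)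
    (show 1 + c ≤ x + 1 + c by omega)
  have h4 := Finset.sum_Ico_consecutive u (show 1 + c' ≤ x + 1 + c' by omega)
    (show x + 1 + c' ≤ x + 1 + c by omega)
  have hb : ∀ a b : ℕ, 1 ≤ a → b ≤ c + x + 1 → b ≤ a + g → |∑ m ∈ Ico a b, u m| ≤ g * M := by
    intro a b ha hb hab
    refine (Finset.abs_sum_le_sum_abs _ _).trans ?_
    refine (Finset.sum_le_sum fun m hm => hu m ?_).trans ?_
    · rw [Finset.mem_Ico] at hm
      rw [Finset.mem_Icc]
      omega
    · rw [Finset.sum_const, nsmul_eq_mul, Nat.card_Ico]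
      apply mul_le_mul_of_nonneg_right _ hM
      have : b - a ≤ g := by omega
      exact_mod_cast this
  have b1 := hb (1 + c') (1 + c) (by omega) (by omega) (by omega)
  have b2 := hb (x + 1 + c') (x + 1 + c) (by omega) (by omega) (by omega)
  have e : ∑ n ∈ Icc 1 x, u (n + c) - ∑ n ∈ Icc 1 x, u (n + c') =
      ∑ m ∈ Ico (x + 1 + c') (x + 1 + c), u m - ∑ m ∈ Ico (1 + c') (1 + c), u m := by
    rw [h1, h2]
    linarith
  rw [e]
  refine (abs_sub _ _).trans ?_
  linarith

theorem good_dil (K A1 B A0 : ℕ) (F : ℕ → ℕ) : ∃ b0 A : ℕ, A0 ≤ A ∧ ∀ᶠ x : ℕ in atTop,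
    ∀ T : Finset ℕ, SpC F b0 x T → (∀ t ∈ T, 4 * (t * Real.log x ^ K) ≤ x) →
      ∃ E ⊆ T, (E.card : ℝ) ≤ T.card / Real.log x ^ A1 ∧ ∀ t ∈ T, t ∉ E →
        ∀ c d : ℕ, 4 * c ≤ 3 * x → 1 ≤ d → (d : ℝ) ≤ Real.log x ^ K →
          |∑ n ∈ Icc 1 x, ff (zA A x) (n + c) * ff (zA A x) (n + (c + t * d))| ≤
            x / Real.log x ^ B := by
  classical
  obtain ⟨b0, A, hA, hev⟩ := pair_mean K (A1 + K + 3 * B + 12) A0 F
  refine ⟨b0, A, hA, ?_⟩
  have e1 := tendsto_log_nat.eventually (eventually_ge_atTop (8 : ℝ))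
  have e2 : ∀ᶠ x : ℕ in atTop, 32 * Real.log x ^ (B + 2) ≤ (x : ℝ) := by
    filter_upwards [tendsto_log_nat.eventually (ev_poly_exp 32 (B + 2)),
      eventually_ge_atTop 1] with x h hx
    rwa [Real.exp_log (by exact_mod_cast hx)] at h
  filter_upwards [hev, DZ_inv_le A, e1, e2, eventually_ge_atTop 1] with x hx hDZ hL1 hx2 hx1
  intro T hSp hT
  set L : ℝ := Real.log x with hL
  set z : ℕ := zA A x with hz
  have hL0 : 0 < L := by linarith
  have hL1' : 1 ≤ L := by linarith
  have hx0 : (0 : ℝ) < x := by exact_mod_cast hx1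
  -- bound for ff
  have hff : ∀ m : ℕ, 1 ≤ m → m ≤ 2 * x → |ff z m| ≤ 2 * L := by
    intro m hm1 hm2
    have a1 : lp m ≤ 2 * L := by
      refine (lp_le m).trans ?_
      have h1 : Real.log m ≤ Real.log (2 * x) := by
        apply Real.log_le_log (by exact_mod_cast hm1)
        exact_mod_cast hm2
      rw [Real.log_mul (by norm_num) hx0.ne'] at h1
      have h2 : Real.log 2 ≤ 1 := by
        have := Real.log_two_lt_d9
        linarith
      linarith
    have a2 : nuz z m ≤ 2 * L := by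
      refine (nuz_le z m).trans ?_
      linarith
    have a3 := lp_nonneg m
    have a4 := nuz_nonneg z m
    unfold ff
    rw [abs_le]
    constructor <;> linarith
  -- the grid
  set g : ℕ := ⌊(x : ℝ) / L ^ (B + 4)⌋₊ + 1 with hg
  have hg0 : 0 < g := Nat.succ_pos _
  have hg1 : (x : ℝ) / L ^ (B + 4) ≤ g := by
    rw [hg]
    push_cast
    exact (Nat.lt_floor_add_one _).le
  have hg2 : (g : ℝ) ≤ x / L ^ (B + 4) + 1 := by
    rw [hg]
    push_cast
    have := Nat.floor_le (show (0 : ℝ) ≤ x / L ^ (B + 4) by positivity)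
    linarith
  set S : Finset (ℕ × ℕ) := (range (⌊L ^ (B + 4)⌋₊ + 1) ×ˢ Icc 1 ⌊L ^ K⌋₊).filter
    (fun p => 4 * (g * p.1) ≤ 3 * x) with hS
  set f : ℕ → ℕ → ℕ → ℝ := fun c d t =>
    ∑ n ∈ Icc 1 x, ff z (n + c) * ff z (n + (c + t * d)) with hf
  set bad : ℕ × ℕ → Finset ℕ := fun p =>
    T.filter (fun t => x / (2 * L ^ B) < |f (g * p.1) p.2 t|) with hbad
  have hScard : (S.card : ℝ) ≤ 2 * L ^ (B + 4) * L ^ K := by
    have h1 : S.card ≤ (⌊L ^ (B + 4)⌋₊ + 1) * ⌊L ^ K⌋₊ := by
      refine (Finset.card_filter_le _ _).trans ?_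
      rw [Finset.card_product, Finset.card_range, Nat.card_Icc, Nat.add_sub_cancel]
    have h2 : (S.card : ℝ) ≤ ((⌊L ^ (B + 4)⌋₊ : ℝ) + 1) * (⌊L ^ K⌋₊ : ℝ) := by
      exact_mod_cast h1
    have h3 := Nat.floor_le (show (0 : ℝ) ≤ L ^ (B + 4) by positivity)
    have h4 := Nat.floor_le (show (0 : ℝ) ≤ L ^ K by positivity)
    have h5 : (1 : ℝ) ≤ L ^ (B + 4) := one_le_pow₀ hL1'
    refine h2.trans (mul_le_mul (by linarith) h4 (Nat.cast_nonneg _) (by positivity))
  have hbc : ∀ p ∈ S, ((bad p).card : ℝ) ≤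
      T.card * (4 * L ^ (2 * B) / L ^ (A1 + K + 3 * B + 12)) := by
    intro p hp
    rw [hS, Finset.mem_filter, Finset.mem_product, Finset.mem_range, Finset.mem_Icc] at hp
    obtain ⟨⟨hp1, hp2, hp3⟩, hp4⟩ := hp
    have hd : (p.2 : ℝ) ≤ L ^ K :=
      (Nat.cast_le.mpr hp3).trans (Nat.floor_le (by positivity))
    have h1 := hx T hSp hT (g * p.1) p.2 hp4 hp2 hd
    have h2 : ((bad p).card : ℝ) * (x / (2 * L ^ B)) ^ 2 ≤
        T.card * (x ^ 2 / L ^ (A1 + K + 3 * B + 12)) := by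
      refine le_trans ?_ h1
      rw [← nsmul_eq_mul, ← Finset.sum_const]
      refine (Finset.sum_le_sum (s := bad p) fun t ht => ?_).trans
        (Finset.sum_le_sum_of_subset_of_nonneg (Finset.filter_subset _ _)
          fun t _ _ => sq_nonneg (f (g * p.1) p.2 t))
      have h3 := (Finset.mem_filter.mp ht).2
      rw [← sq_abs (f (g * p.1) p.2 t)]
      exact pow_le_pow_left₀ (by positivity) h3.le 2
    have h3 : (x / (2 * L ^ B)) ^ 2 = (x : ℝ) ^ 2 / (4 * L ^ (2 * B)) := by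
      rw [div_pow, mul_pow, ← pow_mul, mul_comm B 2]
      norm_num
    rw [h3] at h2
    have h4 : (0 : ℝ) < (x : ℝ) ^ 2 / (4 * L ^ (2 * B)) := by positivity
    rw [← le_div_iff₀ h4] at h2
    refine h2.trans (le_of_eq ?_)
    field_simp
  refine ⟨S.biUnion bad, ?_, ?_, ?_⟩
  · intro t ht
    rw [Finset.mem_biUnion] at ht
    obtain ⟨p, _, hp⟩ := ht
    exact (Finset.mem_filter.mp hp).1
  · have h1 : ((S.biUnion bad).card : ℝ) ≤ ∑ p ∈ S, ((bad p).card : ℝ) := by
      exact_mod_cast Finset.card_biUnion_le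
    have h2 := Finset.sum_le_sum hbc
    rw [Finset.sum_const, nsmul_eq_mul] at h2
    refine (h1.trans h2).trans ?_
    have h3 : (S.card : ℝ) * (T.card * (4 * L ^ (2 * B) / L ^ (A1 + K + 3 * B + 12))) ≤
        2 * L ^ (B + 4) * L ^ K * (T.card * (4 * L ^ (2 * B) / L ^ (A1 + K + 3 * B + 12))) :=
      mul_le_mul_of_nonneg_right hScard (by positivity)
    refine h3.trans ?_
    have h4 : L ^ (A1 + K + 3 * B + 12) = L ^ A1 * L ^ K * L ^ (B + 4) * L ^ (2 * B) * L ^ 8 := by
      rw [← pow_add, ← pow_add, ← pow_add, ← pow_add]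
      congr 1
      ring
    have h5 : 2 * L ^ (B + 4) * L ^ K * (T.card * (4 * L ^ (2 * B) / L ^ (A1 + K + 3 * B + 12))) =
        (T.card / L ^ A1) * (8 / L ^ 8) := by
      rw [h4]
      field_simp
      ring
    rw [h5]
    have h6 : 8 / L ^ 8 ≤ 1 := by
      rw [div_le_one (by positivity)]
      calc (8 : ℝ) ≤ L := hL1
        _ = L ^ 1 := (pow_one L).symm
        _ ≤ L ^ 8 := pow_le_pow_right₀ hL1' (by norm_num)
    exact mul_le_of_le_one_right (by positivity) h6
  · intro t ht htE c d hc hd1 hd2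
    have htd : 4 * (t * d) ≤ x := by
      have h1 := hT t ht
      have h2 : (4 * ((t : ℝ) * d)) ≤ x := by
        refine le_trans ?_ h1
        gcongr
      exact_mod_cast h2
    set m : ℕ := c / g with hm
    have hm1 : g * m ≤ c := Nat.mul_div_le c g
    have hm2 : c ≤ g * m + g := by
      have := Nat.lt_mul_div_succ c hg0
      rw [Nat.mul_succ] at this
      exact this.le
    have hmS : (m, d) ∈ S := by
      rw [hS, Finset.mem_filter, Finset.mem_product, Finset.mem_range, Finset.mem_Icc]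
      refine ⟨⟨?_, hd1, Nat.le_floor hd2⟩, ?_⟩
      · rw [Nat.lt_succ_iff]
        apply Nat.le_floor
        have h1 : (m : ℝ) ≤ (c : ℝ) / g := Nat.cast_div_le
        refine h1.trans ?_
        rw [div_le_iff₀ (by exact_mod_cast hg0)]
        have h2 : (x : ℝ) ≤ L ^ (B + 4) * g := by
          rw [div_le_iff₀ (by positivity)] at hg1
          linarith
        have h3 : (c : ℝ) ≤ x := by
          have : c ≤ x := by omega
          exact_mod_cast this
        linarith
      · change 4 * (g * m) ≤ 3 * x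
        omega
    have hgood : |f (g * m) d t| ≤ x / (2 * L ^ B) := by
      by_contra hcon
      push Not at hcon
      apply htE
      rw [Finset.mem_biUnion]
      exact ⟨(m, d), hmS, Finset.mem_filter.mpr ⟨ht, hcon⟩⟩
    have hw := window_diff (fun k => ff z k * ff z (k + t * d)) x c (g * m) g (4 * L ^ 2)
      hm1 hm2 (by
        intro k hk
        rw [Finset.mem_Icc] at hk
        have a1 := hff k hk.1 (by omega)
        have a2 := hff (k + t * d) (by omega) (by omega)
        rw [abs_mul]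
        calc |ff z k| * |ff z (k + t * d)| ≤ (2 * L) * (2 * L) :=
              mul_le_mul a1 a2 (abs_nonneg _) (by positivity)
          _ = 4 * L ^ 2 := by ring) (by positivity)
    have hs : ∀ c : ℕ, ∑ n ∈ Icc 1 x, (fun k => ff z k * ff z (k + t * d)) (n + c) = f c d t := by
      intro c
      refine Finset.sum_congr rfl fun n _ => ?_
      change ff z (n + c) * ff z (n + c + t * d) = _
      rw [Nat.add_assoc]
    rw [hs, hs] at hw
    have hfin : 2 * g * (4 * L ^ 2) ≤ x / (2 * L ^ B) := by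
      have h1 : 2 * (g : ℝ) * (4 * L ^ 2) ≤ 2 * (x / L ^ (B + 4) + 1) * (4 * L ^ 2) := by
        gcongr
      refine h1.trans ?_
      have h2 : 2 * (x / L ^ (B + 4) + 1) * (4 * L ^ 2) = 8 * x / L ^ (B + 2) + 8 * L ^ 2 := by
        have : L ^ (B + 4) = L ^ (B + 2) * L ^ 2 := by rw [← pow_add]
        rw [this]
        field_simp
        ring
      rw [h2]
      have h3 : 8 * x / L ^ (B + 2) ≤ x / (4 * L ^ B) := by
        rw [pow_add, div_le_div_iff₀ (by positivity) (by positivity)]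
        have h4 : (32 : ℝ) ≤ L ^ 2 := by nlinarith
        have h5 : (0 : ℝ) < x * L ^ B := by positivity
        nlinarith
      have h4 : 8 * L ^ 2 ≤ x / (4 * L ^ B) := by
        rw [le_div_iff₀ (by positivity)]
        have : 8 * L ^ 2 * (4 * L ^ B) = 32 * L ^ (B + 2) := by
          rw [pow_add]
          ring
        rw [this]
        exact hx2
      have h5 : x / (2 * L ^ B) = x / (4 * L ^ B) + x / (4 * L ^ B) := by
        field_simp
        ring
      rw [h5]
      linarith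
    have e : f c d t = (f c d t - f (g * m) d t) + f (g * m) d t := by ring
    change |f c d t| ≤ _
    rw [e]
    refine (abs_add_le _ _).trans ?_
    have h5 : x / L ^ B = x / (2 * L ^ B) + x / (2 * L ^ B) := by
      field_simp
      ring
    rw [h5]
    linarith

end Pool.Agent.HLR
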