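import Pool.Agent.Lib.HLR.PairHL
import Pool.Agent.Lib.HLR.Rigid

/-!
# Dilated sets of shifts

PROOF SKETCH. `pair_hl K A1 1 F`, `rigid 2 s` with `δ0 = min δ (1/4)`. For `t ∈ T \ E`: pairs: `|pin - SI| <= |pin - PP| + |PP - SI| <= 2/L^(1/2)`-ish
`<= 1 / L^(1/4)` (`pin_close`; `b` injective, values `<= x`). Tuples: `B i = (S i).image (fun a => c i + t * a)`, cardinality `|S i|`,
elements `<= x/2 + t L^K <= x` (`2 c i <= x`). The hypothesis of `rigid` with `r = 2` for `B i`: for every `b ∈ Inj 2 (B i)`,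
`b 0 = c i + t a`, `b 1 = c i + t a'`, `a ≠ a'`; if `a < a'` this is the first alternative with base point `c i + t a` (`4 (c i + t a) <= 3 x`) and
`d = a' - a <= L^K`, if `a' < a` the second. So `pin^2 <= (SI + 1/L^(1/4))^2`-ish and `∑ pin^2 <= ∑ SI^2 + β^2 / L^δ0'`: use `ms_of_upper 2`
with `δ := 1/4` (no exceptional pairs: `pin <= SI + 1/L^(1/4)` for all), conclusion with exponent `1/8`; so apply `rigid` with
`δ1 = min δ (1/8)` (`L^(2+δ1) <= L^(2+δ) <= |B i|`, and `1/L^(1/8) <= 1/L^δ1`). The tuple set `E` of `rigid` is pulled back by the bijection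
`a ↦ (c i + t a i)` (`Finset.card` of the preimage filter = card of the image, products of equal cardinalities).
-/

set_option autoImplicit false

open Finset Filter

namespace Pool.Agent.HLR

open Pool.Agent.HLB Pool.Agent.HLT

private lemma two_small {L : ℝ} (hL : 16 ≤ L) :
    1 / L ^ (1 / 2 : ℝ) + 1 / L ^ 1 ≤ 1 / L ^ (1 / 4 : ℝ) := by
  have hL0 : 0 < L := by linarith
  have h1 : (2 : ℝ) ≤ L ^ (1 / 4 : ℝ) := by
    have h2 : (16 : ℝ) ^ (1 / 4 : ℝ) = 2 := by
      rw [show (16 : ℝ) = 2 ^ (4 : ℝ) by norm_num, ← Real.rpow_mul (by norm_num)]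
      norm_num
    rw [← h2]
    exact Real.rpow_le_rpow (by norm_num) hL (by norm_num)
  have h3 : L ^ (1 / 2 : ℝ) = L ^ (1 / 4 : ℝ) * L ^ (1 / 4 : ℝ) := by
    rw [← Real.rpow_add hL0]
    norm_num
  have h4 : L ^ (1 / 2 : ℝ) ≤ L ^ 1 := by
    rw [pow_one]
    calc L ^ (1 / 2 : ℝ) ≤ L ^ (1 : ℝ) :=
          Real.rpow_le_rpow_of_exponent_le (by linarith) (by norm_num)
      _ = L := Real.rpow_one L
  have h5 : 0 < L ^ (1 / 4 : ℝ) := by positivity
  have h6 : 1 / L ^ 1 ≤ 1 / L ^ (1 / 2 : ℝ) :=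
    one_div_le_one_div_of_le (by positivity) h4
  have h7 : 1 / L ^ (1 / 2 : ℝ) ≤ (1 / L ^ (1 / 4 : ℝ)) * (1 / 2) := by
    rw [h3]
    generalize L ^ (1 / 4 : ℝ) = M at h1 h5
    rw [div_mul_div_comm, one_mul]
    exact one_div_le_one_div_of_le (by positivity) (mul_le_mul_of_nonneg_left h1 h5.le)
  linarith

theorem homothety (s K A1 : ℕ) (hs : 1 ≤ s) (F : ℕ → ℕ) {δ : ℝ} (hδ : 0 < δ) :
    ∃ (b0 : ℕ) (δ' : ℝ), 0 < δ' ∧ ∀ᶠ x : ℕ in atTop, ∀ T : Finset ℕ, SpC F b0 x T →
      (∀ t ∈ T, 1 ≤ t ∧ 4 * (t * Real.log x ^ K) ≤ x) →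
      ∃ E ⊆ T, (E.card : ℝ) ≤ T.card / Real.log x ^ A1 ∧ ∀ t ∈ T, t ∉ E →
        (∀ c d : ℕ, 2 * c ≤ x → 1 ≤ d → (d : ℝ) ≤ Real.log x ^ K → ∀ b : Fin 2 → ℕ,
          b 0 = c → b 1 = c + t * d → |pin x b - SI b| ≤ 1 / Real.log x ^ (1 / 4 : ℝ)) ∧
        ∀ c : Fin s → ℕ, (∀ i, 2 * c i ≤ x) → ∀ S : Fin s → Finset ℕ,
          (∀ i, ∀ a ∈ S i, (a : ℝ) ≤ Real.log x ^ K) →
          (∀ i, Real.log x ^ (2 + δ) ≤ (S i).card) →
          ∃ E' ⊆ Fintype.piFinset S,
            (E'.card : ℝ) ≤ (∏ i, ((S i).card : ℝ)) / Real.log x ^ δ' ∧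
            ∀ a ∈ Fintype.piFinset S, a ∉ E' → Function.Injective (fun i => c i + t * a i) ∧
              |pin x (fun i => c i + t * a i) - SI (fun i => c i + t * a i)| ≤
                1 / Real.log x ^ δ' := by
  classical
  obtain ⟨b0, hPH⟩ := pair_hl K A1 1 F
  set δ1 : ℝ := min δ (1 / 8) with hδ1
  have hδ10 : 0 < δ1 := lt_min hδ (by norm_num)
  obtain ⟨δ', hδ', hR⟩ := rigid 2 s hs hδ10
  refine ⟨b0, δ', hδ', ?_⟩
  have hlog : Tendsto (fun x : ℕ => Real.log x) atTop atTop :=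
    Real.tendsto_log_atTop.comp tendsto_natCast_atTop_atTop
  filter_upwards [hPH, hR, ms_of_upper 2 (by norm_num) (show (0 : ℝ) < 1 / 4 by norm_num),
    pin_close 2, hlog.eventually_ge_atTop (16 : ℝ)] with x hPH hR hMS hpc hL16 T hT hT2
  obtain ⟨E, hET, hEc, hE⟩ := hPH T hT hT2
  refine ⟨E, hET, hEc, ?_⟩
  intro t ht htE
  obtain ⟨ht1, ht4⟩ := hT2 t ht
  have hE' := hE t ht htE
  set L : ℝ := Real.log x with hL
  have hL0 : 0 < L := by linarith
  -- the pair statement
  have hpair : ∀ c d : ℕ, 4 * c ≤ 3 * x → 1 ≤ d → (d : ℝ) ≤ L ^ K → ∀ b : Fin 2 → ℕ,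
      (b 0 = c ∧ b 1 = c + t * d) ∨ (b 1 = c ∧ b 0 = c + t * d) →
      |pin x b - SI b| ≤ 1 / L ^ (1 / 4 : ℝ) := by
    intro c d hc hd hdK b hb
    have h1 := hE' c d hc hd hdK b hb
    have htd : 1 ≤ t * d := Nat.one_le_iff_ne_zero.2 (by positivity)
    have h4 : 4 * (t * d) ≤ x := by
      have h5 : (4 * (t * d) : ℝ) ≤ x := by
        refine le_trans ?_ ht4
        have h6 : (0 : ℝ) ≤ t := Nat.cast_nonneg t
        have h7 : (t : ℝ) * d ≤ t * L ^ K := mul_le_mul_of_nonneg_left hdK h6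
        linarith
      exact_mod_cast h5
    have hinj : Function.Injective b := by
      intro i j hij
      fin_cases i <;> fin_cases j
      · rfl
      · exfalso
        simp only [Fin.zero_eta, Fin.mk_one] at hij
        rcases hb with ⟨h5, h6⟩ | ⟨h5, h6⟩ <;> omega
      · exfalso
        simp only [Fin.zero_eta, Fin.mk_one] at hij
        rcases hb with ⟨h5, h6⟩ | ⟨h5, h6⟩ <;> omega
      · rfl
    have hle : ∀ i, b i ≤ x := by
      intro i
      fin_cases i
      · simp only [Fin.zero_eta]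
        rcases hb with ⟨h5, h6⟩ | ⟨h5, h6⟩ <;> omega
      · simp only [Fin.mk_one]
        rcases hb with ⟨h5, h6⟩ | ⟨h5, h6⟩ <;> omega
    have h2 := hpc b hinj hle
    have h3 := two_small hL16
    calc |pin x b - SI b| = |-(PP x b - pin x b) + (PP x b - SI b)| := by congr 1; ring
      _ ≤ |-(PP x b - pin x b)| + |PP x b - SI b| := abs_add_le _ _
      _ = |PP x b - pin x b| + |PP x b - SI b| := by rw [abs_neg]
      _ ≤ 1 / L ^ (1 / 2 : ℝ) + 1 / L ^ 1 := add_le_add h2 h1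
      _ ≤ _ := h3
  refine ⟨?_, ?_⟩
  · intro c d hc hd hdK b hb0 hb1
    exact hpair c d (by omega) hd hdK b (Or.inl ⟨hb0, hb1⟩)
  intro c hc S hSK hSc
  set B : Fin s → Finset ℕ := fun i => (S i).image (fun a => c i + t * a) with hB
  have htinj : ∀ i, Function.Injective (fun a => c i + t * a) := by
    intro i a a' h
    simp only [Nat.add_left_cancel_iff] at h
    exact Nat.eq_of_mul_eq_mul_left ht1 h
  have hcard : ∀ i, (B i).card = (S i).card := fun i => Finset.card_image_of_injective _ (htinj i)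
  have hta : ∀ i, ∀ a ∈ S i, 4 * (t * a) ≤ x := by
    intro i a ha
    have h5 : (4 * (t * a) : ℝ) ≤ x := by
      refine le_trans ?_ ht4
      have h6 : (0 : ℝ) ≤ t := Nat.cast_nonneg t
      have h7 : (t : ℝ) * a ≤ t * L ^ K := mul_le_mul_of_nonneg_left (hSK i a ha) h6
      linarith
    exact_mod_cast h5
  have hBx : ∀ i, ∀ b ∈ B i, b ≤ x := by
    intro i b hb
    rw [hB, Finset.mem_image] at hb
    obtain ⟨a, ha, rfl⟩ := hb
    have h1 := hta i a ha
    have h2 := hc i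
    omega
  have hBc : ∀ i, L ^ (2 + δ1) ≤ ((B i).card : ℝ) := by
    intro i
    rw [hcard i]
    refine le_trans ?_ (hSc i)
    exact Real.rpow_le_rpow_of_exponent_le (by linarith) (by linarith [min_le_left δ (1 / 8)])
  have hup : ∀ i, ∃ r : ℕ, 2 ≤ r ∧ r ≤ 2 ∧ ∑ b ∈ Inj r (B i), pin x b ^ 2 ≤
        ∑ b ∈ Inj r (B i), SI b ^ 2 + ((B i).card : ℝ) ^ r / L ^ δ1 := by
    intro i
    refine ⟨2, le_rfl, le_rfl, ?_⟩
    have hemp : (Inj 2 (B i)).filter (fun b => SI b + 1 / Real.log x ^ (1 / 4 : ℝ) < pin x b) = ∅ := by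
      rw [Finset.filter_eq_empty_iff]
      intro b hb
      unfold Inj at hb
      rw [Finset.mem_filter, mem_Tup] at hb
      obtain ⟨hbB, hbi⟩ := hb
      have h0 := hbB 0
      have h1 := hbB 1
      rw [hB, Finset.mem_image] at h0 h1
      obtain ⟨a, ha, ha'⟩ := h0
      obtain ⟨a2, ha2, ha2'⟩ := h1
      have hne : a ≠ a2 := by
        intro h
        have : b 0 = b 1 := by rw [← ha', ← ha2', h]
        have := hbi this
        exact absurd this (by decide)
      have hc1 := hc i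
      have e1 := hta i a ha
      have e2 := hta i a2 ha2
      have hk1 := hSK i a ha
      have hk2 := hSK i a2 ha2
      have hfin : |pin x b - SI b| ≤ 1 / L ^ (1 / 4 : ℝ) := by
        rcases lt_or_gt_of_ne hne with h | h
        · refine hpair (c i + t * a) (a2 - a) (by omega) (by omega) ?_ b (Or.inl ⟨ha'.symm, ?_⟩)
          · refine le_trans ?_ hk2
            exact_mod_cast Nat.sub_le a2 a
          · rw [← ha2', Nat.mul_sub]
            have : t * a ≤ t * a2 := Nat.mul_le_mul_left t h.le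
            omega
        · refine hpair (c i + t * a2) (a - a2) (by omega) (by omega) ?_ b (Or.inr ⟨ha2'.symm, ?_⟩)
          · refine le_trans ?_ hk1
            exact_mod_cast Nat.sub_le a a2
          · rw [← ha', Nat.mul_sub]
            have : t * a2 ≤ t * a := Nat.mul_le_mul_left t h.le
            omega
      rw [not_lt]
      have := (abs_le.1 hfin).2
      linarith
    have h1 := hMS (B i) (hBx i) (by
      rw [hemp]
      simp only [Finset.card_empty, Nat.cast_zero]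
      positivity)
    refine h1.trans ?_
    have h2 : L ^ δ1 ≤ L ^ ((1 / 4 : ℝ) / 2) :=
      Real.rpow_le_rpow_of_exponent_le (by linarith) (by linarith [min_le_right δ (1 / 8)])
    have h3 : ((B i).card : ℝ) ^ 2 / L ^ ((1 / 4 : ℝ) / 2) ≤ ((B i).card : ℝ) ^ 2 / L ^ δ1 :=
      div_le_div_of_nonneg_left (by positivity) (by positivity) h2
    linarith
  obtain ⟨E2, hE2s, hE2c, hE2⟩ := hR B hBx hBc hup
  refine ⟨(Fintype.piFinset S).filter (fun a => (fun i => c i + t * a i) ∈ E2),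
    Finset.filter_subset _ _, ?_, ?_⟩
  · have h1 : ((Fintype.piFinset S).filter (fun a => (fun i => c i + t * a i) ∈ E2)).card ≤ E2.card := by
      refine Finset.card_le_card_of_injOn (fun a => fun i => c i + t * a i) ?_ ?_
      · intro a ha
        have ha' := Finset.mem_coe.1 ha
        rw [Finset.mem_filter] at ha'
        exact Finset.mem_coe.2 ha'.2
      · intro a _ a' _ h
        funext i
        exact htinj i (congrFun h i)
    have h2 : (∏ i, ((B i).card : ℝ)) = ∏ i, ((S i).card : ℝ) :=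
      Finset.prod_congr rfl fun i _ => by rw [hcard i]
    rw [h2] at hE2c
    refine le_trans ?_ hE2c
    exact_mod_cast h1
  · intro a ha haE
    have hmem : (fun i => c i + t * a i) ∈ Fintype.piFinset B := by
      rw [Fintype.mem_piFinset]
      intro i
      rw [hB, Finset.mem_image]
      exact ⟨a i, (Fintype.mem_piFinset.1 ha) i, rfl⟩
    refine hE2 _ hmem ?_
    intro h
    exact haE (Finset.mem_filter.2 ⟨ha, h⟩)

end Pool.Agent.HLR
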