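import Pool.Agent.Lib.HLR.OneDefs
import Pool.Agent.Lib.HLR.Defect
import Pool.Agent.Lib.HLR.Conc

/-!
# The one variable version: convexity defect, lower bound and concentration
-/

set_option autoImplicit false

open Finset Filter

namespace Pool.Agent.HLR

open Pool.Agent.HLB Pool.Agent.HLT UpperAux

lemma moment_comb1 (r z x : ℕ) (hx : 1 ≤ x) (B : Finset ℕ) :
    ∑ n ∈ Icc 1 x, (S1 lp B n ^ (r + 1) - (r + 1) * (S1 lp B n * S1 (nuz z) B n ^ r) +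
        r * S1 (nuz z) B n ^ (r + 1)) =
      (x : ℝ) * (∑ b ∈ Tup (r + 1) B, PP x b - (r + 1) * ∑ b ∈ Tup (r + 1) B, RR z x b +
        r * ∑ b ∈ Tup (r + 1) B, QQ z x b) := by
  have h1 := moment1_pow (r + 1) x hx B lp
  have h2 := moment1_mixed r x hx B lp (nuz z)
  have h3 := moment1_pow (r + 1) x hx B (nuz z)
  rw [Finset.sum_add_distrib, Finset.sum_sub_distrib, ← Finset.mul_sum, ← Finset.mul_sum, h1, h2, h3]
  unfold PP RR QQ
  ring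

theorem defect_core1 (r : ℕ) {δ : ℝ} (hδ : 0 < δ) (hδ1 : δ ≤ 1 / 4) : ∃ A0 : ℕ, ∀ A : ℕ, A0 ≤ A →
    ∀ᶠ x : ℕ in atTop, ∀ B : Finset ℕ, (∀ b ∈ B, b ≤ x) → Real.log x ^ (1 + δ) ≤ B.card →
      ∑ b ∈ Tup (r + 1) B, PP x b - (r + 1) * ∑ b ∈ Tup (r + 1) B, RR (zA A x) x b +
        r * ∑ b ∈ Tup (r + 1) B, QQ (zA A x) x b ≤
      ∑ b ∈ Inj (r + 1) B, pin x b - ∑ b ∈ Inj (r + 1) B, SI b +
        (B.card : ℝ) ^ (r + 1) * (1 / Real.log x ^ (δ / 2) - 1 / Real.log x ^ δ) := by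
  obtain ⟨A0, hA0⟩ := QQ_close (r + 1) 1 (Nat.le_add_left 1 r)
  refine ⟨A0, fun A hA => ?_⟩
  have hη : 0 < δ / 8 := by positivity
  filter_upwards [hA0 A hA, RR_close r A 1, pin_close (r + 1), noninj_PP1 (r + 1) hδ hη,
    ev_rpow_ge ((r : ℝ) + 5) (show 0 < 3 * δ / 8 by positivity), ev_log_ge 1, eventually_gt_atTop 0]
    with x hQS hRQ hpin hnon hpw hL1 hx0
  intro B hB hBc
  set L := Real.log (x : ℝ) with hL
  set z := zA A x with hz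
  have hL0 : 0 < L := by linarith
  have hβ0 : (0 : ℝ) ≤ (B.card : ℝ) ^ (r + 1) := by positivity
  have hbx : ∀ b ∈ Tup (r + 1) B, ∀ i, b i ≤ x := fun b hb i => hB _ (mem_Tup.1 hb i)
  have hE1 : ∀ b ∈ Tup (r + 1) B, QQ z x b - RR z x b ≤ 1 / L := by
    intro b hb
    have h1 := hRQ b (hbx b hb)
    rw [pow_one, abs_sub_comm] at h1
    exact (le_abs_self _).trans h1
  have hS1 : ∑ b ∈ Tup (r + 1) B, QQ z x b - ∑ b ∈ Tup (r + 1) B, RR z x b ≤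
      (B.card : ℝ) ^ (r + 1) * (1 / L) := by
    rw [← Finset.sum_sub_distrib]
    refine (Finset.sum_le_sum hE1).trans ?_
    rw [Finset.sum_const, nsmul_eq_mul, card_Tup]
    push_cast
    exact le_rfl
  have hE2 : ∀ b ∈ Inj (r + 1) B, PP x b ≤ pin x b + 1 / L ^ (1 / 2 : ℝ) := by
    intro b hb
    rw [mem_Inj] at hb
    have h1 := hpin b hb.2 (hbx b hb.1)
    have h3 := le_abs_self (PP x b - pin x b)
    linarith
  have hS2 : ∑ b ∈ Inj (r + 1) B, PP x b ≤ ∑ b ∈ Inj (r + 1) B, pin x b +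
      (B.card : ℝ) ^ (r + 1) * (1 / L ^ (1 / 2 : ℝ)) := by
    refine (Finset.sum_le_sum hE2).trans ?_
    rw [Finset.sum_add_distrib, Finset.sum_const, nsmul_eq_mul]
    have := mul_le_mul_of_nonneg_right (card_Inj_le (r + 1) B)
      (by positivity : (0 : ℝ) ≤ 1 / L ^ (1 / 2 : ℝ))
    linarith
  have hE3 : ∀ b ∈ Inj (r + 1) B, SI b - 1 / L ≤ QQ z x b := by
    intro b hb
    rw [mem_Inj] at hb
    have h1 := hQS b hb.2 (hbx b hb.1)
    rw [pow_one] at h1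
    have h2 := neg_abs_le (QQ z x b - SI b)
    linarith
  have hS3 : ∑ b ∈ Inj (r + 1) B, SI b - (B.card : ℝ) ^ (r + 1) * (1 / L) ≤
      ∑ b ∈ Tup (r + 1) B, QQ z x b := by
    have h1 := Finset.sum_le_sum hE3
    rw [Finset.sum_sub_distrib, Finset.sum_const, nsmul_eq_mul] at h1
    have h2 : ∑ b ∈ Inj (r + 1) B, QQ z x b ≤ ∑ b ∈ Tup (r + 1) B, QQ z x b :=
      Finset.sum_le_sum_of_subset_of_nonneg (fun b hb => (mem_Inj.1 hb).1)
        fun b _ _ => QQ_nonneg z x b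
    have h3 := mul_le_mul_of_nonneg_right (card_Inj_le (r + 1) B)
      (by positivity : (0 : ℝ) ≤ 1 / L)
    linarith
  have hS4 := hnon B hB hBc
  have hsplit := sum_Tup_split (r + 1) B (fun b => PP x b)
  set t : ℝ := L ^ (-(7 * δ / 8)) with ht
  have ht0 : 0 < t := by positivity
  have e1 : 1 / L ^ (1 / 2 : ℝ) ≤ t := by
    rw [one_div, ← Real.rpow_neg hL0.le]
    exact Real.rpow_le_rpow_of_exponent_le hL1 (by linarith)
  have e2 : L ^ (δ / 8 - δ) ≤ t := Real.rpow_le_rpow_of_exponent_le hL1 (by linarith)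
  have e3 : 1 / L ≤ t := by
    rw [one_div, ← Real.rpow_neg_one]
    exact Real.rpow_le_rpow_of_exponent_le hL1 (by linarith)
  have e4 : 1 / L ^ δ ≤ t := by
    rw [one_div, ← Real.rpow_neg hL0.le]
    exact Real.rpow_le_rpow_of_exponent_le hL1 (by linarith)
  have e5 : ((r : ℝ) + 5) * t ≤ 1 / L ^ (δ / 2) := by
    calc ((r : ℝ) + 5) * t ≤ L ^ (3 * δ / 8) * t := mul_le_mul_of_nonneg_right hpw ht0.le
      _ = 1 / L ^ (δ / 2) := by
          rw [ht, ← Real.rpow_add hL0, one_div, ← Real.rpow_neg hL0.le]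
          congr 1
          ring
  have hr0 : (0 : ℝ) ≤ r := Nat.cast_nonneg r
  have e6 : ((r : ℝ) + 1) * (1 / L) + 1 / L ≤ (r + 2) * t := by
    calc ((r : ℝ) + 1) * (1 / L) + 1 / L = (r + 2) * (1 / L) := by ring
      _ ≤ (r + 2) * t := mul_le_mul_of_nonneg_left e3 (by positivity)
  have herr : 1 / L ^ (1 / 2 : ℝ) + L ^ (δ / 8 - δ) + (((r : ℝ) + 1) * (1 / L) + 1 / L) ≤
      1 / L ^ (δ / 2) - 1 / L ^ δ := by
    have : ((r : ℝ) + 5) * t = t + t + (r + 2) * t + t := by ring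
    linarith
  have herr' := mul_le_mul_of_nonneg_left herr hβ0
  have hS1' := mul_le_mul_of_nonneg_left hS1 (by positivity : (0 : ℝ) ≤ (r : ℝ) + 1)
  have hexp : ∑ b ∈ Tup (r + 1) B, PP x b - (r + 1) * ∑ b ∈ Tup (r + 1) B, RR z x b +
        r * ∑ b ∈ Tup (r + 1) B, QQ z x b =
      ∑ b ∈ Tup (r + 1) B, PP x b - ∑ b ∈ Tup (r + 1) B, QQ z x b +
        ((r : ℝ) + 1) * (∑ b ∈ Tup (r + 1) B, QQ z x b -
          ∑ b ∈ Tup (r + 1) B, RR z x b) := by ring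
  have hexp2 : (B.card : ℝ) ^ (r + 1) * (1 / L ^ (1 / 2 : ℝ) + L ^ (δ / 8 - δ) +
      (((r : ℝ) + 1) * (1 / L) + 1 / L)) =
      (B.card : ℝ) ^ (r + 1) * (1 / L ^ (1 / 2 : ℝ)) +
        (B.card : ℝ) ^ (r + 1) * L ^ (δ / 8 - δ) +
        ((r : ℝ) + 1) * ((B.card : ℝ) ^ (r + 1) * (1 / L)) +
        (B.card : ℝ) ^ (r + 1) * (1 / L) := by ring
  rw [hexp2] at herr'
  rw [hexp, hsplit]
  linarith

theorem ms_lower1 (r : ℕ) {δ : ℝ} (hδ : 0 < δ) (hδ1 : δ ≤ 1 / 4) :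
    ∀ᶠ x : ℕ in atTop, ∀ B : Finset ℕ, (∀ b ∈ B, b ≤ x) → Real.log x ^ (1 + δ) ≤ B.card →
      ∑ b ∈ Inj (r + 1) B, SI b - (B.card : ℝ) ^ (r + 1) / Real.log x ^ (δ / 2) ≤
        ∑ b ∈ Inj (r + 1) B, pin x b := by
  obtain ⟨A0, hA0⟩ := defect_core1 r hδ hδ1
  filter_upwards [hA0 A0 le_rfl, eventually_gt_atTop 0, ev_log_ge 1] with x hx hx0 hL1
  intro B hB hBc
  have h1 := hx B hB hBc
  have h2 := moment_comb1 r (zA A0 x) x hx0 B
  have h0 : 0 ≤ ∑ n ∈ Icc 1 x, (S1 lp B n ^ (r + 1) - (r + 1) * (S1 lp B n *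
      S1 (nuz (zA A0 x)) B n ^ r) + r * S1 (nuz (zA A0 x)) B n ^ (r + 1)) :=
    Finset.sum_nonneg fun n _ => convex_nonneg r _ _
      (S1_nonneg _ (fun n => lp_nonneg n) B n) (S1_nonneg _ (fun n => nuz_nonneg _ n) B n)
  rw [h2] at h0
  have hx2 : (0 : ℝ) < (x : ℝ) := by exact_mod_cast hx0
  have h3 := nonneg_of_mul_nonneg_right h0 hx2
  have h4 : (B.card : ℝ) ^ (r + 1) * (1 / Real.log x ^ (δ / 2) - 1 / Real.log x ^ δ) ≤
      (B.card : ℝ) ^ (r + 1) / Real.log x ^ (δ / 2) := by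
    have h5 : (B.card : ℝ) ^ (r + 1) * (1 / Real.log x ^ (δ / 2) - 1 / Real.log x ^ δ) =
        (B.card : ℝ) ^ (r + 1) / Real.log x ^ (δ / 2) -
          (B.card : ℝ) ^ (r + 1) / Real.log x ^ δ := by ring
    rw [h5]
    have h6 : 0 ≤ (B.card : ℝ) ^ (r + 1) / Real.log x ^ δ := by positivity
    linarith
  linarith

theorem conc_N1 (k : ℕ) {δ : ℝ} (hδ : 0 < δ) (hδ1 : δ ≤ 1 / 4) : ∃ A0 : ℕ, ∀ A : ℕ, A0 ≤ A →
    ∀ᶠ x : ℕ in atTop, ∀ B : Finset ℕ, (∀ b ∈ B, b ≤ x) → Real.log x ^ (1 + δ) ≤ B.card →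
      ∑ b ∈ Inj (k + 2) B, pin x b ≤
        ∑ b ∈ Inj (k + 2) B, SI b + (B.card : ℝ) ^ (k + 2) / Real.log x ^ δ →
      ∑ n ∈ Icc 1 x, (S1 lp B n - S1 (nuz (zA A x)) B n) ^ 2 ≤
        (Icc 1 x).card * ((B.card : ℝ) ^ 2 * (1 / Real.log x ^ (δ / (2 * ((k : ℝ) + 2))))) := by
  obtain ⟨A0, hA0⟩ := defect_core1 (k + 1) hδ hδ1
  refine ⟨A0, fun A hA => ?_⟩
  have hk : (0 : ℝ) < (k : ℝ) + 2 := by positivity
  have hc : 0 < δ / (2 * ((k : ℝ) + 2)) := by positivity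
  filter_upwards [hA0 A hA, ev_rpow_ge 2 hc, ev_log_ge 1, eventually_gt_atTop 0]
    with x hx h2 hL hx0 B hB hcard hyp
  have hL0 : 0 < Real.log x := by linarith
  have hβ : (0 : ℝ) < B.card := lt_of_lt_of_le (Real.rpow_pos_of_pos hL0 _) hcard
  have hdef : ∑ n ∈ Icc 1 x, (S1 lp B n ^ (k + 2) - (k + 2) * (S1 lp B n *
      S1 (nuz (zA A x)) B n ^ (k + 1)) + (k + 1) * S1 (nuz (zA A x)) B n ^ (k + 2)) ≤
      (Icc 1 x).card * ((B.card : ℝ) ^ (k + 2) * (1 / Real.log x ^ (δ / 2))) := by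
    have h1 := hx B hB hcard
    have h2 := moment_comb1 (k + 1) (zA A x) x hx0 B
    have h3 : ((k + 1 : ℕ) : ℝ) + 1 = (k : ℝ) + 2 := by push_cast; ring
    have h4 : ((k + 1 : ℕ) : ℝ) = (k : ℝ) + 1 := by push_cast; ring
    rw [h3, h4] at h1 h2
    have hyp' : ∑ b ∈ Inj (k + 1 + 1) B, pin x b ≤
        ∑ b ∈ Inj (k + 1 + 1) B, SI b + (B.card : ℝ) ^ (k + 1 + 1) / Real.log x ^ δ := hyp
    refine (le_of_eq h2).trans ?_
    change _ ≤ ((Icc 1 x).card : ℝ) * ((B.card : ℝ) ^ (k + 1 + 1) * (1 / Real.log x ^ (δ / 2)))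
    rw [Nat.card_Icc, Nat.add_sub_cancel]
    apply mul_le_mul_of_nonneg_left _ (by positivity)
    refine h1.trans ?_
    have h5 : (B.card : ℝ) ^ (k + 1 + 1) * (1 / Real.log x ^ (δ / 2) - 1 / Real.log x ^ δ) =
        (B.card : ℝ) ^ (k + 1 + 1) * (1 / Real.log x ^ (δ / 2)) -
          (B.card : ℝ) ^ (k + 1 + 1) / Real.log x ^ δ := by ring
    rw [h5]
    linarith
  have h := conc (Icc 1 x) (S1 lp B) (S1 (nuz (zA A x)) B)
    (fun n _ => S1_nonneg _ lp_nonneg B n) (fun n _ => S1_nonneg _ (nuz_nonneg _) B n) k B.card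
    (1 / Real.log x ^ (δ / 2)) hβ (by positivity) hdef
  refine h.trans ?_
  have e1 : (1 / Real.log x ^ (δ / 2)) ^ (2 / ((k : ℝ) + 2)) =
      1 / (Real.log x ^ (δ / (2 * ((k : ℝ) + 2))) * Real.log x ^ (δ / (2 * ((k : ℝ) + 2)))) := by
    rw [← Real.rpow_add hL0, one_div, one_div, Real.inv_rpow (by positivity),
      ← Real.rpow_mul hL0.le]
    congr 2
    field_simp
    ring
  rw [e1]
  set u := Real.log x ^ (δ / (2 * ((k : ℝ) + 2))) with hu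
  have hu0 : 0 < u := by positivity
  have h3 : 2 * (1 / (u * u)) ≤ 1 / u := by
    rw [mul_one_div, div_le_div_iff₀ (by positivity) hu0]
    nlinarith
  have h4 : (0 : ℝ) ≤ ((Icc 1 x).card : ℝ) * (B.card : ℝ) ^ 2 := by positivity
  calc 2 * ((Icc 1 x).card : ℝ) * (B.card : ℝ) ^ 2 * (1 / (u * u)) =
        (((Icc 1 x).card : ℝ) * (B.card : ℝ) ^ 2) * (2 * (1 / (u * u))) := by ring
    _ ≤ (((Icc 1 x).card : ℝ) * (B.card : ℝ) ^ 2) * (1 / u) := mul_le_mul_of_nonneg_left h3 h4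
    _ = ((Icc 1 x).card : ℝ) * ((B.card : ℝ) ^ 2 * (1 / u)) := by ring

end Pool.Agent.HLR
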