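import Pool.Agent.Lib.HLR.Upper
import Pool.Agent.Lib.HLR.Count

/-!
# The one variable version: moments of the number of prime translates

`S1 f B n = ∑_{b ∈ B} f (n + b)`; the moment identities over `1 ≤ n ≤ x`, the bounds of the moments for sets of at
least `log x` shifts and of the contribution of the non-injective tuples for sets of `(log x)^(1+δ)` shifts.
-/

set_option autoImplicit false

open Finset Filter

namespace Pool.Agent.HLR

open Pool.Agent.HLB Pool.Agent.HLT UpperAux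

/-- `∑_{b ∈ B} f (n + b)`. -/
noncomputable def S1 (f : ℕ → ℝ) (B : Finset ℕ) (n : ℕ) : ℝ := ∑ b ∈ B, f (n + b)

lemma S1_nonneg (f : ℕ → ℝ) (hf : ∀ n, 0 ≤ f n) (B : Finset ℕ) (n : ℕ) : 0 ≤ S1 f B n :=
  Finset.sum_nonneg fun _ _ => hf _

/-- The moment identity. -/
theorem moment1 (r x : ℕ) (hx : 1 ≤ x) (B : Fin r → Finset ℕ) (F : Fin r → ℕ → ℝ) :
    ∑ n ∈ Icc 1 x, ∏ i, S1 (F i) (B i) n =
      (x : ℝ) * ∑ b ∈ Fintype.piFinset B, Av x F b := by
  have hx0 : (x : ℝ) ≠ 0 := by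
    have : 0 < x := by omega
    exact_mod_cast this.ne'
  have h1 : ∀ n : ℕ, ∏ i, S1 (F i) (B i) n =
      ∑ b ∈ Fintype.piFinset B, ∏ i, F i (n + b i) := by
    intro n
    unfold S1
    rw [Finset.prod_univ_sum]
  rw [Finset.sum_congr rfl (fun n _ => h1 n), Finset.sum_comm, Finset.mul_sum]
  refine Finset.sum_congr rfl fun b _ => ?_
  unfold Av
  field_simp

theorem moment1_pow (r x : ℕ) (hx : 1 ≤ x) (B : Finset ℕ) (f : ℕ → ℝ) :
    ∑ n ∈ Icc 1 x, S1 f B n ^ r = (x : ℝ) * ∑ b ∈ Tup r B, Av x (fun _ : Fin r => f) b := by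
  have h := moment1 r x hx (fun _ => B) (fun _ => f)
  simp only [Finset.prod_const, Finset.card_univ, Fintype.card_fin] at h
  exact h

theorem moment1_mixed (r x : ℕ) (hx : 1 ≤ x) (B : Finset ℕ) (f₀ f : ℕ → ℝ) :
    ∑ n ∈ Icc 1 x, S1 f₀ B n * S1 f B n ^ r =
      (x : ℝ) * ∑ b ∈ Tup (r + 1) B, Av x (Fin.cons f₀ (fun _ : Fin r => f)) b := by
  have h := moment1 (r + 1) x hx (fun _ => B) (Fin.cons f₀ (fun _ => f))
  simp only [Fin.prod_univ_succ, Fin.cons_zero, Fin.cons_succ, Finset.prod_const,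
    Finset.card_univ, Fintype.card_fin] at h
  exact h

lemma ev_log_ge (C : ℝ) : ∀ᶠ x : ℕ in atTop, C ≤ Real.log x := by
  have h : Tendsto (fun x : ℕ => Real.log x) atTop atTop :=
    Real.tendsto_log_atTop.comp tendsto_natCast_atTop_atTop
  exact h.eventually_ge_atTop C

/-- The pointwise bound, normalised. -/
lemma PP_norm (k : ℕ) {η : ℝ} (hη : 0 < η) : ∀ᶠ x : ℕ in atTop, ∀ B : Finset ℕ,
    (∀ b ∈ B, b ≤ x) → ∀ b ∈ Fintype.piFinset (fun _ : Fin k => B),
      PP x b / Real.log x ^ η ≤ Real.log x ^ (k - (univ.image b).card) := by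
  filter_upwards [PP_small k hη, ev_log_ge 1] with x hx hL B hB b hb
  have hL0 : 0 < Real.log x := by linarith
  have h := hx b (fun i => hB _ (Fintype.mem_piFinset.mp hb i))
  rw [Real.rpow_add hL0, Real.rpow_natCast] at h
  rw [div_le_iff₀ (by positivity)]
  exact h

theorem moment_PP1 (k : ℕ) {η : ℝ} (hη : 0 < η) : ∀ᶠ x : ℕ in atTop, ∀ B : Finset ℕ,
    (∀ b ∈ B, b ≤ x) → Real.log x ≤ B.card →
      ∑ b ∈ Tup k B, PP x b ≤ (B.card : ℝ) ^ k * Real.log x ^ η := by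
  have h2 : 0 < η / 2 := by positivity
  filter_upwards [PP_norm k h2, ev_log_ge 1, ev_rpow_ge (((k : ℝ) + 1) * (k : ℝ) ^ k) h2]
    with x hx hL hC B hB hc
  have hL0 : 0 < Real.log x := by linarith
  have h := sum_few k B (Real.log x) hL hc (fun b => PP x b / Real.log x ^ (η / 2)) (hx B hB)
  rw [← Finset.sum_div, div_le_iff₀ (by positivity)] at h
  refine h.trans ?_
  have e1 : Real.log x ^ η = Real.log x ^ (η / 2) * Real.log x ^ (η / 2) := by
    rw [← Real.rpow_add hL0]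
    congr 1
    ring
  rw [e1]
  have h3 : (0 : ℝ) ≤ (B.card : ℝ) ^ k * Real.log x ^ (η / 2) := by positivity
  calc ((k : ℝ) + 1) * (k : ℝ) ^ k * (B.card : ℝ) ^ k * Real.log x ^ (η / 2) =
        (((k : ℝ) + 1) * (k : ℝ) ^ k) * ((B.card : ℝ) ^ k * Real.log x ^ (η / 2)) := by ring
    _ ≤ Real.log x ^ (η / 2) * ((B.card : ℝ) ^ k * Real.log x ^ (η / 2)) :=
        mul_le_mul_of_nonneg_right hC h3
    _ = _ := by ring

theorem noninj_PP1 (r : ℕ) {δ η : ℝ} (hδ : 0 < δ) (hη : 0 < η) : ∀ᶠ x : ℕ in atTop,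
    ∀ B : Finset ℕ, (∀ b ∈ B, b ≤ x) → Real.log x ^ (1 + δ) ≤ B.card →
      ∑ b ∈ (Tup r B).filter (fun b => ¬ Function.Injective b), PP x b ≤
        (B.card : ℝ) ^ r * Real.log x ^ (η - δ) := by
  have h2 : 0 < η / 2 := by positivity
  filter_upwards [PP_norm r h2, ev_log_ge 1, ev_rpow_ge (((r : ℝ) + 1) * (r : ℝ) ^ r) h2]
    with x hx hL hC B hB hc
  have hL0 : 0 < Real.log x := by linarith
  have hLB : Real.log x ≤ B.card := by
    refine le_trans ?_ hc
    calc Real.log x = Real.log x ^ (1 : ℝ) := (Real.rpow_one _).symm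
      _ ≤ Real.log x ^ (1 + δ) := Real.rpow_le_rpow_of_exponent_le hL (by linarith)
  have hβ : (0 : ℝ) < B.card := lt_of_lt_of_le hL0 hLB
  have h := sum_noninj r B (Real.log x) hL hLB (fun b => PP x b / Real.log x ^ (η / 2)) (hx B hB)
  rw [← Finset.sum_div, div_le_iff₀ (by positivity)] at h
  have hgain : Real.log x / B.card ≤ Real.log x ^ (-δ) := by
    rw [div_le_iff₀ hβ]
    calc Real.log x = Real.log x ^ (-δ) * Real.log x ^ (1 + δ) := by
          rw [← Real.rpow_add hL0]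
          have : -δ + (1 + δ) = 1 := by ring
          rw [this, Real.rpow_one]
      _ ≤ _ := mul_le_mul_of_nonneg_left hc (by positivity)
  refine (le_of_eq_of_le rfl h).trans ?_
  have e1 : Real.log x ^ (η - δ) = Real.log x ^ (η / 2) * (Real.log x ^ (-δ) * Real.log x ^ (η / 2)) := by
    rw [← Real.rpow_add hL0, ← Real.rpow_add hL0]
    congr 1
    ring
  rw [e1]
  have h4 : (0 : ℝ) ≤ (B.card : ℝ) ^ r := by positivity
  have h5 : 0 ≤ Real.log x ^ (η / 2) := by positivity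
  calc ((r : ℝ) + 1) * (r : ℝ) ^ r * (B.card : ℝ) ^ r * (Real.log x / B.card) *
        Real.log x ^ (η / 2) =
        (B.card : ℝ) ^ r * ((((r : ℝ) + 1) * (r : ℝ) ^ r) *
          ((Real.log x / B.card) * Real.log x ^ (η / 2))) := by ring
    _ ≤ (B.card : ℝ) ^ r * (Real.log x ^ (η / 2) *
          (Real.log x ^ (-δ) * Real.log x ^ (η / 2))) := by
        refine mul_le_mul_of_nonneg_left ?_ h4
        refine mul_le_mul hC (mul_le_mul_of_nonneg_right hgain h5) (by positivity) h5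

theorem moment_QQ1 (k A : ℕ) {η : ℝ} (hη : 0 < η) : ∀ᶠ x : ℕ in atTop, ∀ B : Finset ℕ,
    ∑ b ∈ Tup k B, QQ (zA A x) x b ≤ (B.card : ℝ) ^ k * Real.log x ^ η := by
  filter_upwards [QQ_small k A hη] with x hx B
  refine (Finset.sum_le_sum fun b _ => hx b).trans ?_
  rw [Finset.sum_const, nsmul_eq_mul, card_Tup]
  push_cast
  exact le_rfl

end Pool.Agent.HLR
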