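import Pool.Agent.Lib.HLR.GoodDil
import Pool.Agent.Lib.HLR.Close

/-!
# All pairs of a good dilation

With `lp = ff + nuz`: `lp(n+c) lp(n+u) - nuz(n+c) nuz(n+u) = ff(n+c) ff(n+u) + [lp(n+c) nuz(n+u) - nuz(n+c) nuz(n+u)] +
[lp(n+u) nuz(n+c) - nuz nuz]`. The first term is small by `good_dil`, the other ones by `RR_close`, and `QQ_close` applies to the
mean of `nuz(n+c) nuz(n+u)`.
-/

set_option autoImplicit false

open Finset Filter

namespace Pool.Agent.HLR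

open Pool.Agent.HLB Pool.Agent.HLT

namespace PairHLAux

lemma PP_two (x : ℕ) (b : Fin 2 → ℕ) :
    PP x b = (∑ n ∈ Icc 1 x, lp (n + b 0) * lp (n + b 1)) / x := by
  unfold PP Av
  simp only [Fin.prod_univ_two]

lemma QQ_two (z x : ℕ) (b : Fin 2 → ℕ) :
    QQ z x b = (∑ n ∈ Icc 1 x, nuz z (n + b 0) * nuz z (n + b 1)) / x := by
  unfold QQ Av
  simp only [Fin.prod_univ_two]

lemma RR_two (z x : ℕ) (b : Fin 2 → ℕ) :
    RR z x b = (∑ n ∈ Icc 1 x, lp (n + b 0) * nuz z (n + b 1)) / x := by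
  unfold RR Av
  congr 1
  refine Finset.sum_congr rfl fun n _ => ?_
  rw [Fin.prod_univ_succ, Fin.prod_univ_one]
  rfl

lemma split (z x : ℕ) (b : Fin 2 → ℕ) :
    PP x b - QQ z x b = (∑ n ∈ Icc 1 x, ff z (n + b 0) * ff z (n + b 1)) / x +
      (RR z x b - QQ z x b) + (RR z x ![b 1, b 0] - QQ z x ![b 1, b 0]) := by
  rw [PP_two, QQ_two, RR_two, RR_two, QQ_two]
  have e0 : (![b 1, b 0] : Fin 2 → ℕ) 0 = b 1 := rfl
  have e1 : (![b 1, b 0] : Fin 2 → ℕ) 1 = b 0 := rfl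
  rw [e0, e1, ← sub_div, ← sub_div, ← sub_div, ← add_div, ← add_div, ← Finset.sum_sub_distrib,
    ← Finset.sum_sub_distrib, ← Finset.sum_sub_distrib, ← Finset.sum_add_distrib,
    ← Finset.sum_add_distrib]
  congr 1
  refine Finset.sum_congr rfl fun n _ => ?_
  unfold ff
  ring

lemma final_ineq {L : ℝ} (hL : 4 ≤ L) (B : ℕ) : 4 * (1 / L ^ (B + 1)) ≤ 1 / L ^ B := by
  have hL0 : 0 < L := by linarith
  rw [pow_succ, mul_one_div, div_le_div_iff₀ (by positivity) (by positivity), one_mul,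
    mul_comm (L ^ B)]
  exact mul_le_mul_of_nonneg_right hL (by positivity)

end PairHLAux

open PairHLAux in
theorem pair_hl (K A1 B : ℕ) (F : ℕ → ℕ) : ∃ b0 : ℕ, ∀ᶠ x : ℕ in atTop,
    ∀ T : Finset ℕ, SpC F b0 x T → (∀ t ∈ T, 1 ≤ t ∧ 4 * (t * Real.log x ^ K) ≤ x) →
      ∃ E ⊆ T, (E.card : ℝ) ≤ T.card / Real.log x ^ A1 ∧ ∀ t ∈ T, t ∉ E →
        ∀ c d : ℕ, 4 * c ≤ 3 * x → 1 ≤ d → (d : ℝ) ≤ Real.log x ^ K → ∀ b : Fin 2 → ℕ,
          (b 0 = c ∧ b 1 = c + t * d) ∨ (b 1 = c ∧ b 0 = c + t * d) →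
            |PP x b - SI b| ≤ 1 / Real.log x ^ B := by
  obtain ⟨A0, hA0⟩ := QQ_close 2 (B + 1) (by norm_num)
  obtain ⟨b0, A, hA, hgd⟩ := good_dil K A1 (B + 1) A0 F
  have hlog : Tendsto (fun x : ℕ => Real.log (x : ℝ)) atTop atTop :=
    Real.tendsto_log_atTop.comp tendsto_natCast_atTop_atTop
  refine ⟨b0, ?_⟩
  filter_upwards [hgd, hA0 A hA, RR_close 1 A (B + 1), hlog.eventually_ge_atTop 4,
    eventually_ge_atTop 1] with x h1 h2 h3 hL hx1 T hT ht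
  obtain ⟨E, hE, hEc, hE2⟩ := h1 T hT (fun t h => (ht t h).2)
  refine ⟨E, hE, hEc, ?_⟩
  intro t htT htE c d hc hd hdL b hb
  set L := Real.log (x : ℝ) with hLdef
  set z := zA A x with hz
  have hxR : (0 : ℝ) < x := by exact_mod_cast (by omega : 0 < x)
  have hL0 : 0 < L := by linarith
  have hff := hE2 t htT htE c d hc hd hdL
  obtain ⟨ht1, ht4⟩ := ht t htT
  have hu : c + t * d ≤ x := by
    have h5 : (4 : ℝ) * (t * d) ≤ x := by
      have : (t : ℝ) * d ≤ t * L ^ K := mul_le_mul_of_nonneg_left hdL (Nat.cast_nonneg t)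
      linarith
    have h6 : 4 * (t * d) ≤ x := by exact_mod_cast h5
    omega
  have hcx : c ≤ x := by omega
  have htd : 0 < t * d := Nat.mul_pos (by omega) (by omega)
  have hbx : ∀ i, b i ≤ x := by
    rw [Fin.forall_fin_two]
    rcases hb with ⟨h7, h8⟩ | ⟨h7, h8⟩
    · rw [h7, h8]
      exact ⟨hcx, hu⟩
    · rw [h7, h8]
      exact ⟨hu, hcx⟩
  have hbx' : ∀ i, (![b 1, b 0] : Fin 2 → ℕ) i ≤ x := by
    rw [Fin.forall_fin_two]
    exact ⟨hbx 1, hbx 0⟩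
  have hbinj : Function.Injective b := by
    have hne : b 0 ≠ b 1 := by
      rcases hb with ⟨h7, h8⟩ | ⟨h7, h8⟩ <;> omega
    intro i j hij
    fin_cases i <;> fin_cases j
    · rfl
    · exact absurd hij hne
    · exact absurd hij.symm hne
    · rfl
  have hffb : |∑ n ∈ Icc 1 x, ff z (n + b 0) * ff z (n + b 1)| ≤ x / L ^ (B + 1) := by
    rcases hb with ⟨h7, h8⟩ | ⟨h7, h8⟩
    · rw [h7, h8]
      exact hff
    · rw [h7, h8]
      have e : ∑ n ∈ Icc 1 x, ff z (n + (c + t * d)) * ff z (n + c) =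
          ∑ n ∈ Icc 1 x, ff z (n + c) * ff z (n + (c + t * d)) :=
        Finset.sum_congr rfl fun n _ => mul_comm _ _
      rw [e]
      exact hff
  have k1 : |(∑ n ∈ Icc 1 x, ff z (n + b 0) * ff z (n + b 1)) / x| ≤ 1 / L ^ (B + 1) := by
    rw [abs_div, abs_of_pos hxR, div_le_iff₀ hxR]
    calc _ ≤ (x : ℝ) / L ^ (B + 1) := hffb
      _ = 1 / L ^ (B + 1) * x := by ring
  have k2 := h3 b hbx
  have k3 := h3 ![b 1, b 0] hbx'
  have k4 := h2 b hbinj hbx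
  have hs := split z x b
  have hmain : |PP x b - SI b| ≤ 4 * (1 / L ^ (B + 1)) := by
    have e : PP x b - SI b = (∑ n ∈ Icc 1 x, ff z (n + b 0) * ff z (n + b 1)) / x +
        (RR z x b - QQ z x b) + (RR z x ![b 1, b 0] - QQ z x ![b 1, b 0]) +
        (QQ z x b - SI b) := by
      rw [← hs]
      ring
    rw [e]
    refine (abs_add_le _ _).trans ?_
    have a1 := abs_add_le ((∑ n ∈ Icc 1 x, ff z (n + b 0) * ff z (n + b 1)) / x +
        (RR z x b - QQ z x b)) (RR z x ![b 1, b 0] - QQ z x ![b 1, b 0])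
    have a2 := abs_add_le ((∑ n ∈ Icc 1 x, ff z (n + b 0) * ff z (n + b 1)) / (x : ℝ))
        (RR z x b - QQ z x b)
    linarith
  exact hmain.trans (final_ineq hL B)

end Pool.Agent.HLR
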