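import Pool.Agent.Lib.HLR.SpecDil
import Pool.Agent.Lib.HLT.EnC
import Pool.Agent.Lib.HLT.SupNorm

/-!
# Mean square over dilations of the pair correlation of `ff = lp - nuz`

PROOF SKETCH. `L = log x`, `N = 4 x + 1`, `T' = T.image (fun t => c + t * d) ⊆ range (x + 1)` because `4 c <= 3 x` and
`4 t d <= 4 t L^K <= x`. `fourier_one N x _ _ T' _ h g K' L1` with `h n = (ff z (n + c) : ℂ)`, `g = ff z`, `|ff z n| <= 2 L`
for `n <= 2 x`, so `K' = 2 L` (`lp_le`, `log (2x) <= 2 L`, `nuz_le`, `DZ_inv_le`), `L1 = L^b`: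
`∑_{u ∈ T'} |∑_n h n g (n + u)|^2 <= (|T| / L^b) (4 x L^2) (2 x (2L)^2) + |T| (#Spec / N^2) ∑_ξ |ĥ|^2 |ĝ|^2`.
`#Spec N T' (L^b) <= d #Spec N T (L^b) <= L^K L^(F b)` (`spec_dil`, `SpC`); `|ĝ(ξ)| <= x / L^B` for all `ξ` (`sup_norm A0 B` at `y = 2 x`,
`esum` unfolds to the sum over `Icc 1 (2 x)`), `∑_ξ |ĥ|^2 = N ∑ |h|^2 <= N x (2L)^2` (`parseval`, `X = x`). Choose `b = B' + 6`,
`B = F b + K + B' + 6`, `b0 = b`, `A` from `sup_norm`. The `T`-sum is the `T'`-sum (`Finset.sum_image`, injective); the norm square of the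
complex sum is the square of the real sum. See LastUniform.lean (`last_coord`) for the same computation.
-/

set_option autoImplicit false

open Finset Filter

namespace Pool.Agent.HLR

open Pool.Agent.HLB Pool.Agent.HLT

theorem pair_mean (K B' A0 : ℕ) (F : ℕ → ℕ) : ∃ b0 A : ℕ, A0 ≤ A ∧ ∀ᶠ x : ℕ in atTop,
    ∀ T : Finset ℕ, SpC F b0 x T → (∀ t ∈ T, 4 * (t * Real.log x ^ K) ≤ x) →
      ∀ c d : ℕ, 4 * c ≤ 3 * x → 1 ≤ d → (d : ℝ) ≤ Real.log x ^ K →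
        ∑ t ∈ T, (∑ n ∈ Icc 1 x, ff (zA A x) (n + c) * ff (zA A x) (n + (c + t * d))) ^ 2 ≤
          T.card * (x ^ 2 / Real.log x ^ B') := by
  obtain ⟨A, hA, h3⟩ := sup_norm A0 (F (B' + 10) + K + B' + 6)
  refine ⟨B' + 10, A, hA, ?_⟩
  have hlog : Tendsto (fun x : ℕ => Real.log x) atTop atTop :=
    Real.tendsto_log_atTop.comp tendsto_natCast_atTop_atTop
  filter_upwards [h3, DZ_inv_le A, hlog.eventually_ge_atTop 2, eventually_ge_atTop 1]
    with x h3 h4 hL2 hx1 T hT hTx c d hc hd1 hd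
  set L : ℝ := Real.log x with hL
  set z : ℕ := zA A x with hz
  set b : ℕ := B' + 10 with hb
  set B : ℕ := F b + K + B' + 6 with hB
  have hx0 : (0:ℝ) < x := by exact_mod_cast hx1
  have hL0 : (0:ℝ) < L := by linarith
  have hL1 : (1:ℝ) ≤ L := by linarith
  have hLL : L ≤ L ^ 2 := by nlinarith
  -- pointwise bounds
  have hff : ∀ n : ℕ, n ≤ 2 * x → |ff z n| ≤ L ^ 2 := by
    intro n hn
    have e1 : lp n ≤ L ^ 2 := by
      refine (lp_le n).trans ?_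
      rcases Nat.eq_zero_or_pos n with h0 | h0
      · subst h0
        simp
        positivity
      have : Real.log n ≤ Real.log (2 * x) := by
        apply Real.log_le_log (by exact_mod_cast h0)
        exact_mod_cast hn
      rw [Real.log_mul (by norm_num) hx0.ne'] at this
      have hl2 : Real.log 2 ≤ 1 := by
        have := Real.log_two_lt_d9
        linarith
      nlinarith
    have e2 : nuz z n ≤ L ^ 2 := (nuz_le z n).trans (h4.trans hLL)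
    have e3 := lp_nonneg n
    have e4 := nuz_nonneg z n
    unfold ff
    rw [abs_le]
    constructor <;> linarith
  -- the set of the shifts
  set T' : Finset ℕ := T.image (fun t => c + t * d) with hT'
  have hcard : T'.card = T.card := card_image_dil T c d hd1
  have hT'sub : T' ⊆ range (x + 1) := by
    intro u hu
    rw [hT', Finset.mem_image] at hu
    obtain ⟨t, ht, rfl⟩ := hu
    rw [Finset.mem_range]
    have e1 := hTx t ht
    have e2 : (t : ℝ) * d ≤ t * L ^ K := mul_le_mul_of_nonneg_left hd (Nat.cast_nonneg t)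
    have e3 : 4 * ((t : ℝ) * d) ≤ x := by linarith
    have e4 : 4 * (t * d) ≤ x := by exact_mod_cast e3
    omega
  have hinj : Set.InjOn (fun t => c + t * d) (T : Set ℕ) := by
    intro a _ b _ hab
    have h5 : c + a * d = c + b * d := hab
    have h6 : a * d = b * d := by omega
    exact Nat.eq_of_mul_eq_mul_right (by omega) h6
  set h : ℕ → ℂ := fun n => (ff z (n + c) : ℂ) with hh
  have e2 : ∑ t ∈ T, (∑ n ∈ Icc 1 x, ff z (n + c) * ff z (n + (c + t * d))) ^ 2 =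
      ∑ u ∈ T', ‖∑ n ∈ Icc 1 x, h n * (ff z (n + u) : ℂ)‖ ^ 2 := by
    rw [hT', Finset.sum_image hinj]
    refine Finset.sum_congr rfl (fun t _ => ?_)
    have e : ∑ n ∈ Icc 1 x, h n * (ff z (n + (c + t * d)) : ℂ) =
        ((∑ n ∈ Icc 1 x, ff z (n + c) * ff z (n + (c + t * d)) : ℝ) : ℂ) := by
      rw [hh]
      push_cast
      rfl
    rw [e, Complex.norm_real, Real.norm_eq_abs, sq_abs]
  rw [e2]
  have hhn : ∀ n ∈ Icc 1 x, ‖h n‖ ^ 2 ≤ L ^ 4 := by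
    intro n hn
    rw [mem_Icc] at hn
    have h1 : ‖h n‖ ≤ L ^ 2 := by
      rw [hh]
      simp only [Complex.norm_real, Real.norm_eq_abs]
      exact hff _ (by omega)
    calc ‖h n‖ ^ 2 ≤ (L ^ 2) ^ 2 := pow_le_pow_left₀ (norm_nonneg _) h1 2
      _ = L ^ 4 := by ring
  have hsumh : ∑ n ∈ Icc 1 x, ‖h n‖ ^ 2 ≤ x * L ^ 4 := by
    refine (Finset.sum_le_sum hhn).trans ?_
    rw [Finset.sum_const, nsmul_eq_mul, Nat.card_Icc]
    simp
  have hu : ∀ α : ℝ, ‖∑ n ∈ Icc 1 (2 * x), (ff z n : ℂ) * ex (n * α)‖ ≤ x / L ^ B := by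
    intro α
    exact h3 (2 * x) le_rfl α
  have hf := fourier_one (4 * x + 1) x hx1 (by omega) T' hT'sub h (ff z) (L ^ 2) (L ^ b)
    (by positivity) (by positivity) (fun n hn => hff n (by rw [mem_Icc] at hn; exact hn.2))
  refine hf.trans ?_
  clear hf
  rw [hcard]
  have hspec0 := hT.2 b le_rfl
  have hspec : ((Spec (4 * x + 1) T' (L ^ b)).card : ℝ) ≤ L ^ (K + F b) := by
    have h1 := spec_dil (4 * x + 1) (by omega) T c d hd1 (L ^ b)
    have h2 : ((Spec (4 * x + 1) T' (L ^ b)).card : ℝ) ≤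
        (d : ℝ) * (Spec (4 * x + 1) T (L ^ b)).card := by exact_mod_cast h1
    refine h2.trans ?_
    have h3 : L ^ (K + F b) = L ^ K * L ^ F b := pow_add _ _ _
    rw [h3]
    exact mul_le_mul hd hspec0 (Nat.cast_nonneg _) (by positivity)
  have hN0 : (0 : ℝ) < ((4 * x + 1 : ℕ) : ℝ) := by positivity
  -- the second sum
  have hsec : ∑ ξ ∈ range (4 * x + 1), ‖∑ n ∈ Icc 1 x, h n * ex (n * (ξ / ((4 * x + 1 : ℕ) : ℝ)))‖ ^ 2 *
      ‖∑ m ∈ Icc 1 (2 * x), (ff z m : ℂ) * ex (m * (ξ / ((4 * x + 1 : ℕ) : ℝ)))‖ ^ 2 ≤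
      (x / L ^ B) ^ 2 * (((4 * x + 1 : ℕ) : ℝ) * (x * L ^ 4)) := by
    have h1 : ∑ ξ ∈ range (4 * x + 1), ‖∑ n ∈ Icc 1 x, h n * ex (n * (ξ / ((4 * x + 1 : ℕ) : ℝ)))‖ ^ 2 *
        ‖∑ m ∈ Icc 1 (2 * x), (ff z m : ℂ) * ex (m * (ξ / ((4 * x + 1 : ℕ) : ℝ)))‖ ^ 2 ≤
        ∑ ξ ∈ range (4 * x + 1), ‖∑ n ∈ Icc 1 x, h n * ex (n * (ξ / ((4 * x + 1 : ℕ) : ℝ)))‖ ^ 2 *
          (x / L ^ B) ^ 2 := by
      refine Finset.sum_le_sum (fun ξ _ => ?_)
      refine mul_le_mul_of_nonneg_left ?_ (by positivity)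
      exact pow_le_pow_left₀ (norm_nonneg _) (hu _) 2
    refine h1.trans ?_
    rw [← Finset.sum_mul, parseval (4 * x + 1) x (by omega) (by omega) h, mul_comm]
    refine mul_le_mul_of_nonneg_left ?_ (by positivity)
    exact mul_le_mul_of_nonneg_left hsumh hN0.le
  have hcard0 : (0 : ℝ) ≤ (T.card : ℝ) := Nat.cast_nonneg _
  -- first term
  have hA : (T.card : ℝ) / L ^ b * ((∑ n ∈ Icc 1 x, ‖h n‖ ^ 2) * (2 * x * (L ^ 2) ^ 2)) ≤
      T.card * (x ^ 2 * (2 / L ^ (B' + 2))) := by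
    have h1 : (∑ n ∈ Icc 1 x, ‖h n‖ ^ 2) * (2 * x * (L ^ 2) ^ 2) ≤
        (x * L ^ 4) * (2 * x * (L ^ 2) ^ 2) :=
      mul_le_mul_of_nonneg_right hsumh (by positivity)
    have h2 := mul_le_mul_of_nonneg_left h1 (by positivity : 0 ≤ (T.card : ℝ) / L ^ b)
    refine h2.trans (le_of_eq ?_)
    have h3 : L ^ b = L ^ (B' + 2) * (L ^ 4 * (L ^ 2) ^ 2) := by
      rw [hb, ← pow_mul, ← pow_add, ← pow_add]
    rw [h3]
    field_simp
  -- second term
  have hC : (T.card : ℝ) * ((Spec (4 * x + 1) T' (L ^ b)).card / ((4 * x + 1 : ℕ) : ℝ) ^ 2) *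
      ∑ ξ ∈ range (4 * x + 1), ‖∑ n ∈ Icc 1 x, h n * ex (n * (ξ / ((4 * x + 1 : ℕ) : ℝ)))‖ ^ 2 *
      ‖∑ m ∈ Icc 1 (2 * x), (ff z m : ℂ) * ex (m * (ξ / ((4 * x + 1 : ℕ) : ℝ)))‖ ^ 2 ≤
      T.card * (x ^ 2 * (1 / L ^ (B' + 2))) := by
    have h1 := mul_le_mul_of_nonneg_left hsec (by positivity : 0 ≤ (T.card : ℝ) *
      ((Spec (4 * x + 1) T' (L ^ b)).card / ((4 * x + 1 : ℕ) : ℝ) ^ 2))
    refine h1.trans ?_
    have h2 : (T.card : ℝ) * ((Spec (4 * x + 1) T' (L ^ b)).card / ((4 * x + 1 : ℕ) : ℝ) ^ 2) *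
        ((x / L ^ B) ^ 2 * (((4 * x + 1 : ℕ) : ℝ) * (x * L ^ 4))) =
        T.card * (x ^ 2 * ((Spec (4 * x + 1) T' (L ^ b)).card *
          (x / ((4 * x + 1 : ℕ) : ℝ)) * (L ^ 4 / (L ^ B) ^ 2))) := by
      field_simp
    rw [h2]
    refine mul_le_mul_of_nonneg_left (mul_le_mul_of_nonneg_left ?_ (by positivity)) hcard0
    have h3 : (x : ℝ) / ((4 * x + 1 : ℕ) : ℝ) ≤ 1 := by
      rw [div_le_one hN0]
      push_cast
      linarith
    have h4 : ((Spec (4 * x + 1) T' (L ^ b)).card : ℝ) * (x / ((4 * x + 1 : ℕ) : ℝ)) ≤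
        L ^ (K + F b) := by
      calc ((Spec (4 * x + 1) T' (L ^ b)).card : ℝ) * (x / ((4 * x + 1 : ℕ) : ℝ))
          ≤ ((Spec (4 * x + 1) T' (L ^ b)).card : ℝ) * 1 :=
            mul_le_mul_of_nonneg_left h3 (Nat.cast_nonneg _)
        _ ≤ L ^ (K + F b) := by rw [mul_one]; exact hspec
    refine (mul_le_mul_of_nonneg_right h4 (by positivity)).trans ?_
    have h5 : (L ^ B) ^ 2 = (L ^ (K + F b) * L ^ 4 * L ^ (B' + 2)) * L ^ B := by
      rw [pow_two]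
      congr 1
      rw [hB, ← pow_add, ← pow_add]
      congr 1
      ring
    rw [h5, ← mul_div_assoc, div_le_div_iff₀ (by positivity) (by positivity)]
    have h6 : 1 ≤ L ^ B := one_le_pow₀ hL1
    have h7 : 0 < L ^ (K + F b) * L ^ 4 * L ^ (B' + 2) := by positivity
    rw [one_mul]
    calc L ^ (K + F b) * L ^ 4 * L ^ (B' + 2) =
          L ^ (K + F b) * L ^ 4 * L ^ (B' + 2) * 1 := by rw [mul_one]
      _ ≤ L ^ (K + F b) * L ^ 4 * L ^ (B' + 2) * L ^ B :=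
          mul_le_mul_of_nonneg_left h6 h7.le
  have hsum := add_le_add hA hC
  refine hsum.trans ?_
  rw [← mul_add, ← mul_add]
  refine mul_le_mul_of_nonneg_left ?_ hcard0
  have hfin : 2 / L ^ (B' + 2) + 1 / L ^ (B' + 2) ≤ 1 / L ^ B' := by
    rw [pow_add, ← add_div, div_le_div_iff₀ (by positivity) (by positivity)]
    have h8 : (4 : ℝ) ≤ L ^ 2 := by nlinarith
    have h9 : 0 < L ^ B' := by positivity
    nlinarith
  calc (x : ℝ) ^ 2 * (2 / L ^ (B' + 2) + 1 / L ^ (B' + 2)) ≤ x ^ 2 * (1 / L ^ B') :=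
        mul_le_mul_of_nonneg_left hfin (by positivity)
    _ = x ^ 2 / L ^ B' := by rw [mul_one_div]

end Pool.Agent.HLR
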