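import Pool.Agent.Lib.HLT.FourierOne

/-!
# The spectrum of a dilated and translated set

`T' = T.image (fun t => c + t * d)`, `|T'| = |T|` (injective, `d ≥ 1`). `WW T' (ζ/N) = ex (c ζ / N) WW T (d ζ / N)` and
`WW T (d ζ / N) = WW T (((d ζ) % N : ℕ) / N)` (each `t` is an integer and `d ζ / N` differs from the other by an integer:
`ex_add_int` / `ex_natCast`). So `ζ ∈ Spec N T' L1` iff `(d ζ) % N ∈ Spec N T L1`. The map `ζ ↦ (d ζ) % N` on `range N` has fibres with at
most `d` elements: `d ζ` lies in `[0, d N)` and is congruent to a fixed residue mod `N`, so `⌊d ζ / N⌋`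
takes at most `d` values and determines `d ζ`, hence `ζ` (`Finset.card_le_mul_card_image` with bound `d`).
-/

set_option autoImplicit false

open Finset Filter

namespace Pool.Agent.HLR

open Pool.Agent.HLB Pool.Agent.HLT

private lemma dil_inj (c d : ℕ) (hd : 1 ≤ d) : Function.Injective (fun t : ℕ => c + t * d) := by
  intro a b h
  have h1 : a * d = b * d := by
    have h2 : c + a * d = c + b * d := h
    omega
  exact Nat.eq_of_mul_eq_mul_right (by omega) h1

theorem card_image_dil (T : Finset ℕ) (c d : ℕ) (hd : 1 ≤ d) :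
    (T.image (fun t => c + t * d)).card = T.card :=
  card_image_of_injective T (dil_inj c d hd)

private lemma mem_Spec' {N : ℕ} {T : Finset ℕ} {L1 : ℝ} {ζ : ℕ} :
    ζ ∈ Spec N T L1 ↔ ζ < N ∧ (T.card : ℝ) ≤ L1 * ‖WW T ((ζ : ℝ) / N)‖ := by
  classical
  unfold Spec
  rw [Finset.mem_filter, Finset.mem_range]

private lemma norm_dil (N : ℕ) (hN : 0 < N) (T : Finset ℕ) (c d : ℕ) (hd : 1 ≤ d) (ζ : ℕ) :
    ‖WW (T.image (fun t => c + t * d)) ((ζ : ℝ) / N)‖ = ‖WW T (((d * ζ % N : ℕ) : ℝ) / N)‖ := by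
  have hN' : (N : ℝ) ≠ 0 := by exact_mod_cast hN.ne'
  have h1 : ((d * ζ : ℕ) : ℝ) / N = ((d * ζ % N : ℕ) : ℝ) / N + ((d * ζ / N : ℕ) : ℝ) := by
    have h2 : d * ζ % N + N * (d * ζ / N) = d * ζ := Nat.mod_add_div _ _
    have h3 : ((d * ζ % N : ℕ) : ℝ) + N * ((d * ζ / N : ℕ) : ℝ) = ((d * ζ : ℕ) : ℝ) := by
      exact_mod_cast h2
    rw [← h3]
    field_simp
  have key : WW (T.image (fun t => c + t * d)) ((ζ : ℝ) / N) =
      ex (c * ((ζ : ℝ) / N)) * WW T (((d * ζ % N : ℕ) : ℝ) / N) := by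
    unfold WW
    rw [sum_image (fun a _ b _ h => dil_inj c d hd h), mul_sum]
    refine sum_congr rfl fun t _ => ?_
    have h5 : (((c + t * d : ℕ) : ℝ)) * ((ζ : ℝ) / N) =
        c * ((ζ : ℝ) / N) + t * (((d * ζ : ℕ) : ℝ) / N) := by
      push_cast
      ring
    generalize d * ζ / N = q at h1
    have h4 : (((c + t * d : ℕ) : ℝ)) * ((ζ : ℝ) / N) =
        c * ((ζ : ℝ) / N) + (t * (((d * ζ % N : ℕ) : ℝ) / N) + (((t : ℤ) * (q : ℕ) : ℤ) : ℝ)) := by
      rw [h5, h1]
      generalize d * ζ % N = r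
      push_cast
      ring
    rw [h4, ex_add, ex_add_int]
  rw [key, norm_mul, norm_ex, one_mul]

theorem spec_dil (N : ℕ) (hN : 0 < N) (T : Finset ℕ) (c d : ℕ) (hd : 1 ≤ d) (L1 : ℝ) :
    (Spec N (T.image (fun t => c + t * d)) L1).card ≤ d * (Spec N T L1).card := by
  classical
  have hsub : (Spec N (T.image (fun t => c + t * d)) L1).image (fun ζ => d * ζ % N) ⊆
      Spec N T L1 := by
    intro y hy
    obtain ⟨ζ, hζ, rfl⟩ := mem_image.1 hy
    rw [mem_Spec'] at hζ
    rw [mem_Spec']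
    refine ⟨Nat.mod_lt _ hN, ?_⟩
    have h1 := hζ.2
    rw [card_image_dil T c d hd, norm_dil N hN T c d hd ζ] at h1
    exact h1
  refine (card_le_mul_card_image (f := fun ζ => d * ζ % N) _ d ?_).trans
    (Nat.mul_le_mul_left d (card_le_card hsub))
  intro y _
  have h2 : ((Spec N (T.image (fun t => c + t * d)) L1).filter (fun ζ => d * ζ % N = y)).card ≤
      (range d).card := by
    refine card_le_card_of_injOn (fun ζ => d * ζ / N) ?_ ?_
    · intro ζ hζ
      rw [mem_coe, mem_filter, mem_Spec'] at hζ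
      rw [mem_coe, mem_range]
      refine (Nat.div_lt_iff_lt_mul hN).2 ?_
      exact Nat.mul_lt_mul_of_pos_left hζ.1.1 (by omega)
    · intro ζ hζ ζ' hζ' h
      rw [mem_coe, mem_filter] at hζ hζ'
      have h3 : d * ζ % N + N * (d * ζ / N) = d * ζ := Nat.mod_add_div _ _
      have h4 : d * ζ' % N + N * (d * ζ' / N) = d * ζ' := Nat.mod_add_div _ _
      have h5 : d * ζ / N = d * ζ' / N := h
      rw [hζ.2, h5] at h3
      rw [hζ'.2] at h4
      exact Nat.eq_of_mul_eq_mul_left (by omega) (h3.symm.trans h4)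
  simpa using h2

end Pool.Agent.HLR
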