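import Pool.Agent.Lib.HLR.Defect
import Pool.Agent.Lib.HLR.Conc

/-!
# Concentration of the number of prime translates

`conc_N`: `conc` with `Ω = Om x`, `β = |B|`, `ε = 1 / L^(δ/2)` and `defect`:
`∑ (N - M)^2 <= 2 |Om| β^2 L^(-(δ/2) (2/(k+2))) <= |Om| β^2 / L^(δ / (2 (k+2)))` for large `x`.
`conc_K`: `K = SS lp (nuz z) B`. By `moment_pow` (r = 2) `∑_w K^2 = x^2 ∑ PP QQ <= x^2 (∑ PP^2)^(1/2) (∑ QQ^2)^(1/2)`
`= (∑_w N^2)^(1/2) (∑_w M^2)^(1/2)` (Cauchy-Schwarz), and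
`∑_w N^2 <= (a + v)^2`, `a^2 = ∑ M^2 <= |Om| β^2 L^η` (`moment_QQ` k = 2), `v^2 = ∑ (N-M)^2`. Moreover
`∑_w K M = x^2 ∑_{Tup 2 B} RR QQ` (`moment_mixed` with `r = 1`) `>= ∑_w M^2 - |Om| β^2 / L`
(`RR_close`, `QQ_small`). So `∑ (K-M)^2 = ∑ K^2 - 2 ∑ K M + ∑ M^2 <= |Om| β^2 / L^(δ/4)`.
-/

set_option autoImplicit false

open Finset Filter

namespace Pool.Agent.HLR

open Pool.Agent.HLB Pool.Agent.HLT

private lemma ev_log_rpow' (C : ℝ) {c : ℝ} (hc : 0 < c) :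
    ∀ᶠ x : ℕ in atTop, C ≤ Real.log x ^ c := by
  have h : Tendsto (fun x : ℕ => Real.log x ^ c) atTop atTop :=
    (tendsto_rpow_atTop hc).comp (Real.tendsto_log_atTop.comp tendsto_natCast_atTop_atTop)
  exact h.eventually_ge_atTop C

private lemma ev_log_ge' (C : ℝ) : ∀ᶠ x : ℕ in atTop, C ≤ Real.log x := by
  have h : Tendsto (fun x : ℕ => Real.log x) atTop atTop :=
    Real.tendsto_log_atTop.comp tendsto_natCast_atTop_atTop
  exact h.eventually_ge_atTop C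

theorem conc_N (k : ℕ) {δ : ℝ} (hδ : 0 < δ) (hδ1 : δ ≤ 1 / 4) : ∃ A0 : ℕ, ∀ A : ℕ, A0 ≤ A →
    ∀ᶠ x : ℕ in atTop, ∀ B : Finset ℕ, (∀ b ∈ B, b ≤ x) → Real.log x ^ (2 + δ) ≤ B.card →
      ∑ b ∈ Inj (k + 2) B, pin x b ^ 2 ≤
        ∑ b ∈ Inj (k + 2) B, SI b ^ 2 + (B.card : ℝ) ^ (k + 2) / Real.log x ^ δ →
      ∑ w ∈ Om x, (SS lp lp B w - SS (nuz (zA A x)) (nuz (zA A x)) B w) ^ 2 ≤
        (Om x).card * ((B.card : ℝ) ^ 2 * (1 / Real.log x ^ (δ / (2 * ((k : ℝ) + 2))))) := by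
  obtain ⟨A0, hA0⟩ := defect k hδ hδ1
  refine ⟨A0, fun A hA => ?_⟩
  have hk : (0 : ℝ) < (k : ℝ) + 2 := by positivity
  have hc : 0 < δ / (2 * ((k : ℝ) + 2)) := by positivity
  filter_upwards [hA0 A hA, ev_log_rpow' 2 hc, ev_log_ge' 1] with x hx h2 hL B hB hcard hyp
  have hL0 : 0 < Real.log x := by linarith only [hδ, hδ1, hL]
  have hβ : (0 : ℝ) < B.card := lt_of_lt_of_le (Real.rpow_pos_of_pos hL0 _) hcard
  have h := conc (Om x) (SS lp lp B) (SS (nuz (zA A x)) (nuz (zA A x)) B)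
    (fun w _ => SS_nonneg _ _ lp_nonneg lp_nonneg B w)
    (fun w _ => SS_nonneg _ _ (nuz_nonneg _) (nuz_nonneg _) B w) k B.card
    (1 / Real.log x ^ (δ / 2)) hβ (by positivity) (hx B hB hcard hyp)
  refine h.trans ?_
  have e1 : (1 / Real.log x ^ (δ / 2)) ^ (2 / ((k : ℝ) + 2)) =
      1 / (Real.log x ^ (δ / (2 * ((k : ℝ) + 2))) * Real.log x ^ (δ / (2 * ((k : ℝ) + 2)))) := by
    rw [← Real.rpow_add hL0, one_div, one_div, Real.inv_rpow (by positivity),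
      ← Real.rpow_mul hL0.le]
    congr 2
    field_simp
    ring
  rw [e1]
  set u := Real.log x ^ (δ / (2 * ((k : ℝ) + 2))) with hu
  have hu0 : 0 < u := by positivity
  have h3 : 2 * (1 / (u * u)) ≤ 1 / u := by
    rw [mul_one_div, div_le_div_iff₀ (by positivity) hu0]
    nlinarith only [h2]
  have h4 : (0 : ℝ) ≤ (Om x).card * (B.card : ℝ) ^ 2 := by positivity
  calc 2 * ((Om x).card : ℝ) * (B.card : ℝ) ^ 2 * (1 / (u * u)) =
        ((Om x).card * (B.card : ℝ) ^ 2) * (2 * (1 / (u * u))) := by ring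
    _ ≤ ((Om x).card * (B.card : ℝ) ^ 2) * (1 / u) := mul_le_mul_of_nonneg_left h3 h4
    _ = (Om x).card * ((B.card : ℝ) ^ 2 * (1 / u)) := by ring

/-- Abstract form: `∑ (K - M)^2 <= a v + 2 e`. -/
private lemma abs_K {α : Type*} (Ω : Finset α) (N M K : α → ℝ) (a v e : ℝ) (ha : 0 ≤ a)
    (hv : 0 ≤ v) (hM : ∑ w ∈ Ω, M w ^ 2 ≤ a ^ 2) (hNM : ∑ w ∈ Ω, (N w - M w) ^ 2 ≤ v ^ 2)
    (hK : (∑ w ∈ Ω, K w ^ 2) ^ 2 ≤ (∑ w ∈ Ω, N w ^ 2) * ∑ w ∈ Ω, M w ^ 2)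
    (hKM : ∑ w ∈ Ω, M w ^ 2 - e ≤ ∑ w ∈ Ω, K w * M w) :
    ∑ w ∈ Ω, (K w - M w) ^ 2 ≤ a * v + 2 * e := by
  -- `s = sqrt (∑ M^2)`, `t = sqrt (∑ (N - M)^2)`.
  set m2 := ∑ w ∈ Ω, M w ^ 2 with hm2
  set d2 := ∑ w ∈ Ω, (N w - M w) ^ 2 with hd2
  have hm0 : 0 ≤ m2 := Finset.sum_nonneg fun _ _ => sq_nonneg _
  have hd0 : 0 ≤ d2 := Finset.sum_nonneg fun _ _ => sq_nonneg _
  have hs : Real.sqrt m2 ≤ a := by
    rw [show a = Real.sqrt (a ^ 2) from (Real.sqrt_sq ha).symm]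
    exact Real.sqrt_le_sqrt hM
  have ht : Real.sqrt d2 ≤ v := by
    rw [show v = Real.sqrt (v ^ 2) from (Real.sqrt_sq hv).symm]
    exact Real.sqrt_le_sqrt hNM
  set s := Real.sqrt m2 with hsdef
  set t := Real.sqrt d2 with htdef
  have hs2 : s ^ 2 = m2 := Real.sq_sqrt hm0
  have ht2 : t ^ 2 = d2 := Real.sq_sqrt hd0
  have hs0 : 0 ≤ s := Real.sqrt_nonneg _
  have ht0 : 0 ≤ t := Real.sqrt_nonneg _
  have hcs : (∑ w ∈ Ω, (N w - M w) * M w) ^ 2 ≤ d2 * m2 :=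
    Finset.sum_mul_sq_le_sq_mul_sq Ω _ _
  have hcs' : ∑ w ∈ Ω, (N w - M w) * M w ≤ t * s := by
    apply le_of_sq_le_sq _ (mul_nonneg ht0 hs0)
    rw [mul_pow, ht2, hs2]
    exact hcs
  have hN : ∑ w ∈ Ω, N w ^ 2 ≤ (s + t) ^ 2 := by
    have e1 : ∑ w ∈ Ω, N w ^ 2 = m2 + 2 * ∑ w ∈ Ω, (N w - M w) * M w + d2 := by
      rw [hm2, hd2, Finset.mul_sum, ← Finset.sum_add_distrib, ← Finset.sum_add_distrib]
      refine Finset.sum_congr rfl fun w _ => ?_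
      ring
    rw [e1]
    nlinarith only [hs2, ht2, hcs']
  have hK' : ∑ w ∈ Ω, K w ^ 2 ≤ (s + t) * s := by
    apply le_of_sq_le_sq _ (mul_nonneg (add_nonneg hs0 ht0) hs0)
    rw [mul_pow, hs2]
    exact hK.trans (mul_le_mul_of_nonneg_right hN hm0)
  have e2 : ∑ w ∈ Ω, (K w - M w) ^ 2 = ∑ w ∈ Ω, K w ^ 2 - 2 * ∑ w ∈ Ω, K w * M w + m2 := by
    rw [hm2, Finset.mul_sum, ← Finset.sum_sub_distrib, ← Finset.sum_add_distrib]
    refine Finset.sum_congr rfl fun w _ => ?_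
    ring
  rw [e2]
  have h5 : s * t ≤ a * v := mul_le_mul hs ht ht0 ha
  nlinarith only [hKM, hs2, hK', h5]

theorem conc_K (A : ℕ) {δ : ℝ} (hδ : 0 < δ) (hδ1 : δ ≤ 1) : ∀ᶠ x : ℕ in atTop, ∀ B : Finset ℕ,
    (∀ b ∈ B, b ≤ x) → Real.log x ^ 2 ≤ B.card →
      ∑ w ∈ Om x, (SS lp lp B w - SS (nuz (zA A x)) (nuz (zA A x)) B w) ^ 2 ≤
        (Om x).card * ((B.card : ℝ) ^ 2 * (1 / Real.log x ^ δ)) →
      ∑ w ∈ Om x, (SS lp (nuz (zA A x)) B w - SS (nuz (zA A x)) (nuz (zA A x)) B w) ^ 2 ≤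
        (Om x).card * ((B.card : ℝ) ^ 2 * (1 / Real.log x ^ (δ / 4))) := by
  have hδ4 : 0 < δ / 4 := by positivity
  have hδ8 : 0 < δ / 8 := by positivity
  have hδ34 : (0 : ℝ) < 1 - δ / 4 := by linarith
  filter_upwards [moment_QQ 2 A hδ4, RR_close 1 A 2, QQ_small 2 A one_pos, ev_log_rpow' 2 hδ8,
    ev_log_rpow' 4 hδ34, ev_log_ge' 1, eventually_ge_atTop 1]
    with x hmQ hRR hQQ h2 h4 hL hx1 B hB hcard hyp
  have hL0 : 0 < Real.log x := by linarith only [hL]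
  set z := zA A x with hz
  set L := Real.log x with hLdef
  set β : ℝ := (B.card : ℝ) with hβ
  have hβ0 : 0 ≤ β := Nat.cast_nonneg _
  have hx0 : (0 : ℝ) < x := by exact_mod_cast hx1
  -- moments
  have mN := moment_pow 2 x hx1 B lp lp
  have mM := moment_pow 2 x hx1 B (nuz z) (nuz z)
  have mK := moment_pow 2 x hx1 B lp (nuz z)
  have mKM := moment_mixed 1 x hx1 B lp (nuz z) (nuz z) (nuz z)
  have hcons : (Fin.cons (nuz z) (fun _ : Fin 1 => nuz z) : Fin 2 → ℕ → ℝ) = fun _ => nuz z := by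
    funext i
    refine Fin.cases ?_ ?_ i
    · rfl
    · intro j
      rfl
  have mN' : ∑ w ∈ Om x, SS lp lp B w ^ 2 = (x : ℝ) ^ 2 * ∑ b ∈ Tup 2 B, PP x b ^ 2 := by
    rw [mN]
    congr 1
    refine Finset.sum_congr rfl fun b _ => ?_
    rw [sq]
    rfl
  have mM' : ∑ w ∈ Om x, SS (nuz z) (nuz z) B w ^ 2 =
      (x : ℝ) ^ 2 * ∑ b ∈ Tup 2 B, QQ z x b ^ 2 := by
    rw [mM]
    congr 1
    refine Finset.sum_congr rfl fun b _ => ?_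
    rw [sq]
    rfl
  have mK' : ∑ w ∈ Om x, SS lp (nuz z) B w ^ 2 =
      (x : ℝ) ^ 2 * ∑ b ∈ Tup 2 B, PP x b * QQ z x b := by
    rw [mK]
    rfl
  have mKM' : ∑ w ∈ Om x, SS lp (nuz z) B w * SS (nuz z) (nuz z) B w =
      (x : ℝ) ^ 2 * ∑ b ∈ Tup 2 B, RR z x b * QQ z x b := by
    have h := mKM
    simp only [pow_one] at h
    rw [h, hcons]
    rfl
  have hOm : ((Om x).card : ℝ) = (x : ℝ) ^ 2 := by
    rw [card_Om]
    push_cast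
    ring
  have hTup : ((Tup 2 B).card : ℝ) = β ^ 2 := by
    rw [card_Tup]
    push_cast
    rfl
  -- Cauchy-Schwarz
  have hK : (∑ w ∈ Om x, SS lp (nuz z) B w ^ 2) ^ 2 ≤
      (∑ w ∈ Om x, SS lp lp B w ^ 2) * ∑ w ∈ Om x, SS (nuz z) (nuz z) B w ^ 2 := by
    rw [mN', mM', mK']
    have hcs : (∑ b ∈ Tup 2 B, PP x b * QQ z x b) ^ 2 ≤
        (∑ b ∈ Tup 2 B, PP x b ^ 2) * ∑ b ∈ Tup 2 B, QQ z x b ^ 2 :=
      Finset.sum_mul_sq_le_sq_mul_sq _ _ _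
    calc ((x : ℝ) ^ 2 * ∑ b ∈ Tup 2 B, PP x b * QQ z x b) ^ 2 =
          ((x : ℝ) ^ 2 * (x : ℝ) ^ 2) * (∑ b ∈ Tup 2 B, PP x b * QQ z x b) ^ 2 := by ring
      _ ≤ ((x : ℝ) ^ 2 * (x : ℝ) ^ 2) *
          ((∑ b ∈ Tup 2 B, PP x b ^ 2) * ∑ b ∈ Tup 2 B, QQ z x b ^ 2) :=
          mul_le_mul_of_nonneg_left hcs (by (clear * - hx1; positivity))
      _ = _ := by ring
  -- the mixed moment
  have hKM : ∑ w ∈ Om x, SS (nuz z) (nuz z) B w ^ 2 - (x : ℝ) ^ 2 * (β ^ 2 * (1 / L)) ≤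
      ∑ w ∈ Om x, SS lp (nuz z) B w * SS (nuz z) (nuz z) B w := by
    rw [mM', mKM', ← mul_sub]
    refine mul_le_mul_of_nonneg_left ?_ (by (clear * - hx1; positivity))
    have h1 : ∀ b ∈ Tup 2 B, QQ z x b ^ 2 - 1 / L ≤ RR z x b * QQ z x b := by
      intro b hb
      have hbx : ∀ i, b i ≤ x := fun i => hB _ (mem_Tup.1 hb i)
      have h3 := abs_le.1 (hRR b hbx)
      have h5 : QQ z x b ≤ L := by
        have := hQQ b
        rwa [Real.rpow_one] at this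
      have h6 : 0 ≤ QQ z x b := QQ_nonneg z x b
      have h7 : 1 / L ^ 2 * QQ z x b ≤ 1 / L := by
        calc 1 / L ^ 2 * QQ z x b ≤ 1 / L ^ 2 * L :=
              mul_le_mul_of_nonneg_left h5 (by (clear * - hL; positivity))
          _ = 1 / L := by
              field_simp
      have h8 : -(1 / L ^ 2) * QQ z x b ≤ (RR z x b - QQ z x b) * QQ z x b :=
        mul_le_mul_of_nonneg_right h3.1 h6
      nlinarith only [h7, h8]
    have h2' := Finset.sum_le_sum h1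
    rw [Finset.sum_sub_distrib, Finset.sum_const, nsmul_eq_mul, hTup] at h2'
    exact h2'
  -- the bound of `∑ M^2`
  have hrp : ∀ c : ℝ, 0 < L ^ c := fun c => Real.rpow_pos_of_pos hL0 c
  have hM : ∑ w ∈ Om x, SS (nuz z) (nuz z) B w ^ 2 ≤ ((x : ℝ) * β * L ^ (δ / 8)) ^ 2 := by
    rw [mM']
    have h3 : (L ^ (δ / 8)) ^ 2 = L ^ (δ / 4) := by
      rw [sq, ← Real.rpow_add hL0]
      congr 1
      ring
    calc (x : ℝ) ^ 2 * ∑ b ∈ Tup 2 B, QQ z x b ^ 2 ≤ (x : ℝ) ^ 2 * (β ^ 2 * L ^ (δ / 4)) :=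
          mul_le_mul_of_nonneg_left (hmQ B) (by (clear * - hx1; positivity))
      _ = ((x : ℝ) * β * L ^ (δ / 8)) ^ 2 := by
          rw [mul_pow, mul_pow, h3]
          ring
  have hV : ∑ w ∈ Om x, (SS lp lp B w - SS (nuz z) (nuz z) B w) ^ 2 ≤
      ((x : ℝ) * β * (1 / L ^ (δ / 2))) ^ 2 := by
    refine hyp.trans (le_of_eq ?_)
    have h3 : (L ^ (δ / 2)) ^ 2 = L ^ δ := by
      rw [sq, ← Real.rpow_add hL0]
      congr 1
      ring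
    rw [hOm, mul_pow, mul_pow, div_pow, one_pow, h3]
    ring
  have hfin := abs_K (Om x) (SS lp lp B) (SS (nuz z) (nuz z) B) (SS lp (nuz z) B)
    ((x : ℝ) * β * L ^ (δ / 8)) ((x : ℝ) * β * (1 / L ^ (δ / 2)))
    ((x : ℝ) ^ 2 * (β ^ 2 * (1 / L))) (by have := hrp (δ / 8); (clear * - hx1 hL; positivity))
    (by have := hrp (δ / 2); (clear * - hx1 hL; positivity)) hM hV hK hKM
  refine hfin.trans ?_
  rw [hOm]
  have hkey : L ^ (δ / 8) * (1 / L ^ (δ / 2)) + 2 * (1 / L) ≤ 1 / L ^ (δ / 4) := by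
    have h5 : L ^ (δ / 2) = L ^ (δ / 8) * L ^ (δ / 8) * L ^ (δ / 4) := by
      rw [← Real.rpow_add hL0, ← Real.rpow_add hL0]
      congr 1
      ring
    have h6 : L ^ (1 - δ / 4) * L ^ (δ / 4) = L := by
      rw [← Real.rpow_add hL0]
      have : 1 - δ / 4 + δ / 4 = 1 := by ring
      rw [this, Real.rpow_one]
    have h7 := hrp (δ / 8)
    have h8 := hrp (δ / 4)
    have h9 := hrp (1 - δ / 4)
    have t1 : L ^ (δ / 8) * (1 / L ^ (δ / 2)) ≤ 1 / 2 * (1 / L ^ (δ / 4)) := by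
      have e : L ^ (δ / 8) * (1 / L ^ (δ / 2)) = 1 / L ^ (δ / 8) * (1 / L ^ (δ / 4)) := by
        rw [h5]
        field_simp
      rw [e]
      refine mul_le_mul_of_nonneg_right ?_ (by (clear * - hL; positivity))
      exact one_div_le_one_div_of_le (by norm_num) h2
    have t2 : 2 * (1 / L) ≤ 1 / 2 * (1 / L ^ (δ / 4)) := by
      have e : 1 / L = 1 / L ^ (1 - δ / 4) * (1 / L ^ (δ / 4)) := by
        conv_lhs => rw [← h6]
        rw [one_div_mul_one_div]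
      rw [e, ← mul_assoc]
      refine mul_le_mul_of_nonneg_right ?_ (by (clear * - hL; positivity))
      have := one_div_le_one_div_of_le (by norm_num : (0 : ℝ) < 4) h4
      linarith only [this]
    linarith only [t1, t2]
  have hpos : 0 ≤ (x : ℝ) ^ 2 * β ^ 2 := by (clear * - hx1; positivity)
  calc (x : ℝ) * β * L ^ (δ / 8) * ((x : ℝ) * β * (1 / L ^ (δ / 2))) +
        2 * ((x : ℝ) ^ 2 * (β ^ 2 * (1 / L))) =
        ((x : ℝ) ^ 2 * β ^ 2) * (L ^ (δ / 8) * (1 / L ^ (δ / 2)) + 2 * (1 / L)) := by ring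
    _ ≤ ((x : ℝ) ^ 2 * β ^ 2) * (1 / L ^ (δ / 4)) := mul_le_mul_of_nonneg_left hkey hpos
    _ = (x : ℝ) ^ 2 * (β ^ 2 * (1 / L ^ (δ / 4))) := by ring

end Pool.Agent.HLR
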