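import Pool.Agent.Lib.HLR.Defs
import Pool.Agent.Lib.HLR.SingQ
import Pool.Agent.Lib.HLT.Correl

/-!
# Upper bounds up to small powers of `log x`

PROOF SKETCHES (`L = log x`, `η > 0` real; all exponents with `η` are real powers).
`DZ_small`: `DZ_inv_le_exp`, `sum_inv_le_zA`: `(DZ z)⁻¹ <= exp (10 + 9 log (1 + A loglog x)) = e^10 (1 + A loglog x)^9 <= L^η`
(as in `HLT.DZ_inv_le`, with `ev_poly_exp` or `isLittleO` of powers of `log` against `exp (η t)`, `t = loglog x`).
`SI_small`: `sing_quant` with `B = 0` and some `A`, `SZ_le_DZ`, `DZ_small` with `η / (2 r)`.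
`QQ_small`: `sieve_corr r A 0` and `SZ_le_DZ`, divided by `x`.
`PP_inj_small`: for injective `t`, `t i ≤ x`: if `nuI t p < p` for all primes: `HLB.tuple_upperI` gives
`#{n <= x : all n + t i prime} <= K SI t x / L^r` and each such `n` contributes `<= (log (2 x))^r <= 2^r L^r`; otherwise
`HLB.count_inadm` gives at most `r` such `n`, contribution `<= r (2 L)^r <= x`.
`PP_small`: let `k` be the number of distinct values of `t`; choose `e : Fin k → Fin r` such that `t ∘ e` is injective with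
the same values (a section of the image); for every `n`, `∏_i lp (n + t i) <= (log (2x))^(r-k) ∏_{j<k} lp (n + t (e j))`
(if some `n + t i` is not prime both sides are `0` or the left side is; otherwise `lp (n + t i) <= log (2 x)`). Use
`PP_inj_small` for `t ∘ e` (case `r = 0`: everything is `1`).
-/

set_option autoImplicit false

open Finset Filter

namespace Pool.Agent.HLR

open Pool.Agent.HLB Pool.Agent.HLT

namespace UpperAux

lemma log_rpow_eq {L η : ℝ} (hL : 0 < L) : L ^ η = Real.exp (η * Real.log L) := by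
  rw [Real.rpow_def_of_pos hL, mul_comm]

lemma ev_rpow_ge (c : ℝ) {η : ℝ} (hη : 0 < η) :
    ∀ᶠ x : ℕ in atTop, c ≤ Real.log (x : ℝ) ^ η := by
  have h1 : Tendsto (fun x : ℕ => Real.log (x : ℝ)) atTop atTop :=
    Real.tendsto_log_atTop.comp tendsto_natCast_atTop_atTop
  have h2 := (tendsto_rpow_atTop hη).comp h1
  exact h2.eventually (eventually_ge_atTop c)

lemma ev_pow_log_le (c : ℝ) (n : ℕ) :
    ∀ᶠ x : ℕ in atTop, c * Real.log (x : ℝ) ^ n ≤ (x : ℝ) := by
  have h1 : Tendsto (fun x : ℕ => Real.log (x : ℝ)) atTop atTop :=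
    Real.tendsto_log_atTop.comp tendsto_natCast_atTop_atTop
  filter_upwards [h1.eventually (ev_poly_exp c n), eventually_ge_atTop 1] with x hx hx1
  rwa [Real.exp_log (by exact_mod_cast hx1 : (0 : ℝ) < x)] at hx

lemma log_two_mul_le {x : ℕ} (hx : 2 ≤ x) : Real.log (2 * (x : ℝ)) ≤ 2 * Real.log x := by
  have h0 : (0 : ℝ) < x := by exact_mod_cast (by omega : 0 < x)
  rw [Real.log_mul (by norm_num) h0.ne']
  have : Real.log 2 ≤ Real.log x := Real.log_le_log (by norm_num) (by exact_mod_cast hx)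
  linarith

lemma lp_le_log {x n a : ℕ} (hx : 2 ≤ x) (hn : n ≤ x) (ha : a ≤ x) :
    lp (n + a) ≤ 2 * Real.log x := by
  refine (lp_le _).trans (le_trans ?_ (log_two_mul_le hx))
  rcases Nat.eq_zero_or_pos (n + a) with h | h
  · rw [h]
    simp only [Nat.cast_zero, Real.log_zero]
    apply Real.log_nonneg
    have : (2 : ℝ) ≤ x := by exact_mod_cast hx
    linarith
  · apply Real.log_le_log (by exact_mod_cast h)
    have : ((n + a : ℕ) : ℝ) ≤ ((2 * x : ℕ) : ℝ) := by
      exact_mod_cast (by omega : n + a ≤ 2 * x)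
    simpa using this

end UpperAux

open UpperAux

theorem DZ_small (A : ℕ) {η : ℝ} (hη : 0 < η) :
    ∀ᶠ x : ℕ in atTop, (DZ (zA A x))⁻¹ ≤ Real.log x ^ η := by
  have hA : (0 : ℝ) ≤ A := Nat.cast_nonneg A
  have hT : Tendsto (fun x : ℕ => η * Real.log (Real.log (x : ℝ))) atTop atTop :=
    Tendsto.const_mul_atTop hη tendsto_loglog_nat
  have e1 := hT.eventually
    (ev_poly_exp (Real.exp 10 * (1 + A) ^ 9 / η ^ 9) 9)
  have e3 := tendsto_loglog_nat.eventually (eventually_ge_atTop (1 : ℝ))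
  have e4 := tendsto_log_nat.eventually (eventually_ge_atTop (1 : ℝ))
  filter_upwards [e1, e3, e4] with x h1 h3 h4
  refine (DZ_inv_le_exp _).trans ?_
  have h5 := sum_inv_le_zA A x h4
  set l := Real.log (x : ℝ) with hl
  set t := Real.log l with ht
  have hlpos : 0 < l := by linarith
  rw [log_rpow_eq hlpos]
  refine le_trans ?_ h1
  calc Real.exp (1 + ∑ p ∈ Nat.primesLE (zA A x), 1 / (p : ℝ))
      ≤ Real.exp (1 + 9 * (1 + Real.log (1 + A * t))) := by
        apply Real.exp_le_exp.mpr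
        linarith
    _ = Real.exp 10 * (1 + A * t) ^ 9 := by
        rw [show 1 + 9 * (1 + Real.log (1 + A * t)) = 10 + (9 : ℕ) * Real.log (1 + A * t) by
          push_cast; ring, Real.exp_add, Real.exp_nat_mul, Real.exp_log (by positivity)]
    _ ≤ Real.exp 10 * (1 + A) ^ 9 * t ^ 9 := by
        rw [mul_assoc, ← mul_pow]
        gcongr
        nlinarith
    _ = Real.exp 10 * (1 + A) ^ 9 / η ^ 9 * (η * t) ^ 9 := by
        rw [mul_pow]
        field_simp

lemma SZ_small (r A : ℕ) {η : ℝ} (hη : 0 < η) : ∀ᶠ x : ℕ in atTop,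
    ∀ t : Fin r → ℕ, SZ (zA A x) t ≤ Real.log x ^ η := by
  have hr : (0 : ℝ) < (r : ℝ) + 1 := by positivity
  have hη' : 0 < η / (r + 1) := by positivity
  filter_upwards [DZ_small A hη', tendsto_log_nat.eventually (eventually_ge_atTop (1 : ℝ))]
    with x h1 h2 t
  have h0 : 0 ≤ (DZ (zA A x))⁻¹ := inv_nonneg.mpr (DZ_pos _).le
  refine (SZ_le_DZ _ t).trans ((pow_le_pow_left₀ h0 h1 r).trans ?_)
  rw [← Real.rpow_natCast, ← Real.rpow_mul (by linarith)]
  apply Real.rpow_le_rpow_of_exponent_le h2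
  rw [div_mul_eq_mul_div, div_le_iff₀ hr]
  nlinarith

theorem SI_small (r : ℕ) (hr : 1 ≤ r) {η : ℝ} (hη : 0 < η) : ∀ᶠ x : ℕ in atTop,
    ∀ t : Fin r → ℕ, Function.Injective t → (∀ i, t i ≤ x) → SI t ≤ Real.log x ^ η := by
  obtain ⟨A, hA⟩ := sing_quant r 0 hr
  have hη2 : 0 < η / 2 := by positivity
  filter_upwards [hA A le_rfl, SZ_small r A hη2, ev_rpow_ge 2 hη2,
    tendsto_log_nat.eventually (eventually_ge_atTop (1 : ℝ))] with x h1 h2 h3 h4 t ht htx
  have h5 := h1 t ht htx
  have h6 := h2 t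
  rw [pow_zero, div_one, abs_le] at h5
  have h7 : Real.log (x : ℝ) ^ η = Real.log (x : ℝ) ^ (η / 2) * Real.log (x : ℝ) ^ (η / 2) := by
    rw [← Real.rpow_add (by linarith)]
    congr 1
    ring
  rw [h7]
  nlinarith

theorem QQ_small (r A : ℕ) {η : ℝ} (hη : 0 < η) : ∀ᶠ x : ℕ in atTop,
    ∀ t : Fin r → ℕ, QQ (zA A x) x t ≤ Real.log x ^ η := by
  have hη2 : 0 < η / 2 := by positivity
  filter_upwards [sieve_corr r A 0, SZ_small r A hη2, ev_rpow_ge 2 hη2,
    tendsto_log_nat.eventually (eventually_ge_atTop (1 : ℝ)), eventually_ge_atTop 1]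
    with x h1 h2 h3 h4 hx t
  have h5 := h1 t
  have h6 := h2 t
  rw [pow_zero, div_one, abs_le] at h5
  have hx0 : (0 : ℝ) < x := by exact_mod_cast hx
  have h7 : Real.log (x : ℝ) ^ η = Real.log (x : ℝ) ^ (η / 2) * Real.log (x : ℝ) ^ (η / 2) := by
    rw [← Real.rpow_add (by linarith)]
    congr 1
    ring
  unfold QQ Av
  rw [div_le_iff₀ hx0, h7]
  show ∑ n ∈ Icc 1 x, ∏ i, nuz (zA A x) (n + t i) ≤ _
  set W := Real.log (x : ℝ) ^ (η / 2) with hW
  have a1 : (x : ℝ) * SZ (zA A x) t ≤ x * W := mul_le_mul_of_nonneg_left h6 hx0.le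
  have a2 : 1 + W ≤ W * W := by nlinarith
  have a3 : (1 + W) * (x : ℝ) ≤ W * W * x := mul_le_mul_of_nonneg_right a2 hx0.le
  linarith [h5.2]

lemma sum_prod_lp_le {r x : ℕ} (hx : 2 ≤ x) (t : Fin r → ℕ) (htx : ∀ i, t i ≤ x) :
    ∑ n ∈ Icc 1 x, ∏ i, lp (n + t i) ≤ (2 * Real.log x) ^ r *
      (((Icc 1 x).filter (fun n : ℕ => ∀ i, (n + t i).Prime)).card : ℝ) := by
  rw [Finset.card_filter]
  push_cast
  rw [Finset.mul_sum]
  refine Finset.sum_le_sum fun n hn => ?_
  rw [Finset.mem_Icc] at hn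
  have hL : 0 ≤ 2 * Real.log (x : ℝ) := by
    have := Real.log_natCast_nonneg x
    linarith
  split_ifs with h
  · rw [mul_one]
    calc ∏ i, lp (n + t i) ≤ ∏ _i : Fin r, (2 * Real.log (x : ℝ)) :=
          Finset.prod_le_prod (fun i _ => lp_nonneg _) (fun i _ => lp_le_log hx hn.2 (htx i))
      _ = (2 * Real.log x) ^ r := by
          rw [Finset.prod_const, Finset.card_univ, Fintype.card_fin]
  · rw [mul_zero]
    push Not at h
    obtain ⟨i, hi⟩ := h
    refine le_of_eq (Finset.prod_eq_zero (Finset.mem_univ i) ?_)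
    unfold HLT.lp
    rw [if_neg hi]

theorem PP_inj_small (r : ℕ) {η : ℝ} (hη : 0 < η) : ∀ᶠ x : ℕ in atTop,
    ∀ t : Fin r → ℕ, Function.Injective t → (∀ i, t i ≤ x) → PP x t ≤ Real.log x ^ η := by
  rcases Nat.eq_zero_or_pos r with h0 | hr
  · subst h0
    filter_upwards [ev_rpow_ge 1 hη, eventually_ge_atTop 1] with x h1 hx t _ _
    have hx0 : (0 : ℝ) < x := by exact_mod_cast hx
    unfold PP Av
    simp only [Finset.univ_eq_empty, Finset.prod_empty, Finset.sum_const, Nat.card_Icc,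
      Nat.add_sub_cancel, nsmul_eq_mul, mul_one]
    rw [div_self hx0.ne']
    exact h1
  · obtain ⟨K, hK, hup⟩ := tuple_upperI r hr
    have hη2 : 0 < η / 2 := by positivity
    filter_upwards [SI_small r hr hη2, ev_rpow_ge (2 ^ r * K) hη2, ev_rpow_ge 1 hη,
      ev_pow_log_le (2 ^ r * r) r,
      tendsto_log_nat.eventually (eventually_ge_atTop (1 : ℝ)), eventually_ge_atTop 2]
      with x h1 h2 h3 h4 h5 hx t ht htx
    have hx0 : (0 : ℝ) < x := by exact_mod_cast (by omega : 0 < x)
    have hlog : 0 < Real.log (x : ℝ) := by linarith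
    have hs := sum_prod_lp_le hx t htx
    unfold PP Av
    rw [div_le_iff₀ hx0]
    refine hs.trans ?_
    by_cases hadm : ∀ p : ℕ, p.Prime → nuI t p < p
    · have h6' := hup (Fin r) t (Fintype.card_fin r) ht hadm x hx
      have h6 : (((Icc 1 x).filter (fun n : ℕ => ∀ i, (n + t i).Prime)).card : ℝ) ≤
          K * SI t * (x / Real.log x ^ r) := by
        convert h6'
      have h7 := h1 t ht htx
      have h8 : Real.log (x : ℝ) ^ η =
          Real.log (x : ℝ) ^ (η / 2) * Real.log (x : ℝ) ^ (η / 2) := by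
        rw [← Real.rpow_add hlog]
        congr 1
        ring
      have hp : 0 < Real.log (x : ℝ) ^ (η / 2) := Real.rpow_pos_of_pos hlog _
      have hSI : 0 ≤ SI t := SI_nonneg t ht
      calc (2 * Real.log x) ^ r *
            (((Icc 1 x).filter (fun n : ℕ => ∀ i, (n + t i).Prime)).card : ℝ)
          ≤ (2 * Real.log x) ^ r * (K * SI t * (x / Real.log x ^ r)) :=
            mul_le_mul_of_nonneg_left h6 (by positivity)
        _ = (2 ^ r * K) * SI t * x := by
            rw [mul_pow]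
            field_simp
        _ ≤ Real.log (x : ℝ) ^ (η / 2) * Real.log (x : ℝ) ^ (η / 2) * x := by
            gcongr
        _ = Real.log (x : ℝ) ^ η * x := by rw [h8]
    · push Not at hadm
      obtain ⟨p, hp, hp2⟩ := hadm
      have h6 := count_inadm t hp hp2 x
      rw [Fintype.card_fin] at h6
      have h6' : (((Icc 1 x).filter (fun n : ℕ => ∀ i, (n + t i).Prime)).card : ℝ) ≤ r := by
        have h7 : ((Icc 1 x).filter (fun n : ℕ => ∀ i, (n + t i).Prime)).card ≤ r := by
          convert h6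
        exact_mod_cast h7
      calc (2 * Real.log x) ^ r *
            (((Icc 1 x).filter (fun n : ℕ => ∀ i, (n + t i).Prime)).card : ℝ)
          ≤ (2 * Real.log x) ^ r * r := mul_le_mul_of_nonneg_left h6' (by positivity)
        _ = 2 ^ r * r * Real.log x ^ r := by
            rw [mul_pow]
            ring
        _ ≤ 1 * x := by rw [one_mul]; exact h4
        _ ≤ Real.log (x : ℝ) ^ η * x := by gcongr

theorem PP_small (r : ℕ) {η : ℝ} (hη : 0 < η) : ∀ᶠ x : ℕ in atTop,
    ∀ t : Fin r → ℕ, (∀ i, t i ≤ x) →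
      PP x t ≤ Real.log x ^ (((r - (univ.image t).card : ℕ) : ℝ) + η) := by
  classical
  have hη2 : 0 < η / 2 := by positivity
  have hall : ∀ᶠ x : ℕ in atTop, ∀ k ∈ Finset.range (r + 1), ∀ t : Fin k → ℕ,
      Function.Injective t → (∀ i, t i ≤ x) → PP x t ≤ Real.log x ^ (η / 2) := by
    rw [Filter.eventually_all_finset]
    intro k _
    exact PP_inj_small k hη2
  filter_upwards [hall, ev_rpow_ge (2 ^ r) hη2,
    tendsto_log_nat.eventually (eventually_ge_atTop (1 : ℝ)), eventually_ge_atTop 2]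
    with x h1 h2 h3 hx t htx
  have hx0 : (0 : ℝ) < x := by exact_mod_cast (by omega : 0 < x)
  have hlog : 0 < Real.log (x : ℝ) := by linarith
  set S : Finset ℕ := univ.image t with hS
  set k := S.card with hk
  have hkr : k ≤ r := by
    have := Finset.card_image_le (s := (univ : Finset (Fin r))) (f := t)
    rwa [Finset.card_univ, Fintype.card_fin] at this
  set t' : Fin k → ℕ := fun j => (S.equivFin.symm j : ℕ) with ht'
  have ht'inj : Function.Injective t' := by
    intro a b hab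
    exact S.equivFin.symm.injective (Subtype.ext hab)
  have ht'x : ∀ j, t' j ≤ x := by
    intro j
    have hj : t' j ∈ univ.image t := (S.equivFin.symm j).2
    obtain ⟨i, _, hi⟩ := Finset.mem_image.1 hj
    rw [← hi]
    exact htx i
  have h4 := h1 k (Finset.mem_range.2 (by omega)) t' ht'inj ht'x
  set B : ℝ := 2 * Real.log x with hB
  have hB0 : 0 ≤ B := by positivity
  have hcardm : ∑ v ∈ S, ((univ.filter (fun i => t i = v)).card - 1) = r - k := by
    have e1 : ∑ v ∈ S, (univ.filter (fun i => t i = v)).card = r := by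
      have := Finset.card_eq_sum_card_image t (univ : Finset (Fin r))
      rw [Finset.card_univ, Fintype.card_fin] at this
      exact this.symm
    have e2 : ∑ v ∈ S, ((univ.filter (fun i => t i = v)).card - 1) + ∑ _v ∈ S, 1 =
        ∑ v ∈ S, (univ.filter (fun i => t i = v)).card := by
      rw [← Finset.sum_add_distrib]
      refine Finset.sum_congr rfl fun v hv => ?_
      rw [hS, Finset.mem_image] at hv
      obtain ⟨i, _, hi⟩ := hv
      have : 0 < (univ.filter (fun i => t i = v)).card :=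
        Finset.card_pos.2 ⟨i, Finset.mem_filter.2 ⟨Finset.mem_univ _, hi⟩⟩
      omega
    rw [Finset.sum_const, smul_eq_mul, mul_one, e1] at e2
    omega
  have hpt : ∀ n ∈ Icc 1 x, ∏ i, lp (n + t i) ≤ B ^ (r - k) * ∏ j, lp (n + t' j) := by
    intro n hn
    rw [Finset.mem_Icc] at hn
    have e1 : ∏ i, lp (n + t i) = ∏ v ∈ S, lp (n + v) ^ (univ.filter (fun i => t i = v)).card := by
      rw [hS]
      exact Finset.prod_comp (fun v => lp (n + v)) t
    have e2 : ∏ j, lp (n + t' j) = ∏ v ∈ S, lp (n + v) := by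
      rw [ht', Equiv.prod_comp S.equivFin.symm (fun v : S => lp (n + (v : ℕ)))]
      exact Finset.prod_coe_sort S (fun v => lp (n + v))
    rw [e1, e2, ← hcardm, ← Finset.prod_pow_eq_pow_sum, ← Finset.prod_mul_distrib]
    refine Finset.prod_le_prod (fun v _ => pow_nonneg (lp_nonneg _) _) fun v hv => ?_
    rw [hS, Finset.mem_image] at hv
    obtain ⟨i, _, hi⟩ := hv
    have hpos : 0 < (univ.filter (fun i => t i = v)).card :=
      Finset.card_pos.2 ⟨i, Finset.mem_filter.2 ⟨Finset.mem_univ _, hi⟩⟩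
    obtain ⟨m, hm⟩ := Nat.exists_eq_succ_of_ne_zero hpos.ne'
    rw [hm, Nat.succ_sub_one, pow_succ]
    have hle : lp (n + v) ≤ B := by
      rw [← hi]
      exact lp_le_log hx hn.2 (htx i)
    exact mul_le_mul_of_nonneg_right (pow_le_pow_left₀ (lp_nonneg _) hle m) (lp_nonneg _)
  have h5 : PP x t ≤ B ^ (r - k) * PP x t' := by
    unfold PP Av
    rw [← mul_div_assoc]
    apply div_le_div_of_nonneg_right _ hx0.le
    rw [Finset.mul_sum]
    exact Finset.sum_le_sum hpt
  refine h5.trans ?_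
  have hp : 0 < Real.log (x : ℝ) ^ (η / 2) := Real.rpow_pos_of_pos hlog _
  calc B ^ (r - k) * PP x t' ≤ B ^ (r - k) * Real.log x ^ (η / 2) :=
        mul_le_mul_of_nonneg_left h4 (pow_nonneg hB0 _)
    _ = 2 ^ (r - k) * Real.log x ^ (r - k) * Real.log x ^ (η / 2) := by
        rw [hB, mul_pow]
    _ ≤ 2 ^ r * Real.log x ^ (r - k) * Real.log x ^ (η / 2) := by
        gcongr
        · norm_num
        · omega
    _ ≤ Real.log x ^ (η / 2) * Real.log x ^ (r - k) * Real.log x ^ (η / 2) := by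
        gcongr
    _ = Real.log x ^ (((r - k : ℕ) : ℝ) + η) := by
        rw [Real.rpow_add hlog, Real.rpow_natCast]
        have h8 : Real.log (x : ℝ) ^ η =
            Real.log (x : ℝ) ^ (η / 2) * Real.log (x : ℝ) ^ (η / 2) := by
          rw [← Real.rpow_add hlog]
          congr 1
          ring
        rw [h8]
        ring

end Pool.Agent.HLR
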